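import Pool.Agent.Lib.TWMF.X2
import Pool.Agent.Lib.TWEX.Eff

/-!
# TANK W, exit, 3: transport and effect

`XD.pull`: exit data at `T` in `Ω'` and an isometric embedding `k(t) → Ω'`, `t ↦ T`, give exit data at
`t`.  `ED`: an element of `k(T)` near `a`, whose jets are null.  `motE_of_pull`: motions of `K₀`
without effect on `a`.
-/

set_option autoImplicit false

open Polynomial Filter Topology

namespace Pool.Agent.TWMF

open Pool.Agent.H15JM (RVal)
open Pool.Agent.LU1 (VPos adj)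
open Pool.Agent.D2 (Ctx0)
open Pool.Agent.D2P (hen hen_hen le_hen hen_mono hen_le mem_hen clI mem_clI)
open Pool.Agent.TWM (Gt)
open Pool.Agent.TWS (IsoE)
open Pool.Agent.TW WM13

universe u

/-- The restriction of `v`. -/
def resV {k Ω : Type u} [Field k] [Field Ω] [Algebra k Ω] (v : RVal Ω)
    (E : IntermediateField k Ω) : RVal E where
  toFun x := v (x : Ω)
  map_mul' _ _ hx hy := v.map_mul (fun h => hx (Subtype.ext h)) fun h => hy (Subtype.ext h)
  map_add' _ _ hx hy hxy := v.map_add' _ _ (fun h => hx (Subtype.ext h))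
    (fun h => hy (Subtype.ext h)) fun h => hxy (Subtype.ext h)

theorem resV_apply {k Ω : Type u} [Field k] [Field Ω] [Algebra k Ω] {v : RVal Ω}
    {E : IntermediateField k Ω} (x : E) : resV v E x = v (x : Ω) := rfl

variable {k Ω Ω' : Type u} [Field k] [Field Ω] [Algebra k Ω] [Field Ω'] [Algebra k Ω']
  {v : RVal Ω} {w : RVal Ω'}

theorem isoE_val (E : IntermediateField k Ω) : IsoE (resV v E) v E.val := ⟨fun _ _ => rfl⟩

/-- Polynomials over a subfield of the range. -/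
theorem exists_lift {E F : Type u} [Field E] [Field F] (f : E →+* F) (G : Polynomial F)
    (hG : ∀ l, ∃ e, f e = G.coeff l) : ∃ G' : Polynomial E, G'.map f = G := by
  have h1 : G ∈ Polynomial.lifts f := by
    rw [Polynomial.lifts_iff_coeff_lifts]
    exact fun n => hG n
  exact (Polynomial.mem_lifts G).1 h1

/-- **Transport of exit data.** -/
theorem XD.pull {p m : ℕ} {T : Fin m → Ω'} {H : Fin m → Polynomial Ω'} {σ : ℝ}
    (hX : XD k p w T H σ) {t : Fin m → Ω} (j : kr k t →ₐ[k] Ω')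
    (hjt : ∀ i, ∀ hi : t i ∈ kr k t, j ⟨t i, hi⟩ = T i) (hjv : ∀ e : kr k t, e ≠ 0 → w (j e) = v e) :
    ∃ HE : Fin m → Polynomial (kr k t), (∀ i, (HE i).map (j : kr k t →+* Ω') = H i) ∧
      XD k p v t (fun i => (HE i).map (algebraMap (kr k t) Ω)) σ := by
  have hm : ∀ i, t i ∈ kr k t := fun i => IntermediateField.subset_adjoin k _ ⟨i, rfl⟩
  set tE : Fin m → kr k t := fun i => ⟨t i, hm i⟩ with htE
  have hjT : (fun i => j (tE i)) = T := funext fun i => hjt i (hm i)
  have hex : ∀ i, ∃ G : Polynomial (kr k t), G.map (j : kr k t →+* Ω') = H i := by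
    intro i
    refine exists_lift _ _ fun l => ?_
    by_cases hl : l = 0
    · exact ⟨tE i, by rw [hl, hX.c0]; exact hjt i (hm i)⟩
    · obtain ⟨P, Q, -, -, -, h4⟩ := hX.tri i l hl
      refine ⟨MvPolynomial.aeval tE P / MvPolynomial.aeval tE Q, ?_⟩
      rw [h4, ← hjT, ← map_aeval, ← map_aeval]
      exact map_div₀ j _ _
  choose HE hHE using hex
  refine ⟨HE, hHE, ?_⟩
  have h1 : XD k p w (fun i => j (tE i)) (fun i => (HE i).map (j : kr k t →+* Ω')) σ := by
    have e : (fun i => (HE i).map (j : kr k t →+* Ω')) = H := funext hHE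
    rw [hjT, e]
    exact hX
  have hIj : IsoE (resV v (kr k t)) w j := ⟨fun e he => hjv e he⟩
  exact (h1.comap hIj).map (isoE_val (v := v) (kr k t))

/-- `P(T) / Q(T)` is near to `a`, its jets are null. -/
structure ED (p : ℕ) (w : RVal Ω') (K : IntermediateField k Ω') {m : ℕ} (T : Fin m → Ω')
    (H : Fin m → Polynomial Ω') (σ ν B : ℝ) (a : Ω') (P Q : MvPolynomial (Fin m) k) : Prop where
  q0 : MvPolynomial.aeval T Q ≠ 0
  qc : MvPolynomial.aeval H Q = C (MvPolynomial.aeval T Q)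
  near : w.Ge B (a - MvPolynomial.aeval T P / MvPolynomial.aeval T Q)
  null : ∀ l : ℕ, l ≠ 0 → ∃ g ∈ K, (¬ p ∣ l → g = 0) ∧
    Gt w (ν - l * σ) ((MvPolynomial.aeval H P).coeff l / MvPolynomial.aeval T Q - g ^ p)

theorem coeff_zero_aeval {m : ℕ} {H : Fin m → Polynomial Ω} {t : Fin m → Ω}
    (h0 : ∀ i, (H i).coeff 0 = t i) (P : MvPolynomial (Fin m) k) :
    (MvPolynomial.aeval H P).coeff 0 = MvPolynomial.aeval t P := by
  have e : mv H 0 = t := by
    funext i
    unfold mv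
    rw [← coeff_zero_eq_eval_zero, h0]
  rw [coeff_zero_eq_eval_zero, ← aeval_mv, e]

/-- **Motions without effect.** -/
theorem motE_of_pull [IsAlgClosed k] [IsAlgClosed Ω] {p : ℕ} [Fact p.Prime] [CharP Ω p]
    [CharP Ω' p] {r : ℕ} (h : Ctx k v r) {ι : Ω →ₐ[k] Ω'} (hι : IsoE v w ι)
    {K₀ : IntermediateField k Ω} (hK : K₀.FG) (hΩ : ∀ g : Ω, IsAlgebraic K₀ g)
    {m : ℕ} {T : Fin m → Ω'} {H : Fin m → Polynomial Ω'} {σ : ℝ} (hX : XD k p w T H σ)
    {t : Fin m → Ω} (htK : ∀ i, t i ∈ K₀) (ht : hen v K₀ = hen v (kr k t)) (j : kr k t →ₐ[k] Ω')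
    (hjt : ∀ i, ∀ hi : t i ∈ kr k t, j ⟨t i, hi⟩ = T i) (hjv : ∀ e : kr k t, e ≠ 0 → w (j e) = v e)
    (hgen : ∀ H₀ : Fin m → Polynomial Ω, XD k p v t H₀ σ → ∀ B₀ : ℝ, ∃ Λ : ℝ,
      ∀ (d d' : Ω) (E : IntermediateField k Ω), v.Ge B₀ d → v.Ge Λ (d - d') → E.FG →
        E ≤ hen v K₀ → d' ∈ E → (∀ i, mv H₀ d i ∈ E) → hen v E = hen v K₀)
    {η β₀ ν : ℝ} (hjc : ∀ e : kr k t, w.Ge (v e + η) (j e - ι e)) (hη : ν + 1 ≤ β₀ + η)
    (hβ₀ : β₀ ≤ ν + 1) {a : Ω} (ha : a ∈ K₀) (haβ : v.Ge β₀ a) {P Q : MvPolynomial (Fin m) k}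
    (hE : ED p w (clI w (K₀.map ι)) T H σ ν (ν + 1) (ι a) P Q) :
    ∃ (φ : ℕ → (Ω ≃ₐ[k] Ω)) (δ : ℕ → Ω) (μ κ : ℝ), 0 < κ ∧ Mot v K₀ φ δ μ ∧
      ∀ i, ∃ b ∈ hen v K₀, v.Ge (ν + κ) (φ i a - a - b ^ p) := by
  classical
  obtain ⟨HE, hHE, hX₀⟩ := hX.pull (v := v) j hjt hjv
  have hm : ∀ i, t i ∈ kr k t := fun i => IntermediateField.subset_adjoin k _ ⟨i, rfl⟩
  set tE : Fin m → kr k t := fun i => ⟨t i, hm i⟩ with htE
  set H₀ : Fin m → Polynomial Ω := fun i => (HE i).map (algebraMap (kr k t) Ω) with hH₀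
  have hjT : (fun i => j (tE i)) = T := funext fun i => hjt i (hm i)
  have hjH : (fun i => (HE i).map (j : kr k t →+* Ω')) = H := funext hHE
  -- the elements of `k(t)`
  have hcoe : ∀ R : MvPolynomial (Fin m) k, ((MvPolynomial.aeval tE R : kr k t) : Ω) =
      MvPolynomial.aeval t R := fun R => map_aeval (kr k t).val tE R
  have hcoeH : ∀ (R : MvPolynomial (Fin m) k) (l : ℕ),
      (((MvPolynomial.aeval HE R).coeff l : kr k t) : Ω) = (MvPolynomial.aeval H₀ R).coeff l := by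
    intro R l
    have h1 := map_aevalH (kr k t).val HE R
    have h2 : (MvPolynomial.aeval H₀ R) = (MvPolynomial.aeval HE R).map
        ((kr k t).val : kr k t →+* Ω) := h1.symm
    rw [h2, coeff_map]
    rfl
  have hj : ∀ R : MvPolynomial (Fin m) k, j (MvPolynomial.aeval tE R) = MvPolynomial.aeval T R := by
    intro R
    rw [map_aeval, hjT]
  have hjH' : ∀ (R : MvPolynomial (Fin m) k) (l : ℕ), j ((MvPolynomial.aeval HE R).coeff l) =
      (MvPolynomial.aeval H R).coeff l := by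
    intro R l
    rw [← hjH, ← map_aevalH, coeff_map]
    rfl
  have hjinj : Function.Injective j := j.injective
  -- the denominator
  have hQE : MvPolynomial.aeval tE Q ≠ 0 := by
    intro h0
    apply hE.q0
    rw [← hj, h0, map_zero]
  have hQ0 : MvPolynomial.aeval t Q ≠ 0 := by
    rw [← hcoe]
    exact fun h0 => hQE (Subtype.ext h0)
  have hQH : MvPolynomial.aeval H₀ Q = C (MvPolynomial.aeval t Q) := by
    ext l
    rw [← hcoeH, coeff_C]
    have h1 : j ((MvPolynomial.aeval HE Q).coeff l) = (C (MvPolynomial.aeval T Q)).coeff l := by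
      rw [hjH', hE.qc]
    rw [coeff_C] at h1
    split_ifs with hl
    · rw [if_pos hl, ← hj] at h1
      rw [hjinj h1, hcoe]
    · rw [if_neg hl] at h1
      rw [hjinj (h1.trans (map_zero j).symm)]
      rfl
  -- the element
  set RE : kr k t := MvPolynomial.aeval tE P / MvPolynomial.aeval tE Q with hRE
  have hR : (RE : Ω) = MvPolynomial.aeval t P / MvPolynomial.aeval t Q := by
    rw [← hcoe, ← hcoe]
    rfl
  have hjR : j RE = MvPolynomial.aeval T P / MvPolynomial.aeval T Q := by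
    rw [hRE, map_div₀, hj, hj]
  have hjRβ : w.Ge β₀ (j RE) := by
    have e : j RE = ι a - (ι a - j RE) := by ring
    rw [e]
    refine (hι.ge_iff.2 haβ).sub ?_
    rw [hjR]
    exact hE.near.mono hβ₀
  have hRβ : v.Ge β₀ (RE : Ω) := by
    intro h0
    have h1 : RE ≠ 0 := fun h2 => h0 (by rw [h2]; rfl)
    rw [← hjv RE h1]
    exact hjRβ fun h2 => h1 (hjinj (h2.trans (map_zero j).symm))
  have hclose : ∀ (e : kr k t) (c : ℝ), v.Ge c (e : Ω) → w.Ge (c + η) (j e - ι e) := by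
    intro e c hc
    by_cases h0 : e = 0
    · rw [h0, map_zero]
      show w.Ge _ (0 - ι 0)
      rw [map_zero, sub_zero]
      exact RVal.Ge.zero
    · refine (hjc e).mono ?_
      have := hc fun h1 => h0 (Subtype.ext h1)
      linarith
  have hnear : v.Ge (ν + 1) (a - RE) := by
    rw [← hι.ge_iff, map_sub]
    have e : ι a - ι (RE : Ω) = (ι a - j RE) + (j RE - ι RE) := by ring
    rw [e]
    refine RVal.Ge.add ?_ ((hclose RE β₀ hRβ).mono hη)
    rw [hjR]
    exact hE.near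
  -- the null jets
  set G : Polynomial Ω := C (MvPolynomial.aeval t Q)⁻¹ * MvPolynomial.aeval H₀ P with hG
  have hGc : ∀ l, G.coeff l = (MvPolynomial.aeval H₀ P).coeff l / MvPolynomial.aeval t Q := by
    intro l
    rw [hG, coeff_C_mul]
    field_simp
  have hG0 : G.coeff 0 = RE := by
    rw [hGc, coeff_zero_aeval hX₀.c0, hR]
  have hnull : ∀ l : ℕ, l ≠ 0 → ∃ g ∈ K₀, (¬ p ∣ l → g = 0) ∧
      Gt v (ν - l * σ) (G.coeff l - g ^ p) := by
    intro l hl
    set e : kr k t := (MvPolynomial.aeval HE P).coeff l / MvPolynomial.aeval tE Q with he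
    have he1 : (e : Ω) = G.coeff l := by
      rw [hGc, ← hcoeH, ← hcoe]
      rfl
    have he2 : j e = (MvPolynomial.aeval H P).coeff l / MvPolynomial.aeval T Q := by
      rw [he, map_div₀, hjH', hj]
    obtain ⟨g', hg', hg0, hg1⟩ := TWEX.null_dense p (E := K₀.map ι) (fun x hx b => mem_clI.1 hx b)
      (hE.null l hl)
    obtain ⟨g, hg, rfl⟩ := hg'
    refine ⟨g, hg, fun h0 => ?_, ?_⟩
    · have h1 : ι g = 0 := hg0 h0
      exact (map_eq_zero_iff ι ι.injective).1 h1
    · rw [← he1, ← hι.gt_iff, map_sub, map_pow]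
      rw [← he2] at hg1
      refine TWEX.null_near (x := j e) hg1 ?_
      have h1 : Gt v (β₀ - l * σ) (e : Ω) := by
        by_cases hP : P = 0
        · rw [he1, hGc, hP, map_zero, coeff_zero, zero_div]
          exact TWM.Gt.zero
        · have h2 := hX₀.str P hP l hl
          rw [he1, hGc]
          intro h3
          have h4 : (MvPolynomial.aeval H₀ P).coeff l ≠ 0 := fun h5 => h3 (by rw [h5, zero_div])
          have h5 : MvPolynomial.aeval t P ≠ 0 := fun h6 => hP (hX₀.ind.eq_zero_of_aeval_eq_zero P h6)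
          have h6 := hRβ (by rw [hR]; exact div_ne_zero h5 hQ0)
          rw [hR, v.map_div h5 hQ0] at h6
          rw [v.map_div h4 hQ0]
          have h7 := h2 h4
          linarith
      rcases eq_or_ne e 0 with h0 | h0
      · rw [h0, map_zero]
        show Gt w _ (ι 0 - 0)
        rw [map_zero, sub_zero]
        exact TWM.Gt.zero
      · have h2 := h1 fun h3 => h0 (Subtype.ext h3)
        have h3 := (hjc e).neg
        rw [neg_sub] at h3
        exact Gt.of_ge h3 (by linarith)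
  obtain ⟨ε₁, hε₁, heff⟩ := TWEX.effect p (E := K₀) hnull
  obtain ⟨φ, c, ρ, ε, hε, -, -, hc, hcv, hφt, hrc, hmot⟩ := exists_mot_xd h hK hΩ hX₀ ht
    (hgen H₀ hX₀) {a - RE} (fun f hf => by
      rw [Finset.mem_singleton.1 hf]
      refine sub_mem (le_hen _ ha) ?_
      rw [ht]
      exact le_hen _ RE.2) hε₁
  have hle : kr k t ≤ K₀ := by
    refine IntermediateField.adjoin_le_iff.2 ?_
    rintro _ ⟨i, rfl⟩
    exact htK i
  refine ⟨φ, fun i => c i ^ p, ρ, min ε₁ 1, lt_min hε₁ one_pos, hmot, fun i => ?_⟩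
  obtain ⟨b, hb, hb1⟩ := heff (c i ^ p) (pow_mem (hle (hc i)) p) (hcv i)
  refine ⟨b, le_hen _ hb, ?_⟩
  -- the image of the element
  have hφ : ∀ R : MvPolynomial (Fin m) k, φ i (MvPolynomial.aeval t R) =
      (MvPolynomial.aeval H₀ R).eval (c i ^ p) := by
    intro R
    rw [← aeval_mv]
    have h1 := map_aeval ((φ i : Ω ≃ₐ[k] Ω) : Ω →ₐ[k] Ω) t R
    have h2 : (fun j => ((φ i : Ω ≃ₐ[k] Ω) : Ω →ₐ[k] Ω) (t j)) = mv H₀ (c i ^ p) :=
      funext fun j => hφt i j
    rw [h2] at h1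
    exact h1
  have hφR : φ i (RE : Ω) = G.eval (c i ^ p) := by
    rw [hR, map_div₀, hφ, hφ, hQH, eval_C, hG, eval_mul, eval_C]
    field_simp
  have e : φ i a - a - b ^ p = (φ i (a - RE) - (a - RE)) + (G.eval (c i ^ p) - G.coeff 0 - b ^ p) := by
    rw [hG0, map_sub, hφR]
    ring
  rw [e]
  refine RVal.Ge.add ?_ (hb1.mono (by linarith [min_le_left ε₁ 1]))
  have h1 : v.Ge (v (a - (RE : Ω)) + ε) (φ i (a - RE) - (a - RE)) :=
    hrc i (a - RE) (Finset.mem_singleton_self _)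
  by_cases h0 : a - (RE : Ω) = 0
  · rw [h0, map_zero, sub_zero]
    exact RVal.Ge.zero
  · refine h1.mono ?_
    have h2 := hnear h0
    linarith [min_le_right ε₁ 1]

end Pool.Agent.TWMF
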