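import Pool.Agent.Lib.TWMF.X3
import Pool.Agent.Lib.TWEX.Pull

/-!
# TANK W, exit, 4: motions without effect, from exit data in the completion

`motE_of_xd`: `ι : Ω → Ω'` isometric and dense, `Ω'` complete, `K₀ ≤ Ω` finitely generated, `T`
coordinates of its closure in `Ω'`.  Exit data at `T` and null jets of an element of `k(T)` near `a`
give motions of `K₀` without effect on `a`.
-/

set_option autoImplicit false

open Polynomial Filter Topology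

namespace Pool.Agent.TWMF

open Pool.Agent.H15JM (RVal)
open Pool.Agent.LU1 (VPos adj)
open Pool.Agent.D2 (Ctx0)
open Pool.Agent.D2P (hen hen_hen le_hen hen_mono hen_le mem_hen clI mem_clI)
open Pool.Agent.TWM (Gt CompleteV)
open Pool.Agent.TWS (IsoE)
open Pool.Agent.TW WM13

universe u

variable {k Ω Ω' : Type u} [Field k] [Field Ω] [Algebra k Ω] [Field Ω'] [Algebra k Ω']
  {v : RVal Ω} {w : RVal Ω'} {ι : Ω →ₐ[k] Ω'}

/-- **Motions without effect, from exit data.** -/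
theorem motE_of_xd [IsAlgClosed k] [IsAlgClosed Ω] {p : ℕ} [Fact p.Prime] [CharP k p]
    [CharP Ω p] [CharP Ω' p] {r : ℕ} (h : Ctx k v r) (hcw : CompleteV w) (hd : TWM.Dense v w ι)
    {K₀ : IntermediateField k Ω} (hK : K₀.FG) (hΩ : ∀ g : Ω, IsAlgebraic K₀ g)
    {m : ℕ} (htr : Algebra.trdeg k K₀ = m) (hBD : BD p v K₀) {T : Fin m → Ω'}
    (hcl : clI w (K₀.map ι) = clI w (kr k T)) {H : Fin m → Polynomial Ω'} {σ : ℝ}
    (hX : XD k p w T H σ) {ν : ℝ} {a : Ω} (ha : a ∈ K₀)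
    (hE : ∃ P Q : MvPolynomial (Fin m) k, ED p w (clI w (K₀.map ι)) T H σ ν (ν + 1) (ι a) P Q) :
    ∃ (φ : ℕ → (Ω ≃ₐ[k] Ω)) (δ : ℕ → Ω) (μ κ : ℝ), 0 < κ ∧ Mot v K₀ φ δ μ ∧
      ∀ i, ∃ b ∈ hen v K₀, v.Ge (ν + κ) (φ i a - a - b ^ p) := by
  obtain ⟨P, Q, hE⟩ := hE
  obtain ⟨β₀, hβ₀, haβ⟩ : ∃ β₀ : ℝ, β₀ ≤ ν + 1 ∧ v.Ge β₀ a :=
    ⟨min (ν + 1) (v a), min_le_left _ _, fun _ => min_le_right _ _⟩
  obtain ⟨t, htK, ht, -, -, j, hjt, hjv, hjc, -⟩ := TWEX.exists_pull h.toCtx0 hcw hd hK htr hBD hcl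
    (ν + 1 - β₀)
  refine motE_of_pull h ⟨hd.val⟩ hK hΩ hX htK ht j hjt
    (fun e he => hjv e fun h0 => he (Subtype.ext h0)) (fun H₀ hX₀ B₀ => ?_) hjc (by linarith) hβ₀
    ha haβ hE
  obtain ⟨Λ, hΛ⟩ := TWEX.gen_tri h.toCtx0 hcw hd hK hBD ht hX₀.c0 hX₀.tri B₀
  exact ⟨Λ, fun d d' E h1 h2 h3 h4 h5 h6 => hΛ d d' E h1 h2 h5 h6 h3 h4⟩

end Pool.Agent.TWMF
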