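import Pool.Agent.Lib.TWMF.S6
import Pool.Agent.Lib.TWM.Bridge
import Pool.Agent.Lib.TWW.Defs

/-!
# TANK W: absorption for motions

`mot_abs`: if the motions `φ i` of `K₀` move the critical element `a` of level `ν` by a `p`-th power
up to elements of value `≥ ν + κ`, they can be corrected such that `a` moves exactly by a `p`-th
power.
-/

set_option autoImplicit false

open Polynomial Finset Filter Topology

namespace Pool.Agent.TWMF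

open Pool.Agent.H15JM (RVal)
open Pool.Agent.LU1 (VPos adj)
open Pool.Agent.D2 (Ctx0)
open Pool.Agent.D2P (hen clI mem_clI mem_hen hen_hen le_hen hen_mono hen_le)
open Pool.Agent.TW (mon pcomb Orth PBasis BD kr LT Mot Ctx)
open Pool.Agent.TWM

universe u

namespace Stb

section

variable {k Ω : Type u} [Field k] [Field Ω] [Algebra k Ω] {v : RVal Ω}
  {E : IntermediateField k Ω} {p : ℕ} [hp : Fact p.Prime] [CharP Ω p]

omit [CharP Ω p] in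
/-- A field with `p`-divisible values is immediate over its `p`-th powers. -/
theorem imm_of_div [IsAlgClosed k] (h0 : Ctx0 k v)
    (hgr : ∀ f ∈ E, f ≠ 0 → ∃ g ∈ E, g ≠ 0 ∧ v f = p * v g) :
    ∀ f ∈ E, f ≠ 0 → ∃ g ∈ E, Gt v (v f) (f - g ^ p) := by
  intro f hf hf0
  obtain ⟨g, hg, hg0, h1⟩ := hgr f hf hf0
  have hgp : g ^ p ≠ 0 := pow_ne_zero _ hg0
  have h2 : v (g ^ p) = v f := by rw [v.map_pow hg0, h1]
  have h3 : v (f / g ^ p) = 0 := by rw [v.map_div hf0 hgp, h2, sub_self]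
  obtain ⟨c, hc, h4⟩ := h0.res _ (div_ne_zero hf0 hgp) h3
  obtain ⟨c', rfl⟩ := IsAlgClosed.exists_pow_nat_eq c hp.out.pos
  refine ⟨algebraMap k Ω c' * g, mul_mem (E.algebraMap_mem c') hg, ?_⟩
  have e1 : f - (algebraMap k Ω c' * g) ^ p =
      (f / g ^ p - algebraMap k Ω (c' ^ p)) * g ^ p := by
    rw [RingHom.map_pow, mul_pow]
    field_simp
  have h5 : Gt v 0 (f / g ^ p - algebraMap k Ω (c' ^ p)) := h4
  rw [e1]
  have h6 := h5.mul_ge (v.ge_self (g ^ p))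
  rwa [zero_add, h2] at h6

omit [CharP Ω p] hp in
/-- The same for the closure. -/
theorem imm_cl (himm : ∀ f ∈ E, f ≠ 0 → ∃ g ∈ E, Gt v (v f) (f - g ^ p)) :
    ∀ f ∈ clI v E, f ≠ 0 → ∃ g ∈ clI v E, Gt v (v f) (f - g ^ p) := by
  intro f hf hf0
  obtain ⟨f₀, hf₀, h1⟩ := mem_clI.1 hf (v f + 1)
  have h2 : Gt v (v f) (f - f₀) := Gt.of_ge h1 (by linarith)
  obtain ⟨h3, h4⟩ := Gt.val_eq hf0 h2
  obtain ⟨g, hg, h5⟩ := himm f₀ hf₀ h3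
  rw [h4] at h5
  refine ⟨g, le_clI E hg, ?_⟩
  have e1 : f - g ^ p = (f - f₀) + (f₀ - g ^ p) := by ring
  rw [e1]
  exact h2.add h5

/-- The extension of an automorphism of the henselization. -/
theorem exists_ext_hen [IsAlgClosed Ω] (hΩ : ∀ g : Ω, IsAlgebraic E g)
    (ψ : hen v E ≃ₐ[k] hen v E) : ∃ Φ : Ω ≃ₐ[k] Ω, ∀ x : hen v E, Φ x = ψ x := by
  have halg : Algebra.IsAlgebraic (hen v E) Ω := by
    refine ⟨fun g => ?_⟩
    have h1 : IsAlgebraic E g := hΩ g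
    exact D2P.alg_mono (le_hen E) h1
  have hc1 : IsAlgClosure (hen v E) Ω := ⟨inferInstance, inferInstance⟩
  let Φ : Ω ≃+* Ω := IsAlgClosure.equivOfEquiv Ω Ω (ψ : hen v E ≃+* hen v E)
  have hΦ : ∀ a : hen v E, Φ a = ψ a := fun a =>
    IsAlgClosure.equivOfEquiv_algebraMap Ω Ω (ψ : hen v E ≃+* hen v E) a
  refine ⟨AlgEquiv.ofRingEquiv (f := Φ) fun c => ?_, hΦ⟩
  have h1 := hΦ (algebraMap k (hen v E) c)
  rw [ψ.commutes] at h1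
  exact h1

omit hp [CharP Ω p] in
/-- Automorphisms of the henselization with a margin keep the henselization of a subfield. -/
theorem hen_map_eq {K E : IntermediateField k Ω} (hKE : hen v K = hen v E) {κ : ℝ} (hκ : 0 < κ)
    {Φ : Ω ≃ₐ[k] Ω} (h1 : ∀ x ∈ hen v E, Φ x ∈ hen v E) (h2 : ∀ x ∈ hen v E, ∃ y ∈ hen v E, Φ y = x)
    (h3 : ∀ x ∈ hen v E, ∀ b : ℝ, v.Ge b x → v.Ge (b + κ) (Φ x - x)) :
    hen v (K.map (Φ : Ω →ₐ[k] Ω)) = hen v E := by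
  have hK : K ≤ hen v E := hKE ▸ le_hen K
  refine le_antisymm (hen_le (hen_hen E) ?_) ?_
  · rintro _ ⟨a, ha, rfl⟩
    exact h1 a (hK ha)
  · intro x hx
    obtain ⟨y, hy, rfl⟩ := h2 x hx
    have hy' := hy
    rw [← hKE, mem_hen] at hy'
    rw [mem_hen]
    refine ⟨fun c => ?_, (TWM.Dense.isSeparable_iff (ι := (Φ : Ω →ₐ[k] Ω))).2 hy'.2⟩
    obtain ⟨e, he, h4⟩ := hy'.1 c
    refine ⟨Φ e, ⟨e, he, rfl⟩, ?_⟩
    have hye : y - e ∈ hen v E := sub_mem hy (hK he)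
    have e1 : Φ y - Φ e = (Φ (y - e) - (y - e)) + (y - e) := by
      rw [map_sub]
      ring
    rw [e1]
    exact ((h3 _ hye c h4).mono (by linarith)).add h4

/-- **ABS** on the henselization. -/
theorem exists_abs_aut [IsAlgClosed k] [IsAlgClosed Ω] [CharP k p] (h0 : Ctx0 k v)
    (hE : E.FG) (hΩ : ∀ g : Ω, IsAlgebraic E g) (hBD : BD p v E)
    (himm : ∀ f ∈ E, f ≠ 0 → ∃ g ∈ E, Gt v (v f) (f - g ^ p))
    {a η : Ω} (ha : a ∈ hen v E) (hη : η ∈ hen v E) {ν κ : ℝ} (hκ : 0 < κ)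
    (hν : ∀ g ∈ E, ¬ Gt v ν (a - g ^ p)) (hην : v.Ge (ν + κ) η) :
    ∃ Φ : Ω ≃ₐ[k] Ω, (∀ x ∈ hen v E, Φ x ∈ hen v E) ∧
      (∀ x ∈ hen v E, ∃ y ∈ hen v E, Φ y = x) ∧
      (∀ x ∈ hen v E, ∀ b : ℝ, v.Ge b x → v.Ge (b + κ / 2) (Φ x - x)) ∧
      ∃ b ∈ hen v E, Φ a = a + η + b ^ p := by
  obtain ⟨Ω', iF, iA, ι, w, hac, hcw, hd⟩ := exists_complete k v
  have hcp : CharP Ω' p := Dense.charP ι p
  have hh : hen w (E.map ι) = (hen v E).map ι := Dense.hen_map hd E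
  have himm' : ∀ f ∈ E.map ι, f ≠ 0 → ∃ g ∈ E.map ι, Gt w (w f) (f - g ^ p) := by
    rintro _ ⟨f, hf, rfl⟩ hf0
    have hf0' : f ≠ 0 := fun h => hf0 (by rw [h]; exact map_zero ι)
    obtain ⟨g, hg, h1⟩ := himm f hf hf0'
    refine ⟨ι g, ⟨g, hg, rfl⟩, ?_⟩
    intro h2
    have e1 : ι f - ι g ^ p = ι (f - g ^ p) := by rw [map_sub, map_pow]
    have h3 : f - g ^ p ≠ 0 := fun h => h2 (by
      have h4 : (ι : Ω → Ω') f - ι g ^ p = 0 := by rw [e1, h, map_zero]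
      exact h4)
    have h4 : w (ι f - ι g ^ p) = v (f - g ^ p) := by rw [e1, hd.val _ h3]
    have h5 : w (ι f) = v f := hd.val f hf0'
    show w (ι f) < w (ι f - ι g ^ p)
    rw [h4, h5]
    exact h1 h3
  have hν' : ∀ g ∈ clI w (E.map ι), ¬ Gt w ν (ι a - g ^ p) := by
    intro g hg h1
    obtain ⟨_, ⟨g₀, hg₀, rfl⟩, h2⟩ := mem_clI.1 hg ((ν + 1) / p)
    refine hν g₀ hg₀ ?_
    have hp0 : (p : ℝ) ≠ 0 := by exact_mod_cast hp.out.ne_zero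
    have h3 := ge_pow h2 p
    rw [sub_pow_char, mul_div_cancel₀ _ hp0] at h3
    have h4 : Gt w ν (g ^ p - ι g₀ ^ p) := Gt.of_ge h3 (by linarith)
    have h5 : Gt w ν (ι a - ι g₀ ^ p) := by
      have e1 : ι a - ι g₀ ^ p = (ι a - g ^ p) + (g ^ p - ι g₀ ^ p) := by ring
      rw [e1]
      exact h1.add h4
    intro h6
    have e1 : ι a - ι g₀ ^ p = ι (a - g₀ ^ p) := by rw [map_sub, map_pow]
    rw [e1] at h5
    have h7 := h5 (hd.ne_zero h6)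
    rwa [hd.val _ h6] at h7
  have ha' : ι a ∈ hen w (E.map ι) := by rw [hh]; exact ⟨a, ha, rfl⟩
  have hη' : ι η ∈ hen w (E.map ι) := by rw [hh]; exact ⟨η, hη, rfl⟩
  obtain ⟨ψ, ⟨b', hb', h1⟩, h2⟩ := exists_abs_hen (hd.ctx0 h0) hcw (Dense.fg_map hE)
    ((Dense.bd_iff hd).2 hBD) (imm_cl himm') ha' hη' hκ hν' (hd.ge_iff.2 hην)
  -- the automorphism of `hen v E`
  have hdown : ∀ x ∈ hen w (E.map ι), ∃ y ∈ hen v E, ι y = x := by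
    intro x hx
    rw [hh] at hx
    exact hx
  have hup : ∀ y, y ∈ hen v E → ι y ∈ hen w (E.map ι) := by
    intro y hy
    rw [hh]
    exact ⟨y, hy, rfl⟩
  have hex : ∀ x : hen v E, ∃ y : hen v E, ι y = ψ ⟨ι x, hup x x.2⟩ := by
    intro x
    obtain ⟨y, hy, h3⟩ := hdown _ (ψ ⟨ι x, hup x x.2⟩).2
    exact ⟨⟨y, hy⟩, h3⟩
  choose f hf using hex
  have hinj : ∀ x y : Ω, ι x = ι y → x = y := fun x y h => Dense.inj ι h
  let F : hen v E →ₐ[k] hen v E :=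
    { toFun := f
      map_one' := by
        apply Subtype.ext
        apply hinj
        rw [hf]
        have e1 : (⟨ι (1 : hen v E), hup _ (1 : hen v E).2⟩ : hen w (E.map ι)) = 1 :=
          Subtype.ext (map_one ι)
        rw [e1, map_one]
        exact (map_one ι).symm
      map_mul' := fun x y => by
        apply Subtype.ext
        apply hinj
        rw [hf]
        have e1 : (⟨ι ((x * y : hen v E) : Ω), hup _ (x * y : hen v E).2⟩ : hen w (E.map ι)) =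
            ⟨ι x, hup x x.2⟩ * ⟨ι y, hup y y.2⟩ := Subtype.ext (map_mul ι (x : Ω) y)
        rw [e1, map_mul]
        push_cast
        rw [map_mul, hf, hf]
      map_zero' := by
        apply Subtype.ext
        apply hinj
        rw [hf]
        have e1 : (⟨ι (0 : hen v E), hup _ (0 : hen v E).2⟩ : hen w (E.map ι)) = 0 :=
          Subtype.ext (map_zero ι)
        rw [e1, map_zero]
        exact (map_zero ι).symm
      map_add' := fun x y => by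
        apply Subtype.ext
        apply hinj
        rw [hf]
        have e1 : (⟨ι ((x + y : hen v E) : Ω), hup _ (x + y : hen v E).2⟩ : hen w (E.map ι)) =
            ⟨ι x, hup x x.2⟩ + ⟨ι y, hup y y.2⟩ := Subtype.ext (map_add ι (x : Ω) y)
        rw [e1, map_add]
        push_cast
        rw [map_add, hf, hf]
      commutes' := fun c => by
        apply Subtype.ext
        apply hinj
        rw [hf]
        have e1 : (⟨ι (algebraMap k (hen v E) c : hen v E), hup _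
            (algebraMap k (hen v E) c : hen v E).2⟩ : hen w (E.map ι)) =
            algebraMap k (hen w (E.map ι)) c := Subtype.ext (ι.commutes c)
        rw [e1, ψ.commutes]
        exact (ι.commutes c).symm }
  have hbij : Function.Bijective F := by
    refine ⟨F.injective, fun y => ?_⟩
    obtain ⟨x, hx, h3⟩ := hdown _ (ψ.symm ⟨ι y, hup y y.2⟩).2
    refine ⟨⟨x, hx⟩, ?_⟩
    apply Subtype.ext
    apply hinj
    show ι (f ⟨x, hx⟩) = ι y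
    rw [hf]
    have e1 : (⟨ι x, hup x hx⟩ : hen w (E.map ι)) = ψ.symm ⟨ι y, hup y y.2⟩ := Subtype.ext h3
    show ((ψ ⟨ι x, hup x hx⟩ : hen w (E.map ι)) : Ω') = ι y
    rw [e1, AlgEquiv.apply_symm_apply]
  obtain ⟨Φ, hΦ⟩ := exists_ext_hen hΩ (AlgEquiv.ofBijective F hbij)
  have hΦf : ∀ x, ∀ hx : x ∈ hen v E, Φ x = f ⟨x, hx⟩ := fun x hx => hΦ ⟨x, hx⟩
  refine ⟨Φ, fun x hx => ?_, fun x hx => ?_, fun x hx b hb => ?_, ?_⟩
  · rw [hΦf x hx]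
    exact (f _).2
  · obtain ⟨y, hy⟩ := hbij.2 ⟨x, hx⟩
    refine ⟨y, y.2, ?_⟩
    rw [hΦf y y.2]
    exact congrArg Subtype.val hy
  · rw [hΦf x hx, ← hd.ge_iff, map_sub, hf]
    exact h2 ⟨ι x, hup x hx⟩ b (hd.ge_iff.2 hb)
  · obtain ⟨b, hb, h3⟩ := hdown b' hb'
    refine ⟨b, hb, hinj _ _ ?_⟩
    rw [hΦf a ha, hf]
    show ((ψ ⟨ι a, ha'⟩ : hen w (E.map ι)) : Ω') = _
    rw [h1, ← h3, map_add, map_add, map_pow]

omit hp [CharP Ω p] in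
/-- Leading terms are stable. -/
theorem lt_comp {H : IntermediateField k Ω} {φ Φ : ℕ → (Ω ≃ₐ[k] Ω)} {δ : ℕ → Ω} {κ : ℝ}
    (hκ : 0 < κ) (hδ : ∀ i, δ i ≠ 0) {e a : Ω} {m : ℤ} (hH : ∀ i, φ i e ∈ H)
    (h3 : ∀ i, ∀ x ∈ H, ∀ b : ℝ, v.Ge b x → v.Ge (b + κ) (Φ i x - x))
    (h : LT v δ φ e a m) : LT v δ (fun i => (φ i).trans (Φ i)) e a m := by
  refine ⟨h.1, h.2.mono fun i hi => ?_⟩
  show Gt v (v a + m * v (δ i)) (Φ i (φ i e) - a * δ i ^ m)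
  have hz : δ i ^ m ≠ 0 := zpow_ne_zero _ (hδ i)
  have h4 : v.Ge (v a + m * v (δ i)) (a * δ i ^ m) := by
    intro _
    rw [v.map_mul h.1 hz, v.map_zpow (hδ i)]
  have h5 : v.Ge (v a + m * v (δ i)) (φ i e) := by
    have e1 : φ i e = (φ i e - a * δ i ^ m) + a * δ i ^ m := by ring
    rw [e1]
    exact hi.ge.add h4
  have e1 : Φ i (φ i e) - a * δ i ^ m = (Φ i (φ i e) - φ i e) + (φ i e - a * δ i ^ m) := by ring
  rw [e1]
  exact (Gt.of_ge (h3 i _ (hH i) _ h5) (by linarith)).add hi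

omit hp [CharP Ω p] in
/-- **Motions and automorphisms near the identity.** -/
theorem mot_comp {K₀ : IntermediateField k Ω} {φ Φ : ℕ → (Ω ≃ₐ[k] Ω)} {δ : ℕ → Ω} {μ κ : ℝ}
    (hM : Mot v K₀ φ δ μ) (hκ : 0 < κ) (h2 : ∀ i, ∀ x ∈ hen v K₀, Φ i x ∈ hen v K₀)
    (h3 : ∀ i, ∀ x ∈ hen v K₀, ∃ y ∈ hen v K₀, Φ i y = x)
    (h4 : ∀ i, ∀ x ∈ hen v K₀, ∀ b : ℝ, v.Ge b x → v.Ge (b + κ) (Φ i x - x)) :
    Mot v K₀ (fun i => (φ i).trans (Φ i)) δ μ := by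
  have hmem : ∀ i, ∀ x ∈ K₀, φ i x ∈ hen v K₀ := by
    intro i x hx
    rw [← hM.hen_eq i]
    exact le_hen _ ⟨x, hx, rfl⟩
  refine ⟨hM.ne, hM.lim, hM.irr, fun e he he0 => ?_, ?_, ?_, fun i => ?_⟩
  · obtain ⟨a', m, h6⟩ := hM.lt e he he0
    exact ⟨a', m, lt_comp hκ hM.ne (fun i => hmem i e he) h4 h6⟩
  · obtain ⟨e, he, he0, a', m, hm, h6⟩ := hM.moves
    exact ⟨e, he, he0, a', m, hm, lt_comp hκ hM.ne (fun i => hmem i e he) h4 h6⟩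
  · intro g hg
    obtain ⟨m, hm, e, he, he0, h6, h7⟩ := hM.full g hg
    exact ⟨m, hm, e, he, he0, lt_comp hκ hM.ne (fun i => hmem i e he) h4 h6, h7⟩
  · have h6 := hen_map_eq (hM.hen_eq i) hκ (h2 i) (h3 i) (h4 i)
    have h7 : K₀.map (((φ i).trans (Φ i) : Ω ≃ₐ[k] Ω) : Ω →ₐ[k] Ω) =
        (K₀.map (φ i : Ω →ₐ[k] Ω)).map (Φ i : Ω →ₐ[k] Ω) := by
      rw [IntermediateField.map_map]
      rfl
    rw [h7]
    exact h6

/-- **ABS for motions**, with the margins of the corrections. -/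
theorem mot_abs_full [IsAlgClosed k] [IsAlgClosed Ω] [CharP k p] (h : Ctx0 k v)
    {K₀ : IntermediateField k Ω} (hK : K₀.FG) (hΩ : ∀ g : Ω, IsAlgebraic K₀ g)
    (hBDK : BD p v K₀) (himm : ∀ f ∈ K₀, f ≠ 0 → ∃ g ∈ K₀, Gt v (v f) (f - g ^ p))
    {φ : ℕ → (Ω ≃ₐ[k] Ω)} {δ : ℕ → Ω} {μ κ ν : ℝ} (hM : Mot v K₀ φ δ μ) (hκ : 0 < κ)
    {a : Ω} (ha : a ∈ K₀) (hlev : ∀ g ∈ hen v K₀, ¬ Gt v ν (a - g ^ p))
    (heff : ∀ i, ∃ c ∈ hen v K₀, ∃ b ∈ hen v K₀, c ≠ 0 ∧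
      v.Ge (ν + p * v c + κ) (φ i a - c ^ p * a - b ^ p)) :
    ∃ Φ : ℕ → (Ω ≃ₐ[k] Ω), (∀ i, ∀ x ∈ hen v K₀, Φ i x ∈ hen v K₀) ∧
      (∀ i, ∀ x ∈ hen v K₀, ∃ y ∈ hen v K₀, Φ i y = x) ∧
      (∀ i, ∀ x ∈ hen v K₀, ∀ b : ℝ, v.Ge b x → v.Ge (b + κ / 2) (Φ i x - x)) ∧
      Mot v K₀ (fun i => (φ i).trans (Φ i)) δ μ ∧
      ∀ i, ∃ c ∈ hen v K₀, ∃ b ∈ hen v K₀, c ≠ 0 ∧ Φ i (φ i a) = c ^ p * a + b ^ p := by
  have hmem : ∀ i, ∀ x ∈ K₀, φ i x ∈ hen v K₀ := by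
    intro i x hx
    rw [← hM.hen_eq i]
    exact le_hen _ ⟨x, hx, rfl⟩
  have hex : ∀ i, ∃ Φ : Ω ≃ₐ[k] Ω, (∀ x ∈ hen v K₀, Φ x ∈ hen v K₀) ∧
      (∀ x ∈ hen v K₀, ∃ y ∈ hen v K₀, Φ y = x) ∧
      (∀ x ∈ hen v K₀, ∀ b : ℝ, v.Ge b x → v.Ge (b + κ / 2) (Φ x - x)) ∧
      ∃ c ∈ hen v K₀, ∃ b ∈ hen v K₀, c ≠ 0 ∧ Φ (φ i a) = c ^ p * a + b ^ p := by
    intro i
    obtain ⟨c, hc, b, hb, hc0, h1⟩ := heff i
    have haH : a ∈ hen v K₀ := le_hen _ ha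
    have hη : -(φ i a - c ^ p * a - b ^ p) ∈ hen v K₀ :=
      neg_mem (sub_mem (sub_mem (hmem i a ha) (mul_mem (pow_mem hc p) haH)) (pow_mem hb p))
    obtain ⟨Φ, h2, h3, h4, b', hb', h5⟩ := exists_abs_aut h hK hΩ hBDK himm (hmem i a ha) hη
      (ν := ν + p * v c) hκ (fun g hg h6 => by
        have hgH : g ∈ hen v K₀ := le_hen _ hg
        refine hlev ((g - b) / c) (div_mem (sub_mem hgH hb) hc) ?_
        have h7 : Gt v (ν + p * v c) (φ i a - c ^ p * a - b ^ p) := Gt.of_ge h1 (by linarith)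
        have h8 := h6.sub h7
        have hcp : c ^ p ≠ 0 := pow_ne_zero _ hc0
        have e1 : φ i a - g ^ p - (φ i a - c ^ p * a - b ^ p) =
            c ^ p * (a - ((g - b) / c) ^ p) := by
          rw [div_pow, sub_pow_char]
          field_simp
          ring
        rw [e1] at h8
        intro h9
        have h10 := h8 (mul_ne_zero hcp h9)
        rw [v.map_mul hcp h9, v.map_pow hc0] at h10
        linarith) h1.neg
    refine ⟨Φ, h2, h3, h4, c, hc, b + b', add_mem hb hb', hc0, ?_⟩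
    rw [h5, add_pow_char]
    ring
  choose Φ h2 h3 h4 h5 using hex
  have hκ2 : 0 < κ / 2 := by linarith
  exact ⟨Φ, h2, h3, h4, mot_comp hM hκ2 h2 h3 h4, h5⟩

/-- **ABS for motions**, general form. -/
theorem mot_abs' [IsAlgClosed k] [IsAlgClosed Ω] [CharP k p] (h : Ctx0 k v)
    {K₀ : IntermediateField k Ω} (hK : K₀.FG) (hΩ : ∀ g : Ω, IsAlgebraic K₀ g)
    (hBDK : BD p v K₀) (himm : ∀ f ∈ K₀, f ≠ 0 → ∃ g ∈ K₀, Gt v (v f) (f - g ^ p))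
    {φ : ℕ → (Ω ≃ₐ[k] Ω)} {δ : ℕ → Ω} {μ κ ν : ℝ} (hM : Mot v K₀ φ δ μ) (hκ : 0 < κ)
    {a : Ω} (ha : a ∈ K₀) (hlev : ∀ g ∈ hen v K₀, ¬ Gt v ν (a - g ^ p))
    (heff : ∀ i, ∃ c ∈ hen v K₀, ∃ b ∈ hen v K₀, c ≠ 0 ∧
      v.Ge (ν + p * v c + κ) (φ i a - c ^ p * a - b ^ p)) :
    ∃ φ' : ℕ → (Ω ≃ₐ[k] Ω), Mot v K₀ φ' δ μ ∧
      ∀ i, ∃ c ∈ hen v K₀, ∃ b ∈ hen v K₀, c ≠ 0 ∧ φ' i a = c ^ p * a + b ^ p := by
  obtain ⟨Φ, -, -, -, h1, h2⟩ := mot_abs_full h hK hΩ hBDK himm hM hκ ha hlev heff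
  exact ⟨_, h1, h2⟩

/-- **S7.4**: ABS for motions. -/
theorem mot_abs [IsAlgClosed k] [IsAlgClosed Ω] [CharP k p] (h : Ctx0 k v)
    {K₀ : IntermediateField k Ω} (hK : K₀.FG) (hΩ : ∀ g : Ω, IsAlgebraic K₀ g)
    (hBDK : BD p v K₀) (hgr : ∀ f ∈ K₀, f ≠ 0 → ∃ g ∈ K₀, g ≠ 0 ∧ v f = p * v g)
    {φ : ℕ → (Ω ≃ₐ[k] Ω)} {δ : ℕ → Ω} {μ κ ν : ℝ} (hM : Mot v K₀ φ δ μ) (hκ : 0 < κ)
    {a : Ω} (ha : a ∈ K₀) (hlev : ∀ g ∈ clI v K₀, ¬ Gt v ν (a - g ^ p))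
    (heff : ∀ i, ∃ b ∈ hen v K₀, v.Ge (ν + κ) (φ i a - a - b ^ p)) :
    ∃ φ' : ℕ → (Ω ≃ₐ[k] Ω), Mot v K₀ φ' δ μ ∧
      ∀ i, ∃ c ∈ hen v K₀, ∃ b ∈ hen v K₀, c ≠ 0 ∧ φ' i a = c ^ p * a + b ^ p := by
  refine mot_abs' h hK hΩ hBDK (imm_of_div h hgr) hM hκ ha
    (fun g hg => hlev g (hen_le_clI hg)) fun i => ?_
  obtain ⟨b, hb, h1⟩ := heff i
  refine ⟨1, one_mem _, b, hb, one_ne_zero, ?_⟩
  rw [v.map_one, mul_zero, add_zero, one_pow, one_mul]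
  exact h1

end

end Stb

end Pool.Agent.TWMF
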