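import Pool.Agent.Lib.TWW.WM14

/-!
# TANK W: motions at field level, 1: the field of the henselian functions of `δ`

`FGS h x`: a constant multiple of the sequence `x` is in `GS h`.  These sequences are closed under
sums, products, inverses (if they vanish nowhere) and simple roots, and have leading terms.
-/

set_option autoImplicit false

open Polynomial Filter Topology

namespace Pool.Agent.TW

open Pool.Agent.H15JM (RVal)
open Pool.Agent.TWM (Gt)

universe u

namespace WM13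

variable {Ω : Type u} [Field Ω] {v : RVal Ω} {δ : ℕ → Ω} {ρ : ℝ} {h : Sq v δ ρ} {x y : ℕ → Ω}

/-- A constant multiple of `x` is a henselian function of `δ`. -/
def FGS (h : Sq v δ ρ) (x : ℕ → Ω) : Prop := ∃ b : Ω, b ≠ 0 ∧ GS h fun i => b * x i

theorem GS.fgs (hx : GS h x) : FGS h x := ⟨1, one_ne_zero, by simpa using hx⟩

/-- Division by a constant. -/
theorem GS.of_mul {b : Ω} (hb : b ≠ 0) (hx : GS h fun i => b * x i)
    (hge : ∀ᶠ i in atTop, v.Ge 0 (x i)) : GS h x where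
  alg := by
    have h1 : mkG Ω x = th h (algebraMap (Polynomial Ω) (FractionRing (Polynomial Ω)) (C b⁻¹)) *
        mkG Ω fun i => b * x i := by
      rw [th_const, ← map_mul]
      congr 1
      funext i
      rw [Pi.mul_apply, inv_mul_cancel_left₀ hb]
    rw [h1]
    exact RingHom.IsIntegralElem.mul _ (RingHom.isIntegralElem_map _) hx.alg
  app := by
    refine ⟨hge, fun M => ?_⟩
    obtain ⟨c, f, h1, h2⟩ := hx.app.2 (M + v b)
    refine ⟨algebraMap (Polynomial Ω) (FractionRing (Polynomial Ω)) (C b⁻¹) * c,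
      fun i => b⁻¹ * f i, ?_, ?_⟩
    · rw [map_mul, th_const, h1, ← map_mul]
      rfl
    · filter_upwards [h2] with i hi
      have e : x i - b⁻¹ * f i = b⁻¹ * (b * x i - f i) := by
        field_simp
      rw [e]
      have h3 : v.Ge (-v b) b⁻¹ := fun _ => by rw [v.map_inv hb]
      have h4 := h3.mul hi
      exact h4.mono (by linarith)

theorem FGS.gs (hx : FGS h x) (hge : ∀ᶠ i in atTop, v.Ge 0 (x i)) : GS h x := by
  obtain ⟨b, hb, h1⟩ := hx
  exact h1.of_mul hb hge

/-- Every sequence of `FGS` multiplied by a constant of large value is in `GS`. -/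
theorem FGS.exists_mul (hx : FGS h x) : ∃ b : Ω, b ≠ 0 ∧ ∀ c : Ω, v.Ge (v b) c →
    GS h fun i => c * x i := by
  obtain ⟨b, hb, h1⟩ := hx
  refine ⟨b, hb, fun c hc => ?_⟩
  have h2 : v.Ge 0 (c / b) := by
    have h3 : v.Ge (-v b) b⁻¹ := fun _ => by rw [v.map_inv hb]
    have h4 := hc.mul h3
    rw [add_neg_cancel, ← div_eq_mul_inv] at h4
    exact h4
  have h3 := (GS.const h h2).mul h1
  have e : (fun i => c / b * (b * x i)) = fun i => c * x i := by
    funext i
    rw [← mul_assoc, div_mul_cancel₀ _ hb]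
  rwa [e] at h3

theorem FGS.congr (hx : FGS h x) (hxy : ∀ᶠ i in atTop, x i = y i) : FGS h y := by
  obtain ⟨b, hb, h1⟩ := hx
  exact ⟨b, hb, h1.congr (hxy.mono fun i hi => by rw [hi])⟩

theorem FGS.const (h : Sq v δ ρ) (c : Ω) : FGS h fun _ => c := by
  by_cases hc : c = 0
  · refine ⟨1, one_ne_zero, ?_⟩
    rw [hc]
    simpa using GS.const h (c := 0) RVal.Ge.zero
  · refine ⟨c⁻¹, inv_ne_zero hc, ?_⟩
    have h1 := GS.const h (c := 1) (fun _ => by rw [v.map_one])
    have e : (fun _ : ℕ => (1 : Ω)) = fun _ => c⁻¹ * c := by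
      funext i
      rw [inv_mul_cancel₀ hc]
    rwa [e] at h1

theorem FGS.mul (hx : FGS h x) (hy : FGS h y) : FGS h fun i => x i * y i := by
  obtain ⟨b, hb, h1⟩ := hx
  obtain ⟨c, hc, h2⟩ := hy
  refine ⟨b * c, mul_ne_zero hb hc, ?_⟩
  have h3 := h1.mul h2
  have e : (fun i => b * x i * (c * y i)) = fun i => b * c * (x i * y i) := by
    funext i
    ring
  rwa [e] at h3

theorem FGS.add (hx : FGS h x) (hy : FGS h y) : FGS h fun i => x i + y i := by
  obtain ⟨b, hb, h1⟩ := hx.exists_mul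
  obtain ⟨c, hc, h2⟩ := hy.exists_mul
  obtain ⟨d, hd, hdb, hdc⟩ : ∃ d : Ω, d ≠ 0 ∧ v.Ge (v b) d ∧ v.Ge (v c) d := by
    rcases le_total (v b) (v c) with h3 | h3
    · exact ⟨c, hc, fun _ => h3, fun _ => le_rfl⟩
    · exact ⟨b, hb, fun _ => le_rfl, fun _ => h3⟩
  refine ⟨d, hd, ?_⟩
  have h3 := (h1 d hdb).add (h2 d hdc)
  have e : (fun i => d * x i + d * y i) = fun i => d * (x i + y i) := by
    funext i
    ring
  rwa [e] at h3

theorem FGS.neg (hx : FGS h x) : FGS h fun i => -x i := by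
  obtain ⟨b, hb, h1⟩ := hx
  refine ⟨-b, neg_ne_zero.2 hb, ?_⟩
  have e : (fun i => b * x i) = fun i => -b * -x i := by
    funext i
    ring
  rwa [e] at h1

theorem FGS.sub (hx : FGS h x) (hy : FGS h y) : FGS h fun i => x i - y i := by
  have h1 := hx.add hy.neg
  have e : (fun i => x i + -y i) = fun i => x i - y i := by
    funext i
    ring
  rwa [e] at h1

theorem FGS.pow (hx : FGS h x) (n : ℕ) : FGS h fun i => x i ^ n := by
  induction n with
  | zero => simpa using FGS.const h (1 : Ω)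
  | succ n ih => simpa only [pow_succ] using ih.mul hx

theorem FGS.sum {ι : Type*} (S : Finset ι) {f : ι → ℕ → Ω} (hf : ∀ a ∈ S, FGS h (f a)) :
    FGS h fun i => ∑ a ∈ S, f a i := by
  classical
  induction S using Finset.induction_on with
  | empty => simpa using FGS.const h (0 : Ω)
  | insert a S ha ih =>
    have h1 := (hf a (Finset.mem_insert_self a S)).add
      (ih fun b hb => hf b (Finset.mem_insert_of_mem hb))
    simpa only [Finset.sum_insert ha] using h1

theorem FGS.prod {ι : Type*} (S : Finset ι) {f : ι → ℕ → Ω} (hf : ∀ a ∈ S, FGS h (f a)) :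
    FGS h fun i => ∏ a ∈ S, f a i := by
  classical
  induction S using Finset.induction_on with
  | empty => simpa using FGS.const h (1 : Ω)
  | insert a S ha ih =>
    have h1 := (hf a (Finset.mem_insert_self a S)).mul
      (ih fun b hb => hf b (Finset.mem_insert_of_mem hb))
    simpa only [Finset.prod_insert ha] using h1

/-- Leading terms. -/
theorem FGS.lts (hx : FGS h x) (h0 : ∀ i, x i ≠ 0) : ∃ a m, LTs v δ x a m := by
  obtain ⟨b, hb, h1⟩ := hx
  obtain ⟨a, m, h2, h3⟩ := exists_lts (fun i => mul_ne_zero hb (h0 i)) h1.alg h1.app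
  refine ⟨a / b, m, div_ne_zero h2 hb, h3.mono fun i hi => ?_⟩
  have e : x i - a / b * δ i ^ m = b⁻¹ * (b * x i - a * δ i ^ m) := by
    field_simp
  rw [e]
  intro h4
  have h5 : b * x i - a * δ i ^ m ≠ 0 := right_ne_zero_of_mul h4
  have h6 := hi h5
  rw [v.map_mul (inv_ne_zero hb) h5, v.map_inv hb, v.map_div h2 hb]
  linarith

/-- The monomials in `δ`. -/
theorem FGS.zpow (h : Sq v δ ρ) (m : ℤ) : FGS h fun i => δ i ^ m := by
  have key : ∀ n : ℕ, ∃ b : Ω, b ≠ 0 ∧ (∀ᶠ i in atTop, v.Ge 0 (b * δ i ^ (n : ℕ))) ∧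
      ∀ᶠ i in atTop, v.Ge 0 (b / δ i ^ (n : ℕ)) := by
    intro n
    obtain ⟨B, hB0, hB⟩ : ∃ B : ℝ, 0 ≤ B ∧ ∀ᶠ i in atTop, |v (δ i)| ≤ B := by
      refine ⟨|ρ| + 1, by positivity, ?_⟩
      have h1 : ∀ᶠ i in atTop, |v (δ i) - ρ| < 1 :=
        (Metric.tendsto_nhds.1 h.lim 1 one_pos).mono fun i hi => by rwa [Real.dist_eq] at hi
      filter_upwards [h1] with i hi
      have h2 := abs_le.1 hi.le
      rw [abs_le]
      constructor
      · linarith [neg_abs_le ρ]
      · linarith [le_abs_self ρ]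
    obtain ⟨b, hb, hbv⟩ : ∃ b : Ω, b ≠ 0 ∧ n * B ≤ v b := by
      by_cases hall : ∀ i, v (δ i) = 0
      · exfalso
        have h1 : Tendsto (fun i => v (δ i)) atTop (𝓝 0) := by
          simp only [hall]
          exact tendsto_const_nhds
        have h2 := tendsto_nhds_unique h.lim h1
        exact h.irr 1 1 one_ne_zero one_ne_zero (by rw [v.map_one, h2]; simp)
      · push Not at hall
        obtain ⟨i, hi⟩ := hall
        obtain ⟨m, hm⟩ := exists_nat_gt (n * B / |v (δ i)|)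
        have h1 : 0 < |v (δ i)| := abs_pos.2 hi
        rw [div_lt_iff₀ h1] at hm
        rcases le_total 0 (v (δ i)) with h2 | h2
        · refine ⟨δ i ^ m, pow_ne_zero _ (h.ne i), ?_⟩
          rw [v.map_pow (h.ne i)]
          rw [abs_of_nonneg h2] at hm
          linarith
        · refine ⟨(δ i)⁻¹ ^ m, pow_ne_zero _ (inv_ne_zero (h.ne i)), ?_⟩
          rw [v.map_pow (inv_ne_zero (h.ne i)), v.map_inv (h.ne i)]
          rw [abs_of_nonpos h2] at hm
          linarith
    refine ⟨b, hb, ?_, ?_⟩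
    · filter_upwards [hB] with i hi _
      rw [v.map_mul hb (pow_ne_zero _ (h.ne i)), v.map_pow (h.ne i)]
      have h1 := (abs_le.1 hi).1
      have h2 : (0 : ℝ) ≤ n := Nat.cast_nonneg n
      nlinarith
    · filter_upwards [hB] with i hi _
      rw [v.map_div hb (pow_ne_zero _ (h.ne i)), v.map_pow (h.ne i)]
      have h1 := (abs_le.1 hi).2
      have h2 : (0 : ℝ) ≤ n := Nat.cast_nonneg n
      nlinarith
  obtain ⟨n, rfl | rfl⟩ := m.eq_nat_or_neg
  · obtain ⟨b, hb, h1, -⟩ := key n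
    refine ⟨b, hb, ?_⟩
    have h2 := GS.poly h (F := C b * X ^ n) (h1.mono fun i hi => by
      simpa using hi)
    simpa using h2
  · obtain ⟨b, hb, -, h1⟩ := key n
    refine ⟨b, hb, ?_⟩
    have h2 := GS.rat h (F := C b) (G := X ^ n) (pow_ne_zero _ X_ne_zero) (h1.mono fun i hi => by
      simpa using hi)
    refine h2.congr (Eventually.of_forall fun i => ?_)
    simp [div_eq_mul_inv]

/-- Inverses. -/
theorem FGS.inv (hx : FGS h x) (h0 : ∀ i, x i ≠ 0) : FGS h fun i => (x i)⁻¹ := by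
  obtain ⟨a, m, h1⟩ := hx.lts h0
  -- the unit
  have h2 : FGS h fun i => x i * (a⁻¹ * δ i ^ (-m)) :=
    hx.mul ((FGS.const h a⁻¹).mul (FGS.zpow h (-m)))
  have hval := h1.val h.ne
  have hu : ∀ᶠ i in atTop, x i * (a⁻¹ * δ i ^ (-m)) ≠ 0 ∧ v (x i * (a⁻¹ * δ i ^ (-m))) = 0 := by
    filter_upwards [hval] with i hi
    have h3 : a⁻¹ * δ i ^ (-m) ≠ 0 := mul_ne_zero (inv_ne_zero h1.1) (zpow_ne_zero _ (h.ne i))
    refine ⟨mul_ne_zero (h0 i) h3, ?_⟩
    rw [v.map_mul (h0 i) h3, v.map_mul (inv_ne_zero h1.1) (zpow_ne_zero _ (h.ne i)),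
      v.map_inv h1.1, WM8.val_zpow (h.ne i), hi.2]
    push_cast
    ring
  have h3 : GS h fun i => x i * (a⁻¹ * δ i ^ (-m)) := h2.gs (hu.mono fun i hi _ => hi.2.ge)
  have h4 := (h3.inv hu).fgs.mul ((FGS.const h a⁻¹).mul (FGS.zpow h (-m)))
  refine h4.congr (Eventually.of_forall fun i => ?_)
  have h5 := h0 i
  have h6 : a⁻¹ * δ i ^ (-m) ≠ 0 := mul_ne_zero (inv_ne_zero h1.1) (zpow_ne_zero _ (h.ne i))
  show (x i * (a⁻¹ * δ i ^ (-m)))⁻¹ * (a⁻¹ * δ i ^ (-m)) = (x i)⁻¹
  rw [mul_inv, mul_assoc, inv_mul_cancel₀ h6, mul_one]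

theorem FGS.div (hx : FGS h x) (hy : FGS h y) (h0 : ∀ i, y i ≠ 0) :
    FGS h fun i => x i / y i := by
  have h1 := hx.mul (hy.inv h0)
  simpa only [div_eq_mul_inv] using h1

end WM13

end Pool.Agent.TW
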