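import Pool.Agent.Lib.TWMF.S7
import Pool.Agent.Lib.TWS.Tr

/-!
# TANK W: automorphisms of a henselization near an automorphism of the completion

`henaut_gen`: `ι : Ω → Ω'` isometric, `K` the closure of `ι E`, `θ` an automorphism of `K` near the
identity, `s` a `p`-basis of `K` in `ι (hen E)`: there is an automorphism `τ` of `Ω` which maps
`hen E` onto itself, has prescribed values at `s`, and is near `θ`.
`mot_comp_symm`: composition of motions with inverses of automorphisms near the identity.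
-/

set_option autoImplicit false

open Polynomial Finset Filter Topology

namespace Pool.Agent.TWMF

open Pool.Agent.H15JM (RVal)
open Pool.Agent.LU1 (VPos adj)
open Pool.Agent.D2 (Ctx0)
open Pool.Agent.D2P (hen clI mem_clI mem_hen hen_hen le_hen hen_mono hen_le)
open Pool.Agent.TW (mon pcomb Orth PBasis BD kr LT Mot Ctx)
open Pool.Agent.TWM
open Pool.Agent.TWS (IsoE)

universe u

namespace Stb

section Iso

variable {k Ω Ω' : Type u} [Field k] [Field Ω] [Algebra k Ω] [Field Ω'] [Algebra k Ω']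
  {v : RVal Ω} {w : RVal Ω'} {ι : Ω →ₐ[k] Ω'} {E : IntermediateField k Ω} {n p : ℕ}

theorem iso_orth (h : IsoE v w ι) {t : Fin n → Ω} {C : ℝ} :
    Orth p w (E.map ι) (fun i => ι (t i)) C ↔ Orth p v E t C := by
  constructor
  · intro ho c hc h0 α
    have h1 := ho (fun α => ι (c α)) (fun α => TWM.Dense.apply_mem_map.2 (hc α))
      (by rw [TWM.Dense.map_pcomb]; exact IsoE.ne_zero h0) α
    rw [TWM.Dense.map_pcomb, h.val _ h0, TWM.Dense.map_mon, ← map_pow, ← map_mul, h.ge_iff] at h1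
    exact h1
  · intro ho c hc h0 α
    choose d hd hdc using hc
    have h2 : (fun α => ι (d α)) = c := funext hdc
    have h0' : pcomb t d ≠ 0 := by
      intro h3
      rw [← h2, TWM.Dense.map_pcomb, h3, map_zero] at h0
      exact h0 rfl
    have h1 := ho d hd h0' α
    rw [← h2, TWM.Dense.map_pcomb, h.val _ h0', TWM.Dense.map_mon, ← map_pow, ← map_mul, h.ge_iff]
    exact h1

theorem iso_bd (h : IsoE v w ι) : BD p w (E.map ι) ↔ BD p v E := by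
  constructor
  · rintro ⟨n, t, ht, C, hC⟩
    choose s hs hst using ht.mem
    have h2 : (fun i => ι (s i)) = t := funext hst
    subst h2
    exact ⟨n, s, TWM.Dense.pbasis_iff.1 ht, C, (iso_orth h).1 hC⟩
  · rintro ⟨n, t, ht, C, hC⟩
    exact ⟨n, fun i => ι (t i), TWM.Dense.pbasis_iff.2 ht, C, (iso_orth h).2 hC⟩

end Iso

section

variable {k Ω : Type u} [Field k] [Field Ω] [Algebra k Ω] {v : RVal Ω}
  {E : IntermediateField k Ω} {p : ℕ}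

/-- The restriction to the henselization. -/
theorem exists_restr (ψ : clI v E ≃ₐ[k] clI v E)
    (h1 : ∀ y, ∀ hy : y ∈ hen v E, (ψ ⟨y, hen_le_clI hy⟩ : Ω) ∈ hen v E)
    (h2 : ∀ y, ∀ hy : y ∈ hen v E, (ψ.symm ⟨y, hen_le_clI hy⟩ : Ω) ∈ hen v E) :
    ∃ f : hen v E ≃ₐ[k] hen v E, ∀ x : hen v E, (f x : Ω) = ψ ⟨x, hen_le_clI x.2⟩ := by
  let f : hen v E →ₐ[k] hen v E :=
    { toFun := fun x => ⟨ψ ⟨x, hen_le_clI x.2⟩, h1 x x.2⟩
      map_one' := by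
        apply Subtype.ext
        have h1 := congrArg (fun z : clI v E => (z : Ω)) (map_one ψ)
        exact h1
      map_mul' := fun x y => by
        apply Subtype.ext
        have h1 := congrArg (fun z : clI v E => (z : Ω))
          (map_mul ψ (⟨x, hen_le_clI x.2⟩ : clI v E) ⟨y, hen_le_clI y.2⟩)
        exact h1
      map_zero' := by
        apply Subtype.ext
        have h1 := congrArg (fun z : clI v E => (z : Ω)) (map_zero ψ)
        exact h1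
      map_add' := fun x y => by
        apply Subtype.ext
        have h1 := congrArg (fun z : clI v E => (z : Ω))
          (map_add ψ (⟨x, hen_le_clI x.2⟩ : clI v E) ⟨y, hen_le_clI y.2⟩)
        exact h1
      commutes' := fun c => by
        apply Subtype.ext
        have h1 := congrArg (fun z : clI v E => (z : Ω)) (ψ.commutes c)
        exact h1 }
  have hbij : Function.Bijective f := by
    refine ⟨f.injective, fun y => ?_⟩
    refine ⟨⟨ψ.symm ⟨y, hen_le_clI y.2⟩, h2 y y.2⟩, ?_⟩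
    apply Subtype.ext
    show (ψ (ψ.symm ⟨y, hen_le_clI y.2⟩) : Ω) = y
    rw [AlgEquiv.apply_symm_apply]
  exact ⟨AlgEquiv.ofBijective f hbij, fun x => rfl⟩

variable [hp : Fact p.Prime] [CharP Ω p] {n : ℕ} {s s' : Fin n → Ω}

/-- Over a complete field: the automorphism `ψ θ` of the closure, `ψ` near the identity, with the
values `s'` at `s`, maps the henselization onto itself. -/
theorem exists_hen_aut [IsAlgClosed k] [CharP k p] (h0 : Ctx0 k v)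
    (hc : CompleteV v) (hE : E.FG) (hBD : BD p v E) {e κ₀ κ₁ : ℝ} (he : 0 ≤ e) (hκ₀ : 0 < κ₀)
    (hκ₁ : 2 * e < (p - 1) * κ₁) (hs : PBasis p (clI v E) s) (ho : OI p v (clI v E) s e)
    (hsH : ∀ i, s i ∈ hen v E) (hsH' : ∀ i, s' i ∈ hen v E)
    (θ : clI v E ≃ₐ[k] clI v E)
    (hθ : ∀ x : clI v E, ∀ b : ℝ, v.Ge b (x : Ω) → v.Ge (b + κ₀) ((θ x : Ω) - x))
    (hn : ∀ i, v.Ge (v (θ ⟨s i, hs.mem i⟩ : Ω) + (κ₁ + e)) (s' i - θ ⟨s i, hs.mem i⟩)) :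
    ∃ ψ : hen v E ≃ₐ[k] hen v E, (∀ i, (ψ ⟨s i, hsH i⟩ : Ω) = s' i) ∧
      ∀ x : hen v E, ∀ b : ℝ, v.Ge b (x : Ω) →
        v.Ge (b + κ₁) ((ψ x : Ω) - θ ⟨x, hen_le_clI x.2⟩) := by
  obtain ⟨m, t₀, ht₀, C, ho₀⟩ := hBD
  have hcl : PBasis p (clI v E) t₀ :=
    pbasis_cl hc ht₀ (OI.of_orth_pb ho₀ ht₀) fun i => pb_ne ht₀ i
  have hK : Cld v (clI v E) := cld_clI v E
  have hHK : hen v E ≤ clI v E := hen_le_clI
  have hp1 : (0 : ℝ) < (p : ℝ) - 1 := by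
    have := hp.out.two_le
    have h2 : (2 : ℝ) ≤ p := by exact_mod_cast this
    linarith
  have hκ₁0 : 0 < κ₁ := by
    by_contra h
    push Not at h
    have := mul_nonpos_of_nonneg_of_nonpos hp1.le h
    linarith
  have ht : PBasis p (clI v E) fun i => (θ ⟨s i, hs.mem i⟩ : Ω) := pbasis_map hs θ
  have hot : OI p v (clI v E) (fun i => (θ ⟨s i, hs.mem i⟩ : Ω)) e := oi_map hs ho θ hκ₀ hθ
  have hD : Dt p v (clI v E) (clI v E) (fun i => (θ ⟨s i, hs.mem i⟩ : Ω)) s' e (κ₁ + e) κ₁ :=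
    ⟨hc, hK, le_rfl, ht, hot, ⟨pb_ne ht, fun i => hHK (hsH' i), hn, by linarith⟩, he, hκ₁, le_rfl⟩
  obtain ⟨χ, h1, h2⟩ := hD.exists_aut h0
  have hs₂ : PBasis p (clI v E) s' := by
    have h3 := pbasis_map ht χ
    have e1 : (fun i => (χ ⟨(θ ⟨s i, hs.mem i⟩ : Ω), ht.mem i⟩ : Ω)) = s' :=
      funext fun i => h1 i (ht.mem i)
    rwa [e1] at h3
  have h3 : ∀ i, ∀ hi : s i ∈ clI v E, ((θ.trans χ) ⟨s i, hi⟩ : Ω) = s' i := fun i hi =>
    h1 i (ht.mem i)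
  have hsep₁ := sep_of_pbasis hE ht₀ hcl hs hsH
  have hsep₂ := sep_of_pbasis hE ht₀ hcl hs₂ hsH'
  have hst₁ : ∀ y, ∀ hy : y ∈ hen v E, ((θ.trans χ) ⟨y, hHK hy⟩ : Ω) ∈ hen v E := fun y hy =>
    hen_stable hsH hsH' hsep₁ ((θ.trans χ : clI v E ≃ₐ[k] clI v E) : clI v E →ₐ[k] clI v E) h3 hy
  have hst₂ : ∀ y, ∀ hy : y ∈ hen v E, ((θ.trans χ).symm ⟨y, hHK hy⟩ : Ω) ∈ hen v E := fun y hy =>
    hen_stable hsH' hsH hsep₂ (((θ.trans χ).symm : clI v E ≃ₐ[k] clI v E) : clI v E →ₐ[k] clI v E)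
      (fun i hi => by
        have h8 : (⟨s' i, hi⟩ : clI v E) = (θ.trans χ) ⟨s i, hs.mem i⟩ :=
          Subtype.ext (h3 i (hs.mem i)).symm
        show ((θ.trans χ).symm ⟨s' i, hi⟩ : Ω) = s i
        rw [h8, AlgEquiv.symm_apply_apply]) hy
  obtain ⟨f, hf⟩ := exists_restr (θ.trans χ) hst₁ hst₂
  refine ⟨f, fun i => ?_, fun x b hb => ?_⟩
  · rw [hf]
    exact h3 i _
  · rw [hf]
    have h4 : v.Ge b (θ ⟨x, hHK x.2⟩ : Ω) := by
      have e1 : (θ ⟨x, hHK x.2⟩ : Ω) = ((θ ⟨x, hHK x.2⟩ : Ω) - x) + x := by ring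
      rw [e1]
      exact ((hθ ⟨x, hHK x.2⟩ b hb).mono (by linarith)).add hb
    exact h2 (θ ⟨x, hHK x.2⟩) b h4

end

section

variable {k Ω Ω' : Type u} [Field k] [Field Ω] [Algebra k Ω] [Field Ω'] [Algebra k Ω']
  {v : RVal Ω} {w : RVal Ω'} {ι : Ω →ₐ[k] Ω'} {E : IntermediateField k Ω} {p : ℕ}

/-- The image of an element of the henselization. -/
theorem map_mem_hen [IsAlgClosed Ω] (hd : IsoE v w ι) {x : Ω} (hx : x ∈ hen v E) :
    ι x ∈ hen w (E.map ι) := by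
  rw [hd.hen_map]
  exact ⟨x, hx, rfl⟩

theorem map_mem_cl [IsAlgClosed Ω] (hd : IsoE v w ι) {x : Ω} (hx : x ∈ hen v E) :
    ι x ∈ clI w (E.map ι) := hen_le_clI (map_mem_hen hd hx)

/-- An automorphism of the henselization of the image, as an automorphism of `Ω`. -/
theorem exists_pull_aut [IsAlgClosed Ω] (hd : IsoE v w ι) (hΩ : ∀ g : Ω, IsAlgebraic E g)
    (ψ : hen w (E.map ι) ≃ₐ[k] hen w (E.map ι)) :
    ∃ Φ : Ω ≃ₐ[k] Ω, (∀ x ∈ hen v E, Φ x ∈ hen v E) ∧ (∀ x ∈ hen v E, ∃ y ∈ hen v E, Φ y = x) ∧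
      ∀ x, ∀ hx : x ∈ hen v E, ι (Φ x) = ψ ⟨ι x, map_mem_hen hd hx⟩ := by
  have hh : hen w (E.map ι) = (hen v E).map ι := hd.hen_map E
  have hdown : ∀ x ∈ hen w (E.map ι), ∃ y ∈ hen v E, ι y = x := by
    intro x hx
    rw [hh] at hx
    exact hx
  have hup : ∀ y, y ∈ hen v E → ι y ∈ hen w (E.map ι) := fun y hy => map_mem_hen hd hy
  have hex : ∀ x : hen v E, ∃ y : hen v E, ι y = ψ ⟨ι x, hup x x.2⟩ := by
    intro x
    obtain ⟨y, hy, h3⟩ := hdown _ (ψ ⟨ι x, hup x x.2⟩).2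
    exact ⟨⟨y, hy⟩, h3⟩
  choose f hf using hex
  have hinj : ∀ x y : Ω, ι x = ι y → x = y := fun x y h => TWM.Dense.inj ι h
  let F : hen v E →ₐ[k] hen v E :=
    { toFun := f
      map_one' := by
        apply Subtype.ext
        apply hinj
        rw [hf]
        have e1 : (⟨ι (1 : hen v E), hup _ (1 : hen v E).2⟩ : hen w (E.map ι)) = 1 :=
          Subtype.ext (map_one ι)
        rw [e1, map_one]
        exact (map_one ι).symm
      map_mul' := fun x y => by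
        apply Subtype.ext
        apply hinj
        rw [hf]
        have e1 : (⟨ι ((x * y : hen v E) : Ω), hup _ (x * y : hen v E).2⟩ : hen w (E.map ι)) =
            ⟨ι x, hup x x.2⟩ * ⟨ι y, hup y y.2⟩ := Subtype.ext (map_mul ι (x : Ω) y)
        rw [e1, map_mul]
        push_cast
        rw [map_mul, hf, hf]
      map_zero' := by
        apply Subtype.ext
        apply hinj
        rw [hf]
        have e1 : (⟨ι (0 : hen v E), hup _ (0 : hen v E).2⟩ : hen w (E.map ι)) = 0 :=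
          Subtype.ext (map_zero ι)
        rw [e1, map_zero]
        exact (map_zero ι).symm
      map_add' := fun x y => by
        apply Subtype.ext
        apply hinj
        rw [hf]
        have e1 : (⟨ι ((x + y : hen v E) : Ω), hup _ (x + y : hen v E).2⟩ : hen w (E.map ι)) =
            ⟨ι x, hup x x.2⟩ + ⟨ι y, hup y y.2⟩ := Subtype.ext (map_add ι (x : Ω) y)
        rw [e1, map_add]
        push_cast
        rw [map_add, hf, hf]
      commutes' := fun c => by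
        apply Subtype.ext
        apply hinj
        rw [hf]
        have e1 : (⟨ι (algebraMap k (hen v E) c : hen v E), hup _
            (algebraMap k (hen v E) c : hen v E).2⟩ : hen w (E.map ι)) =
            algebraMap k (hen w (E.map ι)) c := Subtype.ext (ι.commutes c)
        rw [e1, ψ.commutes]
        exact (ι.commutes c).symm }
  have hbij : Function.Bijective F := by
    refine ⟨F.injective, fun y => ?_⟩
    obtain ⟨x, hx, h3⟩ := hdown _ (ψ.symm ⟨ι y, hup y y.2⟩).2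
    refine ⟨⟨x, hx⟩, ?_⟩
    apply Subtype.ext
    apply hinj
    show ι (f ⟨x, hx⟩) = ι y
    rw [hf]
    have e1 : (⟨ι x, hup x hx⟩ : hen w (E.map ι)) = ψ.symm ⟨ι y, hup y y.2⟩ := Subtype.ext h3
    show ((ψ ⟨ι x, hup x hx⟩ : hen w (E.map ι)) : Ω') = ι y
    rw [e1, AlgEquiv.apply_symm_apply]
  obtain ⟨Φ, hΦ⟩ := exists_ext_hen hΩ (AlgEquiv.ofBijective F hbij)
  have hΦf : ∀ x, ∀ hx : x ∈ hen v E, Φ x = f ⟨x, hx⟩ := fun x hx => hΦ ⟨x, hx⟩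
  refine ⟨Φ, fun x hx => ?_, fun x hx => ?_, fun x hx => ?_⟩
  · rw [hΦf x hx]
    exact (f _).2
  · obtain ⟨y, hy⟩ := hbij.2 ⟨x, hx⟩
    refine ⟨y, y.2, ?_⟩
    rw [hΦf y y.2]
    exact congrArg Subtype.val hy
  · rw [hΦf x hx, hf]

variable [hp : Fact p.Prime] [CharP Ω' p] {n : ℕ}

/-- **HENAUT**, general form: `θ` an automorphism of the closure near the identity, `s` a `p`-basis
in the henselization, `s'` in the henselization near `θ s`. -/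
theorem henaut_gen [IsAlgClosed k] [IsAlgClosed Ω] [CharP k p] (hd : IsoE v w ι)
    (h0 : Ctx0 k w) (hc : CompleteV w) (hE : E.FG) (hΩ : ∀ g : Ω, IsAlgebraic E g)
    (hBD : BD p v E) {e κ₀ κ₁ : ℝ} (he : 0 ≤ e) (hκ₀ : 0 < κ₀)
    (hκ₁ : 2 * e < (p - 1) * κ₁) {s s' : Fin n → Ω}
    (hs : PBasis p (clI w (E.map ι)) fun i => ι (s i))
    (ho : OI p w (clI w (E.map ι)) (fun i => ι (s i)) e)
    (hsH : ∀ i, s i ∈ hen v E) (hsH' : ∀ i, s' i ∈ hen v E)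
    (θ : clI w (E.map ι) ≃ₐ[k] clI w (E.map ι))
    (hθ : ∀ x : clI w (E.map ι), ∀ b : ℝ, w.Ge b (x : Ω') → w.Ge (b + κ₀) ((θ x : Ω') - x))
    (hn : ∀ i, w.Ge (v (s i) + (κ₁ + e)) (ι (s' i) - θ ⟨ι (s i), hs.mem i⟩)) :
    ∃ τ : Ω ≃ₐ[k] Ω, (∀ x ∈ hen v E, τ x ∈ hen v E) ∧ (∀ x ∈ hen v E, ∃ y ∈ hen v E, τ y = x) ∧
      (∀ x ∈ hen v E, ∀ b : ℝ, v.Ge b x → v.Ge (b + min κ₀ κ₁) (τ x - x)) ∧
      (∀ i, τ (s i) = s' i) ∧
      ∀ x, ∀ hx : x ∈ hen v E, ∀ b : ℝ, v.Ge b x →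
        w.Ge (b + κ₁) (ι (τ x) - θ ⟨ι x, map_mem_cl hd hx⟩) := by
  have hsne : ∀ i, s i ≠ 0 := by
    intro i hi
    exact pb_ne hs i (by rw [hi, map_zero])
  have hn' : ∀ i, w.Ge (w (θ ⟨ι (s i), hs.mem i⟩ : Ω') + (κ₁ + e))
      (ι (s' i) - θ ⟨ι (s i), hs.mem i⟩) := by
    intro i
    have h1 : w.Ge (w (ι (s i)) + κ₀) ((θ ⟨ι (s i), hs.mem i⟩ : Ω') - ι (s i)) :=
      hθ ⟨ι (s i), hs.mem i⟩ _ (w.ge_self _)
    have h2 : Gt w (w (ι (s i))) (ι (s i) - (θ ⟨ι (s i), hs.mem i⟩ : Ω')) := by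
      have h3 := (Gt.of_ge h1 (show w (ι (s i)) < w (ι (s i)) + κ₀ by linarith)).neg
      rwa [neg_sub] at h3
    obtain ⟨h3, h4⟩ := Gt.val_eq (pb_ne hs i) h2
    rw [h4, hd.val _ (hsne i)]
    exact hn i
  obtain ⟨ψ, h1, h2⟩ := exists_hen_aut h0 hc (TWM.Dense.fg_map hE) ((iso_bd hd).2 hBD) he hκ₀ hκ₁
    hs ho (fun i => map_mem_hen hd (hsH i)) (fun i => map_mem_hen hd (hsH' i)) θ hθ hn'
  obtain ⟨τ, h3, h4, h5⟩ := exists_pull_aut hd hΩ ψ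
  have h6 : ∀ x, ∀ hx : x ∈ hen v E, ∀ b : ℝ, v.Ge b x →
      w.Ge (b + κ₁) (ι (τ x) - θ ⟨ι x, map_mem_cl hd hx⟩) := by
    intro x hx b hb
    rw [h5 x hx]
    exact h2 ⟨ι x, map_mem_hen hd hx⟩ b (hd.ge_iff.2 hb)
  refine ⟨τ, h3, h4, fun x hx b hb => ?_, fun i => ?_, h6⟩
  · rw [← hd.ge_iff, map_sub]
    have e1 : ι (τ x) - ι x = (ι (τ x) - θ ⟨ι x, map_mem_cl hd hx⟩) +
        ((θ ⟨ι x, map_mem_cl hd hx⟩ : Ω') - ι x) := by ring
    rw [e1]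
    exact ((h6 x hx b hb).mono (by linarith [min_le_right κ₀ κ₁])).add
      ((hθ ⟨ι x, map_mem_cl hd hx⟩ b (hd.ge_iff.2 hb)).mono (by linarith [min_le_left κ₀ κ₁]))
  · apply TWM.Dense.inj ι
    rw [h5 (s i) (hsH i)]
    exact h1 i

/-- **HENAUT**, near a given automorphism of the closure, with any gain. -/
theorem henaut_near [IsAlgClosed k] [IsAlgClosed Ω] [CharP k p] (hd : IsoE v w ι)
    (h0 : Ctx0 k w) (hc : CompleteV w) (hE : E.FG) (hΩ : ∀ g : Ω, IsAlgebraic E g)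
    (hBD : BD p v E) {e κ₀ κ₁ : ℝ} (he : 0 ≤ e) (hκ₀ : 0 < κ₀)
    (hκ₁ : 2 * e < (p - 1) * κ₁) {s : Fin n → Ω}
    (hs : PBasis p (clI w (E.map ι)) fun i => ι (s i))
    (ho : OI p w (clI w (E.map ι)) (fun i => ι (s i)) e)
    (hsH : ∀ i, s i ∈ hen v E)
    (θ : clI w (E.map ι) ≃ₐ[k] clI w (E.map ι))
    (hθ : ∀ x : clI w (E.map ι), ∀ b : ℝ, w.Ge b (x : Ω') → w.Ge (b + κ₀) ((θ x : Ω') - x)) :
    ∃ τ : Ω ≃ₐ[k] Ω, (∀ x ∈ hen v E, τ x ∈ hen v E) ∧ (∀ x ∈ hen v E, ∃ y ∈ hen v E, τ y = x) ∧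
      (∀ x ∈ hen v E, ∀ b : ℝ, v.Ge b x → v.Ge (b + min κ₀ κ₁) (τ x - x)) ∧
      ∀ x, ∀ hx : x ∈ hen v E, ∀ b : ℝ, v.Ge b x →
        w.Ge (b + κ₁) (ι (τ x) - θ ⟨ι x, map_mem_cl hd hx⟩) := by
  have hch : ∀ i, ∃ y ∈ hen v E, w.Ge (v (s i) + (κ₁ + e)) (ι y - θ ⟨ι (s i), hs.mem i⟩) := by
    intro i
    obtain ⟨_, ⟨y, hy, rfl⟩, h2⟩ := mem_clI.1 (θ ⟨ι (s i), hs.mem i⟩).2 (v (s i) + (κ₁ + e))
    have h3 := h2.neg
    rw [neg_sub] at h3
    exact ⟨y, le_hen E hy, h3⟩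
  choose s' hs' hn using hch
  obtain ⟨τ, h1, h2, h3, -, h4⟩ := henaut_gen hd h0 hc hE hΩ hBD he hκ₀ hκ₁ hs ho hsH hs' θ hθ hn
  exact ⟨τ, h1, h2, h3, h4⟩

/-- **HENAUT**: automorphisms with prescribed values at a `p`-basis. -/
theorem henaut [IsAlgClosed k] [IsAlgClosed Ω] [CharP k p] (hd : IsoE v w ι)
    (h0 : Ctx0 k w) (hc : CompleteV w) (hE : E.FG) (hΩ : ∀ g : Ω, IsAlgebraic E g)
    (hBD : BD p v E) {e κ₁ : ℝ} (he : 0 ≤ e)
    (hκ₁ : 2 * e < (p - 1) * κ₁) {s s' : Fin n → Ω}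
    (hs : PBasis p (clI w (E.map ι)) fun i => ι (s i))
    (ho : OI p w (clI w (E.map ι)) (fun i => ι (s i)) e)
    (hsH : ∀ i, s i ∈ hen v E) (hsH' : ∀ i, s' i ∈ hen v E)
    (hn : ∀ i, v.Ge (v (s i) + (κ₁ + e)) (s' i - s i)) :
    ∃ τ : Ω ≃ₐ[k] Ω, (∀ x ∈ hen v E, τ x ∈ hen v E) ∧ (∀ x ∈ hen v E, ∃ y ∈ hen v E, τ y = x) ∧
      (∀ x ∈ hen v E, ∀ b : ℝ, v.Ge b x → v.Ge (b + κ₁) (τ x - x)) ∧
      ∀ i, τ (s i) = s' i := by
  have hp1 : (0 : ℝ) < (p : ℝ) - 1 := by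
    have := hp.out.two_le
    have h2 : (2 : ℝ) ≤ p := by exact_mod_cast this
    linarith
  have hκ₁0 : 0 < κ₁ := by
    by_contra h
    push Not at h
    have := mul_nonpos_of_nonneg_of_nonpos hp1.le h
    linarith
  obtain ⟨τ, h1, h2, h3, h4, -⟩ := henaut_gen hd h0 hc hE hΩ hBD he hκ₁0 hκ₁ hs ho hsH hsH'
    (AlgEquiv.refl) (fun x b _ => by
      show w.Ge (b + κ₁) ((x : Ω') - x)
      rw [sub_self]
      exact RVal.Ge.zero) (fun i => by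
      show w.Ge (v (s i) + (κ₁ + e)) (ι (s' i) - ι (s i))
      rw [← map_sub, hd.ge_iff]
      exact hn i)
  refine ⟨τ, h1, h2, fun x hx b hb => ?_, h4⟩
  have h5 := h3 x hx b hb
  rwa [min_self] at h5

end

section

variable {k Ω : Type u} [Field k] [Field Ω] [Algebra k Ω] {v : RVal Ω}
  {H : IntermediateField k Ω}

/-- The inverse of an automorphism with a margin. -/
theorem symm_gain {τ : Ω ≃ₐ[k] Ω} {κ : ℝ} (hκ : 0 < κ) (h2 : ∀ x ∈ H, ∃ y ∈ H, τ y = x)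
    (h3 : ∀ x ∈ H, ∀ b : ℝ, v.Ge b x → v.Ge (b + κ) (τ x - x)) :
    ∀ x ∈ H, ∀ b : ℝ, v.Ge b x → v.Ge (b + κ) (τ.symm x - x) := by
  intro x hx b hb
  obtain ⟨y, hy, rfl⟩ := h2 x hx
  rw [AlgEquiv.symm_apply_apply]
  by_cases hy0 : y = 0
  · rw [hy0, map_zero, sub_zero]
    exact RVal.Ge.zero
  have h4 : Gt v (v y) (y - τ y) := by
    have h5 := (Gt.of_ge (h3 y hy _ (v.ge_self y)) (show v y < v y + κ by linarith)).neg
    rwa [neg_sub] at h5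
  obtain ⟨h5, h6⟩ := Gt.val_eq hy0 h4
  have h7 : b ≤ v y := by
    rw [← h6]
    exact hb h5
  have h8 := (h3 y hy b fun _ => h7).neg
  rwa [neg_sub] at h8

/-- The inverse is stable. -/
theorem symm_stable {τ : Ω ≃ₐ[k] Ω} (h2 : ∀ x ∈ H, ∃ y ∈ H, τ y = x) :
    ∀ x ∈ H, τ.symm x ∈ H := by
  intro x hx
  obtain ⟨y, hy, rfl⟩ := h2 x hx
  rwa [AlgEquiv.symm_apply_apply]

theorem symm_surj {τ : Ω ≃ₐ[k] Ω} (h1 : ∀ x ∈ H, τ x ∈ H) :
    ∀ x ∈ H, ∃ y ∈ H, τ.symm y = x :=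
  fun x hx => ⟨τ x, h1 x hx, AlgEquiv.symm_apply_apply τ x⟩

/-- **Motions and inverses of automorphisms near the identity.** -/
theorem mot_comp_symm {K₀ : IntermediateField k Ω} {φ Φ : ℕ → (Ω ≃ₐ[k] Ω)} {δ : ℕ → Ω} {μ κ : ℝ}
    (hM : Mot v K₀ φ δ μ) (hκ : 0 < κ) (h2 : ∀ i, ∀ x ∈ hen v K₀, Φ i x ∈ hen v K₀)
    (h3 : ∀ i, ∀ x ∈ hen v K₀, ∃ y ∈ hen v K₀, Φ i y = x)
    (h4 : ∀ i, ∀ x ∈ hen v K₀, ∀ b : ℝ, v.Ge b x → v.Ge (b + κ) (Φ i x - x)) :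
    Mot v K₀ (fun i => (φ i).trans (Φ i).symm) δ μ :=
  mot_comp hM hκ (fun i => symm_stable (h3 i)) (fun i => symm_surj (h2 i))
    fun i => symm_gain hκ (h3 i) (h4 i)

end

end Stb

end Pool.Agent.TWMF
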