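import Pool.Agent.Lib.TWMF.E0

/-!
# TANK W, exit, 7: evaluation

`exists_mot_all`: motions from exit data, for all the radii near `σ`.
`eval_quot`: the value of `P / Q` at the moved coordinates is the value of its jets.
-/

set_option autoImplicit false

open Polynomial Filter Topology

namespace Pool.Agent.TWMF

open Pool.Agent.H15JM (RVal)
open Pool.Agent.LU1 (VPos adj)
open Pool.Agent.D2 (Ctx0)
open Pool.Agent.D2P (hen hen_hen le_hen hen_mono hen_le mem_hen clI mem_clI)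
open Pool.Agent.TWM (Gt CompleteV)
open Pool.Agent.TWS (IsoE)
open Pool.Agent.TWLM (HSd Oi Arc)
open Pool.Agent.TW WM13

universe u

variable {k Ω : Type u} [Field k] [Field Ω] [Algebra k Ω] {v : RVal Ω}

/-- **Motions from exit data, all the radii near `σ`.** -/
theorem exists_mot_all [IsAlgClosed k] [IsAlgClosed Ω] {p : ℕ} {r : ℕ}
    (h : Ctx k v r) {K₀ : IntermediateField k Ω} (hK : K₀.FG) (hΩ : ∀ g : Ω, IsAlgebraic K₀ g)
    {m : ℕ} {t : Fin m → Ω} {H : Fin m → Polynomial Ω} {σ : ℝ} (hX : XW k p v t H σ)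
    (ht : hen v K₀ = hen v (kr k t))
    (hgen : ∀ B₀ : ℝ, ∃ Λ : ℝ, ∀ (d d' : Ω) (E : IntermediateField k Ω), v.Ge B₀ d →
      v.Ge Λ (d - d') → E.FG → E ≤ hen v K₀ → d' ∈ E → (∀ i, mv H d i ∈ E) →
      hen v E = hen v K₀)
    (S : Finset Ω) (hS : ∀ f ∈ S, f ∈ hen v K₀) {ε₀ : ℝ} (hε₀ : 0 < ε₀) :
    ∃ (ρ₀ ε : ℝ), 0 < ε ∧ ρ₀ < σ ∧ σ - ε₀ ≤ ρ₀ ∧ ∀ ρ : ℝ, ρ₀ < ρ → ρ < σ →
      (∀ (m : ℤ) (f : Ω), m ≠ 0 → f ≠ 0 → v f ≠ m * ρ) →
      ∃ (φ : ℕ → (Ω ≃ₐ[k] Ω)) (c : ℕ → Ω),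
        (∀ i, c i ∈ kr k t) ∧ (∀ i, v.Ge ρ₀ (c i ^ p)) ∧ (∀ i, c i ≠ 0 ∧ v (c i ^ p) < ρ) ∧
        (∀ i j, φ i (t j) = mv H (c i ^ p) j) ∧ (∀ i, ∀ f ∈ S, Rc v ε (φ i) f) ∧
        (∀ i, ∀ f ∈ S, φ i f ∈ hen v K₀) ∧
        Mot v K₀ φ (fun i => c i ^ p) ρ := by
  classical
  set B : IntermediateField k Ω := ⊥ with hB
  have hfg : B.FG := IntermediateField.fg_bot
  have htE : hen v K₀ = hen v (nadj (hen v B) t) := by rw [nadj_bot, ht]
  obtain ⟨T, L, hTne, hSL, hKL, hEL, hLE, hmot⟩ := exists_mot_coord h hK hΩ hfg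
    (algInd_bot (v := v) hX.ind) htE S hS
  -- the control
  obtain ⟨ε, hε, hctl⟩ := TWEX.ctl_of_str (v := v) (N := hen v B) (H := H) (t := t) (σ := σ) hX.c0
    (fun P hP l hl => by
      obtain ⟨P', hP'⟩ := exists_poly_bot (v := v) P
      rw [hP' Ω t, hP' (Polynomial Ω) H]
      refine hX.str P' (fun h0 => hP ?_) l hl
      have h1 := hP' Ω t
      rw [h0, map_zero] at h1
      exact (algInd_bot (v := v) hX.ind).eq_zero_of_aeval_eq_zero P h1) T (fun P hP h0 => by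
      apply hTne P hP
      rw [h0, map_zero])
  obtain ⟨Λ, hΛ⟩ := hgen (σ - 1)
  obtain ⟨σ₀, hσ₀, hamt⟩ := hX.amt Λ
  -- the radius
  obtain ⟨σ₁, hσ₁, hcross⟩ := hX.cross
  obtain ⟨lo, hlo⟩ : ∃ lo, lo = max (max (max σ₀ σ₁) (σ - ε)) (max (σ - ε₀) (σ - 1)) := ⟨_, rfl⟩
  have hlo1 : σ₀ ≤ lo := by
    rw [hlo]
    exact ((le_max_left _ _).trans (le_max_left _ _)).trans (le_max_left _ _)
  have hlo5 : σ₁ ≤ lo := by
    rw [hlo]
    exact ((le_max_right _ _).trans (le_max_left _ _)).trans (le_max_left _ _)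
  have hlo2 : σ - ε ≤ lo := by
    rw [hlo]
    exact (le_max_right _ _).trans (le_max_left _ _)
  have hlo3 : σ - ε₀ ≤ lo := by
    rw [hlo]
    exact (le_max_left _ _).trans (le_max_right _ _)
  have hlo4 : σ - 1 ≤ lo := by
    rw [hlo]
    exact (le_max_right _ _).trans (le_max_right _ _)
  have hlt : lo < σ := by
    rw [hlo]
    refine max_lt (max_lt (max_lt hσ₀ hσ₁) (by linarith)) (max_lt (by linarith) (by linarith))
  refine ⟨lo, ε, hε, hlt, hlo3, fun ρ hρ1 hρ2 hirr => ?_⟩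
  obtain ⟨P₀, l', hl', hb', hcr'⟩ := hcross ρ (by linarith) hρ2
  obtain ⟨l, hl, hb, hcr⟩ := cross_gen hirr hl' hb' hcr'
  -- the amounts
  have hex : ∀ i : ℕ, ∃ P Q : MvPolynomial (Fin m) k, ∃ d : Ω, MvPolynomial.aeval t P ≠ 0 ∧
      MvPolynomial.aeval t Q ≠ 0 ∧ d = (MvPolynomial.aeval t P / MvPolynomial.aeval t Q) ^ p ∧
      max lo (ρ - 1 / (i + 1)) < v d ∧ v d < ρ ∧
      v.Ge Λ (d - (MvPolynomial.aeval (mv H d) P / MvPolynomial.aeval (mv H d) Q) ^ p) := by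
    intro i
    exact hamt _ _ (hlo1.trans (le_max_left _ _)) (max_lt hρ1 (by
      have : (0 : ℝ) < 1 / (i + 1) := by positivity
      linarith)) hρ2.le
  choose P Q d hP hQ hd h1 h2 h3 using hex
  obtain ⟨c, hc⟩ : ∃ c : ℕ → Ω, ∀ i, c i = MvPolynomial.aeval t (P i) / MvPolynomial.aeval t (Q i) :=
    ⟨_, fun _ => rfl⟩
  have hcd : ∀ i, c i ^ p = d i := fun i => by rw [hc, hd]
  have hd0 : ∀ i, d i ≠ 0 := fun i => by
    rw [hd]
    exact pow_ne_zero _ (div_ne_zero (hP i) (hQ i))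
  have hdlo : ∀ i, lo < v (d i) := fun i => (le_max_left _ _).trans_lt (h1 i)
  have hlim : Tendsto (fun i => v (d i)) atTop (𝓝 ρ) := by
    have h4 : Tendsto (fun i : ℕ => ρ - 1 / ((i : ℝ) + 1)) atTop (𝓝 ρ) := by
      have := tendsto_one_div_add_atTop_nhds_zero_nat (𝕜 := ℝ)
      simpa using (tendsto_const_nhds (x := ρ)).sub this
    exact tendsto_of_tendsto_of_tendsto_of_le_of_le h4 tendsto_const_nhds
      (fun i => (le_max_right lo _).trans (h1 i).le) (fun i => (h2 i).le)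
  have hsq : Sq v d ρ := ⟨hd0, hlim, hirr⟩
  have hge : ∀ i (c : ℝ), c ≤ lo → v.Ge c (d i) := fun i c hc _ => hc.trans (hdlo i).le
  -- membership
  have htK : ∀ i, t i ∈ hen v K₀ := fun i => by
    rw [ht]
    exact le_hen _ (IntermediateField.subset_adjoin k _ ⟨i, rfl⟩)
  have hHK : ∀ i l, (H i).coeff l ∈ hen v K₀ := by
    intro i l
    by_cases hl : l = 0
    · rw [hl, hX.c0]
      exact htK i
    · obtain ⟨P, Q, -, -, -, h4⟩ := hX.tri i l hl
      rw [h4]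
      exact div_mem (aeval_mem_kr htK P) (aeval_mem_kr htK Q)
  have hcK : ∀ i, c i ∈ kr k t := fun i => by
    rw [hc]
    have h4 : ∀ i, t i ∈ kr k t := fun i => IntermediateField.subset_adjoin k _ ⟨i, rfl⟩
    exact div_mem (aeval_mem_kr h4 _) (aeval_mem_kr h4 _)
  have hdK : ∀ i, d i ∈ hen v K₀ := fun i => by
    rw [hd]
    exact pow_mem (div_mem (aeval_mem_kr htK _) (aeval_mem_kr htK _)) _
  have hmvK : ∀ i j, mv H (d i) j ∈ hen v K₀ := by
    intro i j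
    unfold mv
    rw [eval_eq_sum_range]
    exact sum_mem fun l _ => mul_mem (hHK j l) (pow_mem (hdK i) l)
  -- generation
  have hh : ∀ i, hen v (nadj (hen v B) (mv H (d i))) = hen v K₀ := by
    intro i
    rw [nadj_bot]
    have hm : ∀ j, mv H (d i) j ∈ kr k (mv H (d i)) := fun j =>
      IntermediateField.subset_adjoin k _ ⟨j, rfl⟩
    refine hΛ (d i) _ _ (hge i _ hlo4) (h3 i) ?_ ?_ ?_ hm
    · exact IntermediateField.fg_def.2 ⟨_, Set.finite_range _, rfl⟩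
    · refine IntermediateField.adjoin_le_iff.2 ?_
      rintro _ ⟨j, rfl⟩
      exact hmvK i j
    · exact pow_mem (div_mem (aeval_mem_kr hm _) (aeval_mem_kr hm _)) _
  have hΩt : ∀ g : Ω, IsAlgebraic (nadj (hen v B) t) g :=
    isAlgebraic_of_hen hΩ ((le_hen K₀).trans htE.le)
  obtain ⟨φ, -, h4, h5, -, h7, h6⟩ := hmot hsq (fun i => mv H (d i)) hε
    (fun i => algInd_of_alg (algInd_bot (v := v) hX.ind) hΩt
      (isAlgebraic_of_hen hΩ ((le_hen K₀).trans (hh i).ge)))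
    (fun i R hR => hctl (d i) (hge i _ hlo2) R hR)
    (fun j => fgs_eval hsq (H j)) hh (by
      refine ⟨MvPolynomial.map (algebraMap k (hen v B)) P₀, (MvPolynomial.aeval H P₀).coeff l,
        (l : ℤ), by exact_mod_cast hl, ?_⟩
      have e : (fun i => MvPolynomial.aeval (mv H (d i)) (MvPolynomial.map (algebraMap k (hen v B)) P₀))
          = fun i => (MvPolynomial.aeval H P₀).eval (d i) := by
        funext i
        rw [MvPolynomial.aeval_map_algebraMap, aeval_mv]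
      rw [e]
      exact lts_eval hlim hb hcr)
  refine ⟨φ, c, hcK, fun i => ?_, fun i => ⟨?_, ?_⟩, fun i j => ?_, h5,
    fun i f hf => h7 i f (hSL f hf), ?_⟩
  · rw [hcd]
    exact hge i _ le_rfl
  · rw [hc]
    exact div_ne_zero (hP i) (hQ i)
  · rw [hcd]
    exact h2 i
  · rw [hcd]
    exact h4 i j
  · have e : (fun i => c i ^ p) = d := funext hcd
    rw [e]
    exact h6

/-- **Transport of exit data.** -/
theorem XW.pull {Ω' : Type u} [Field Ω'] [Algebra k Ω'] {w : RVal Ω'} {p m : ℕ} {T : Fin m → Ω'} {H : Fin m → Polynomial Ω'} {σ : ℝ}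
    (hX : XW k p w T H σ) {t : Fin m → Ω} (j : kr k t →ₐ[k] Ω')
    (hjt : ∀ i, ∀ hi : t i ∈ kr k t, j ⟨t i, hi⟩ = T i) (hjv : ∀ e : kr k t, e ≠ 0 → w (j e) = v e) :
    ∃ HE : Fin m → Polynomial (kr k t), (∀ i, (HE i).map (j : kr k t →+* Ω') = H i) ∧
      XW k p v t (fun i => (HE i).map (algebraMap (kr k t) Ω)) σ := by
  have hm : ∀ i, t i ∈ kr k t := fun i => IntermediateField.subset_adjoin k _ ⟨i, rfl⟩
  set tE : Fin m → kr k t := fun i => ⟨t i, hm i⟩ with htE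
  have hjT : (fun i => j (tE i)) = T := funext fun i => hjt i (hm i)
  have hex : ∀ i, ∃ G : Polynomial (kr k t), G.map (j : kr k t →+* Ω') = H i := by
    intro i
    refine exists_lift _ _ fun l => ?_
    by_cases hl : l = 0
    · exact ⟨tE i, by rw [hl, hX.c0]; exact hjt i (hm i)⟩
    · obtain ⟨P, Q, -, -, -, h4⟩ := hX.tri i l hl
      refine ⟨MvPolynomial.aeval tE P / MvPolynomial.aeval tE Q, ?_⟩
      rw [h4, ← hjT, ← map_aeval, ← map_aeval]
      exact map_div₀ j _ _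
  choose HE hHE using hex
  refine ⟨HE, hHE, ?_⟩
  have h1 : XW k p w (fun i => j (tE i)) (fun i => (HE i).map (j : kr k t →+* Ω')) σ := by
    have e : (fun i => (HE i).map (j : kr k t →+* Ω')) = H := funext hHE
    rw [hjT, e]
    exact hX
  have hIj : IsoE (resV v (kr k t)) w j := ⟨fun e he => hjv e he⟩
  exact (h1.comap hIj).map (isoE_val (v := v) (kr k t))

/-- Strict jets, pointwise. -/
def Ptw (v : RVal Ω) (L : IntermediateField k Ω) (σ : ℝ) (Φ : ℕ → Ω → Ω) : Prop :=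
  ∀ l : ℕ, l ≠ 0 → ∀ x ∈ L, ∀ b : ℝ, v.Ge b x → Gt v (b - l * σ) (Φ l x)

theorem ptw_of_arc {L : IntermediateField k Ω} {Φ : ℕ → Ω → Ω} {σ : ℝ} (h : Arc v L σ Φ) :
    Ptw v L σ Φ := by
  intro l hl x hx b hb
  obtain ⟨n, hn, h3⟩ := h.str l hl
  exact Gt.of_ge (h3 x hx b hb) (by linarith)

/-- The norms of the jets. -/
theorem Ptw.norm {L : IntermediateField k Ω} {Φ : ℕ → Ω → Ω} {σ : ℝ} (h : Ptw v L σ Φ)
    (hs : HSd L Φ) (l : ℕ) {x : Ω} (hx : x ∈ L) {b : ℝ} (hb : v.Ge b x) :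
    v.Ge (b - l * σ) (Φ l x) := by
  by_cases hl : l = 0
  · rw [hl, hs.c0 x hx, Nat.cast_zero, zero_mul, sub_zero]
    exact hb
  · exact (h l hl x hx b hb).ge

/-- The jets of the polynomials. -/
theorem coeff_aeval {L : IntermediateField k Ω} {Φ : ℕ → Ω → Ω} (h : HSd L Φ) {m : ℕ}
    {t : Fin m → Ω} {H : Fin m → Polynomial Ω} (ht : ∀ i, t i ∈ L)
    (hH : ∀ i l, (H i).coeff l = Φ l (t i)) (P : MvPolynomial (Fin m) k) :
    MvPolynomial.aeval t P ∈ L ∧ ∀ l, (MvPolynomial.aeval H P).coeff l = Φ l (MvPolynomial.aeval t P) := by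
  have h1 := TWEX.coeff_aeval_H (N := (⊥ : IntermediateField k Ω)) h bot_le (fun a ha l hl => by
    obtain ⟨c, rfl⟩ := IntermediateField.mem_bot.1 ha
    exact h.con l hl c) ht hH (MvPolynomial.map (algebraMap k (⊥ : IntermediateField k Ω)) P)
  rwa [MvPolynomial.aeval_map_algebraMap, MvPolynomial.aeval_map_algebraMap] at h1

/-- The strictness of exit data. -/
theorem str_of_ptw {L : IntermediateField k Ω} {Φ : ℕ → Ω → Ω} {σ : ℝ} (h : HSd L Φ)
    (hst : Ptw v L σ Φ) {m : ℕ} {t : Fin m → Ω} {H : Fin m → Polynomial Ω} (ht : ∀ i, t i ∈ L)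
    (hH : ∀ i l, (H i).coeff l = Φ l (t i)) (P : MvPolynomial (Fin m) k) (l : ℕ) (hl : l ≠ 0) :
    Gt v (v (MvPolynomial.aeval t P) - l * σ) ((MvPolynomial.aeval H P).coeff l) := by
  obtain ⟨h1, h2⟩ := coeff_aeval h ht hH P
  rw [h2]
  exact hst l hl _ h1 _ (RVal.ge_self _)

/-- **The value of the jets.** -/
theorem eval_quot {L : IntermediateField k Ω} {Φ : ℕ → Ω → Ω} {σ : ℝ} (h : HSd L Φ)
    (hst : Ptw v L σ Φ) (hoi : Oi v L σ Φ) {m : ℕ} {t : Fin m → Ω} {H : Fin m → Polynomial Ω} (ht : ∀ i, t i ∈ L)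
    (hH : ∀ i l, (H i).coeff l = Φ l (t i)) (P Q : MvPolynomial (Fin m) k)
    (hQ : MvPolynomial.aeval t Q ≠ 0) (c : ℝ) :
    ∃ M₀ : ℕ, ∀ M : ℕ, M₀ ≤ M → ∃ ε : ℝ, 0 < ε ∧ ∀ d : Ω, v.Ge (σ - ε) d →
      v.Ge c (MvPolynomial.aeval (mv H d) P / MvPolynomial.aeval (mv H d) Q -
        ∑ l ∈ Finset.range (M + 1), Φ l (MvPolynomial.aeval t P / MvPolynomial.aeval t Q) * d ^ l) := by
  classical
  obtain ⟨hPL, hP⟩ := coeff_aeval h ht hH P
  obtain ⟨hQL, hQ'⟩ := coeff_aeval h ht hH Q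
  set x := MvPolynomial.aeval t P / MvPolynomial.aeval t Q with hx
  have hxL : x ∈ L := div_mem hPL hQL
  set F := MvPolynomial.aeval H P with hF
  set G := MvPolynomial.aeval H Q with hG
  set q := MvPolynomial.aeval t Q with hq
  have hPx : MvPolynomial.aeval t P = x * q := by
    rw [hx, div_mul_cancel₀ _ hQ]
  -- the bounds
  obtain ⟨M₀, hM₀⟩ := hoi x hxL (c + 1)
  have hGb : ∀ j : ℕ, v.Ge (v q - j * σ) (G.coeff j) := by
    intro j
    rw [hQ']
    exact hst.norm h j hQL (RVal.ge_self _)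
  -- control of the denominator
  obtain ⟨ε₁, hε₁, hctl⟩ : ∃ ε₁ : ℝ, 0 < ε₁ ∧ ∀ d : Ω, v.Ge (σ - ε₁) d →
      v.Ge (v q + ε₁) (MvPolynomial.aeval (mv H d) Q - q) := by
    obtain ⟨ε₁, h1, h2⟩ := TWEX.ctl_of_str (v := v) (N := (⊥ : IntermediateField k Ω)) (H := H)
      (t := t) (σ := σ) (fun i => by rw [hH, h.c0 _ (ht i)])
      (fun P _ l hl => by
        obtain ⟨h1, h2⟩ := TWEX.coeff_aeval_H (N := (⊥ : IntermediateField k Ω)) h bot_le
          (fun a ha l hl => by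
            obtain ⟨c, rfl⟩ := IntermediateField.mem_bot.1 ha
            exact h.con l hl c) ht hH P
        rw [h2]
        exact hst l hl _ h1 _ (RVal.ge_self _))
      {MvPolynomial.map (algebraMap k (⊥ : IntermediateField k Ω)) Q} (fun P' hP' h0 => by
        rw [Finset.mem_singleton.1 hP'] at h0
        apply hQ
        have h3 : MvPolynomial.aeval t (MvPolynomial.map
            (algebraMap k (⊥ : IntermediateField k Ω)) Q) = q :=
          MvPolynomial.aeval_map_algebraMap _ t Q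
        rw [← h3, h0, map_zero])
    refine ⟨ε₁, h1, fun d hd => ?_⟩
    have h3 := h2 d hd _ (Finset.mem_singleton_self _)
    rw [MvPolynomial.aeval_map_algebraMap, MvPolynomial.aeval_map_algebraMap] at h3
    exact h3
  refine ⟨M₀, fun M hM => ?_⟩
  -- the truncation
  set A : Polynomial Ω := ∑ l ∈ Finset.range (M + 1), C (Φ l x) * X ^ l with hA
  have hAc : ∀ l, A.coeff l = if l < M + 1 then Φ l x else 0 := by
    intro l
    rw [hA, finsetSum_coeff]
    simp only [coeff_C_mul_X_pow]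
    rw [Finset.sum_ite_eq (Finset.range (M + 1)) l]
    simp only [Finset.mem_range]
  have hAd : ∀ d : Ω, A.eval d = ∑ l ∈ Finset.range (M + 1), Φ l x * d ^ l := by
    intro d
    rw [hA, eval_finsetSum]
    exact Finset.sum_congr rfl fun l _ => by rw [eval_mul, eval_C, eval_pow, eval_X]
  set E : Polynomial Ω := F - A * G with hE
  have hEc : ∀ n : ℕ, v.Ge (c + 1 + v q - n * σ) (E.coeff n) := by
    intro n
    have e : E.coeff n = ∑ ij ∈ Finset.HasAntidiagonal.antidiagonal n,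
        (Φ ij.1 x - A.coeff ij.1) * G.coeff ij.2 := by
      rw [hE, coeff_sub, coeff_mul, hP, hPx, h.mul n x hxL q hQL, ← Finset.sum_sub_distrib]
      refine Finset.sum_congr rfl fun ij _ => ?_
      rw [hQ']
      ring
    rw [e]
    refine RVal.Ge.sum _ _ fun ij hij => ?_
    have h1 : ij.1 + ij.2 = n := Finset.HasAntidiagonal.mem_antidiagonal.1 hij
    rw [hAc]
    split_ifs with h2
    · rw [sub_self, zero_mul]
      exact RVal.Ge.zero
    · rw [sub_zero]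
      refine ((hM₀ ij.1 (by omega)).mul (hGb ij.2)).mono ?_
      have h3 : (n : ℝ) = ij.1 + ij.2 := by rw [← h1]; push_cast; ring
      rw [h3]
      linarith
  obtain ⟨D, hD⟩ : ∃ D : ℕ, D = E.natDegree + 1 := ⟨_, rfl⟩
  have hD0 : (0 : ℝ) < D := by
    rw [hD]
    positivity
  refine ⟨min ε₁ (1 / D), lt_min hε₁ (by positivity), fun d hd => ?_⟩
  have hd1 : v.Ge (σ - ε₁) d := hd.mono (by linarith [min_le_left ε₁ (1 / (D : ℝ))])
  have hd2 : v.Ge (σ - 1 / D) d := hd.mono (by linarith [min_le_right ε₁ (1 / (D : ℝ))])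
  have h1 := hctl d hd1
  obtain ⟨h2, h3⟩ := Gt.val_eq hQ (Gt.of_ge (by
    have h4 := h1.neg
    rwa [neg_sub] at h4) (by linarith))
  have hEd : v.Ge (c + v q) (E.eval d) := by
    rw [eval_eq_sum_range]
    refine RVal.Ge.sum _ _ fun n hn => ?_
    refine ((hEc n).mul (TWM.ge_pow hd2 n)).mono ?_
    have h4 : (n : ℝ) ≤ D := by
      rw [hD]
      have := Finset.mem_range.1 hn
      exact_mod_cast this.le
    have h5 : (n : ℝ) * (1 / D) ≤ 1 := by
      rw [mul_one_div, div_le_one hD0]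
      exact h4
    linarith
  have e : MvPolynomial.aeval (mv H d) P / MvPolynomial.aeval (mv H d) Q -
      ∑ l ∈ Finset.range (M + 1), Φ l x * d ^ l = E.eval d / MvPolynomial.aeval (mv H d) Q := by
    rw [hE, Polynomial.eval_sub, eval_mul, ← hAd, ← aeval_mv, hG, ← aeval_mv]
    field_simp
  rw [e]
  intro h4
  have h5 : E.eval d ≠ 0 := fun h0 => h4 (by rw [h0, zero_div])
  rw [v.map_div h5 h2, h3]
  have := hEd h5
  linarith

end Pool.Agent.TWMF
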