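import Pool.Agent.Lib.TWMF.S4

/-!
# TANK W: absorption over a complete field

`exists_abs`: `K` is closed, immediate over `K ^ p`, with a finite `p`-basis; no `a - g ^ p` has value
`> ν`.  For `η ∈ K` of value `≥ ν + κ` there is an automorphism of `K` which maps `a` to
`a + η + b ^ p` and moves every element by at least `κ / 2` more than its value.
-/

set_option autoImplicit false

open Polynomial Finset

namespace Pool.Agent.TWMF

open Pool.Agent.H15JM (RVal)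
open Pool.Agent.LU1 (VPos adj)
open Pool.Agent.D2 (Ctx0)
open Pool.Agent.D2P (hen clI mem_clI mem_adj_self adj_le)
open Pool.Agent.TW (mon pcomb Orth PBasis BD)
open Pool.Agent.TWM

universe u

namespace Stb

variable {k Ω : Type u} [Field k] [Field Ω] [Algebra k Ω] {v : RVal Ω}
  {K : IntermediateField k Ω} {p : ℕ}

theorem not_gt {ν : ℝ} {x : Ω} (h : ¬ Gt v ν x) : x ≠ 0 ∧ v x ≤ ν := by
  rw [Gt] at h
  push Not at h
  exact h

section

variable [hp : Fact p.Prime] [CharP Ω p] {n : ℕ} {s : Fin n → Ω}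

omit hp [CharP Ω p] in
/-- An isometric automorphism transports `p`-bases. -/
theorem pbasis_map (hs : PBasis p K s) (ψ : K ≃ₐ[k] K) :
    PBasis p K fun i => (ψ ⟨s i, hs.mem i⟩ : Ω) := by
  have hm : ∀ c : (Fin n → Fin p) → K,
      (ψ ⟨pcomb s fun α => (c α : Ω), sum_mem fun α _ => mul_mem (pow_mem (c α).2 p)
        (prod_mem fun i _ => pow_mem (hs.mem i) _)⟩ : Ω) =
      pcomb (fun i => (ψ ⟨s i, hs.mem i⟩ : Ω)) fun α => (ψ (c α) : Ω) := by
    intro c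
    have e1 : (⟨pcomb s fun α => (c α : Ω), sum_mem fun α _ => mul_mem (pow_mem (c α).2 p)
        (prod_mem fun i _ => pow_mem (hs.mem i) _)⟩ : K) =
        ∑ α, (c α) ^ p * ∏ i, (⟨s i, hs.mem i⟩ : K) ^ (α i : ℕ) := by
      apply Subtype.ext
      push_cast
      rfl
    rw [e1, map_sum]
    push_cast
    refine Finset.sum_congr rfl fun α _ => ?_
    rw [map_mul, map_pow, map_prod]
    push_cast
    refine congrArg _ (Finset.prod_congr rfl fun i _ => ?_)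
    rw [map_pow]
    push_cast
    rfl
  refine ⟨fun i => (ψ _).2, fun u hu => ?_, fun c hc h0 α => ?_⟩
  · obtain ⟨c, hc, h1⟩ := hs.span _ (ψ.symm ⟨u, hu⟩).2
    refine ⟨fun α => (ψ ⟨c α, hc α⟩ : Ω), fun α => (ψ _).2, ?_⟩
    rw [← hm fun α => ⟨c α, hc α⟩]
    have h2 : ψ.symm ⟨u, hu⟩ = ⟨pcomb s c, by rw [← h1]; exact (ψ.symm ⟨u, hu⟩).2⟩ :=
      Subtype.ext h1
    have h3 := congrArg ψ h2
    rw [AlgEquiv.apply_symm_apply] at h3
    exact congrArg Subtype.val h3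
  · have h1 := hm fun α => ψ.symm ⟨c α, hc α⟩
    simp only [AlgEquiv.apply_symm_apply] at h1
    rw [h0] at h1
    have h2 : (⟨pcomb s fun α => (ψ.symm ⟨c α, hc α⟩ : Ω), sum_mem fun α _ =>
        mul_mem (pow_mem (ψ.symm ⟨c α, hc α⟩).2 p)
        (prod_mem fun i _ => pow_mem (hs.mem i) _)⟩ : K) = 0 := by
      rw [← map_eq_zero_iff ψ ψ.injective]
      exact Subtype.ext h1
    have h3 := hs.ind _ (fun α => (ψ.symm ⟨c α, hc α⟩).2) (congrArg Subtype.val h2) α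
    have h4 : ψ.symm ⟨c α, hc α⟩ = 0 := Subtype.ext h3
    rw [map_eq_zero_iff _ ψ.symm.injective] at h4
    exact congrArg Subtype.val h4

omit hp [CharP Ω p] in
/-- An isometric automorphism transports the distortion. -/
theorem oi_map {e κ : ℝ} (hs : PBasis p K s) (ho : OI p v K s e)
    (ψ : K ≃ₐ[k] K) (hκ : 0 < κ)
    (hψ : ∀ x : K, ∀ b : ℝ, v.Ge b (x : Ω) → v.Ge (b + κ) ((ψ x : Ω) - x)) :
    OI p v K (fun i => (ψ ⟨s i, hs.mem i⟩ : Ω)) e := by
  have hge : ∀ x : K, ∀ b : ℝ, v.Ge b (x : Ω) → v.Ge b (ψ x : Ω) := by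
    intro x b hb
    have e1 : (ψ x : Ω) = ((ψ x : Ω) - x) + x := by ring
    rw [e1]
    exact ((hψ x b hb).mono (by linarith)).add hb
  have hge' : ∀ x : K, ∀ b : ℝ, v.Ge b (ψ x : Ω) → v.Ge b (x : Ω) := by
    intro x b hb hx0
    have h1 := hψ x _ (v.ge_self (x : Ω))
    have h2 : Gt v (v (x : Ω)) ((ψ x : Ω) - x) := Gt.of_ge h1 (by linarith)
    by_contra h3
    have h4 : Gt v (v (x : Ω)) ((ψ x : Ω) - ((ψ x : Ω) - x)) :=
      (Gt.of_ge hb (not_le.1 h3)).sub h2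
    rw [sub_sub_cancel] at h4
    exact lt_irrefl _ (h4 hx0)
  intro c hc b hb α
  have hm : ∀ c : (Fin n → Fin p) → K,
      (ψ (∑ α, (c α) ^ p * ∏ i, (⟨s i, hs.mem i⟩ : K) ^ (α i : ℕ)) : Ω) =
      pcomb (fun i => (ψ ⟨s i, hs.mem i⟩ : Ω)) fun α => (ψ (c α) : Ω) := by
    intro c
    rw [map_sum]
    push_cast
    refine Finset.sum_congr rfl fun α _ => ?_
    rw [map_mul, map_pow, map_prod]
    push_cast
    refine congrArg _ (Finset.prod_congr rfl fun i _ => ?_)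
    rw [map_pow]
    push_cast
    rfl
  have h1 := hm fun α => ψ.symm ⟨c α, hc α⟩
  simp only [AlgEquiv.apply_symm_apply] at h1
  rw [← h1] at hb
  have h2 := hge' _ _ hb
  have h3 := ho (fun α => (ψ.symm ⟨c α, hc α⟩ : Ω)) (fun α => (ψ.symm ⟨c α, hc α⟩).2) b
    (by
      refine Eq.mp ?_ h2
      congr 1
      push_cast
      rfl) α
  have h4 := hge ((ψ.symm ⟨c α, hc α⟩) ^ p * ∏ i, (⟨s i, hs.mem i⟩ : K) ^ (α i : ℕ)) _
    (by
      refine Eq.mp ?_ h3
      congr 1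
      push_cast
      rfl)
  rw [map_mul, map_pow, map_prod, AlgEquiv.apply_symm_apply] at h4
  refine Eq.mp ?_ h4
  congr 1
  push_cast
  refine congrArg _ (Finset.prod_congr rfl fun i _ => ?_)
  rw [map_pow]
  push_cast
  rfl

end

/-- One element moves. -/
theorem nrs_update {X : IntermediateField k Ω} {n : ℕ} {s : Fin (n + 1) → Ω}
    (hs : ∀ i, s i ∈ X) (hs0 : ∀ i, s i ≠ 0) {η : Ω} (hη : η ∈ X) {κ : ℝ} (hκ : 0 < κ)
    (h : v.Ge (v (s 0) + κ) η) : Nrs v X s (Function.update s 0 (s 0 + η)) κ := by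
  refine ⟨hs0, fun i => ?_, fun i => ?_, hκ⟩
  · by_cases hi : i = 0
    · subst hi
      rw [Function.update_self]
      exact add_mem (hs 0) hη
    · rw [Function.update_of_ne hi]
      exact hs i
  · by_cases hi : i = 0
    · subst hi
      rw [Function.update_self, add_sub_cancel_left]
      exact h
    · rw [Function.update_of_ne hi, sub_self]
      exact RVal.Ge.zero

/-- **ABS**, over a complete field. -/
theorem exists_abs [IsAlgClosed k] [IsAlgClosed Ω] [hp : Fact p.Prime] [CharP k p] [CharP Ω p]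
    (h0 : Ctx0 k v) (hc : CompleteV v) (hK : Cld v K)
    (himm : ∀ f ∈ K, f ≠ 0 → ∃ g ∈ K, Gt v (v f) (f - g ^ p))
    {m : ℕ} {t₀ : Fin m → Ω} (ht₀ : PBasis p K t₀) {a η : Ω} (ha : a ∈ K) (hη : η ∈ K)
    {ν κ : ℝ} (hκ : 0 < κ) (hν : ∀ g ∈ K, ¬ Gt v ν (a - g ^ p)) (hην : v.Ge (ν + κ) η) :
    ∃ ψ : K ≃ₐ[k] K, (∃ b ∈ K, (ψ ⟨a, ha⟩ : Ω) = a + η + b ^ p) ∧
      ∀ x : K, ∀ b : ℝ, v.Ge b (x : Ω) → v.Ge (b + κ / 2) ((ψ x : Ω) - x) := by
  have hap : ∀ g ∈ K, a ≠ g ^ p := by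
    intro g hg h1
    refine hν g hg ?_
    rw [h1, sub_self]
    exact fun h2 => absurd rfl h2
  obtain ⟨n, s, hs, ho, hs0, g, hg, h1, -⟩ :=
    exists_base h0 hc hK himm ht₀ ha hap (e := κ / 8) (by linarith)
  have h2 := (not_gt (hν g hg)).2
  rw [← h1] at h2
  have hn := nrs_update hs.mem hs0 hη hκ (hην.mono (by linarith))
  have hp2 : (2 : ℝ) ≤ p := by exact_mod_cast hp.out.two_le
  have hD : Dt p v K K s (Function.update s 0 (s 0 + η)) (κ / 8) κ (κ / 2) :=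
    ⟨hc, hK, le_rfl, hs, ho, hn, by linarith, by nlinarith, by linarith⟩
  obtain ⟨ψ, h3, h4⟩ := hD.exists_aut h0
  refine ⟨ψ, ?_, h4⟩
  have h5 := h3 0 (hs.mem 0)
  rw [Function.update_self] at h5
  have h6 : (⟨a, ha⟩ : K) = ⟨s 0, hs.mem 0⟩ + ⟨g, hg⟩ ^ p := by
    apply Subtype.ext
    push_cast
    rw [h1]
    ring
  refine ⟨(ψ ⟨g, hg⟩ : Ω) - g, sub_mem (ψ _).2 hg, ?_⟩
  rw [h6, map_add, map_pow]
  push_cast
  rw [h5, h1, sub_pow_char]
  ring

end Stb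

end Pool.Agent.TWMF
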