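import Pool.Agent.Lib.TWEX.Ctl
import Pool.Agent.Lib.TWS.Tr

/-!
# TANK W, exit, 1: exit data

`XD k p v T H σ`: `T` are coordinates over `k`, `H i` the polynomials of the motions `T ↦ H(d)`,
`v d` near `σ`: triangular over `k`, strict jets of all the polynomials, amounts `d = (P(T) / Q(T)) ^ p`
of every value near `σ`, changed by the motion of amount `d` as little as we like, and polynomials
which cross.  `XD.map`, `XD.comap`: isometric embeddings.
-/

set_option autoImplicit false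

open Polynomial Filter Topology

namespace Pool.Agent.TWMF

open Pool.Agent.H15JM (RVal)
open Pool.Agent.TWM (Gt)
open Pool.Agent.TWS (IsoE)

universe u

/-- `x` is a quotient of polynomials over `k` in the coordinates `T j`, `j < i`. -/
def Tri (k : Type u) {Ω : Type u} [Field k] [Field Ω] [Algebra k Ω] {m : ℕ} (T : Fin m → Ω)
    (i : Fin m) (x : Ω) : Prop :=
  ∃ P Q : MvPolynomial (Fin m) k, (∀ j ∈ P.vars, j < i) ∧ (∀ j ∈ Q.vars, j < i) ∧
    MvPolynomial.aeval T Q ≠ 0 ∧ x = MvPolynomial.aeval T P / MvPolynomial.aeval T Q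

/-- `H(d)`. -/
noncomputable def mv {Ω : Type u} [Field Ω] {m : ℕ} (H : Fin m → Polynomial Ω) (d : Ω) (i : Fin m) :
    Ω := (H i).eval d

/-- Exit data. -/
structure XD (k : Type u) {Ω : Type u} [Field k] [Field Ω] [Algebra k Ω] (p : ℕ) (v : RVal Ω)
    {m : ℕ} (T : Fin m → Ω) (H : Fin m → Polynomial Ω) (σ : ℝ) : Prop where
  ind : AlgebraicIndependent k T
  c0 : ∀ i, (H i).coeff 0 = T i
  tri : ∀ i, ∀ l : ℕ, l ≠ 0 → Tri k T i ((H i).coeff l)
  str : ∀ P : MvPolynomial (Fin m) k, P ≠ 0 → ∀ l : ℕ, l ≠ 0 →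
    Gt v (v (MvPolynomial.aeval T P) - l * σ) ((MvPolynomial.aeval H P).coeff l)
  amt : ∀ Λ : ℝ, ∃ σ₀ : ℝ, σ₀ < σ ∧ ∀ a b : ℝ, σ₀ ≤ a → a < b → b ≤ σ →
    ∃ P Q : MvPolynomial (Fin m) k, ∃ d : Ω, MvPolynomial.aeval T P ≠ 0 ∧
      MvPolynomial.aeval T Q ≠ 0 ∧ d = (MvPolynomial.aeval T P / MvPolynomial.aeval T Q) ^ p ∧
      a < v d ∧ v d < b ∧
      v.Ge Λ (d - (MvPolynomial.aeval (mv H d) P / MvPolynomial.aeval (mv H d) Q) ^ p)
  cross : ∃ σ₁ : ℝ, σ₁ < σ ∧ ∀ ρ : ℝ, σ₁ < ρ → ρ < σ → ∃ (P : MvPolynomial (Fin m) k) (l : ℕ),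
    l ≠ 0 ∧ (MvPolynomial.aeval H P).coeff l ≠ 0 ∧ ∀ i : ℕ, i ≠ l →
      Gt v (v ((MvPolynomial.aeval H P).coeff l) + l * ρ - i * ρ) ((MvPolynomial.aeval H P).coeff i)

/-- Crossing, two terms. -/
theorem cross_of_two {k Ω : Type u} [Field k] [Field Ω] [Algebra k Ω] {v : RVal Ω} {m : ℕ}
    {T : Fin m → Ω} {H : Fin m → Polynomial Ω} {ρ : ℝ} {P : MvPolynomial (Fin m) k} {b : Ω} {l : ℕ}
    (hl : l ≠ 0) (hb : b ≠ 0)
    (h1 : MvPolynomial.aeval H P = C (MvPolynomial.aeval T P) + C b * X ^ l)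
    (h2 : Gt v (v b + l * ρ) (MvPolynomial.aeval T P)) :
    (MvPolynomial.aeval H P).coeff l ≠ 0 ∧ ∀ i : ℕ, i ≠ l →
      Gt v (v ((MvPolynomial.aeval H P).coeff l) + l * ρ - i * ρ)
        ((MvPolynomial.aeval H P).coeff i) := by
  have h3 : (MvPolynomial.aeval H P).coeff l = b := by
    rw [h1, coeff_add, coeff_C_mul, coeff_X_pow, if_pos rfl, mul_one, coeff_C, if_neg hl, zero_add]
  refine ⟨by rw [h3]; exact hb, fun i hi => ?_⟩
  rw [h3, h1, coeff_add, coeff_C_mul, coeff_X_pow, if_neg hi, mul_zero, add_zero, coeff_C]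
  split_ifs with h4
  · rw [h4, Nat.cast_zero, zero_mul, sub_zero]
    exact h2
  · exact TWM.Gt.zero

section Map

variable {k E Ω : Type u} [Field k] [Field E] [Algebra k E] [Field Ω] [Algebra k Ω]
  {f : E →ₐ[k] Ω} {m : ℕ} {T : Fin m → E} {H : Fin m → Polynomial E}

theorem map_aeval (f : E →ₐ[k] Ω) (T : Fin m → E) (P : MvPolynomial (Fin m) k) :
    f (MvPolynomial.aeval T P) = MvPolynomial.aeval (fun i => f (T i)) P :=
  MvPolynomial.comp_aeval_apply T f P

theorem map_aevalH (f : E →ₐ[k] Ω) (H : Fin m → Polynomial E) (P : MvPolynomial (Fin m) k) :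
    (MvPolynomial.aeval H P).map (f : E →+* Ω) =
      MvPolynomial.aeval (fun i => (H i).map (f : E →+* Ω)) P :=
  MvPolynomial.comp_aeval_apply H (Polynomial.mapAlgHom f) P

theorem map_mv (f : E →ₐ[k] Ω) (H : Fin m → Polynomial E) (d : E) (i : Fin m) :
    mv (fun i => (H i).map (f : E →+* Ω)) (f d) i = f (mv H d i) := by
  unfold mv
  rw [eval_map]
  exact eval₂_at_apply (f : E →+* Ω) d

theorem map_tri {i : Fin m} {x : E} : Tri k (fun i => f (T i)) i (f x) ↔ Tri k T i x := by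
  constructor
  · rintro ⟨P, Q, h1, h2, h3, h4⟩
    rw [← map_aeval, ← map_aeval, ← map_div₀] at h4
    rw [← map_aeval] at h3
    exact ⟨P, Q, h1, h2, fun h0 => h3 (by rw [h0, map_zero]), f.injective h4⟩
  · rintro ⟨P, Q, h1, h2, h3, rfl⟩
    refine ⟨P, Q, h1, h2, ?_, ?_⟩
    · rw [← map_aeval]
      exact IsoE.ne_zero h3
    · rw [map_div₀, map_aeval, map_aeval]

variable {p : ℕ} {u : RVal E} {v : RVal Ω} {σ : ℝ}

theorem amt_map (P Q : MvPolynomial (Fin m) k) (d : E) :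
    f (d - (MvPolynomial.aeval (mv H d) P / MvPolynomial.aeval (mv H d) Q) ^ p) =
      f d - (MvPolynomial.aeval (mv (fun i => (H i).map (f : E →+* Ω)) (f d)) P /
        MvPolynomial.aeval (mv (fun i => (H i).map (f : E →+* Ω)) (f d)) Q) ^ p := by
  have e : mv (fun i => (H i).map (f : E →+* Ω)) (f d) = fun i => f (mv H d i) :=
    funext fun i => map_mv f H d i
  rw [map_sub, map_pow, map_div₀, map_aeval, map_aeval, e]

/-- Images. -/
theorem XD.map (h : XD k p u T H σ) (hf : IsoE u v f) :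
    XD k p v (fun i => f (T i)) (fun i => (H i).map (f : E →+* Ω)) σ where
  ind := (f.algebraicIndependent_iff f.injective).2 h.ind
  c0 i := by
    rw [coeff_map, h.c0]
    rfl
  tri i l hl := by
    rw [coeff_map]
    exact map_tri.2 (h.tri i l hl)
  str P hP l hl := by
    have hne : MvPolynomial.aeval T P ≠ 0 := fun h0 => hP (h.ind.eq_zero_of_aeval_eq_zero P h0)
    rw [← map_aeval, ← map_aevalH, coeff_map, hf.val _ hne]
    exact hf.gt_iff.2 (h.str P hP l hl)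
  amt Λ := by
    obtain ⟨σ₀, h1, h2⟩ := h.amt Λ
    refine ⟨σ₀, h1, fun a b ha hab hb => ?_⟩
    obtain ⟨P, Q, d, hP, hQ, hd, h3, h4, h5⟩ := h2 a b ha hab hb
    have hd0 : d ≠ 0 := by
      rw [hd]
      exact pow_ne_zero _ (div_ne_zero hP hQ)
    refine ⟨P, Q, f d, ?_, ?_, ?_, ?_, ?_, ?_⟩
    · rw [← map_aeval]
      exact IsoE.ne_zero hP
    · rw [← map_aeval]
      exact IsoE.ne_zero hQ
    · rw [hd, map_pow, map_div₀, map_aeval, map_aeval]
    · rwa [hf.val d hd0]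
    · rwa [hf.val d hd0]
    · rw [← amt_map]
      exact hf.ge_iff.2 h5
  cross := by
    obtain ⟨σ₁, h0, h1⟩ := h.cross
    refine ⟨σ₁, h0, fun ρ h2 h3 => ?_⟩
    obtain ⟨P, l, hl, hb, h4⟩ := h1 ρ h2 h3
    have e : ∀ i, (MvPolynomial.aeval (fun i => (H i).map (f : E →+* Ω)) P).coeff i =
        f ((MvPolynomial.aeval H P).coeff i) := fun i => by
      rw [← map_aevalH, coeff_map]
      rfl
    refine ⟨P, l, hl, ?_, fun i hi => ?_⟩
    · rw [e]
      exact IsoE.ne_zero hb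
    · rw [e, e, hf.val _ hb]
      exact hf.gt_iff.2 (h4 i hi)

/-- Preimages. -/
theorem XD.comap (h : XD k p v (fun i => f (T i)) (fun i => (H i).map (f : E →+* Ω)) σ)
    (hf : IsoE u v f) : XD k p u T H σ where
  ind := (f.algebraicIndependent_iff f.injective).1 h.ind
  c0 i := by
    have h1 := h.c0 i
    rw [coeff_map] at h1
    exact f.injective h1
  tri i l hl := by
    have h1 := h.tri i l hl
    rw [coeff_map] at h1
    exact map_tri.1 h1
  str P hP l hl := by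
    have hind := (f.algebraicIndependent_iff f.injective).1 h.ind
    have hne : MvPolynomial.aeval T P ≠ 0 := fun h0 => hP (hind.eq_zero_of_aeval_eq_zero P h0)
    have h1 := h.str P hP l hl
    rw [← map_aeval, ← map_aevalH, coeff_map, hf.val _ hne] at h1
    exact hf.gt_iff.1 h1
  amt Λ := by
    obtain ⟨σ₀, h1, h2⟩ := h.amt Λ
    refine ⟨σ₀, h1, fun a b ha hab hb => ?_⟩
    obtain ⟨P, Q, d', hP, hQ, hd, h3, h4, h5⟩ := h2 a b ha hab hb
    rw [← map_aeval] at hP hQ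
    have hP' : MvPolynomial.aeval T P ≠ 0 := fun h0 => hP (by rw [h0, map_zero])
    have hQ' : MvPolynomial.aeval T Q ≠ 0 := fun h0 => hQ (by rw [h0, map_zero])
    obtain ⟨d, hd1⟩ : ∃ d, d = (MvPolynomial.aeval T P / MvPolynomial.aeval T Q) ^ p := ⟨_, rfl⟩
    have e : d' = f d := by rw [hd, hd1, map_pow, map_div₀, map_aeval, map_aeval]
    have hd0 : d ≠ 0 := by
      rw [hd1]
      exact pow_ne_zero _ (div_ne_zero hP' hQ')
    rw [e, hf.val d hd0] at h3 h4
    rw [e, ← amt_map] at h5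
    exact ⟨P, Q, d, hP', hQ', hd1, h3, h4, hf.ge_iff.1 h5⟩
  cross := by
    obtain ⟨σ₁, h0, h1⟩ := h.cross
    refine ⟨σ₁, h0, fun ρ h2 h3 => ?_⟩
    obtain ⟨P, l, hl, hb, h4⟩ := h1 ρ h2 h3
    have e : ∀ i, (MvPolynomial.aeval (fun i => (H i).map (f : E →+* Ω)) P).coeff i =
        f ((MvPolynomial.aeval H P).coeff i) := fun i => by
      rw [← map_aevalH, coeff_map]
      rfl
    have hb' : (MvPolynomial.aeval H P).coeff l ≠ 0 := fun h5 => hb (by rw [e, h5, map_zero])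
    refine ⟨P, l, hl, hb', fun i hi => ?_⟩
    have h5 := h4 i hi
    rw [e, e, hf.val _ hb'] at h5
    exact hf.gt_iff.1 h5

end Map

end Pool.Agent.TWMF
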