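import Pool.Agent.Lib.TWM.S8a

/-!
# TANK W: stability of `p`-bases, 1: the limit of the approximations

`s` is a `p`-basis of `K` with distortion `ε`, `s' i` near `s i`, in a field `X` containing `K`.
The functions `psi 0 x = x`, `psi (m + 1) (∑ c_α ^ p s ^ α) = ∑ (psi m c_α) ^ p s' ^ α` converge.
-/

set_option autoImplicit false

open Polynomial Finset

namespace Pool.Agent.TWMF

open Pool.Agent.H15JM (RVal)
open Pool.Agent.LU1 (VPos adj)
open Pool.Agent.D2 (Ctx0)
open Pool.Agent.D2P (hen clI mem_clI mem_adj_self adj_le)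
open Pool.Agent.TW (mon pcomb Orth PBasis BD)
open Pool.Agent.TWM

universe u

namespace Stb

variable {k Ω : Type u} [Field k] [Field Ω] [Algebra k Ω] {v : RVal Ω}
  {K X : IntermediateField k Ω} {p : ℕ} {n : ℕ} {s s' : Fin n → Ω} {ε κ κ₁ : ℝ}

/-- `f` has relative norm `≤ -l` on `K`. -/
def Nm (v : RVal Ω) (K : IntermediateField k Ω) (l : ℝ) (f : Ω → Ω) : Prop :=
  ∀ x ∈ K, ∀ b : ℝ, v.Ge b x → v.Ge (b + l) (f x)

theorem Nm.mono {l l' : ℝ} {f : Ω → Ω} (h : Nm v K l f) (hl : l' ≤ l) : Nm v K l' f :=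
  fun x hx b hb => (h x hx b hb).mono (by linarith)

/-- The coefficients of `x`. -/
noncomputable def cf (ht : PBasis p K s) (x : Ω) : (Fin n → Fin p) → Ω :=
  open Classical in if h : x ∈ K then (ht.span x h).choose else 0

theorem cf_mem (ht : PBasis p K s) (x : Ω) (α : Fin n → Fin p) : cf ht x α ∈ K := by
  unfold cf
  split_ifs with h
  · exact (ht.span x h).choose_spec.1 α
  · exact zero_mem K

theorem cf_spec (ht : PBasis p K s) {x : Ω} (hx : x ∈ K) : x = pcomb s (cf ht x) := by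
  unfold cf
  rw [dif_pos hx]
  exact (ht.span x hx).choose_spec.2

section

variable [hp : Fact p.Prime] [CharP Ω p]

theorem cf_uniq (ht : PBasis p K s) {c : (Fin n → Fin p) → Ω} (hc : ∀ α, c α ∈ K) :
    cf ht (pcomb s c) = c := by
  have hx : pcomb s c ∈ K := by
    rw [pcomb]
    exact sum_mem fun α _ => mul_mem (pow_mem (hc α) p)
      (prod_mem fun i _ => pow_mem (ht.mem i) _)
  have h1 := cf_spec ht hx
  have h2 : pcomb s (fun α => c α - cf ht (pcomb s c) α) = 0 := by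
    rw [← pcomb_sub, ← h1, sub_self]
  funext α
  exact (sub_eq_zero.1 (ht.ind _ (fun α => sub_mem (hc α) (cf_mem ht _ α)) h2 α)).symm

theorem cf_add (ht : PBasis p K s) {x y : Ω} (hx : x ∈ K) (hy : y ∈ K) (α : Fin n → Fin p) :
    cf ht (x + y) α = cf ht x α + cf ht y α := by
  have h1 : x + y = pcomb s fun α => cf ht x α + cf ht y α := by
    rw [← pcomb_add, ← cf_spec ht hx, ← cf_spec ht hy]
  rw [h1, cf_uniq ht fun α => add_mem (cf_mem ht x α) (cf_mem ht y α)]

omit hp [CharP Ω p] in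
/-- The bound for the coefficients. -/
theorem cf_ge (ht : PBasis p K s) (ho : OI p v K s ε) {x : Ω} (hx : x ∈ K) {b : ℝ}
    (hb : v.Ge b x) (α : Fin n → Fin p) : v.Ge (b - ε) (cf ht x α ^ p * mon s α) := by
  refine ho _ (cf_mem ht x) b ?_ α
  rwa [← cf_spec ht hx]

end

/-- The approximations. -/
noncomputable def psi (ht : PBasis p K s) (s' : Fin n → Ω) : ℕ → Ω → Ω
  | 0, x => x
  | m + 1, x => ∑ α, psi ht s' m (cf ht x α) ^ p * mon s' α

theorem psi_mem (ht : PBasis p K s) (hKX : K ≤ X) (hs' : ∀ i, s' i ∈ X) (m : ℕ) {x : Ω}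
    (hx : x ∈ K) : psi ht s' m x ∈ X := by
  induction m generalizing x with
  | zero => exact hKX hx
  | succ m ih =>
    exact sum_mem fun α _ => mul_mem (pow_mem (ih (cf_mem ht x α)) p)
      (prod_mem fun i _ => pow_mem (hs' i) _)

/-- Near elements. -/
structure Nrs (v : RVal Ω) (X : IntermediateField k Ω) {n : ℕ} (s s' : Fin n → Ω) (κ : ℝ) : Prop where
  ne : ∀ i, s i ≠ 0
  mem : ∀ i, s' i ∈ X
  near : ∀ i, v.Ge (v (s i) + κ) (s' i - s i)
  pos : 0 < κ

/-- Powers of near elements. -/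
theorem pow_near {a a' : Ω} (h : v.Ge (v a + κ) (a' - a)) (hκ : 0 ≤ κ) (i : ℕ) :
    v.Ge (i * v a) (a' ^ i) ∧ v.Ge (i * v a + κ) (a' ^ i - a ^ i) := by
  have h1 : v.Ge (v a) a' := by
    have e1 : a' = (a' - a) + a := by ring
    rw [e1]
    exact (h.mono (by linarith)).add (v.ge_self a)
  induction i with
  | zero =>
    simp only [pow_zero, sub_self, Nat.cast_zero, zero_mul]
    exact ⟨fun _ => by rw [v.map_one], RVal.Ge.zero⟩
  | succ i ih =>
    refine ⟨ge_pow h1 (i + 1), ?_⟩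
    have e1 : a' ^ (i + 1) - a ^ (i + 1) = a' ^ i * (a' - a) + (a' ^ i - a ^ i) * a := by ring
    rw [e1]
    refine ((ih.1.mul h).mono ?_).add ((ih.2.mul (v.ge_self a)).mono ?_) <;>
    · push_cast
      linarith

theorem Nrs.mon (h : Nrs v X s s' κ) (α : Fin n → Fin p) :
    v.Ge (v (mon s α)) (mon s' α) ∧ v.Ge (v (mon s α) + κ) (mon s' α - mon s α) := by
  classical
  unfold TW.mon
  have key : ∀ S : Finset (Fin n), v.Ge (v (∏ i ∈ S, s i ^ (α i : ℕ))) (∏ i ∈ S, s' i ^ (α i : ℕ)) ∧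
      v.Ge (v (∏ i ∈ S, s i ^ (α i : ℕ)) + κ)
        (∏ i ∈ S, s' i ^ (α i : ℕ) - ∏ i ∈ S, s i ^ (α i : ℕ)) := by
    intro S
    induction S using Finset.induction_on with
    | empty =>
      simp only [Finset.prod_empty, sub_self]
      exact ⟨v.ge_self 1, RVal.Ge.zero⟩
    | insert a S ha ih =>
      rw [Finset.prod_insert ha, Finset.prod_insert ha]
      have h0 : ∏ i ∈ S, s i ^ (α i : ℕ) ≠ 0 :=
        Finset.prod_ne_zero_iff.2 fun i _ => pow_ne_zero _ (h.ne i)
      have h1 : s a ^ (α a : ℕ) ≠ 0 := pow_ne_zero _ (h.ne a)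
      obtain ⟨h2, h3⟩ := pow_near (h.near a) h.pos.le (α a : ℕ)
      rw [v.map_mul h1 h0, v.map_pow (h.ne a)]
      refine ⟨h2.mul ih.1, ?_⟩
      have e1 : s' a ^ (α a : ℕ) * ∏ i ∈ S, s' i ^ (α i : ℕ) -
          s a ^ (α a : ℕ) * ∏ i ∈ S, s i ^ (α i : ℕ) =
          s' a ^ (α a : ℕ) * (∏ i ∈ S, s' i ^ (α i : ℕ) - ∏ i ∈ S, s i ^ (α i : ℕ)) +
          (s' a ^ (α a : ℕ) - s a ^ (α a : ℕ)) * ∏ i ∈ S, s i ^ (α i : ℕ) := by ring
      rw [e1]
      refine ((h2.mul ih.2).mono ?_).add ((h3.mul (v.ge_self _)).mono ?_) <;> linarith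
  exact key Finset.univ

section

variable [hp : Fact p.Prime] [CharP Ω p]

omit [CharP Ω p] in
/-- The transformation `f ↦ (x ↦ ∑ f(c_α) ^ p s' ^ α)` improves the norm. -/
theorem Nm.step (ht : PBasis p K s) (ho : OI p v K s ε) (hn : Nrs v X s s' κ) {l : ℝ} {f : Ω → Ω}
    (hf : Nm v K l f) :
    Nm v K (p * l - ε) fun x => ∑ α, f (cf ht x α) ^ p * mon s' α := by
  intro x hx b hb
  have hp0 : 0 < p := hp.out.pos
  have hp0' : (p : ℝ) ≠ 0 := by exact_mod_cast hp0.ne'
  refine RVal.Ge.sum _ _ fun α _ => ?_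
  have hm : mon s α ≠ 0 := mon_ne hn.ne α
  have h1 := cf_ge ht ho hx hb α
  have h2 : v.Ge ((b - ε - v (mon s α)) / p) (cf ht x α) := by
    refine ge_of_pow_mul hp0 hm (h1.mono ?_)
    rw [mul_div_cancel₀ _ hp0']
    linarith
  have h3 := ge_pow (hf _ (cf_mem ht x α) _ h2) p
  refine (h3.mul (hn.mon α).1).mono (le_of_eq ?_)
  rw [mul_add, mul_div_cancel₀ _ hp0']
  ring

theorem psi_sub_step (ht : PBasis p K s) (m m' : ℕ) (x : Ω) :
    psi ht s' (m + 1) x - psi ht s' (m' + 1) x =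
      ∑ α, (psi ht s' m (cf ht x α) - psi ht s' m' (cf ht x α)) ^ p * mon s' α := by
  rw [psi, psi, ← Finset.sum_sub_distrib]
  refine Finset.sum_congr rfl fun α _ => ?_
  rw [sub_pow_char, sub_mul]

/-- The displacement of the approximations. -/
theorem psi_near (ht : PBasis p K s) (ho : OI p v K s ε) (hn : Nrs v X s s' κ)
    (h1 : ε ≤ (p - 1) * κ₁) (h2 : κ₁ + ε ≤ κ) (m : ℕ) :
    Nm v K κ₁ fun x => psi ht s' m x - x := by
  induction m with
  | zero =>
    intro x _ b _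
    simp only [psi, sub_self]
    exact RVal.Ge.zero
  | succ m ih =>
    intro x hx b hb
    have h3 := ih.step ht ho hn x hx b hb
    have h4 : v.Ge (b + κ₁) (∑ α, cf ht x α ^ p * (mon s' α - mon s α)) := by
      refine RVal.Ge.sum _ _ fun α _ => ?_
      have hm : mon s α ≠ 0 := mon_ne hn.ne α
      have h5 := cf_ge ht ho hx hb α
      by_cases h0 : cf ht x α ^ p = 0
      · rw [h0, zero_mul]
        exact RVal.Ge.zero
      · have h6 := h5 (mul_ne_zero h0 hm)
        rw [v.map_mul h0 hm] at h6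
        exact ((v.ge_self (cf ht x α ^ p)).mul (hn.mon α).2).mono (by linarith)
    have e1 : psi ht s' (m + 1) x - x =
        ∑ α, (psi ht s' m (cf ht x α) - cf ht x α) ^ p * mon s' α +
          ∑ α, cf ht x α ^ p * (mon s' α - mon s α) := by
      have e2 := cf_spec ht hx
      conv_lhs => rw [e2]
      rw [psi, cf_uniq ht (cf_mem ht x), pcomb, ← Finset.sum_sub_distrib,
        ← Finset.sum_add_distrib]
      refine Finset.sum_congr rfl fun α _ => ?_
      rw [sub_pow_char]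
      ring
    show v.Ge (b + κ₁) (psi ht s' (m + 1) x - x)
    rw [e1]
    exact (h3.mono (by linarith)).add h4

/-- The approximations converge. -/
theorem psi_cauchy (ht : PBasis p K s) (ho : OI p v K s ε) (hn : Nrs v X s s' κ)
    (h1 : ε ≤ (p - 1) * κ₁) (h2 : κ₁ + ε ≤ κ) (m : ℕ) :
    Nm v K (κ₁ + m * ((p - 1) * κ₁ - ε)) fun x => psi ht s' (m + 1) x - psi ht s' m x := by
  induction m with
  | zero =>
    rw [Nat.cast_zero, zero_mul, add_zero]
    exact psi_near ht ho hn h1 h2 1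
  | succ m ih =>
    intro x hx b hb
    show v.Ge _ (psi ht s' (m + 1 + 1) x - psi ht s' (m + 1) x)
    rw [psi_sub_step]
    refine (ih.step ht ho hn x hx b hb).mono ?_
    have hp1 : (1 : ℝ) ≤ p := by exact_mod_cast hp.out.one_lt.le
    have h3 : (0 : ℝ) ≤ m := Nat.cast_nonneg m
    push_cast
    nlinarith [mul_nonneg (mul_nonneg h3 (sub_nonneg.2 hp1)) (sub_nonneg.2 h1)]

end

end Stb

end Pool.Agent.TWMF
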