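import Pool.Agent.Lib.TWMF.S2

/-!
# TANK W: stability of `p`-bases, 3: the ring homomorphism
-/

set_option autoImplicit false

open Polynomial Finset

namespace Pool.Agent.TWMF

open Pool.Agent.H15JM (RVal)
open Pool.Agent.LU1 (VPos adj)
open Pool.Agent.D2 (Ctx0)
open Pool.Agent.D2P (hen clI mem_clI mem_adj_self adj_le)
open Pool.Agent.TW (mon pcomb Orth PBasis BD)
open Pool.Agent.TWM

universe u

namespace Stb

variable {k Ω : Type u} [Field k] [Field Ω] [Algebra k Ω] {v : RVal Ω}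
  {K X : IntermediateField k Ω} {p : ℕ} {n : ℕ} {s s' : Fin n → Ω} {ε κ κ₁ : ℝ}

section Ix

variable [hp : Fact p.Prime]

/-- The quotient of the exponents. -/
def qx (α β : Fin n → Fin p) : Fin n → Fin p := fun i =>
  ⟨((α i : ℕ) + β i) / p, by
    have h1 := (α i).2
    have h2 := (β i).2
    have h3 := hp.out.two_le
    rw [Nat.div_lt_iff_lt_mul hp.out.pos]
    nlinarith⟩

/-- The remainder of the exponents. -/
def rx (α β : Fin n → Fin p) : Fin n → Fin p := fun i =>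
  ⟨((α i : ℕ) + β i) % p, Nat.mod_lt _ hp.out.pos⟩

omit [Algebra k Ω] [Field k] in
theorem mon_mul (s : Fin n → Ω) (α β : Fin n → Fin p) :
    mon s α * mon s β = mon s (qx α β) ^ p * mon s (rx α β) := by
  unfold mon
  rw [← Finset.prod_mul_distrib, ← Finset.prod_pow, ← Finset.prod_mul_distrib]
  refine Finset.prod_congr rfl fun i _ => ?_
  show s i ^ (α i : ℕ) * s i ^ (β i : ℕ) =
    (s i ^ (((α i : ℕ) + β i) / p)) ^ p * s i ^ (((α i : ℕ) + β i) % p)
  rw [← pow_add, ← pow_mul, ← pow_add]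
  congr 1
  rw [mul_comm]
  exact (Nat.div_add_mod _ _).symm

omit [Algebra k Ω] [Field k] in
theorem mon_one (t : Fin n → Ω) (i : Fin n) :
    mon t (fun j => if j = i then (⟨1, hp.out.one_lt⟩ : Fin p) else ⟨0, hp.out.pos⟩) = t i := by
  unfold mon
  rw [Finset.prod_eq_single i]
  · simp
  · intro j _ hj
    simp [hj]
  · exact fun h2 => absurd (Finset.mem_univ i) h2

end Ix

section

variable [hp : Fact p.Prime] [CharP Ω p] (h : Dt p v K X s s' ε κ κ₁)
include h

/-- The constants. -/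
theorem Dt.L_const [IsAlgClosed k] (h0 : Ctx0 k v) (c : k) :
    h.L (algebraMap k Ω c) = algebraMap k Ω c := by
  have hp1 : (1 : ℝ) ≤ (p : ℝ) - 1 := by
    have : (2 : ℝ) ≤ p := by exact_mod_cast hp.out.two_le
    linarith
  have hpos := h.pos₁
  have key : ∀ m : ℕ, ∀ c : k, v.Ge (κ₁ + m * κ₁) (h.L (algebraMap k Ω c) - algebraMap k Ω c) := by
    intro m
    induction m with
    | zero =>
      intro c
      rw [Nat.cast_zero, zero_mul, add_zero]
      have h1 := h.L_near _ (K.algebraMap_mem c) 0 (h0.ge c)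
      rwa [zero_add] at h1
    | succ m ih =>
      intro c
      obtain ⟨d, hd⟩ := IsAlgClosed.exists_pow_nat_eq c hp.out.pos
      have e1 : algebraMap k Ω c = (algebraMap k Ω d) ^ p *
          mon s (fun _ => (⟨0, hp.out.pos⟩ : Fin p)) := by
        rw [← map_pow, hd]
        simp [mon]
      have e2 : mon s' (fun _ => (⟨0, hp.out.pos⟩ : Fin p)) = 1 := by simp [mon]
      have e3 : mon s (fun _ => (⟨0, hp.out.pos⟩ : Fin p)) = 1 := by simp [mon]
      have h1 := h.L_mon (K.algebraMap_mem d) (fun _ => (⟨0, hp.out.pos⟩ : Fin p))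
      rw [← e1, e2, mul_one] at h1
      rw [h1]
      rw [e3, mul_one] at e1
      rw [e1, ← sub_pow_char]
      refine (ge_pow (ih d) p).mono ?_
      have h4 : (0 : ℝ) ≤ m := Nat.cast_nonneg m
      push_cast
      nlinarith [mul_nonneg (sub_nonneg.2 hp1) (mul_nonneg h4 hpos.le),
        mul_nonneg (sub_nonneg.2 hp1) hpos.le, mul_nonneg h4 hpos.le]
  rw [← sub_eq_zero]
  refine eq_zero_of_ge_all (v := v) fun d => ?_
  obtain ⟨N, hN⟩ := exists_nat_ge (d / κ₁)
  rw [div_le_iff₀ hpos] at hN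
  exact (key N c).mono (by linarith)

theorem Dt.L_one [IsAlgClosed k] (h0 : Ctx0 k v) : h.L 1 = 1 := by
  have h1 := h.L_const h0 1
  rwa [map_one] at h1

theorem Dt.L_mon' [IsAlgClosed k] (h0 : Ctx0 k v) (α : Fin n → Fin p) :
    h.L (mon s α) = mon s' α := by
  have h1 := h.L_mon (one_mem K) α
  rwa [one_pow, one_mul, h.L_one h0, one_pow, one_mul] at h1

/-- The norm of `L`. -/
theorem Dt.L_ge {x : Ω} (hx : x ∈ K) {b : ℝ} (hb : v.Ge b x) : v.Ge b (h.L x) := by
  have e1 : h.L x = (h.L x - x) + x := by ring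
  rw [e1]
  exact ((h.L_near x hx b hb).mono (by linarith [h.pos₁])).add hb

/-- The error of the multiplicativity. -/
def Mb (h : Dt p v K X s s' ε κ κ₁) (l : ℝ) : Prop :=
  ∀ x ∈ K, ∀ y ∈ K, ∀ b b' : ℝ, v.Ge b x → v.Ge b' y →
    v.Ge (b + b' + l) (h.L (x * y) - h.L x * h.L y)

theorem Dt.mb_zero : Mb h κ₁ := by
  intro x hx y hy b b' hb hb'
  have e1 : h.L (x * y) - h.L x * h.L y = (h.L (x * y) - x * y) - (h.L x - x) * y -
      h.L x * (h.L y - y) := by ring
  rw [e1]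
  refine (((h.L_near _ (mul_mem hx hy) _ (hb.mul hb')).mono le_rfl).sub
    (((h.L_near x hx b hb).mul hb').mono ?_)).sub
      (((h.L_ge hx hb).mul (h.L_near y hy b' hb')).mono ?_) <;> linarith

theorem Dt.mb_succ [IsAlgClosed k] (h0 : Ctx0 k v) {l : ℝ} (hl : Mb h l) :
    Mb h (p * l - 2 * ε) := by
  classical
  intro x hx y hy b b' hb hb'
  have hsK : ∀ α : Fin n → Fin p, mon s α ∈ K := fun α =>
    prod_mem fun i _ => pow_mem (h.ht.mem i) _
  set a := cf h.ht x with ha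
  set c := cf h.ht y with hc
  have haK : ∀ α, a α ∈ K := cf_mem h.ht x
  have hcK : ∀ α, c α ∈ K := cf_mem h.ht y
  have exy : x * y = ∑ α, ∑ β, (a α * c β * mon s (qx α β)) ^ p * mon s (rx α β) := by
    conv_lhs => rw [cf_spec h.ht hx, cf_spec h.ht hy, pcomb, pcomb, Finset.sum_mul_sum]
    refine Finset.sum_congr rfl fun α _ => Finset.sum_congr rfl fun β _ => ?_
    rw [mul_pow, mul_pow]
    linear_combination (a α ^ p * c β ^ p) * mon_mul s α β
  have e1 : h.L (x * y) =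
      ∑ α, ∑ β, h.L (a α * c β * mon s (qx α β)) ^ p * mon s' (rx α β) := by
    have hm : ∀ α β, (a α * c β * mon s (qx α β)) ^ p * mon s (rx α β) ∈ K := fun α β =>
      mul_mem (pow_mem (mul_mem (mul_mem (haK α) (hcK β)) (hsK _)) p) (hsK _)
    rw [exy, h.L_sum _ _ fun α _ => sum_mem fun β _ => hm α β]
    refine Finset.sum_congr rfl fun α _ => ?_
    rw [h.L_sum _ _ fun β _ => hm α β]
    refine Finset.sum_congr rfl fun β _ => ?_
    exact h.L_mon (mul_mem (mul_mem (haK α) (hcK β)) (hsK _)) _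
  have e2 : h.L x * h.L y =
      ∑ α, ∑ β, (h.L (a α) * h.L (c β) * mon s' (qx α β)) ^ p * mon s' (rx α β) := by
    rw [h.L_fix hx, h.L_fix hy, Finset.sum_mul_sum]
    refine Finset.sum_congr rfl fun α _ => Finset.sum_congr rfl fun β _ => ?_
    rw [mul_pow, mul_pow]
    linear_combination (h.L (a α) ^ p * h.L (c β) ^ p) * mon_mul s' α β
  have e3 : h.L (x * y) - h.L x * h.L y = ∑ α, ∑ β,
      (h.L (a α * c β * mon s (qx α β)) - h.L (a α) * h.L (c β) * mon s' (qx α β)) ^ p *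
        mon s' (rx α β) := by
    rw [e1, e2, ← Finset.sum_sub_distrib]
    refine Finset.sum_congr rfl fun α _ => ?_
    rw [← Finset.sum_sub_distrib]
    refine Finset.sum_congr rfl fun β _ => ?_
    rw [sub_pow_char, sub_mul]
  rw [e3]
  refine RVal.Ge.sum _ _ fun α _ => RVal.Ge.sum _ _ fun β _ => ?_
  have hzp : (0 : Ω) ^ p = 0 := zero_pow hp.out.ne_zero
  by_cases ha0 : a α = 0
  · rw [ha0, zero_mul, zero_mul, h.L_zero, zero_mul, zero_mul, sub_zero, hzp, zero_mul]
    exact RVal.Ge.zero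
  by_cases hc0 : c β = 0
  · rw [hc0, mul_zero, zero_mul, h.L_zero, mul_zero, zero_mul, sub_zero, hzp, zero_mul]
    exact RVal.Ge.zero
  have hm0 : ∀ γ : Fin n → Fin p, mon s γ ≠ 0 := mon_ne h.hn.ne
  have h1 := cf_ge h.ht h.ho hx hb α (mul_ne_zero (pow_ne_zero p ha0) (hm0 α))
  have h2 := cf_ge h.ht h.ho hy hb' β (mul_ne_zero (pow_ne_zero p hc0) (hm0 β))
  rw [v.map_mul (pow_ne_zero p ha0) (hm0 α), v.map_pow ha0] at h1
  rw [v.map_mul (pow_ne_zero p hc0) (hm0 β), v.map_pow hc0] at h2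
  have h3 : v (mon s α) + v (mon s β) = p * v (mon s (qx α β)) + v (mon s (rx α β)) := by
    rw [← v.map_mul (hm0 α) (hm0 β), mon_mul, v.map_mul (pow_ne_zero p (hm0 _)) (hm0 _),
      v.map_pow (hm0 _)]
  have h4 : v.Ge (v (a α) + v (c β) + v (mon s (qx α β)) + l)
      (h.L (a α * c β * mon s (qx α β)) - h.L (a α) * h.L (c β) * mon s' (qx α β)) := by
    have e4 : h.L (a α * c β * mon s (qx α β)) - h.L (a α) * h.L (c β) * mon s' (qx α β) =
        (h.L (a α * c β * mon s (qx α β)) - h.L (a α * c β) * h.L (mon s (qx α β))) +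
          (h.L (a α * c β) - h.L (a α) * h.L (c β)) * mon s' (qx α β) := by
      rw [h.L_mon' h0]
      ring
    rw [e4]
    refine ((hl _ (mul_mem (haK α) (hcK β)) _ (hsK _) _ _
      ((v.ge_self (a α)).mul (v.ge_self (c β))) (v.ge_self _)).mono le_rfl).add
        (((hl _ (haK α) _ (hcK β) _ _ (v.ge_self _) (v.ge_self _)).mul
          (h.hn.mon _).1).mono ?_)
    linarith
  refine ((ge_pow h4 p).mul (h.hn.mon (rx α β)).1).mono ?_
  nlinarith

/-- **Multiplicativity.** -/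
theorem Dt.L_mul [IsAlgClosed k] (h0 : Ctx0 k v) {x y : Ω} (hx : x ∈ K) (hy : y ∈ K) :
    h.L (x * y) = h.L x * h.L y := by
  have hp1 : (1 : ℝ) ≤ (p : ℝ) - 1 := by
    have : (2 : ℝ) ≤ p := by exact_mod_cast hp.out.two_le
    linarith
  set δ : ℝ := (p - 1) * κ₁ - 2 * ε with hδ
  have hδ0 : 0 < δ := by rw [hδ]; linarith [h.h1]
  have key : ∀ m : ℕ, Mb h (κ₁ + m * δ) := by
    intro m
    induction m with
    | zero =>
      rw [Nat.cast_zero, zero_mul, add_zero]
      exact h.mb_zero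
    | succ m ih =>
      intro x hx y hy b b' hb hb'
      refine (h.mb_succ h0 ih x hx y hy b b' hb hb').mono ?_
      have h4 : (0 : ℝ) ≤ m := Nat.cast_nonneg m
      push_cast
      nlinarith [mul_nonneg (mul_nonneg h4 hδ0.le) (by linarith : (0 : ℝ) ≤ (p : ℝ) - 1)]
  rw [← sub_eq_zero]
  refine eq_zero_of_ge_all (v := v) fun d => ?_
  obtain ⟨N, hN⟩ := exists_nat_ge ((d - v x - v y - κ₁) / δ)
  rw [div_le_iff₀ hδ0] at hN
  exact (key N x hx y hy _ _ (v.ge_self x) (v.ge_self y)).mono (by linarith)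

/-- **STAB**, the embedding. -/
theorem Dt.exists_hom [IsAlgClosed k] (h0 : Ctx0 k v) :
    ∃ T : K →ₐ[k] Ω, (∀ x, T x ∈ X) ∧ (∀ i, ∀ hi : s i ∈ K, T ⟨s i, hi⟩ = s' i) ∧
      (∀ x : K, ∀ b : ℝ, v.Ge b (x : Ω) → v.Ge (b + κ₁) (T x - x)) := by
  refine ⟨
    { toFun := fun x => h.L x
      map_one' := h.L_one h0
      map_mul' := fun x y => h.L_mul h0 x.2 y.2
      map_zero' := h.L_zero
      map_add' := fun x y => h.L_add x.2 y.2
      commutes' := fun c => h.L_const h0 c }, fun x => h.L_mem x.2, fun i hi => ?_,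
    fun x b hb => h.L_near x x.2 b hb⟩
  show h.L (s i) = s' i
  have h1 := h.L_mon' h0 (fun j => if j = i then (⟨1, hp.out.one_lt⟩ : Fin p) else
    ⟨0, hp.out.pos⟩)
  rwa [mon_one, mon_one] at h1

end

section

variable [hp : Fact p.Prime] [CharP Ω p] (h : Dt p v K K s s' ε κ κ₁)
include h

/-- Surjectivity. -/
theorem Dt.L_surj {y : Ω} (hy : y ∈ K) : ∃ x ∈ K, h.L x = y := by
  have hpos := h.pos₁
  obtain ⟨f, hf0, hfs⟩ : ∃ f : ℕ → Ω, f 0 = y ∧ ∀ m, f (m + 1) = f m + (y - h.L (f m)) :=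
    ⟨fun m => Nat.rec y (fun _ z => z + (y - h.L z)) m, rfl, fun _ => rfl⟩
  have hfK : ∀ m, f m ∈ K := by
    intro m
    induction m with
    | zero => rw [hf0]; exact hy
    | succ m ih => rw [hfs]; exact add_mem ih (sub_mem hy (h.L_mem ih))
  have hr : ∀ m : ℕ, v.Ge (v y + (m + 1) * κ₁) (y - h.L (f m)) := by
    intro m
    induction m with
    | zero =>
      rw [hf0, Nat.cast_zero, zero_add, one_mul]
      have h1 := (h.L_near y hy _ (v.ge_self y)).neg
      rwa [neg_sub] at h1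
    | succ m ih =>
      have hrK : y - h.L (f m) ∈ K := sub_mem hy (h.L_mem (hfK m))
      have e1 : y - h.L (f (m + 1)) = -(h.L (y - h.L (f m)) - (y - h.L (f m))) := by
        rw [hfs, h.L_add (hfK m) hrK]
        ring
      rw [e1]
      refine ((h.L_near _ hrK _ ih).neg).mono ?_
      push_cast
      linarith
  have hstep : ∀ N m : ℕ, N ≤ m → v.Ge (v y + (N + 1) * κ₁) (f m - f N) := by
    intro N m hm
    induction m, hm using Nat.le_induction with
    | base => rw [sub_self]; exact RVal.Ge.zero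
    | succ m hm ih =>
      have e1 : f (m + 1) - f N = (y - h.L (f m)) + (f m - f N) := by rw [hfs]; ring
      rw [e1]
      refine ((hr m).mono ?_).add ih
      have h3 : (N : ℝ) ≤ m := by exact_mod_cast hm
      nlinarith
  obtain ⟨x, hx⟩ := h.hc f fun c => by
    obtain ⟨N, hN⟩ := exists_nat_ge ((c - v y) / κ₁)
    rw [div_le_iff₀ hpos] at hN
    refine ⟨N, fun m m' hm hm' => ?_⟩
    have e1 : f m - f m' = (f m - f N) - (f m' - f N) := by ring
    rw [e1]
    exact ((hstep N m hm).mono (by linarith)).sub ((hstep N m' hm').mono (by linarith))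
  have hxK : x ∈ K := h.cld (mem_clI.2 fun c => by
    obtain ⟨N, hN⟩ := hx c
    exact ⟨f N, hfK N, hN N le_rfl⟩)
  refine ⟨x, hxK, ?_⟩
  rw [← sub_eq_zero]
  refine eq_zero_of_ge_all (v := v) fun c => ?_
  obtain ⟨N, hN⟩ := hx c
  obtain ⟨M, hM⟩ := exists_nat_ge ((c - v y) / κ₁)
  rw [div_le_iff₀ hpos] at hM
  have hfm := hfK (max N M)
  have e1 : h.L x - y = h.L (x - f (max N M)) - (y - h.L (f (max N M))) := by
    have e2 : h.L x = h.L (x - f (max N M)) + h.L (f (max N M)) := by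
      rw [← h.L_add (sub_mem hxK hfm) hfm, sub_add_cancel]
    rw [e2]
    ring
  rw [e1]
  refine (h.L_ge (sub_mem hxK hfm) (hN _ (le_max_left _ _))).sub ((hr (max N M)).mono ?_)
  have h3 : (M : ℝ) ≤ (max N M : ℕ) := by exact_mod_cast le_max_right N M
  nlinarith

/-- **STAB**, the automorphism. -/
theorem Dt.exists_aut [IsAlgClosed k] (h0 : Ctx0 k v) :
    ∃ ψ : K ≃ₐ[k] K, (∀ i, ∀ hi : s i ∈ K, (ψ ⟨s i, hi⟩ : Ω) = s' i) ∧
      ∀ x : K, ∀ b : ℝ, v.Ge b (x : Ω) → v.Ge (b + κ₁) ((ψ x : Ω) - x) := by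
  let f : K →ₐ[k] K :=
    { toFun := fun x => ⟨h.L x, h.L_mem x.2⟩
      map_one' := Subtype.ext (h.L_one h0)
      map_mul' := fun x y => Subtype.ext (h.L_mul h0 x.2 y.2)
      map_zero' := Subtype.ext h.L_zero
      map_add' := fun x y => Subtype.ext (h.L_add x.2 y.2)
      commutes' := fun c => Subtype.ext (h.L_const h0 c) }
  have hbij : Function.Bijective f := by
    refine ⟨f.injective, fun y => ?_⟩
    obtain ⟨x, hx, h1⟩ := h.L_surj y.2
    exact ⟨⟨x, hx⟩, Subtype.ext h1⟩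
  refine ⟨AlgEquiv.ofBijective f hbij, fun i hi => ?_, fun x b hb => h.L_near x x.2 b hb⟩
  show h.L (s i) = s' i
  have h1 := h.L_mon' h0 (fun j => if j = i then (⟨1, hp.out.one_lt⟩ : Fin p) else
    ⟨0, hp.out.pos⟩)
  rwa [mon_one, mon_one] at h1

end

end Stb

end Pool.Agent.TWMF
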