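import Pool.Agent.Lib.TWMF.F6

/-!
# TANK W: motions at field level, 7: strict dominance of towers

`MTL.cons`: if `u` is strictly dominant over `N` at the radii `s`, and `z` is of transcendental type
over `N(u)` with radius `s₀`, and `z` is a limit of elements of `N` up to the radius `s₀`, then
`(z, u)` is strictly dominant over `N` at the radii `(s₀, s)`.
-/

set_option autoImplicit false

open Polynomial Filter Topology

namespace Pool.Agent.TWMF

open Pool.Agent.H15JM (RVal)
open Pool.Agent.LU1 (VPos adj)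
open Pool.Agent.D2 (Ctx0)
open Pool.Agent.D2P (hen hen_hen le_hen hen_mono hen_le mem_hen mem_adj_self adj_le)
open Pool.Agent.TWM (Gt PI TL algc le_algc)
open Pool.Agent.TW WM13

universe u

variable {k Ω : Type u} [Field k] [Field Ω] [Algebra k Ω] {v : RVal Ω}
  {N : IntermediateField k Ω} {m : ℕ} {u : Fin m → Ω} {s : Fin m → ℝ}

/-- `hd` as a ring homomorphism. -/
noncomputable def hdR {N : IntermediateField k Ω} {m : ℕ} (u : Fin m → Ω) :
    MvPolynomial (Fin m) N →+* MvPolynomial (Fin m) Ω :=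
  (MvPolynomial.aeval (R := N) (fun j => MvPolynomial.X j + MvPolynomial.C (u j)) :
    MvPolynomial (Fin m) N →ₐ[N] MvPolynomial (Fin m) Ω).toRingHom

theorem hdR_apply (P : MvPolynomial (Fin m) N) : hdR u P = hd u P := rfl

theorem hdR_C (a : N) : hdR u (MvPolynomial.C a) = MvPolynomial.C (a : Ω) := by
  show MvPolynomial.aeval _ (MvPolynomial.C a) = _
  rw [MvPolynomial.aeval_C]
  rfl

theorem hdR_X (j : Fin m) : hdR (N := N) u (MvPolynomial.X j) =
    MvPolynomial.X j + MvPolynomial.C (u j) := by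
  show MvPolynomial.aeval _ (MvPolynomial.X j) = _
  rw [MvPolynomial.aeval_X]

theorem hd_cons (P : MvPolynomial (Fin (m + 1)) N) (z : Ω) :
    MvPolynomial.finSuccEquiv Ω m (hd (Fin.cons z u : Fin (m + 1) → Ω) P) =
      taylor (MvPolynomial.C z) ((MvPolynomial.finSuccEquiv N m P).map (hdR u)) := by
  rw [← hdR_apply]
  induction P using MvPolynomial.induction_on with
  | C a =>
    rw [hdR_C]
    have h1 : MvPolynomial.finSuccEquiv N m (MvPolynomial.C a) =
        Polynomial.C (MvPolynomial.C a) := by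
      rw [MvPolynomial.finSuccEquiv_apply, MvPolynomial.eval₂Hom_C]
      rfl
    have h2 : MvPolynomial.finSuccEquiv Ω m (MvPolynomial.C (a : Ω)) =
        Polynomial.C (MvPolynomial.C (a : Ω)) := by
      rw [MvPolynomial.finSuccEquiv_apply, MvPolynomial.eval₂Hom_C]
      rfl
    rw [h1, h2, Polynomial.map_C, taylor_C, hdR_C]
  | add P Q hP hQ =>
    rw [map_add, map_add, hP, hQ, map_add, Polynomial.map_add, map_add]
  | mul_X P i hP =>
    have key : MvPolynomial.finSuccEquiv Ω m (hdR (Fin.cons z u : Fin (m + 1) → Ω)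
        (MvPolynomial.X (R := N) i)) = taylor (MvPolynomial.C z)
        ((MvPolynomial.finSuccEquiv N m (MvPolynomial.X i)).map (hdR u)) := by
      have h2 : ∀ a : Ω, MvPolynomial.finSuccEquiv Ω m (MvPolynomial.C a) =
          Polynomial.C (MvPolynomial.C a) := by
        intro a
        rw [MvPolynomial.finSuccEquiv_apply, MvPolynomial.eval₂Hom_C]
        rfl
      rw [hdR_X, map_add, h2]
      obtain rfl | ⟨j, rfl⟩ := Fin.eq_zero_or_eq_succ i
      · rw [MvPolynomial.finSuccEquiv_X_zero, MvPolynomial.finSuccEquiv_X_zero, Polynomial.map_X,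
          taylor_X, Fin.cons_zero]
      · rw [MvPolynomial.finSuccEquiv_X_succ, MvPolynomial.finSuccEquiv_X_succ, Polynomial.map_C,
          taylor_C, hdR_X, Fin.cons_succ, Polynomial.C_add]
    rw [map_mul (hdR (Fin.cons z u : Fin (m + 1) → Ω)), map_mul (MvPolynomial.finSuccEquiv Ω m),
      map_mul (MvPolynomial.finSuccEquiv N m), Polynomial.map_mul, taylor_mul, hP, key]

theorem coeff_mul_C' (J : Fin m →₀ ℕ) (P : MvPolynomial (Fin m) Ω) (a : Ω) :
    (P * MvPolynomial.C a).coeff J = P.coeff J * a := by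
  rw [mul_comm, MvPolynomial.coeff_C_mul, mul_comm]

/-- The Taylor expansion around a point of `N`. -/
theorem hd_cons_coeff (P : MvPolynomial (Fin (m + 1)) N) (z : Ω) (η : N) (l : ℕ)
    (J : Fin m →₀ ℕ) :
    (hd (Fin.cons z u : Fin (m + 1) → Ω) P).coeff (J.cons l) =
      ∑ j ∈ Finset.range ((taylor (MvPolynomial.C η) (MvPolynomial.finSuccEquiv N m P)).natDegree
          + 1),
        (j.choose l : Ω) * (hd u ((taylor (MvPolynomial.C η)
          (MvPolynomial.finSuccEquiv N m P)).coeff j)).coeff J * (z - η) ^ (j - l) := by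
  rw [← MvPolynomial.finSuccEquiv_coeff_coeff, hd_cons]
  set f := MvPolynomial.finSuccEquiv N m P with hf
  set g := taylor (MvPolynomial.C η) f with hg
  have h1 : taylor (MvPolynomial.C z) (f.map (hdR u)) =
      taylor (MvPolynomial.C (z - η)) (g.map (hdR u)) := by
    have h2 : g.map (hdR u) = taylor (MvPolynomial.C (η : Ω)) (f.map (hdR u)) := by
      rw [hg, Polynomial.map_taylor, hdR_C]
    rw [h2, taylor_taylor, ← map_add, sub_add_cancel]
  rw [h1, taylor_coeff, hasseDeriv_apply, eval_sum]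
  have hsup : (g.map (hdR u)).natDegree ≤ g.natDegree := natDegree_map_le
  rw [Polynomial.sum_over_range' _ (fun i => by simp) (g.natDegree + 1) (Nat.lt_succ_of_le hsup)]
  rw [MvPolynomial.coeff_sum]
  refine Finset.sum_congr rfl fun j _ => ?_
  have h3 : ((j.choose l : ℕ) : MvPolynomial (Fin m) Ω) = MvPolynomial.C (j.choose l : Ω) := by
    rw [map_natCast]
  rw [eval_monomial, coeff_map, hdR_apply, ← map_pow, coeff_mul_C', h3, MvPolynomial.coeff_C_mul]

/-- The base of a tower. -/
theorem MTL.zero (u : Fin 0 → Ω) (s : Fin 0 → ℝ) : MTL v N u s := by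
  refine ⟨fun P hP h0 => hP ?_, fun P hP J hJ => absurd (Subsingleton.elim J 0) hJ⟩
  obtain ⟨a, rfl⟩ := MvPolynomial.C_surjective (R := N) (Fin 0) P
  rw [MvPolynomial.aeval_C] at h0
  have h1 : a = 0 := by
    apply Subtype.ext
    exact h0
  rw [h1, map_zero]

/-- Smaller bases. -/
theorem MTL.mono {N' : IntermediateField k Ω} (h : MTL v N' u s) (hN : N ≤ N') : MTL v N u s := by
  let ι : N →+* N' := (IntermediateField.inclusion hN).toRingHom
  have hι : Function.Injective ι := ι.injective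
  have h1 : ∀ P : MvPolynomial (Fin m) N, MvPolynomial.aeval u (P.map ι) =
      MvPolynomial.aeval u P := by
    intro P
    rw [MvPolynomial.aeval_def, MvPolynomial.eval₂_map]
    rfl
  have h2 : ∀ P : MvPolynomial (Fin m) N, hd u (P.map ι) = hd u P := by
    intro P
    rw [hd, MvPolynomial.aeval_def, MvPolynomial.eval₂_map]
    rfl
  have h3 : ∀ P : MvPolynomial (Fin m) N, P ≠ 0 → P.map ι ≠ 0 := by
    intro P hP h0
    apply hP
    apply MvPolynomial.map_injective ι hι
    rw [h0, map_zero]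
  refine ⟨fun P hP => ?_, fun P hP J hJ => ?_⟩
  · rw [← h1]
    exact h.ne _ (h3 P hP)
  · rw [← h1, ← h2]
    exact h.strict _ (h3 P hP) J hJ

theorem wt_cons (s : Fin m → ℝ) (s₀ : ℝ) (l : ℕ) (J : Fin m →₀ ℕ) :
    wt (Fin.cons s₀ s : Fin (m + 1) → ℝ) (J.cons l) = l * s₀ + wt s J := by
  rw [wt, Fin.sum_univ_succ, Finsupp.cons_zero, Fin.cons_zero]
  congr 1

theorem taylor_coeff_sum (G : Polynomial Ω) (w : Ω) {n : ℕ} (hn : G.natDegree ≤ n) (j : ℕ) :
    (taylor w G).coeff j = ∑ i ∈ Finset.range (n + 1),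
      (i.choose j : Ω) * G.coeff i * w ^ (i - j) := by
  rw [taylor_coeff, hasseDeriv_apply, eval_sum,
    Polynomial.sum_over_range' _ (fun i => by simp) (n + 1) (Nat.lt_succ_of_le hn)]
  exact Finset.sum_congr rfl fun i _ => by rw [eval_monomial]

theorem aeval_cons (P : MvPolynomial (Fin (m + 1)) N) (z : Ω) :
    MvPolynomial.aeval (Fin.cons z u : Fin (m + 1) → Ω) P =
      ((MvPolynomial.finSuccEquiv N m P).map (MvPolynomial.aeval u :
        MvPolynomial (Fin m) N →ₐ[N] Ω).toRingHom).eval z := by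
  induction P using MvPolynomial.induction_on with
  | C a =>
    have h1 : MvPolynomial.finSuccEquiv N m (MvPolynomial.C a) =
        Polynomial.C (MvPolynomial.C a) := by
      rw [MvPolynomial.finSuccEquiv_apply, MvPolynomial.eval₂Hom_C]
      rfl
    rw [h1, Polynomial.map_C, eval_C, MvPolynomial.aeval_C]
    show _ = MvPolynomial.aeval u (MvPolynomial.C a)
    rw [MvPolynomial.aeval_C]
  | add P Q hP hQ =>
    rw [map_add, hP, hQ, map_add, Polynomial.map_add, eval_add]
  | mul_X P i hP =>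
    have key : MvPolynomial.aeval (Fin.cons z u : Fin (m + 1) → Ω)
        (MvPolynomial.X (R := N) i) = ((MvPolynomial.finSuccEquiv N m (MvPolynomial.X i)).map
          (MvPolynomial.aeval u : MvPolynomial (Fin m) N →ₐ[N] Ω).toRingHom).eval z := by
      rw [MvPolynomial.aeval_X]
      obtain rfl | ⟨j, rfl⟩ := Fin.eq_zero_or_eq_succ i
      · rw [MvPolynomial.finSuccEquiv_X_zero, Polynomial.map_X, eval_X, Fin.cons_zero]
      · rw [MvPolynomial.finSuccEquiv_X_succ, Polynomial.map_C, eval_C, Fin.cons_succ]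
        show _ = MvPolynomial.aeval u (MvPolynomial.X j)
        rw [MvPolynomial.aeval_X]
    rw [map_mul, map_mul (MvPolynomial.finSuccEquiv N m), Polynomial.map_mul, eval_mul, hP, key]

/-- **Towers.** -/
theorem MTL.cons [IsAlgClosed Ω] (h : MTL v N u s) {A : IntermediateField k Ω} {z : Ω} {s₀ : ℝ}
    (hz : TL v A z s₀) (hA : nadj N u ≤ algc A)
    (hlim : ∀ ε : ℝ, 0 < ε → ∃ η ∈ N, v.Ge (s₀ - ε) (z - η)) :
    MTL v N (Fin.cons z u : Fin (m + 1) → Ω) (Fin.cons s₀ s : Fin (m + 1) → ℝ) := by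
  classical
  set φ : MvPolynomial (Fin m) N →+* Ω := (MvPolynomial.aeval u :
    MvPolynomial (Fin m) N →ₐ[N] Ω).toRingHom with hφ
  have hφa : ∀ Q, φ Q = MvPolynomial.aeval u Q := fun Q => rfl
  have hPI : ∀ f : Polynomial (MvPolynomial (Fin m) N), f.map φ ∈ PI (algc A) := by
    intro f i
    rw [coeff_map]
    exact hA (aeval_mem_nadj _)
  have hne : ∀ P : MvPolynomial (Fin (m + 1)) N, P ≠ 0 →
      (MvPolynomial.finSuccEquiv N m P).map φ ≠ 0 := by
    intro P hP h0
    have h1 : MvPolynomial.finSuccEquiv N m P = 0 := by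
      ext1 i
      by_contra h2
      apply h.ne _ h2
      rw [← hφa, ← coeff_map, h0, coeff_zero]
    exact hP ((map_eq_zero_iff _ (MvPolynomial.finSuccEquiv N m).injective).1 h1)
  refine ⟨fun P hP => ?_, fun P hP J hJ => ?_⟩
  · rw [aeval_cons]
    exact hz.eval_ne (hPI _) (hne P hP)
  set f := MvPolynomial.finSuccEquiv N m P with hf
  have hev : MvPolynomial.aeval (Fin.cons z u : Fin (m + 1) → Ω) P = (f.map φ).eval z :=
    aeval_cons P z
  rw [hev]
  have hstr := hz.str (hPI f) (hne P hP)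
  have h00 : (taylor z (f.map φ)).coeff 0 = (f.map φ).eval z := taylor_coeff_zero _ _
  rw [← Finsupp.cons_tail J, wt_cons]
  set l := J 0 with hl
  set J' := J.tail with hJ'
  by_cases h0 : J' = 0
  · have hl1 : 1 ≤ l := by
      rw [Nat.one_le_iff_ne_zero]
      intro h1
      apply hJ
      rw [← Finsupp.cons_tail J, ← hl, ← hJ', h0, h1]
      exact Finsupp.cons_zero_zero
    have h1 : (hd (Fin.cons z u : Fin (m + 1) → Ω) P).coeff (J'.cons l) =
        (taylor z (f.map φ)).coeff l := by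
      rw [← MvPolynomial.finSuccEquiv_coeff_coeff, hd_cons, h0]
      rw [← MvPolynomial.constantCoeff_eq, ← coeff_map, Polynomial.map_taylor,
        MvPolynomial.constantCoeff_C, Polynomial.map_map]
      congr 3
      refine RingHom.ext fun Q => ?_
      show MvPolynomial.constantCoeff (hdR u Q) = φ Q
      rw [hdR_apply, MvPolynomial.constantCoeff_eq, coeff_zero_hd, hφa]
    rw [h1, h0]
    have h2 := hz.strict (hPI f) (hne P hP) hl1
    have h3 : wt s (0 : Fin m →₀ ℕ) = 0 := by
      rw [wt]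
      exact Finset.sum_eq_zero fun j _ => by simp
    rw [h3, add_zero]
    exact h2
  obtain ⟨δ, hδ, h1⟩ := hstr.exists_delta (Finset.Icc 1 (taylor z (f.map φ)).natDegree)
    fun i hi => (Finset.mem_Icc.1 hi).1
  rw [h00] at h1
  obtain ⟨η, hη, hηv⟩ := hlim δ hδ
  have hall : ∀ i : ℕ, v.Ge (v ((f.map φ).eval z) - i * (s₀ - δ)) ((taylor z (f.map φ)).coeff i) := by
    intro i
    rcases Nat.eq_zero_or_pos i with rfl | hi
    · rw [Nat.cast_zero, zero_mul, sub_zero, h00]
      exact RVal.ge_self _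
    by_cases h2 : i ≤ (taylor z (f.map φ)).natDegree
    · exact (h1 i (Finset.mem_Icc.2 ⟨hi, h2⟩)).mono (by linarith)
    · rw [coeff_eq_zero_of_natDegree_lt (by omega)]
      exact RVal.Ge.zero
  have hterm : ∀ (a : ℕ) (r : ℝ) (i j : ℕ) (c w : Ω), j ≤ i → v.Ge (s₀ - δ) w →
      v.Ge (r - i * (s₀ - δ)) c → v.Ge (r - j * (s₀ - δ)) ((a : Ω) * c * w ^ (i - j)) := by
    intro a r i j c w hij hw hc
    have h2 := ((TWM.ge_natCast v a).mul hc).mul (TWM.ge_pow hw (i - j))
    refine h2.mono ?_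
    rw [Nat.cast_sub hij]
    linarith
  have hη' : v.Ge (s₀ - δ) (η - z) := TWM.ge_sub_comm hηv
  have hall' : ∀ j : ℕ, v.Ge (v ((f.map φ).eval z) - j * (s₀ - δ))
      ((taylor η (f.map φ)).coeff j) := by
    intro j
    have h2 : taylor η (f.map φ) = taylor (η - z) (taylor z (f.map φ)) := by
      rw [taylor_taylor, sub_add_cancel]
    rw [h2, taylor_coeff_sum _ _ le_rfl]
    refine RVal.Ge.sum _ _ fun i _ => ?_
    by_cases hij : j ≤ i
    · exact hterm _ _ i j _ _ hij hη' (hall i)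
    · rw [Nat.choose_eq_zero_of_lt (by omega), Nat.cast_zero, zero_mul, zero_mul]
      exact RVal.Ge.zero
  rw [hd_cons_coeff P z ⟨η, hη⟩ l J', ← hf]
  set g := taylor (MvPolynomial.C (⟨η, hη⟩ : N)) f with hg
  have hgc : ∀ j, MvPolynomial.aeval u (g.coeff j) = (taylor η (f.map φ)).coeff j := by
    intro j
    rw [← hφa, ← coeff_map, hg, Polynomial.map_taylor]
    have h2 : φ (MvPolynomial.C (⟨η, hη⟩ : N)) = η := by
      rw [hφa, MvPolynomial.aeval_C]
      rfl
    rw [h2]
  refine Gt.sum _ _ fun j _ => ?_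
  by_cases hij : l ≤ j
  · by_cases hg0 : g.coeff j = 0
    · have h2 : hd u (g.coeff j) = 0 := by rw [hg0, ← hdR_apply, map_zero]
      rw [h2, MvPolynomial.coeff_zero, mul_zero, zero_mul]
      exact TWM.Gt.zero
    have h2 := h.strict _ hg0 J' h0
    have h3 := hall' j (by rw [← hgc]; exact h.ne _ hg0)
    rw [← hgc] at h3
    have h4 : Gt v (v ((f.map φ).eval z) - j * (s₀ - δ) - wt s J')
        ((hd u (g.coeff j)).coeff J') := h2.mono (by linarith)
    have h5 := (h4.mul_ge (TWM.ge_natCast v (j.choose l))).mul_ge (TWM.ge_pow hηv (j - l))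
    rw [mul_comm ((hd u (g.coeff j)).coeff J')] at h5
    refine h5.mono ?_
    rw [Nat.cast_sub hij]
    have h6 : (0 : ℝ) ≤ l := Nat.cast_nonneg l
    nlinarith
  · rw [Nat.choose_eq_zero_of_lt (by omega), Nat.cast_zero, zero_mul, zero_mul]
    exact TWM.Gt.zero

/-- One variable. -/
theorem MTL.single [IsAlgClosed Ω] {A : IntermediateField k Ω} {z : Ω} {s₀ : ℝ}
    (hz : TL v A z s₀) (hA : N ≤ algc A)
    (hlim : ∀ ε : ℝ, 0 < ε → ∃ η ∈ N, v.Ge (s₀ - ε) (z - η)) :
    MTL v N (fun _ : Fin 1 => z) (fun _ : Fin 1 => s₀) := by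
  have h1 := (MTL.zero (v := v) (N := N) (fun i : Fin 0 => i.elim0)
    (fun i : Fin 0 => i.elim0)).cons hz (nadj_le hA fun i => i.elim0) hlim
  have e1 : (Fin.cons z (fun i : Fin 0 => i.elim0) : Fin 1 → Ω) = fun _ => z := by
    funext i
    refine Fin.cases rfl (fun j => j.elim0) i
  have e2 : (Fin.cons s₀ (fun i : Fin 0 => i.elim0) : Fin 1 → ℝ) = fun _ => s₀ := by
    funext i
    refine Fin.cases rfl (fun j => j.elim0) i
  rwa [e1, e2] at h1

end Pool.Agent.TWMF
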