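import Pool.Agent.Lib.TWMF.S3
import Pool.Agent.Lib.TWM.S6b
import Pool.Agent.Lib.TWC.BaseX
import Pool.Agent.Lib.TWC.Lift
import Pool.Agent.Lib.TWMF.F7

/-!
# TANK W: stability of `p`-bases, 4: almost orthogonal `p`-bases

`K` closed and immediate over `K ^ p`, with a finite `p`-basis.  For `a ∉ K ^ p` and `ε > 0` there is a
`p`-basis with distortion `≤ ε` which starts with `a - g ^ p`.
-/

set_option autoImplicit false

open Polynomial Finset

namespace Pool.Agent.TWMF

open Pool.Agent.H15JM (RVal)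
open Pool.Agent.LU1 (VPos adj)
open Pool.Agent.D2 (Ctx0)
open Pool.Agent.D2P (hen clI mem_clI mem_adj_self adj_le)
open Pool.Agent.TW (mon pcomb Orth PBasis BD Qp mem_Qp Qp_le' Bas Spn Ind Orthq BDq sm bas_pow
  finite_of_spn bas_of_finite mon_cons PBasis.of_bas Orth.of_orthq)
open Pool.Agent.TWM

universe u

namespace Stb

variable {k Ω : Type u} [Field k] [Field Ω] [Algebra k Ω] {v : RVal Ω}
  {K F : IntermediateField k Ω} {p : ℕ}

omit [Algebra k Ω] [Field k] in
/-- Reindexing. -/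
theorem orthq_cons {Q : Subfield Ω} {n : ℕ} {z : Ω} {t : Fin n → Ω} {e : ℝ}
    (h : Orthq v Q (fun x : Fin p × (Fin n → Fin p) => z ^ (x.1 : ℕ) * mon (p := p) t x.2) e) :
    Orthq v Q (mon (p := p) (Fin.cons z t : Fin (n + 1) → Ω)) e := by
  intro c hc hne α
  set E := (Fin.consEquiv (fun _ : Fin (n + 1) => Fin p)) with hE
  have e1 : ∀ x : Fin p × (Fin n → Fin p), mon (p := p) (Fin.cons z t : Fin (n + 1) → Ω) (E x) =
      z ^ (x.1 : ℕ) * mon (p := p) t x.2 := by
    intro x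
    rw [mon_cons]
    rfl
  have e2 : ∑ α, c α * mon (p := p) (Fin.cons z t : Fin (n + 1) → Ω) α =
      ∑ x, c (E x) * (z ^ (x.1 : ℕ) * mon (p := p) t x.2) := by
    rw [← Equiv.sum_comp E]
    exact Finset.sum_congr rfl fun x _ => by rw [e1]
  rw [e2] at hne ⊢
  have h1 := h (fun x => c (E x)) (fun x => hc _) hne (E.symm α)
  dsimp only at h1
  rw [← e1, Equiv.apply_symm_apply] at h1
  exact h1

section Step

variable [IsAlgClosed Ω] [hp : Fact p.Prime] [CharP k p] [CharP Ω p]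

/-- The powers of an almost centred element are almost orthogonal. -/
theorem orthq_pow (h0 : Ctx0 k v) (hF : Cld v F) {z : Ω} {σ e : ℝ} (hzp : z ^ p ∈ F)
    (hfar : ∀ a ∈ F, z ≠ a ∧ v (z - a) < σ) (hz : σ - e ≤ v z) :
    Orthq v F.toSubfield (fun i : Fin p => z ^ (i : ℕ)) ((p - 1) * e) := by
  classical
  intro c hc hne i
  set P : Polynomial Ω := ∑ j : Fin p, C (c j) * X ^ (j : ℕ) with hP
  have hPe : P.eval z = ∑ j, c j * z ^ (j : ℕ) := by
    rw [hP, eval_finsetSum]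
    exact Finset.sum_congr rfl fun j _ => by rw [eval_mul, eval_C, eval_pow, eval_X]
  have hco : ∀ j : Fin p, P.coeff (j : ℕ) = c j := by
    intro j
    rw [hP, finsetSum_coeff, Finset.sum_eq_single j]
    · rw [coeff_C_mul, coeff_X_pow, if_pos rfl, mul_one]
    · intro l _ hl
      rw [coeff_C_mul, coeff_X_pow, if_neg, mul_zero]
      exact fun h => hl (Fin.ext h.symm)
    · exact fun h => absurd (Finset.mem_univ j) h
  have hP0 : P ≠ 0 := by
    intro h1
    rw [h1, eval_zero] at hPe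
    exact hne hPe.symm
  have hPd : P.natDegree < p := by
    have h1 : P.degree < p := degree_sum_fin_lt fun j => c j
    rw [degree_eq_natDegree hP0] at h1
    exact_mod_cast h1
  have hPF : P ∈ PI F := by
    intro j
    by_cases hj : j < p
    · rw [hco ⟨j, hj⟩]
      exact hc ⟨j, hj⟩
    · rw [coeff_eq_zero_of_natDegree_lt (by omega)]
      exact zero_mem F
  have hS := str_of_dist p h0 hF hzp hfar hPF hP0 hPd
  have hz0 : z ≠ 0 := (hfar 0 (zero_mem F)).1
  have hT0 : (taylor z P).coeff 0 = P.eval z := taylor_coeff_zero z P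
  have hTd : (taylor z P).natDegree ≤ p - 1 := by
    rw [natDegree_taylor]
    omega
  have e1 : c i = ∑ j ∈ Finset.range (p - 1 + 1),
      (j.choose (i : ℕ) : Ω) * (taylor z P).coeff j * (-z) ^ (j - (i : ℕ)) := by
    rw [← taylor_coeff_sum (taylor z P) (-z) hTd, taylor_taylor, neg_add_cancel, taylor_zero,
      hco]
  show v.Ge _ (c i * z ^ (i : ℕ))
  rw [← hPe, e1, Finset.sum_mul]
  refine RVal.Ge.sum _ _ fun j hj => ?_
  by_cases hij : j < (i : ℕ)
  · rw [Nat.choose_eq_zero_of_lt hij, Nat.cast_zero, zero_mul, zero_mul, zero_mul]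
    exact RVal.Ge.zero
  have h1 := hS.ge j
  rw [hT0] at h1
  have h2 := (((TWM.ge_natCast v (j.choose (i : ℕ))).mul h1).mul
    (ge_pow ((v.ge_self z).neg) (j - (i : ℕ)))).mul (ge_pow (v.ge_self z) (i : ℕ))
  refine h2.mono ?_
  have h3 : ((j - (i : ℕ) : ℕ) : ℝ) = (j : ℝ) - ((i : ℕ) : ℝ) := by
    rw [Nat.cast_sub (not_lt.1 hij)]
  have h4 : (j : ℝ) ≤ (p : ℝ) - 1 := by
    have h5 := Finset.mem_range.1 hj
    have h6 : j + 1 ≤ p := by have := hp.out.pos; omega
    have : ((j : ℝ) + 1) ≤ p := by exact_mod_cast h6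
    linarith
  rw [h3]
  have h5 : (0 : ℝ) ≤ j := Nat.cast_nonneg j
  have h6 : 0 ≤ e - (σ - v z) := by linarith
  have h7 : 0 ≤ e := by
    have := (hfar 0 (zero_mem F)).2
    rw [sub_zero] at this
    linarith
  nlinarith [mul_nonneg h5 h6, mul_nonneg (sub_nonneg.2 h4) h7]

omit [IsAlgClosed Ω] [CharP k p] in
/-- `F(z)` has the basis `1, z, ..`. -/
theorem bas_adj {z : Ω} (hz : z ∉ F) (hzp : z ^ p ∈ F) :
    Bas F.toSubfield (adj F z).toSubfield (fun i : Fin p => z ^ (i : ℕ)) := by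
  refine ⟨fun i => pow_mem (mem_adj_self F z).1 _, fun u hu => ?_, ?_⟩
  · obtain ⟨P, hP, hdeg, rfl⟩ := C.exists_rep p hzp hu
    refine ⟨fun i => P.coeff i, fun i => hP i, ?_⟩
    rw [eval_eq_sum_range' hdeg, Finset.sum_range]
  · exact (bas_pow (Q := F.toSubfield) (p := p) hz hzp).ind

omit [IsAlgClosed Ω] hp [CharP k p] [CharP Ω p] in
/-- Elements at a distance which is not attained. -/
theorem exists_recentre (hF : Cld v F) (hKF : ∀ f ∈ K, f ^ p ∈ F) (hFK : F ≤ K)
    (himm : ∀ f ∈ K, f ≠ 0 → ∃ g ∈ K, Gt v (v f) (f - g ^ p)) {x : Ω} (hx : x ∈ K) (hxF : x ∉ F)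
    {e : ℝ} (he : 0 < e) : ∃ a ∈ F, ∃ σ : ℝ, σ - e ≤ v (x - a) ∧
      ∀ b ∈ F, x - a ≠ b ∧ v (x - a - b) < σ := by
  obtain ⟨σ, hσ⟩ := TWC.Dst.exists hF hxF
  have hfar : ∀ b ∈ F, x - b ≠ 0 ∧ v (x - b) < σ := by
    intro b hb
    have h1 := hσ.le hb
    obtain ⟨g, hg, h2⟩ := himm (x - b) (sub_mem hx (hFK hb)) h1.1
    have h3 := hσ.le (add_mem hb (hKF g hg))
    have e1 : x - (b + g ^ p) = x - b - g ^ p := by ring
    rw [e1] at h3
    exact ⟨h1.1, lt_of_lt_of_le (h2 h3.1) h3.2⟩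
  obtain ⟨a, ha, h1⟩ := hσ.near e he
  refine ⟨a, ha, σ, h1 (hfar a ha).1, fun b hb => ?_⟩
  have h2 := hfar (a + b) (add_mem ha hb)
  have e1 : x - (a + b) = x - a - b := by ring
  rw [e1] at h2
  exact ⟨sub_ne_zero.1 h2.1, h2.2⟩

/-- One more element. -/
theorem cons_bas (h0 : Ctx0 k v) (hF : Cld v F) (hFK : F.toSubfield ≤ K.toSubfield) {z : Ω}
    {σ e e' : ℝ} (hz : z ∈ K) (hzp : z ^ p ∈ F) (h1 : σ - e ≤ v z)
    (h2 : ∀ b ∈ F, z ≠ b ∧ v (z - b) < σ) {n : ℕ} {t : Fin n → Ω} (ht : ∀ i, t i ∈ K)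
    (hbt : Bas (adj F z).toSubfield K.toSubfield (mon (p := p) t))
    (hot : Orthq v (adj F z).toSubfield (mon (p := p) t) e') :
    (∀ i, (Fin.cons z t : Fin (n + 1) → Ω) i ∈ K) ∧
      Bas F.toSubfield K.toSubfield (mon (p := p) (Fin.cons z t : Fin (n + 1) → Ω)) ∧
      Orthq v F.toSubfield (mon (p := p) (Fin.cons z t : Fin (n + 1) → Ω))
        (e' + (p - 1) * e) := by
  have hzF : z ∉ F := fun h3 => (h2 _ h3).1 rfl
  have hx := bas_adj (p := p) hzF hzp
  have ho := orthq_pow (p := p) h0 hF hzp h2 h1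
  have hQQ' : F.toSubfield ≤ (adj F z).toSubfield := (mem_adj_self F z).2
  have hQ'E : (adj F z).toSubfield ≤ K.toSubfield := by
    have h3 : adj F z ≤ K := adj_le hFK hz
    exact h3
  refine ⟨fun i => ?_, ?_, ?_⟩
  · refine Fin.cases ?_ (fun i => ?_) i
    · simpa using hz
    · simpa using ht i
  · have h1 := (hbt.prod hx hQQ' hQ'E).reindex
      (Fin.consEquiv (fun _ : Fin (n + 1) => Fin p)).symm
    convert h1 using 1
    funext α
    rw [mon_cons]
    rfl
  · exact orthq_cons (hot.prod hbt.ind ho hx.ind hx.mem hQQ')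

/-- Almost orthogonal monomial bases. -/
theorem exists_orth_bas (h0 : Ctx0 k v) (hc : CompleteV v)
    (himm : ∀ f ∈ K, f ≠ 0 → ∃ g ∈ K, Gt v (v f) (f - g ^ p)) (N : ℕ) :
    ∀ F : IntermediateField k Ω, Cld v F → (∀ f ∈ K, f ^ p ∈ F) →
      ∀ hFK : F.toSubfield ≤ K.toSubfield,
      Module.Finite F.toSubfield (sm F.toSubfield K.toSubfield hFK) →
      Module.finrank F.toSubfield (sm F.toSubfield K.toSubfield hFK) = N → ∀ e : ℝ, 0 < e →
      ∃ (n : ℕ) (t : Fin n → Ω), (∀ i, t i ∈ K) ∧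
        Bas F.toSubfield K.toSubfield (mon (p := p) t) ∧
        Orthq v F.toSubfield (mon (p := p) t) e := by
  induction N using Nat.strong_induction_on with
  | _ N ih =>
    intro F hF hKF hFK hfin hN e he
    have hp1 : (0 : ℝ) < (p : ℝ) - 1 := by
      have : (1 : ℝ) < p := by exact_mod_cast hp.out.one_lt
      linarith
    by_cases hle : K.toSubfield ≤ F.toSubfield
    · have heq : F.toSubfield = K.toSubfield := le_antisymm hFK hle
      refine ⟨0, Fin.elim0, fun i => i.elim0, ⟨fun α => ?_, fun u hu => ?_, fun c hc h0 j => ?_⟩,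
        fun c hc hne j => ?_⟩
      · simp [mon]
      · exact ⟨fun _ => u, fun _ => heq ▸ hu, by simp [mon]⟩
      · simp only [mon, Finset.univ_eq_empty, Finset.prod_empty, mul_one,
          Finset.univ_unique, Finset.sum_singleton] at h0
        exact (congrArg c (Subsingleton.elim _ _)).trans h0
      · have e1 : ∑ j, c j * mon (p := p) (Fin.elim0 : Fin 0 → Ω) j = c j *
            mon (p := p) (Fin.elim0 : Fin 0 → Ω) j :=
          Finset.sum_eq_single j (fun b _ hb => absurd (Subsingleton.elim b j) hb)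
            fun h => absurd (Finset.mem_univ j) h
        rw [e1]
        exact (v.ge_self _).mono (by linarith)
    · obtain ⟨x, hxK, hxF⟩ := Set.not_subset.1 hle
      obtain ⟨a, ha, σ, h1, h2⟩ := exists_recentre hF hKF hFK himm hxK hxF
        (e := e / (2 * (p - 1))) (by positivity)
      have hza : x - a ∈ K := sub_mem hxK (hFK ha)
      have hzF : x - a ∉ F := fun h3 => (h2 _ h3).1 rfl
      have hzp : (x - a) ^ p ∈ F := hKF _ hza
      set z := x - a with hz
      have hx := bas_adj (p := p) hzF hzp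
      have hoe : e / 2 + ((p : ℝ) - 1) * (e / (2 * (p - 1))) = e := by
        field_simp
        ring
      have hQQ' : F.toSubfield ≤ (adj F z).toSubfield := (mem_adj_self F z).2
      have hQ'E : (adj F z).toSubfield ≤ K.toSubfield := by
        have h3 : adj F z ≤ K := adj_le hFK hza
        exact h3
      have hb := bas_of_finite hFK hfin
      have hfin' : Module.Finite (adj F z).toSubfield
          (sm (adj F z).toSubfield K.toSubfield hQ'E) :=
        finite_of_spn hQ'E fun u hu => (hb.span u hu).mono hQQ'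
      have he' := bas_of_finite hQ'E hfin'
      have hcard := (he'.prod hx hQQ' hQ'E).card hFK
      rw [Fintype.card_prod, Fintype.card_fin, Fintype.card_fin, hN] at hcard
      have hm : 0 < Module.finrank (adj F z).toSubfield
          (sm (adj F z).toSubfield K.toSubfield hQ'E) := by
        by_contra hm
        have hm0 : Module.finrank (adj F z).toSubfield
          (sm (adj F z).toSubfield K.toSubfield hQ'E) = 0 := by omega
        obtain ⟨c, -, h3⟩ := he'.span 1 (one_mem _)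
        rw [Finset.sum_eq_zero] at h3
        · exact one_ne_zero h3
        · intro j
          exact absurd j.2 (by omega)
      have hp2 := hp.out.two_le
      obtain ⟨n, t, ht, hbt, hot⟩ := ih _ (by nlinarith) (adj F z)
        (cld_adj hc hF (D2P.isAlgebraic_of_pow hp.out.pos (D2P.isAlgebraic_of_mem hzp)))
        (fun u hu => hQQ' (hKF u hu)) hQ'E hfin' rfl (e / 2) (half_pos he)
      obtain ⟨h3, h4, h5⟩ := cons_bas h0 hF hFK hza hzp h1 h2 ht hbt hot
      rw [hoe] at h5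
      exact ⟨n + 1, Fin.cons z t, h3, h4, h5⟩

/-- **BASE**: an almost orthogonal `p`-basis which starts with `a - g ^ p`. -/
theorem exists_base [IsAlgClosed k] (h0 : Ctx0 k v) (hc : CompleteV v) (hK : Cld v K)
    (himm : ∀ f ∈ K, f ≠ 0 → ∃ g ∈ K, Gt v (v f) (f - g ^ p))
    {m : ℕ} {t₀ : Fin m → Ω} (ht₀ : PBasis p K t₀) {a : Ω} (ha : a ∈ K)
    (hap : ∀ g ∈ K, a ≠ g ^ p) {e : ℝ} (he : 0 < e) :
    ∃ (n : ℕ) (s : Fin (n + 1) → Ω), PBasis p K s ∧ OI p v K s e ∧ (∀ i, s i ≠ 0) ∧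
      ∃ g ∈ K, s 0 = a - g ^ p ∧ ∃ σ : ℝ, σ - e ≤ v (s 0) ∧
        ∀ b ∈ K, s 0 ≠ b ^ p ∧ v (s 0 - b ^ p) < σ := by
  classical
  have hp1 : (1 : ℝ) ≤ (p : ℝ) - 1 := by
    have : (2 : ℝ) ≤ p := by exact_mod_cast hp.out.two_le
    linarith
  have hF : Cld v (TWC.kp p K) := TWC.cld_kp p hK
  have hFK : TWC.kp p K ≤ K := TWC.kp_le p
  have hKF : ∀ f ∈ K, f ^ p ∈ TWC.kp p K := fun f hf => ⟨f, hf, rfl⟩
  have haF : a ∉ TWC.kp p K := by
    rintro ⟨g, hg, h1⟩
    exact hap g hg h1.symm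
  obtain ⟨a₀, ⟨g, hg, rfl⟩, σ, h1, h2⟩ := exists_recentre hF hKF hFK himm ha haF
    (e := e / (2 * (p - 1))) (by positivity)
  have hza : a - g ^ p ∈ K := sub_mem ha (pow_mem hg p)
  have hzp : (a - g ^ p) ^ p ∈ TWC.kp p K := hKF _ hza
  set z := a - g ^ p with hz
  have hzF : z ∉ TWC.kp p K := fun h3 => (h2 _ h3).1 rfl
  have hQQ' : (TWC.kp p K).toSubfield ≤ (adj (TWC.kp p K) z).toSubfield :=
    (mem_adj_self (TWC.kp p K) z).2
  have hQ'E : (adj (TWC.kp p K) z).toSubfield ≤ K.toSubfield := by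
    have h3 : adj (TWC.kp p K) z ≤ K := adj_le hFK hza
    exact h3
  have hQeq : (TWC.kp p K).toSubfield = Qp p K := by
    ext x
    rw [mem_Qp]
    exact Iff.rfl
  have hfin' : Module.Finite (adj (TWC.kp p K) z).toSubfield
      (sm (adj (TWC.kp p K) z).toSubfield K.toSubfield hQ'E) := by
    refine finite_of_spn hQ'E (b := mon (p := p) t₀) fun u hu => ?_
    have h3 := ht₀.bas.span u hu
    rw [← hQeq] at h3
    exact h3.mono hQQ'
  obtain ⟨n, t, ht, hbt, hot⟩ := exists_orth_bas (p := p) h0 hc himm _ (adj (TWC.kp p K) z)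
    (cld_adj hc hF (D2P.isAlgebraic_of_pow hp.out.pos (D2P.isAlgebraic_of_mem hzp)))
    (fun u hu => hQQ' (hKF u hu)) hQ'E hfin' rfl (e / 2) (half_pos he)
  obtain ⟨h3, h4, h5⟩ := cons_bas h0 hF hFK hza hzp h1 h2 ht hbt hot
  have hoe : e / 2 + ((p : ℝ) - 1) * (e / (2 * (p - 1))) = e := by
    have : (p : ℝ) - 1 ≠ 0 := by linarith
    field_simp
    ring
  rw [hoe] at h5
  rw [hQeq] at h4 h5
  have hpb : PBasis p K (Fin.cons z t : Fin (n + 1) → Ω) := PBasis.of_bas h3 h4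
  refine ⟨n, Fin.cons z t, hpb, OI.of_orth_pb (Orth.of_orthq h5) hpb, fun i hi => ?_, g, hg, rfl,
    σ, ?_, fun b hb => ?_⟩
  · refine h4.ind.ne_zero (fun _ => ⟨1, hp.out.one_lt⟩) ?_
    unfold mon
    exact Finset.prod_eq_zero (Finset.mem_univ i) (by simp [hi])
  · rw [Fin.cons_zero]
    refine le_trans ?_ h1
    have h6 : e / (2 * ((p : ℝ) - 1)) ≤ e := by
      rw [div_le_iff₀ (by positivity)]
      nlinarith
    linarith
  · rw [Fin.cons_zero]
    exact h2 _ (hKF b hb)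

end Step

end Stb

end Pool.Agent.TWMF
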