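import Pool.Agent.Lib.TWMF.X4

/-!
# TANK W, exit: exit data, weak crossing

`XW`: as `XD`, with a weaker crossing: one polynomial whose constant term does not dominate.
`XD.toXW`; `XW.map`, `XW.comap`; `cross_gen`: at a generic radius one monomial dominates.
-/

set_option autoImplicit false

open Polynomial Filter Topology

namespace Pool.Agent.TWMF

open Pool.Agent.H15JM (RVal)
open Pool.Agent.TWM (Gt)
open Pool.Agent.TWS (IsoE)

universe u

/-- Exit data, with a weak crossing. -/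
structure XW (k : Type u) {Ω : Type u} [Field k] [Field Ω] [Algebra k Ω] (p : ℕ) (v : RVal Ω)
    {m : ℕ} (T : Fin m → Ω) (H : Fin m → Polynomial Ω) (σ : ℝ) : Prop where
  ind : AlgebraicIndependent k T
  c0 : ∀ i, (H i).coeff 0 = T i
  tri : ∀ i, ∀ l : ℕ, l ≠ 0 → Tri k T i ((H i).coeff l)
  str : ∀ P : MvPolynomial (Fin m) k, P ≠ 0 → ∀ l : ℕ, l ≠ 0 →
    Gt v (v (MvPolynomial.aeval T P) - l * σ) ((MvPolynomial.aeval H P).coeff l)
  amt : ∀ Λ : ℝ, ∃ σ₀ : ℝ, σ₀ < σ ∧ ∀ a b : ℝ, σ₀ ≤ a → a < b → b ≤ σ →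
    ∃ P Q : MvPolynomial (Fin m) k, ∃ d : Ω, MvPolynomial.aeval T P ≠ 0 ∧
      MvPolynomial.aeval T Q ≠ 0 ∧ d = (MvPolynomial.aeval T P / MvPolynomial.aeval T Q) ^ p ∧
      a < v d ∧ v d < b ∧
      v.Ge Λ (d - (MvPolynomial.aeval (mv H d) P / MvPolynomial.aeval (mv H d) Q) ^ p)
  cross : ∃ σ₁ : ℝ, σ₁ < σ ∧ ∀ ρ : ℝ, σ₁ < ρ → ρ < σ → ∃ (P : MvPolynomial (Fin m) k) (l : ℕ),
    l ≠ 0 ∧ (MvPolynomial.aeval H P).coeff l ≠ 0 ∧
      Gt v (v ((MvPolynomial.aeval H P).coeff l) + l * ρ) ((MvPolynomial.aeval H P).coeff 0)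

theorem XD.toXW {k Ω : Type u} [Field k] [Field Ω] [Algebra k Ω] {p : ℕ} {v : RVal Ω} {m : ℕ}
    {T : Fin m → Ω} {H : Fin m → Polynomial Ω} {σ : ℝ} (h : XD k p v T H σ) : XW k p v T H σ where
  ind := h.ind
  c0 := h.c0
  tri := h.tri
  str := h.str
  amt := h.amt
  cross := by
    obtain ⟨σ₁, h0, h1⟩ := h.cross
    refine ⟨σ₁, h0, fun ρ h2 h3 => ?_⟩
    obtain ⟨P, l, hl, hb, h4⟩ := h1 ρ h2 h3
    refine ⟨P, l, hl, hb, ?_⟩
    have h5 := h4 0 hl.symm
    rwa [Nat.cast_zero, zero_mul, sub_zero] at h5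

/-- At a generic radius one monomial dominates. -/
theorem cross_gen {Ω : Type u} [Field Ω] {v : RVal Ω} {ρ : ℝ}
    (hirr : ∀ (m : ℤ) (f : Ω), m ≠ 0 → f ≠ 0 → v f ≠ m * ρ) {F : Polynomial Ω} {l : ℕ} (hl : l ≠ 0)
    (hb : F.coeff l ≠ 0) (h : Gt v (v (F.coeff l) + l * ρ) (F.coeff 0)) :
    ∃ m : ℕ, m ≠ 0 ∧ F.coeff m ≠ 0 ∧ ∀ i : ℕ, i ≠ m →
      Gt v (v (F.coeff m) + m * ρ - i * ρ) (F.coeff i) := by
  classical
  obtain ⟨m, hm, hmin⟩ := F.support.exists_min_image (fun i : ℕ => v (F.coeff i) + i * ρ)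
    ⟨l, mem_support_iff.2 hb⟩
  have hm0 : F.coeff m ≠ 0 := mem_support_iff.1 hm
  have hml := hmin l (mem_support_iff.2 hb)
  refine ⟨m, fun h0 => ?_, hm0, fun i hi hi0 => ?_⟩
  · subst h0
    have h1 := h hm0
    rw [Nat.cast_zero, zero_mul, add_zero] at hml
    linarith
  · have h1 := hmin i (mem_support_iff.2 hi0)
    have h2 : v (F.coeff i) ≠ v (F.coeff m) + m * ρ - i * ρ := by
      intro h3
      refine hirr ((m : ℤ) - i) (F.coeff i / F.coeff m) (by omega) (div_ne_zero hi0 hm0) ?_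
      rw [v.map_div hi0 hm0, h3]
      push_cast
      ring
    exact lt_of_le_of_ne (by linarith) (Ne.symm h2)

section Map

variable {k E Ω : Type u} [Field k] [Field E] [Algebra k E] [Field Ω] [Algebra k Ω]
  {f : E →ₐ[k] Ω} {m : ℕ} {T : Fin m → E} {H : Fin m → Polynomial E}

variable {p : ℕ} {u : RVal E} {v : RVal Ω} {σ : ℝ}

/-- Images. -/
theorem XW.map (h : XW k p u T H σ) (hf : IsoE u v f) :
    XW k p v (fun i => f (T i)) (fun i => (H i).map (f : E →+* Ω)) σ where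
  ind := (f.algebraicIndependent_iff f.injective).2 h.ind
  c0 i := by
    rw [coeff_map, h.c0]
    rfl
  tri i l hl := by
    rw [coeff_map]
    exact map_tri.2 (h.tri i l hl)
  str P hP l hl := by
    have hne : MvPolynomial.aeval T P ≠ 0 := fun h0 => hP (h.ind.eq_zero_of_aeval_eq_zero P h0)
    rw [← map_aeval, ← map_aevalH, coeff_map, hf.val _ hne]
    exact hf.gt_iff.2 (h.str P hP l hl)
  amt Λ := by
    obtain ⟨σ₀, h1, h2⟩ := h.amt Λ
    refine ⟨σ₀, h1, fun a b ha hab hb => ?_⟩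
    obtain ⟨P, Q, d, hP, hQ, hd, h3, h4, h5⟩ := h2 a b ha hab hb
    have hd0 : d ≠ 0 := by
      rw [hd]
      exact pow_ne_zero _ (div_ne_zero hP hQ)
    refine ⟨P, Q, f d, ?_, ?_, ?_, ?_, ?_, ?_⟩
    · rw [← map_aeval]
      exact IsoE.ne_zero hP
    · rw [← map_aeval]
      exact IsoE.ne_zero hQ
    · rw [hd, map_pow, map_div₀, map_aeval, map_aeval]
    · rwa [hf.val d hd0]
    · rwa [hf.val d hd0]
    · rw [← amt_map]
      exact hf.ge_iff.2 h5
  cross := by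
    obtain ⟨σ₁, h0, h1⟩ := h.cross
    refine ⟨σ₁, h0, fun ρ h2 h3 => ?_⟩
    obtain ⟨P, l, hl, hb, h4⟩ := h1 ρ h2 h3
    have e : ∀ i, (MvPolynomial.aeval (fun i => (H i).map (f : E →+* Ω)) P).coeff i =
        f ((MvPolynomial.aeval H P).coeff i) := fun i => by
      rw [← map_aevalH, coeff_map]
      rfl
    refine ⟨P, l, hl, ?_, ?_⟩
    · rw [e]
      exact IsoE.ne_zero hb
    · rw [e, e, hf.val _ hb]
      exact hf.gt_iff.2 h4

/-- Preimages. -/
theorem XW.comap (h : XW k p v (fun i => f (T i)) (fun i => (H i).map (f : E →+* Ω)) σ)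
    (hf : IsoE u v f) : XW k p u T H σ where
  ind := (f.algebraicIndependent_iff f.injective).1 h.ind
  c0 i := by
    have h1 := h.c0 i
    rw [coeff_map] at h1
    exact f.injective h1
  tri i l hl := by
    have h1 := h.tri i l hl
    rw [coeff_map] at h1
    exact map_tri.1 h1
  str P hP l hl := by
    have hind := (f.algebraicIndependent_iff f.injective).1 h.ind
    have hne : MvPolynomial.aeval T P ≠ 0 := fun h0 => hP (hind.eq_zero_of_aeval_eq_zero P h0)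
    have h1 := h.str P hP l hl
    rw [← map_aeval, ← map_aevalH, coeff_map, hf.val _ hne] at h1
    exact hf.gt_iff.1 h1
  amt Λ := by
    obtain ⟨σ₀, h1, h2⟩ := h.amt Λ
    refine ⟨σ₀, h1, fun a b ha hab hb => ?_⟩
    obtain ⟨P, Q, d', hP, hQ, hd, h3, h4, h5⟩ := h2 a b ha hab hb
    rw [← map_aeval] at hP hQ
    have hP' : MvPolynomial.aeval T P ≠ 0 := fun h0 => hP (by rw [h0, map_zero])
    have hQ' : MvPolynomial.aeval T Q ≠ 0 := fun h0 => hQ (by rw [h0, map_zero])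
    obtain ⟨d, hd1⟩ : ∃ d, d = (MvPolynomial.aeval T P / MvPolynomial.aeval T Q) ^ p := ⟨_, rfl⟩
    have e : d' = f d := by rw [hd, hd1, map_pow, map_div₀, map_aeval, map_aeval]
    have hd0 : d ≠ 0 := by
      rw [hd1]
      exact pow_ne_zero _ (div_ne_zero hP' hQ')
    rw [e, hf.val d hd0] at h3 h4
    rw [e, ← amt_map] at h5
    exact ⟨P, Q, d, hP', hQ', hd1, h3, h4, hf.ge_iff.1 h5⟩
  cross := by
    obtain ⟨σ₁, h0, h1⟩ := h.cross
    refine ⟨σ₁, h0, fun ρ h2 h3 => ?_⟩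
    obtain ⟨P, l, hl, hb, h4⟩ := h1 ρ h2 h3
    have e : ∀ i, (MvPolynomial.aeval (fun i => (H i).map (f : E →+* Ω)) P).coeff i =
        f ((MvPolynomial.aeval H P).coeff i) := fun i => by
      rw [← map_aevalH, coeff_map]
      rfl
    have hb' : (MvPolynomial.aeval H P).coeff l ≠ 0 := fun h5 => hb (by rw [e, h5, map_zero])
    refine ⟨P, l, hl, hb', ?_⟩
    rw [e, e, hf.val _ hb'] at h4
    exact hf.gt_iff.1 h4

end Map

end Pool.Agent.TWMF
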