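import Pool.Agent.Lib.TWMF.E2

/-!
# TANK W, exit, 9: motions without effect, from (EV)

`motE_of_ev`: (EV) and null jets of `a` give motions without effect on `a`.
-/

set_option autoImplicit false

open Polynomial Filter Topology

namespace Pool.Agent.TWMF

open Pool.Agent.H15JM (RVal)
open Pool.Agent.LU1 (VPos adj)
open Pool.Agent.D2 (Ctx0)
open Pool.Agent.D2P (hen hen_hen le_hen hen_mono hen_le mem_hen clI mem_clI)
open Pool.Agent.TWM (Gt CompleteV)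
open Pool.Agent.TWS (IsoE)
open Pool.Agent.TWLM (HSd Oi Arc)
open Pool.Agent.TW WM13

universe u

variable {k Ω Ω' : Type u} [Field k] [Field Ω] [Algebra k Ω] [Field Ω'] [Algebra k Ω']
  {v : RVal Ω} {w : RVal Ω'} {ι : Ω →ₐ[k] Ω'}

/-- Margins of null jets. -/
theorem exists_null {p : ℕ} [hp : Fact p.Prime] [CharP Ω' p] {K₀ : IntermediateField k Ω}
    {c : ℝ} {x : Ω'} (h : ∃ g ∈ clI w (K₀.map ι), Gt w c (x - g ^ p)) :
    ∃ g ∈ K₀, ∃ κ : ℝ, 0 < κ ∧ w.Ge (c + κ) (x - ι g ^ p) := by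
  obtain ⟨g, hg, h1⟩ := h
  obtain ⟨κ, hκ, h2⟩ := TWLM.exists_ge_of_gt h1
  have hp0 : (0 : ℝ) < p := by exact_mod_cast hp.out.pos
  obtain ⟨g', hg', h3⟩ := mem_clI.1 hg ((c + κ) / p)
  obtain ⟨g', hg', rfl⟩ := hg'
  refine ⟨g', hg', κ, hκ, ?_⟩
  have h4 : w.Ge (c + κ) ((g - ι g') ^ p) := by
    refine (TWM.ge_pow h3 p).mono ?_
    rw [mul_div_cancel₀ _ hp0.ne']
  rw [sub_pow_char] at h4
  have e : x - ι g' ^ p = (x - g ^ p) + (g ^ p - ι g' ^ p) := by ring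
  rw [e]
  exact h2.add h4

/-- **Motions without effect, from (EV).** -/
theorem motE_of_ev [IsAlgClosed k] {p : ℕ} [hp : Fact p.Prime] [CharP Ω p] [CharP Ω' p] {r : ℕ}
    (h : Ctx k v r) (hd : IsoE v w ι) {K₀ : IntermediateField k Ω} {Ψ : ℕ → Ω' → Ω'} {σ : ℝ}
    (hEV : EV p v w ι K₀ Ψ σ) {ν : ℝ} {a : Ω} (ha : a ∈ hen v K₀) (hc0 : Ψ 0 (ι a) = ι a)
    (hnull : ∀ l : ℕ, l ≠ 0 → ∃ g ∈ clI w (K₀.map ι), Gt w (ν - l * σ) (Ψ l (ι a) - g ^ p)) :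
    ∃ (φ : ℕ → (Ω ≃ₐ[k] Ω)) (δ : ℕ → Ω) (μ κ : ℝ), 0 < κ ∧ Mot v K₀ φ δ μ ∧
      ∀ i, ∃ b ∈ hen v K₀, v.Ge (ν + κ) (φ i a - a - b ^ p) := by
  classical
  obtain ⟨M, hM⟩ := hEV {a} (fun x hx => by rw [Finset.mem_singleton.1 hx]; exact ha) (ν + 1) 1
  have hM := hM M le_rfl
  have hex : ∀ l : ℕ, ∃ g ∈ K₀, l ≠ 0 → ∃ κ : ℝ, 0 < κ ∧
      w.Ge (ν - l * σ + κ) (Ψ l (ι a) - ι g ^ p) := by
    intro l
    by_cases hl : l = 0
    · exact ⟨0, zero_mem _, fun h0 => absurd hl h0⟩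
    · obtain ⟨g, hg, h1⟩ := exists_null (hnull l hl)
      exact ⟨g, hg, fun _ => h1⟩
  choose g hg hgκ using hex
  obtain ⟨κ, hκ, hκl⟩ := TWEX.exists_margin (Finset.range (M + 1))
    (fun l κ => l ≠ 0 → w.Ge (ν - l * σ + κ) (Ψ l (ι a) - ι (g l) ^ p))
    (fun l _ => by
      by_cases hl : l = 0
      · exact ⟨1, one_pos, fun h0 => absurd hl h0⟩
      · obtain ⟨κ, h1, h2⟩ := hgκ l hl
        exact ⟨κ, h1, fun _ => h2⟩)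
    (fun l _ κ κ' h1 h2 hl => (h2 hl).mono (by linarith))
  obtain ⟨ε, hε, hε'⟩ : ∃ ε : ℝ, 0 < ε ∧ ((M : ℝ) + 1) * ε ≤ κ / 2 := by
    refine ⟨κ / 2 / (M + 1), by positivity, ?_⟩
    rw [mul_div_cancel₀ _ (by positivity)]
  obtain ⟨ρ₀, h1, h2, h3⟩ := hM (σ - ε) (by linarith)
  obtain ⟨ρ, h4, h5, hirr⟩ := exists_irr h h2
  obtain ⟨φ, e, he, hev, hmot, -, hval⟩ := h3 ρ h4 h5 hirr
  refine ⟨φ, _, ρ, min 1 (κ / 2), lt_min one_pos (by positivity), hmot, fun i => ?_⟩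
  refine ⟨∑ l ∈ (Finset.range (M + 1)).erase 0, g l * e i ^ l,
    sum_mem fun l _ => mul_mem (le_hen _ (hg l)) (pow_mem (he i) l), ?_⟩
  have h6 := hval a (Finset.mem_singleton_self a) i
  have hdi : w.Ge (σ - ε) (ι (e i ^ p ^ 1)) := hd.ge_iff.2 fun _ => h1.trans (hev i).2.1
  have h7 : w.Ge (ν + κ / 2) (∑ l ∈ (Finset.range (M + 1)).erase 0,
      (Ψ l (ι a) - ι (g l) ^ p) * ι (e i ^ p ^ 1) ^ l) := by
    refine RVal.Ge.sum _ _ fun l hl => ?_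
    obtain ⟨hl0, hl⟩ := Finset.mem_erase.1 hl
    refine ((hκl l hl hl0).mul (TWM.ge_pow hdi l)).mono ?_
    have h8 : (l : ℝ) ≤ M + 1 := by exact_mod_cast (Finset.mem_range.1 hl).le
    have h9 := (mul_le_mul_of_nonneg_right h8 hε.le).trans hε'
    linarith
  rw [← hd.ge_iff]
  have e' : ι (φ i a - a - (∑ l ∈ (Finset.range (M + 1)).erase 0, g l * e i ^ l) ^ p) =
      (ι (φ i a) - ∑ l ∈ Finset.range (M + 1), Ψ l (ι a) * ι (e i ^ p ^ 1) ^ l) +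
      ∑ l ∈ (Finset.range (M + 1)).erase 0, (Ψ l (ι a) - ι (g l) ^ p) * ι (e i ^ p ^ 1) ^ l := by
    rw [sum_pow_char, ← Finset.add_sum_erase (Finset.range (M + 1)) _
      (Finset.mem_range.2 (Nat.succ_pos M)), hc0, pow_zero, mul_one, map_sub, map_sub, map_sum]
    simp only [sub_mul, Finset.sum_sub_distrib, map_mul, map_pow, mul_pow, pow_one]
    have e2 : ∑ x ∈ (Finset.range (M + 1)).erase 0, ι (g x) ^ p * (ι (e i) ^ x) ^ p =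
        ∑ x ∈ (Finset.range (M + 1)).erase 0, ι (g x) ^ p * (ι (e i) ^ p) ^ x :=
      Finset.sum_congr rfl fun l _ => by rw [← pow_mul, ← pow_mul, mul_comm l p]
    rw [e2]
    ring
  rw [e']
  exact (h6.mono (by linarith [min_le_left 1 (κ / 2)])).add
    (h7.mono (by linarith [min_le_right 1 (κ / 2)]))

/-- **Motions without effect, from exit data and null jets.** -/
theorem motE_of_xw [IsAlgClosed k] [IsAlgClosed Ω] {p : ℕ} [Fact p.Prime] [CharP k p]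
    [CharP Ω p] [CharP Ω' p] {r : ℕ} (h : Ctx k v r) (h0' : Ctx0 k w) (hcw : CompleteV w)
    (hd : IsoE v w ι) {K₀ : IntermediateField k Ω} (hK : K₀.FG)
    (hΩ : ∀ g : Ω, IsAlgebraic K₀ g) {m : ℕ} (htr : Algebra.trdeg k K₀ = m) (hBD : BD p v K₀)
    {T : Fin m → Ω'} (hcl : clI w (K₀.map ι) = clI w (kr k T)) {H : Fin m → Polynomial Ω'} {σ : ℝ}
    (hX : ∀ s : ℕ, XW k (p ^ s) w T H σ) {Ψ : ℕ → Ω' → Ω'} (hΨ : HSd (clI w (K₀.map ι)) Ψ)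
    (hst : Ptw w (clI w (K₀.map ι)) σ Ψ) (hoi : Oi w (clI w (K₀.map ι)) σ Ψ)
    (hH : ∀ i l, (H i).coeff l = Ψ l (T i)) {ν : ℝ} {a : Ω} (ha : a ∈ hen v K₀)
    (hnull : ∀ l : ℕ, l ≠ 0 → ∃ g ∈ clI w (K₀.map ι), Gt w (ν - l * σ) (Ψ l (ι a) - g ^ p)) :
    ∃ (φ : ℕ → (Ω ≃ₐ[k] Ω)) (δ : ℕ → Ω) (μ κ : ℝ), 0 < κ ∧ Mot v K₀ φ δ μ ∧
      ∀ i, ∃ b ∈ hen v K₀, v.Ge (ν + κ) (φ i a - a - b ^ p) := by
  have h1 : ι a ∈ hen w (K₀.map ι) := by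
    rw [hd.hen_map]
    exact TWM.Dense.apply_mem_map.2 ha
  exact motE_of_ev h hd (ev_of_xw_iso h h0' hcw hd hK hΩ htr hBD hcl hX hΨ hst hoi hH) ha
    (hΨ.c0 _ (mem_clI.2 (mem_hen.1 h1).1)) hnull

end Pool.Agent.TWMF
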