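import Pool.Agent.Lib.TWMF.X5

/-!
# TANK W, exit, 6: motions without effect, general form

`EG`: an element of `k(T)` near `a`, without effect.  `motE_of_xg`: `XG` and `EG` over the completion
give motions of `K₀` without effect on `a`.
-/

set_option autoImplicit false

open Polynomial Filter Topology

namespace Pool.Agent.TWMF

open Pool.Agent.H15JM (RVal)
open Pool.Agent.LU1 (VPos adj)
open Pool.Agent.D2 (Ctx0)
open Pool.Agent.D2P (hen hen_hen le_hen hen_mono hen_le mem_hen clI mem_clI)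
open Pool.Agent.TWM (Gt CompleteV)
open Pool.Agent.TWS (IsoE)
open Pool.Agent.TW WM13

universe u

/-- `P(T) / Q(T)` is near to `a`, the motions have no effect on it. -/
structure EG {k Ω : Type u} [Field k] [Field Ω] [Algebra k Ω] (p : ℕ) (w : RVal Ω) {m : ℕ}
    (T : Fin m → Ω) (H : Fin m → Polynomial Ω) (σ ν B : ℝ) (a : Ω) (P Q : MvPolynomial (Fin m) k) :
    Prop where
  q0 : MvPolynomial.aeval T Q ≠ 0
  near : w.Ge B (a - MvPolynomial.aeval T P / MvPolynomial.aeval T Q)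
  eff : ∃ ε : ℝ, 0 < ε ∧ ∀ d ∈ kr k T, w.Ge (σ - ε) d → ∃ b ∈ kr k T,
    w.Ge (ν + ε) (MvPolynomial.aeval (mv H d) P / MvPolynomial.aeval (mv H d) Q -
      MvPolynomial.aeval T P / MvPolynomial.aeval T Q - b ^ p)

variable {k Ω Ω' : Type u} [Field k] [Field Ω] [Algebra k Ω] [Field Ω'] [Algebra k Ω']
  {v : RVal Ω} {w : RVal Ω'}

theorem resV_ge_iff {E : IntermediateField k Ω} {c : ℝ} {x : E} :
    (resV v E).Ge c x ↔ v.Ge c (x : Ω) :=
  (isoE_val (v := v) E).ge_iff.symm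

/-- **Transport of exit data.** -/
theorem XG.pull {m : ℕ} {T : Fin m → Ω'} {H : Fin m → Polynomial Ω'} {σ : ℝ}
    (hX : XG k w T H σ) {t : Fin m → Ω} (j : kr k t →ₐ[k] Ω')
    (hjt : ∀ i, ∀ hi : t i ∈ kr k t, j ⟨t i, hi⟩ = T i) (hjv : ∀ e : kr k t, e ≠ 0 → w (j e) = v e) :
    ∃ HE : Fin m → Polynomial (kr k t), (∀ i, (HE i).map (j : kr k t →+* Ω') = H i) ∧
      XG k v t (fun i => (HE i).map (algebraMap (kr k t) Ω)) σ := by
  have hm : ∀ i, t i ∈ kr k t := fun i => IntermediateField.subset_adjoin k _ ⟨i, rfl⟩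
  set tE : Fin m → kr k t := fun i => ⟨t i, hm i⟩ with htE
  have hjT : (fun i => j (tE i)) = T := funext fun i => hjt i (hm i)
  have hex : ∀ i, ∃ G : Polynomial (kr k t), G.map (j : kr k t →+* Ω') = H i := by
    intro i
    refine exists_lift _ _ fun l => ?_
    have h1 := hX.mem i l
    rw [← hjT] at h1
    obtain ⟨x, -, hx⟩ := exists_of_mem_kr h1
    exact ⟨x, hx⟩
  choose HE hHE using hex
  refine ⟨HE, hHE, ?_⟩
  have h1 : XG k w (fun i => j (tE i)) (fun i => (HE i).map (j : kr k t →+* Ω')) σ := by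
    have e : (fun i => (HE i).map (j : kr k t →+* Ω')) = H := funext hHE
    rw [hjT, e]
    exact hX
  have hIj : IsoE (resV v (kr k t)) w j := ⟨fun e he => hjv e he⟩
  exact (h1.comap hIj).map (isoE_val (v := v) (kr k t))

/-- **Motions without effect.** -/
theorem motG_of_pull [IsAlgClosed k] [IsAlgClosed Ω] {p : ℕ} {r : ℕ} (h : Ctx k v r)
    {ι : Ω →ₐ[k] Ω'} (hι : IsoE v w ι)
    {K₀ : IntermediateField k Ω} (hK : K₀.FG) (hΩ : ∀ g : Ω, IsAlgebraic K₀ g)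
    {m : ℕ} {T : Fin m → Ω'} {H : Fin m → Polynomial Ω'} {σ : ℝ} (hX : XG k w T H σ)
    {t : Fin m → Ω} (ht : hen v K₀ = hen v (kr k t)) (j : kr k t →ₐ[k] Ω')
    (hjt : ∀ i, ∀ hi : t i ∈ kr k t, j ⟨t i, hi⟩ = T i) (hjv : ∀ e : kr k t, e ≠ 0 → w (j e) = v e)
    (hgen : ∃ Λ : ℝ, ∀ E : IntermediateField k Ω, E.FG → E ≤ hen v K₀ →
      (∃ s : Fin m → Ω, (∀ i, s i ∈ E) ∧ ∀ i, v.Ge Λ (t i - s i)) → hen v E = hen v K₀)
    {η β₀ ν : ℝ} (hjc : ∀ e : kr k t, w.Ge (v e + η) (j e - ι e)) (hη : ν + 1 ≤ β₀ + η)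
    (hβ₀ : β₀ ≤ ν + 1) {a : Ω} (ha : a ∈ K₀) (haβ : v.Ge β₀ a) {P Q : MvPolynomial (Fin m) k}
    (hE : EG p w T H σ ν (ν + 1) (ι a) P Q) :
    ∃ (φ : ℕ → (Ω ≃ₐ[k] Ω)) (δ : ℕ → Ω) (μ κ : ℝ), 0 < κ ∧ Mot v K₀ φ δ μ ∧
      ∀ i, ∃ b ∈ hen v K₀, v.Ge (ν + κ) (φ i a - a - b ^ p) := by
  classical
  obtain ⟨HE, hHE, hX₀⟩ := hX.pull (v := v) j hjt hjv
  have hm : ∀ i, t i ∈ kr k t := fun i => IntermediateField.subset_adjoin k _ ⟨i, rfl⟩
  set tE : Fin m → kr k t := fun i => ⟨t i, hm i⟩ with htE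
  set H₀ : Fin m → Polynomial Ω := fun i => (HE i).map (algebraMap (kr k t) Ω) with hH₀
  have hjT : (fun i => j (tE i)) = T := funext fun i => hjt i (hm i)
  have hjH : (fun i => (HE i).map (j : kr k t →+* Ω')) = H := funext hHE
  have hIj : IsoE (resV v (kr k t)) w j := ⟨fun e he => hjv e he⟩
  have hjinj : Function.Injective j := j.injective
  -- the elements of `k(t)`
  have hcoe : ∀ R : MvPolynomial (Fin m) k, ((MvPolynomial.aeval tE R : kr k t) : Ω) =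
      MvPolynomial.aeval t R := fun R => map_aeval (kr k t).val tE R
  have hj : ∀ R : MvPolynomial (Fin m) k, j (MvPolynomial.aeval tE R) = MvPolynomial.aeval T R := by
    intro R
    rw [map_aeval, hjT]
  -- the moved elements
  have hjm : ∀ (e : kr k t) (R : MvPolynomial (Fin m) k), j (MvPolynomial.aeval (mv HE e) R) =
      MvPolynomial.aeval (mv H (j e)) R := by
    intro e R
    rw [map_aeval]
    congr 2
    funext i
    rw [← hjH, map_mv]
  have hcm : ∀ (e : kr k t) (R : MvPolynomial (Fin m) k),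
      ((MvPolynomial.aeval (mv HE e) R : kr k t) : Ω) = MvPolynomial.aeval (mv H₀ e) R := by
    intro e R
    have h1 := map_aeval (kr k t).val (mv HE e) R
    have h2 : (fun i => (kr k t).val (mv HE e i)) = mv H₀ e :=
      funext fun i => (map_mv (kr k t).val HE e i).symm
    rw [h2] at h1
    exact h1
  -- the denominator
  have hQE : MvPolynomial.aeval tE Q ≠ 0 := by
    intro h0
    apply hE.q0
    rw [← hj, h0, map_zero]
  -- the element
  set RE : kr k t := MvPolynomial.aeval tE P / MvPolynomial.aeval tE Q with hRE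
  have hR : (RE : Ω) = MvPolynomial.aeval t P / MvPolynomial.aeval t Q := by
    rw [← hcoe, ← hcoe]
    rfl
  have hjR : j RE = MvPolynomial.aeval T P / MvPolynomial.aeval T Q := by
    rw [hRE, map_div₀, hj, hj]
  have hjRβ : w.Ge β₀ (j RE) := by
    have e : j RE = ι a - (ι a - j RE) := by ring
    rw [e]
    refine (hι.ge_iff.2 haβ).sub ?_
    rw [hjR]
    exact hE.near.mono hβ₀
  have hRβ : v.Ge β₀ (RE : Ω) := resV_ge_iff.1 (hIj.ge_iff.1 hjRβ)
  have hnear : v.Ge (ν + 1) (a - RE) := by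
    rw [← hι.ge_iff, map_sub]
    have e : ι a - ι (RE : Ω) = (ι a - j RE) + (j RE - ι RE) := by ring
    rw [e]
    refine RVal.Ge.add ?_ ?_
    · rw [hjR]
      exact hE.near
    · by_cases h0 : RE = 0
      · rw [h0, map_zero]
        show w.Ge _ (0 - ι 0)
        rw [map_zero, sub_zero]
        exact RVal.Ge.zero
      · refine (hjc RE).mono ?_
        have := hRβ fun h1 => h0 (Subtype.ext h1)
        linarith
  obtain ⟨ε₁, hε₁, heff⟩ := hE.eff
  obtain ⟨φ, d, ρ, ε, hε, -, -, hd, hdv, hφt, hrc, hmot⟩ := exists_mot_xg h hK hΩ hX₀ ht hgen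
    {a - RE} (fun f hf => by
      rw [Finset.mem_singleton.1 hf]
      refine sub_mem (le_hen _ ha) ?_
      rw [ht]
      exact le_hen _ RE.2) hε₁
  refine ⟨φ, d, ρ, min ε₁ 1, lt_min hε₁ one_pos, hmot, fun i => ?_⟩
  set dE : kr k t := ⟨d i, hd i⟩ with hdE
  obtain ⟨b', hb', hb1⟩ := heff (j dE) (by
    rw [← hjT]
    refine map_mem_kr.2 ?_
    have h1 : kr k tE = ⊤ := by
      rw [← IntermediateField.map_injective (kr k t).val |>.eq_iff, TWEX.map_kr]
      show kr k t = _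
      rw [← AlgHom.fieldRange_eq_map]
      exact (IntermediateField.fieldRange_val (S := kr k t)).symm
    rw [h1]
    exact IntermediateField.mem_top) (hIj.ge_iff.2 (resV_ge_iff.2 (hdv i)))
  rw [← hjT] at hb'
  obtain ⟨b, -, rfl⟩ := exists_of_mem_kr hb'
  refine ⟨(b : Ω), ?_, ?_⟩
  · rw [ht]
    exact le_hen _ b.2
  -- the effect in `k(t)`
  have hb2 : v.Ge (ν + ε₁) (MvPolynomial.aeval (mv H₀ (d i)) P / MvPolynomial.aeval (mv H₀ (d i)) Q -
      MvPolynomial.aeval t P / MvPolynomial.aeval t Q - (b : Ω) ^ p) := by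
    have h1 : w.Ge (ν + ε₁) (j (MvPolynomial.aeval (mv HE dE) P / MvPolynomial.aeval (mv HE dE) Q -
        RE - b ^ p)) := by
      rw [map_sub, map_sub, map_pow, map_div₀, hjm, hjm, hjR]
      exact hb1
    have h2 := resV_ge_iff.1 (hIj.ge_iff.1 h1)
    have e : ((MvPolynomial.aeval (mv HE dE) P / MvPolynomial.aeval (mv HE dE) Q -
        RE - b ^ p : kr k t) : Ω) = MvPolynomial.aeval (mv H₀ (d i)) P /
        MvPolynomial.aeval (mv H₀ (d i)) Q - MvPolynomial.aeval t P / MvPolynomial.aeval t Q -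
        (b : Ω) ^ p := by
      rw [← hR]
      have h3 := hcm dE P
      have h4 := hcm dE Q
      rw [← h3, ← h4]
      rfl
    rw [← e]
    exact h2
  -- the image of the element
  have hφ : ∀ R : MvPolynomial (Fin m) k, φ i (MvPolynomial.aeval t R) =
      MvPolynomial.aeval (mv H₀ (d i)) R := by
    intro R
    have h1 := map_aeval ((φ i : Ω ≃ₐ[k] Ω) : Ω →ₐ[k] Ω) t R
    have h2 : (fun j => ((φ i : Ω ≃ₐ[k] Ω) : Ω →ₐ[k] Ω) (t j)) = mv H₀ (d i) :=
      funext fun j => hφt i j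
    rw [h2] at h1
    exact h1
  have hφR : φ i (RE : Ω) = MvPolynomial.aeval (mv H₀ (d i)) P / MvPolynomial.aeval (mv H₀ (d i)) Q := by
    rw [hR, map_div₀, hφ, hφ]
  have e : φ i a - a - (b : Ω) ^ p = (φ i (a - RE) - (a - RE)) +
      (MvPolynomial.aeval (mv H₀ (d i)) P / MvPolynomial.aeval (mv H₀ (d i)) Q -
        MvPolynomial.aeval t P / MvPolynomial.aeval t Q - (b : Ω) ^ p) := by
    rw [map_sub, hφR, ← hR]
    ring
  rw [e]
  refine RVal.Ge.add ?_ (hb2.mono (by linarith [min_le_left ε₁ 1]))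
  have h1 : v.Ge (v (a - (RE : Ω)) + ε) (φ i (a - RE) - (a - RE)) :=
    hrc i (a - RE) (Finset.mem_singleton_self _)
  by_cases h0 : a - (RE : Ω) = 0
  · rw [h0, map_zero, sub_zero]
    exact RVal.Ge.zero
  · refine h1.mono ?_
    have h2 := hnear h0
    linarith [min_le_right ε₁ 1]

/-- **Motions without effect, from exit data, general form.** -/
theorem motE_of_xg [IsAlgClosed k] [IsAlgClosed Ω] {p : ℕ} [Fact p.Prime] [CharP k p]
    [CharP Ω' p] {r : ℕ} (h : Ctx k v r) (hcw : CompleteV w) {ι : Ω →ₐ[k] Ω'}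
    (hd : TWM.Dense v w ι)
    {K₀ : IntermediateField k Ω} (hK : K₀.FG) (hΩ : ∀ g : Ω, IsAlgebraic K₀ g)
    {m : ℕ} (htr : Algebra.trdeg k K₀ = m) (hBD : BD p v K₀) {T : Fin m → Ω'}
    (hcl : clI w (K₀.map ι) = clI w (kr k T)) {H : Fin m → Polynomial Ω'} {σ : ℝ}
    (hX : XG k w T H σ) {ν : ℝ} {a : Ω} (ha : a ∈ K₀)
    (hE : ∃ P Q : MvPolynomial (Fin m) k, EG p w T H σ ν (ν + 1) (ι a) P Q) :
    ∃ (φ : ℕ → (Ω ≃ₐ[k] Ω)) (δ : ℕ → Ω) (μ κ : ℝ), 0 < κ ∧ Mot v K₀ φ δ μ ∧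
      ∀ i, ∃ b ∈ hen v K₀, v.Ge (ν + κ) (φ i a - a - b ^ p) := by
  obtain ⟨P, Q, hE⟩ := hE
  obtain ⟨β₀, hβ₀, haβ⟩ : ∃ β₀ : ℝ, β₀ ≤ ν + 1 ∧ v.Ge β₀ a :=
    ⟨min (ν + 1) (v a), min_le_left _ _, fun _ => min_le_right _ _⟩
  obtain ⟨t, htK, ht, -, -, j, hjt, hjv, hjc, -⟩ := TWEX.exists_pull h.toCtx0 hcw hd hK htr hBD hcl
    (ν + 1 - β₀)
  refine motG_of_pull h ⟨hd.val⟩ hK hΩ hX ht j hjt
    (fun e he => hjv e fun h0 => he (Subtype.ext h0)) ?_ hjc (by linarith) hβ₀ ha haβ hE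
  -- generation
  have hcl' : clI w (K₀.map ι) = clI w (kr k fun i => ι (t i)) := by
    rw [TWEX.clI_of_hen hd ht, TWEX.map_kr]
  have htr' : Algebra.trdeg k (K₀.map ι) = m := by rw [TWM.Dense.trdeg_map, htr]
  obtain ⟨Λ, hΛ⟩ := TWEX.hen_eq_of_near (hd.ctx0 h.toCtx0) hcw (TWM.Dense.fg_map hK) htr'
    (hd.bd_iff.2 hBD) hcl'
  refine ⟨Λ, fun E hE hle ⟨s, hs, hs'⟩ => ?_⟩
  have h1 := hΛ (E.map ι) (TWM.Dense.fg_map hE) (by
    rw [hd.hen_map]
    exact TWM.Dense.map_le_map_iff.2 hle) ⟨fun i => ι (s i),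
      fun i => TWM.Dense.apply_mem_map.2 (hs i), fun i => by
        rw [← map_sub]
        exact hd.ge_iff.2 (hs' i)⟩
  rw [hd.hen_map, hd.hen_map] at h1
  exact TWM.Dense.map_inj h1

end Pool.Agent.TWMF
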