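import Pool.Agent.Lib.TWMF.E3
import Pool.Agent.Lib.TWMF.X6

/-!
# TANK W, exit: exit data without triangularity, amounts which are powers

`XB k q v T H σ`: the jets of `T` are in `k(T)`, the coordinates `T` are limits of elements of the
moved field for nearly constant amounts (`back`), the amounts are `q`-th powers, weak crossing.
`ev_of_xb_iso`, `motE_of_xb`: (EV) and motions without effect.
-/

set_option autoImplicit false

open Polynomial Filter Topology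

namespace Pool.Agent.TWMF

open Pool.Agent.H15JM (RVal)
open Pool.Agent.LU1 (VPos adj)
open Pool.Agent.D2 (Ctx0)
open Pool.Agent.D2P (hen hen_hen le_hen hen_mono hen_le mem_hen clI mem_clI)
open Pool.Agent.TWM (Gt CompleteV)
open Pool.Agent.TWS (IsoE)
open Pool.Agent.TWLM (HSd Oi Arc)
open Pool.Agent.TW WM13

universe u

/-- Exit data, no triangularity, amounts which are `q`-th powers. -/
structure XB (k : Type u) (q : ℕ) {Ω : Type u} [Field k] [Field Ω] [Algebra k Ω] (v : RVal Ω)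
    {m : ℕ} (T : Fin m → Ω) (H : Fin m → Polynomial Ω) (σ : ℝ) : Prop where
  ind : AlgebraicIndependent k T
  c0 : ∀ i, (H i).coeff 0 = T i
  mem : ∀ i, ∀ l : ℕ, (H i).coeff l ∈ kr k T
  str : ∀ P : MvPolynomial (Fin m) k, P ≠ 0 → ∀ l : ℕ, l ≠ 0 →
    Gt v (v (MvPolynomial.aeval T P) - l * σ) ((MvPolynomial.aeval H P).coeff l)
  amt : ∀ Λ : ℝ, ∃ σ₀ : ℝ, σ₀ < σ ∧ ∀ a b : ℝ, σ₀ ≤ a → a < b → b ≤ σ →
    ∃ c ∈ kr k T, ∃ d' ∈ kr k (mv H (c ^ q)), c ≠ 0 ∧ a < v (c ^ q) ∧ v (c ^ q) < b ∧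
      v.Ge Λ (c ^ q - d')
  cross : ∃ σ₁ : ℝ, σ₁ < σ ∧ ∀ ρ : ℝ, σ₁ < ρ → ρ < σ → ∃ (P : MvPolynomial (Fin m) k) (l : ℕ),
    l ≠ 0 ∧ (MvPolynomial.aeval H P).coeff l ≠ 0 ∧
      Gt v (v ((MvPolynomial.aeval H P).coeff l) + l * ρ) ((MvPolynomial.aeval H P).coeff 0)
  back : ∀ Λ : ℝ, ∃ σ₂ : ℝ, σ₂ < σ ∧ ∃ Λ' : ℝ, ∀ d ∈ kr k T, ∀ d' ∈ kr k (mv H d),
    v.Ge σ₂ d → v.Ge Λ' (d - d') →
      ∃ s : Fin m → Ω, (∀ i, s i ∈ kr k (mv H d)) ∧ ∀ i, v.Ge Λ (T i - s i)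

section Map

variable {k E Ω : Type u} [Field k] [Field E] [Algebra k E] [Field Ω] [Algebra k Ω]
  {f : E →ₐ[k] Ω} {m : ℕ} {T : Fin m → E} {H : Fin m → Polynomial E}

variable {u : RVal E} {v : RVal Ω} {σ : ℝ} {q : ℕ}

/-- Images. -/
theorem XB.map (h : XB k q u T H σ) (hf : IsoE u v f) :
    XB k q v (fun i => f (T i)) (fun i => (H i).map (f : E →+* Ω)) σ where
  ind := (f.algebraicIndependent_iff f.injective).2 h.ind
  c0 i := by
    rw [coeff_map, h.c0]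
    rfl
  mem i l := by
    rw [coeff_map]
    exact map_mem_kr.2 (h.mem i l)
  str P hP l hl := by
    have hne : MvPolynomial.aeval T P ≠ 0 := fun h0 => hP (h.ind.eq_zero_of_aeval_eq_zero P h0)
    rw [← map_aeval, ← map_aevalH, coeff_map, hf.val _ hne]
    exact hf.gt_iff.2 (h.str P hP l hl)
  amt Λ := by
    obtain ⟨σ₀, h1, h2⟩ := h.amt Λ
    refine ⟨σ₀, h1, fun a b ha hab hb => ?_⟩
    obtain ⟨c, hc, d', hd', h0, h3, h4, h5⟩ := h2 a b ha hab hb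
    have e : mv (fun i => (H i).map (f : E →+* Ω)) (f (c ^ q)) = fun i => f (mv H (c ^ q) i) :=
      funext fun i => map_mv f H (c ^ q) i
    refine ⟨f c, map_mem_kr.2 hc, f d', ?_, IsoE.ne_zero h0, ?_, ?_, ?_⟩
    · rw [← map_pow, e]
      exact map_mem_kr.2 hd'
    · rw [← map_pow]
      rwa [hf.val _ (pow_ne_zero _ h0)]
    · rw [← map_pow]
      rwa [hf.val _ (pow_ne_zero _ h0)]
    · rw [← map_pow, ← map_sub]
      exact hf.ge_iff.2 h5
  cross := by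
    obtain ⟨σ₁, h0, h1⟩ := h.cross
    refine ⟨σ₁, h0, fun ρ h2 h3 => ?_⟩
    obtain ⟨P, l, hl, hb, h4⟩ := h1 ρ h2 h3
    have e : ∀ i, (MvPolynomial.aeval (fun i => (H i).map (f : E →+* Ω)) P).coeff i =
        f ((MvPolynomial.aeval H P).coeff i) := fun i => by
      rw [← map_aevalH, coeff_map]
      rfl
    refine ⟨P, l, hl, ?_, ?_⟩
    · rw [e]
      exact IsoE.ne_zero hb
    · rw [e, e, hf.val _ hb]
      exact hf.gt_iff.2 h4
  back Λ := by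
    obtain ⟨σ₂, h0, Λ', h1⟩ := h.back Λ
    refine ⟨σ₂, h0, Λ', fun d hd d' hd' h2 h3 => ?_⟩
    obtain ⟨d, hd1, rfl⟩ := exists_of_mem_kr hd
    have e : mv (fun i => (H i).map (f : E →+* Ω)) (f d) = fun i => f (mv H d i) :=
      funext fun i => map_mv f H d i
    rw [e] at hd' ⊢
    obtain ⟨d', hd1', rfl⟩ := exists_of_mem_kr hd'
    rw [← map_sub] at h3
    obtain ⟨s, hs, hs'⟩ := h1 d hd1 d' hd1' (hf.ge_iff.1 h2) (hf.ge_iff.1 h3)
    refine ⟨fun i => f (s i), fun i => map_mem_kr.2 (hs i), fun i => ?_⟩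
    rw [← map_sub]
    exact hf.ge_iff.2 (hs' i)

/-- Preimages. -/
theorem XB.comap (h : XB k q v (fun i => f (T i)) (fun i => (H i).map (f : E →+* Ω)) σ)
    (hf : IsoE u v f) : XB k q u T H σ where
  ind := (f.algebraicIndependent_iff f.injective).1 h.ind
  c0 i := by
    have h1 := h.c0 i
    rw [coeff_map] at h1
    exact f.injective h1
  mem i l := by
    have h1 := h.mem i l
    rw [coeff_map] at h1
    exact map_mem_kr.1 h1
  str P hP l hl := by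
    have hind := (f.algebraicIndependent_iff f.injective).1 h.ind
    have hne : MvPolynomial.aeval T P ≠ 0 := fun h0 => hP (hind.eq_zero_of_aeval_eq_zero P h0)
    have h1 := h.str P hP l hl
    rw [← map_aeval, ← map_aevalH, coeff_map, hf.val _ hne] at h1
    exact hf.gt_iff.1 h1
  amt Λ := by
    obtain ⟨σ₀, h1, h2⟩ := h.amt Λ
    refine ⟨σ₀, h1, fun a b ha hab hb => ?_⟩
    obtain ⟨c, hc, d', hd', h0, h3, h4, h5⟩ := h2 a b ha hab hb
    obtain ⟨c, hc1, rfl⟩ := exists_of_mem_kr hc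
    have e : mv (fun i => (H i).map (f : E →+* Ω)) (f (c ^ q)) = fun i => f (mv H (c ^ q) i) :=
      funext fun i => map_mv f H (c ^ q) i
    rw [← map_pow] at hd' h3 h4 h5
    rw [e] at hd'
    obtain ⟨d', hd1', rfl⟩ := exists_of_mem_kr hd'
    have h0' : c ≠ 0 := fun h6 => h0 (by rw [h6, map_zero])
    rw [hf.val _ (pow_ne_zero _ h0')] at h3 h4
    rw [← map_sub] at h5
    exact ⟨c, hc1, d', hd1', h0', h3, h4, hf.ge_iff.1 h5⟩
  cross := by
    obtain ⟨σ₁, h0, h1⟩ := h.cross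
    refine ⟨σ₁, h0, fun ρ h2 h3 => ?_⟩
    obtain ⟨P, l, hl, hb, h4⟩ := h1 ρ h2 h3
    have e : ∀ i, (MvPolynomial.aeval (fun i => (H i).map (f : E →+* Ω)) P).coeff i =
        f ((MvPolynomial.aeval H P).coeff i) := fun i => by
      rw [← map_aevalH, coeff_map]
      rfl
    have hb' : (MvPolynomial.aeval H P).coeff l ≠ 0 := fun h5 => hb (by rw [e, h5, map_zero])
    refine ⟨P, l, hl, hb', ?_⟩
    rw [e, e, hf.val _ hb'] at h4
    exact hf.gt_iff.1 h4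
  back Λ := by
    obtain ⟨σ₂, h0, Λ', h1⟩ := h.back Λ
    refine ⟨σ₂, h0, Λ', fun d hd d' hd' h2 h3 => ?_⟩
    have e : mv (fun i => (H i).map (f : E →+* Ω)) (f d) = fun i => f (mv H d i) :=
      funext fun i => map_mv f H d i
    obtain ⟨s, hs, hs'⟩ := h1 (f d) (map_mem_kr.2 hd) (f d') (by
      rw [e]
      exact map_mem_kr.2 hd') (hf.ge_iff.2 h2) (by
      rw [← map_sub]
      exact hf.ge_iff.2 h3)
    rw [e] at hs
    choose s' hs1 hs2 using fun i => exists_of_mem_kr (hs i)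
    refine ⟨s', hs1, fun i => ?_⟩
    have h4 := hs' i
    rw [← hs2 i, ← map_sub] at h4
    exact hf.ge_iff.1 h4

end Map

variable {k Ω : Type u} [Field k] [Field Ω] [Algebra k Ω] {v : RVal Ω}

/-- **Motions from exit data, general form.** -/
theorem exists_mot_xb [IsAlgClosed k] [IsAlgClosed Ω] {r : ℕ}
    (h : Ctx k v r) {K₀ : IntermediateField k Ω} (hK : K₀.FG) (hΩ : ∀ g : Ω, IsAlgebraic K₀ g)
    {m : ℕ} {t : Fin m → Ω} {H : Fin m → Polynomial Ω} {σ : ℝ} {q : ℕ} (hX : XB k q v t H σ)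
    (ht : hen v K₀ = hen v (kr k t))
    (hgen : ∃ Λ : ℝ, ∀ E : IntermediateField k Ω, E.FG → E ≤ hen v K₀ →
      (∃ s : Fin m → Ω, (∀ i, s i ∈ E) ∧ ∀ i, v.Ge Λ (t i - s i)) → hen v E = hen v K₀)
    (S : Finset Ω) (hS : ∀ f ∈ S, f ∈ hen v K₀) {ε₀ : ℝ} (hε₀ : 0 < ε₀) :
    ∃ (ρ₀ ε : ℝ), 0 < ε ∧ ρ₀ < σ ∧ σ - ε₀ ≤ ρ₀ ∧ ∀ ρ : ℝ, ρ₀ < ρ → ρ < σ →
      (∀ (m : ℤ) (f : Ω), m ≠ 0 → f ≠ 0 → v f ≠ m * ρ) →
      ∃ (φ : ℕ → (Ω ≃ₐ[k] Ω)) (c : ℕ → Ω),
        (∀ i, c i ∈ kr k t) ∧ (∀ i, v.Ge ρ₀ (c i ^ q)) ∧ (∀ i, c i ≠ 0 ∧ v (c i ^ q) < ρ) ∧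
        (∀ i j, φ i (t j) = mv H (c i ^ q) j) ∧ (∀ i, ∀ f ∈ S, Rc v ε (φ i) f) ∧
        (∀ i, ∀ f ∈ S, φ i f ∈ hen v K₀) ∧
        Mot v K₀ φ (fun i => c i ^ q) ρ := by
  classical
  set B : IntermediateField k Ω := ⊥ with hB
  have hfg : B.FG := IntermediateField.fg_bot
  have htE : hen v K₀ = hen v (nadj (hen v B) t) := by rw [nadj_bot, ht]
  obtain ⟨T, L, hTne, hSL, hKL, hEL, hLE, hmot⟩ := exists_mot_coord h hK hΩ hfg
    (algInd_bot (v := v) hX.ind) htE S hS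
  -- the control
  obtain ⟨ε, hε, hctl⟩ := TWEX.ctl_of_str (v := v) (N := hen v B) (H := H) (t := t) (σ := σ) hX.c0
    (fun P hP l hl => by
      obtain ⟨P', hP'⟩ := exists_poly_bot (v := v) P
      rw [hP' Ω t, hP' (Polynomial Ω) H]
      refine hX.str P' (fun h0 => hP ?_) l hl
      have h1 := hP' Ω t
      rw [h0, map_zero] at h1
      exact (algInd_bot (v := v) hX.ind).eq_zero_of_aeval_eq_zero P h1) T (fun P hP h0 => by
      apply hTne P hP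
      rw [h0, map_zero])
  obtain ⟨Λ₀, hΛ₀⟩ := hgen
  obtain ⟨σ₂, hσ₂, Λ, hback⟩ := hX.back Λ₀
  obtain ⟨σ₀, hσ₀, hamt⟩ := hX.amt Λ
  -- the radius
  obtain ⟨σ₁, hσ₁, hcross⟩ := hX.cross
  obtain ⟨lo, hlo⟩ : ∃ lo, lo = max (max (max σ₀ σ₁) (σ - ε)) (max (σ - ε₀) σ₂) := ⟨_, rfl⟩
  have hlo1 : σ₀ ≤ lo := by
    rw [hlo]
    exact ((le_max_left _ _).trans (le_max_left _ _)).trans (le_max_left _ _)
  have hlo5 : σ₁ ≤ lo := by
    rw [hlo]
    exact ((le_max_right _ _).trans (le_max_left _ _)).trans (le_max_left _ _)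
  have hlo2 : σ - ε ≤ lo := by
    rw [hlo]
    exact (le_max_right _ _).trans (le_max_left _ _)
  have hlo3 : σ - ε₀ ≤ lo := by
    rw [hlo]
    exact (le_max_left _ _).trans (le_max_right _ _)
  have hlo4 : σ₂ ≤ lo := by
    rw [hlo]
    exact (le_max_right _ _).trans (le_max_right _ _)
  have hlt : lo < σ := by
    rw [hlo]
    refine max_lt (max_lt (max_lt hσ₀ hσ₁) (by linarith)) (max_lt (by linarith) hσ₂)
  refine ⟨lo, ε, hε, hlt, hlo3, fun ρ hρ1 hρ2 hirr => ?_⟩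
  obtain ⟨P₀, l', hl', hb', hcr'⟩ := hcross ρ (by linarith) hρ2
  obtain ⟨l, hl, hb, hcr⟩ := cross_gen hirr hl' hb' hcr'
  -- the amounts
  have hex : ∀ i : ℕ, ∃ c ∈ kr k t, ∃ d' ∈ kr k (mv H (c ^ q)), c ≠ 0 ∧
      max lo (ρ - 1 / (i + 1)) < v (c ^ q) ∧ v (c ^ q) < ρ ∧ v.Ge Λ (c ^ q - d') := by
    intro i
    exact hamt _ _ (hlo1.trans (le_max_left _ _)) (max_lt hρ1 (by
      have : (0 : ℝ) < 1 / (i + 1) := by positivity
      linarith)) hρ2.le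
  choose c hct d' hd' hc0 h1 h2 h3 using hex
  obtain ⟨d, hcd⟩ : ∃ d : ℕ → Ω, ∀ i, c i ^ q = d i := ⟨_, fun _ => rfl⟩
  simp only [hcd] at hd' h1 h2 h3
  have hd0 : ∀ i, d i ≠ 0 := fun i => by
    rw [← hcd]
    exact pow_ne_zero _ (hc0 i)
  have hdt : ∀ i, d i ∈ kr k t := fun i => by
    rw [← hcd]
    exact pow_mem (hct i) q
  have hdlo : ∀ i, lo < v (d i) := fun i => (le_max_left _ _).trans_lt (h1 i)
  have hlim : Tendsto (fun i => v (d i)) atTop (𝓝 ρ) := by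
    have h4 : Tendsto (fun i : ℕ => ρ - 1 / ((i : ℝ) + 1)) atTop (𝓝 ρ) := by
      have := tendsto_one_div_add_atTop_nhds_zero_nat (𝕜 := ℝ)
      simpa using (tendsto_const_nhds (x := ρ)).sub this
    exact tendsto_of_tendsto_of_tendsto_of_le_of_le h4 tendsto_const_nhds
      (fun i => (le_max_right lo _).trans (h1 i).le) (fun i => (h2 i).le)
  have hsq : Sq v d ρ := ⟨hd0, hlim, hirr⟩
  have hge : ∀ i (c : ℝ), c ≤ lo → v.Ge c (d i) := fun i c hc _ => hc.trans (hdlo i).le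
  -- membership
  have hle : kr k t ≤ hen v K₀ := by
    rw [ht]
    exact le_hen _
  have hmvK : ∀ i j, mv H (d i) j ∈ hen v K₀ := by
    intro i j
    unfold mv
    rw [eval_eq_sum_range]
    exact sum_mem fun l _ => mul_mem (hle (hX.mem j l)) (pow_mem (hle (hdt i)) l)
  -- generation
  have hh : ∀ i, hen v (nadj (hen v B) (mv H (d i))) = hen v K₀ := by
    intro i
    rw [nadj_bot]
    refine hΛ₀ _ ?_ ?_ ?_
    · exact IntermediateField.fg_def.2 ⟨_, Set.finite_range _, rfl⟩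
    · refine IntermediateField.adjoin_le_iff.2 ?_
      rintro _ ⟨j, rfl⟩
      exact hmvK i j
    · exact hback (d i) (hdt i) (d' i) (hd' i) (hge i _ hlo4) (h3 i)
  have hΩt : ∀ g : Ω, IsAlgebraic (nadj (hen v B) t) g :=
    isAlgebraic_of_hen hΩ ((le_hen K₀).trans htE.le)
  obtain ⟨φ, -, h4, h5, -, h7, h6⟩ := hmot hsq (fun i => mv H (d i)) hε
    (fun i => algInd_of_alg (algInd_bot (v := v) hX.ind) hΩt
      (isAlgebraic_of_hen hΩ ((le_hen K₀).trans (hh i).ge)))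
    (fun i R hR => hctl (d i) (hge i _ hlo2) R hR)
    (fun j => fgs_eval hsq (H j)) hh (by
      refine ⟨MvPolynomial.map (algebraMap k (hen v B)) P₀, (MvPolynomial.aeval H P₀).coeff l,
        (l : ℤ), by exact_mod_cast hl, ?_⟩
      have e : (fun i => MvPolynomial.aeval (mv H (d i)) (MvPolynomial.map (algebraMap k (hen v B)) P₀))
          = fun i => (MvPolynomial.aeval H P₀).eval (d i) := by
        funext i
        rw [MvPolynomial.aeval_map_algebraMap, aeval_mv]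
      rw [e]
      exact lts_eval hlim hb hcr)
  refine ⟨φ, c, hct, fun i => ?_, fun i => ⟨hc0 i, ?_⟩, fun i j => ?_, h5,
    fun i f hf => h7 i f (hSL f hf), ?_⟩
  · rw [hcd]
    exact hge i _ le_rfl
  · rw [hcd]
    exact h2 i
  · rw [hcd]
    exact h4 i j
  · have e : (fun i => c i ^ q) = d := funext hcd
    rw [e]
    exact h6

end Pool.Agent.TWMF
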