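import Pool.Agent.Lib.TWMF.E4

/-!
# TANK W, exit: (EV) and motions without effect from `XB`

`ev_of_xb_iso`, `motE_of_xb`.
-/

set_option autoImplicit false

open Polynomial Filter Topology

namespace Pool.Agent.TWMF

open Pool.Agent.H15JM (RVal)
open Pool.Agent.LU1 (VPos adj)
open Pool.Agent.D2 (Ctx0)
open Pool.Agent.D2P (hen hen_hen le_hen hen_mono hen_le mem_hen clI mem_clI)
open Pool.Agent.TWM (Gt CompleteV)
open Pool.Agent.TWS (IsoE)
open Pool.Agent.TWLM (HSd Oi Arc)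
open Pool.Agent.TW WM13

universe u

variable {k Ω Ω' : Type u} [Field k] [Field Ω] [Algebra k Ω] [Field Ω'] [Algebra k Ω']
  {v : RVal Ω} {w : RVal Ω'} {ι : Ω →ₐ[k] Ω'}

/-- **Transport of exit data.** -/
theorem XB.pull {m : ℕ} {T : Fin m → Ω'} {H : Fin m → Polynomial Ω'} {σ : ℝ} {q : ℕ}
    (hX : XB k q w T H σ) {t : Fin m → Ω} (j : kr k t →ₐ[k] Ω')
    (hjt : ∀ i, ∀ hi : t i ∈ kr k t, j ⟨t i, hi⟩ = T i) (hjv : ∀ e : kr k t, e ≠ 0 → w (j e) = v e) :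
    ∃ HE : Fin m → Polynomial (kr k t), (∀ i, (HE i).map (j : kr k t →+* Ω') = H i) ∧
      XB k q v t (fun i => (HE i).map (algebraMap (kr k t) Ω)) σ := by
  have hm : ∀ i, t i ∈ kr k t := fun i => IntermediateField.subset_adjoin k _ ⟨i, rfl⟩
  set tE : Fin m → kr k t := fun i => ⟨t i, hm i⟩ with htE
  have hjT : (fun i => j (tE i)) = T := funext fun i => hjt i (hm i)
  have hex : ∀ i, ∃ G : Polynomial (kr k t), G.map (j : kr k t →+* Ω') = H i := by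
    intro i
    refine exists_lift _ _ fun l => ?_
    have h1 := hX.mem i l
    rw [← hjT] at h1
    obtain ⟨x, -, hx⟩ := exists_of_mem_kr h1
    exact ⟨x, hx⟩
  choose HE hHE using hex
  refine ⟨HE, hHE, ?_⟩
  have h1 : XB k q w (fun i => j (tE i)) (fun i => (HE i).map (j : kr k t →+* Ω')) σ := by
    have e : (fun i => (HE i).map (j : kr k t →+* Ω')) = H := funext hHE
    rw [hjT, e]
    exact hX
  have hIj : IsoE (resV v (kr k t)) w j := ⟨fun e he => hjv e he⟩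
  exact (h1.comap hIj).map (isoE_val (v := v) (kr k t))

/-- **(EV) from exit data**, without triangularity, `ι` isometric. -/
theorem ev_of_xb_iso [IsAlgClosed k] [IsAlgClosed Ω] {p : ℕ} [Fact p.Prime] [CharP k p]
    [CharP Ω' p] {r : ℕ} (h : Ctx k v r) (h0' : Ctx0 k w) (hcw : CompleteV w) (hd : IsoE v w ι)
    {K₀ : IntermediateField k Ω} (hK : K₀.FG) (hΩ : ∀ g : Ω, IsAlgebraic K₀ g)
    {m : ℕ} (htr : Algebra.trdeg k K₀ = m) (hBD : BD p v K₀) {T : Fin m → Ω'}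
    (hcl : clI w (K₀.map ι) = clI w (kr k T)) {H : Fin m → Polynomial Ω'} {σ : ℝ}
    (hX : ∀ s : ℕ, XB k (p ^ s) w T H σ) {Ψ : ℕ → Ω' → Ω'} (hΨ : HSd (clI w (K₀.map ι)) Ψ)
    (hst : Ptw w (clI w (K₀.map ι)) σ Ψ) (hoi : Oi w (clI w (K₀.map ι)) σ Ψ) (hH : ∀ i l, (H i).coeff l = Ψ l (T i)) :
    EV p v w ι K₀ Ψ σ := by
  classical
  intro S hS c s
  set L := clI w (K₀.map ι) with hL
  have hT : ∀ i, T i ∈ L := fun i => by
    rw [hcl]
    exact TWM.le_clI _ (IntermediateField.subset_adjoin k _ ⟨i, rfl⟩)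
  have hιL : ∀ x ∈ hen v K₀, ι x ∈ L := by
    intro x hx
    have h1 : ι x ∈ hen w (K₀.map ι) := by
      rw [hd.hen_map]
      exact TWM.Dense.apply_mem_map.2 hx
    exact mem_clI.2 (mem_hen.1 h1).1
  -- the bounds
  obtain ⟨β₀, hβ₀, hSβ⟩ : ∃ β₀ : ℝ, β₀ ≤ c + 1 ∧ ∀ x ∈ S, v.Ge β₀ x := by
    obtain ⟨B, hB⟩ : ∃ B : ℝ, ∀ x ∈ S, B ≤ v x := by
      by_cases hne : S.Nonempty
      · obtain ⟨x₀, -, hx₀⟩ := S.exists_min_image (fun x => v x) hne
        exact ⟨v x₀, hx₀⟩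
      · refine ⟨0, fun x hx => absurd ⟨x, hx⟩ hne⟩
    exact ⟨min (c + 1) B, min_le_left _ _, fun x hx _ => (min_le_right _ _).trans (hB x hx)⟩
  obtain ⟨t, htK, ht, -, -, j, hjt, hjv', hjc, -⟩ := TWEX.exists_pull_iso h0' hcw hd hK htr hBD hcl
    (c + 2 - β₀)
  set η := c + 2 - β₀ with hη
  have hη1 : 1 ≤ η := by rw [hη]; linarith
  have hjv : ∀ e : kr k t, e ≠ 0 → w (j e) = v e := fun e he => hjv' e fun h0 => he (Subtype.ext h0)
  obtain ⟨HE, hHE, -⟩ := (hX s).pull (v := v) j hjt hjv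
  have hm : ∀ i, t i ∈ kr k t := fun i => IntermediateField.subset_adjoin k _ ⟨i, rfl⟩
  set tE : Fin m → kr k t := fun i => ⟨t i, hm i⟩ with htE
  set H₀ : Fin m → Polynomial Ω := fun i => (HE i).map (algebraMap (kr k t) Ω) with hH₀
  have hjT : (fun i => j (tE i)) = T := funext fun i => hjt i (hm i)
  have hjH : (fun i => (HE i).map (j : kr k t →+* Ω')) = H := funext hHE
  have hIj : IsoE (resV v (kr k t)) w j := ⟨fun e he => hjv e he⟩
  have hX₀ : XB k (p ^ s) v t H₀ σ := by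
    have h1 : XB k (p ^ s) w (fun i => j (tE i)) (fun i => (HE i).map (j : kr k t →+* Ω')) σ := by
      rw [hjT, hjH]
      exact hX s
    exact (h1.comap hIj).map (isoE_val (v := v) (kr k t))
  -- the elements of `k(t)`
  have hcoe : ∀ R : MvPolynomial (Fin m) k, ((MvPolynomial.aeval tE R : kr k t) : Ω) =
      MvPolynomial.aeval t R := fun R => map_aeval (kr k t).val tE R
  have hj : ∀ R : MvPolynomial (Fin m) k, j (MvPolynomial.aeval tE R) = MvPolynomial.aeval T R := by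
    intro R
    rw [map_aeval, hjT]
  have hjm : ∀ (e : kr k t) (R : MvPolynomial (Fin m) k), j (MvPolynomial.aeval (mv HE e) R) =
      MvPolynomial.aeval (mv H (j e)) R := by
    intro e R
    rw [map_aeval]
    congr 2
    funext i
    rw [← hjH, map_mv]
  have hcm : ∀ (e : kr k t) (R : MvPolynomial (Fin m) k),
      ((MvPolynomial.aeval (mv HE e) R : kr k t) : Ω) = MvPolynomial.aeval (mv H₀ e) R := by
    intro e R
    have h1 := map_aeval (kr k t).val (mv HE e) R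
    have h2 : (fun i => (kr k t).val (mv HE e i)) = mv H₀ e :=
      funext fun i => (map_mv (kr k t).val HE e i).symm
    rw [h2] at h1
    exact h1
  -- approximations of the elements of `S`
  have hex : ∀ x : Ω, x ∈ S → ∃ P Q : MvPolynomial (Fin m) k, MvPolynomial.aeval tE Q ≠ 0 ∧
      v.Ge (c + 1) (x - (MvPolynomial.aeval tE P / MvPolynomial.aeval tE Q : kr k t)) := by
    intro x hx
    have h1 := hS x hx
    rw [ht] at h1
    obtain ⟨y, hy, h2⟩ := mem_clI.1 (mem_clI.2 (mem_hen.1 h1).1) (c + 1)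
    obtain ⟨P, Q, hQ, rfl⟩ := exists_quot hy
    refine ⟨P, Q, fun h0 => hQ ?_, ?_⟩
    · rw [← hcoe, h0]
      rfl
    · have e : ((MvPolynomial.aeval tE P / MvPolynomial.aeval tE Q : kr k t) : Ω) =
          MvPolynomial.aeval t P / MvPolynomial.aeval t Q := by
        rw [← hcoe, ← hcoe]
        rfl
      rw [e]
      exact h2
  choose! P Q hQ0 hPQ using hex
  set RE : Ω → kr k t := fun x => MvPolynomial.aeval tE (P x) / MvPolynomial.aeval tE (Q x) with hRE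
  have hjR : ∀ x, j (RE x) = MvPolynomial.aeval T (P x) / MvPolynomial.aeval T (Q x) := by
    intro x
    rw [hRE]
    simp only
    rw [map_div₀, hj, hj]
  have hRt : ∀ x, (RE x : Ω) = MvPolynomial.aeval t (P x) / MvPolynomial.aeval t (Q x) := by
    intro x
    rw [← hcoe, ← hcoe]
    rfl
  have hRβ : ∀ x ∈ S, v.Ge β₀ (RE x : Ω) := by
    intro x hx
    have e : (RE x : Ω) = x - (x - RE x) := by ring
    rw [e]
    exact (hSβ x hx).sub ((hPQ x hx).mono hβ₀)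
  have hclose : ∀ (e : kr k t) (b : ℝ), v.Ge b (e : Ω) → w.Ge (b + η) (j e - ι e) := by
    intro e b hb
    by_cases h0 : e = 0
    · rw [h0, map_zero]
      show w.Ge _ (0 - ι 0)
      rw [map_zero, sub_zero]
      exact RVal.Ge.zero
    · refine (hjc e).mono ?_
      have := hb fun h1 => h0 (Subtype.ext h1)
      linarith
  -- the evaluation
  obtain ⟨M₀, hM₀⟩ := exists_nat S (fun x M₀ => ∀ M : ℕ, M₀ ≤ M → ∃ ε : ℝ, 0 < ε ∧ ∀ d : Ω',
      w.Ge (σ - ε) d → w.Ge c (MvPolynomial.aeval (mv H d) (P x) / MvPolynomial.aeval (mv H d) (Q x) -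
        ∑ l ∈ Finset.range (M + 1), Ψ l (j (RE x)) * d ^ l)) (fun x hx => by
      obtain ⟨M₀, h1⟩ := eval_quot hΨ hst hoi hT hH (P x) (Q x) (by
        rw [← hj]
        exact IsoE.ne_zero (hQ0 x hx)) c
      refine ⟨M₀, fun M hM => ?_⟩
      obtain ⟨ε, hε, h2⟩ := h1 M hM
      refine ⟨ε, hε, fun d hd => ?_⟩
      rw [hjR]
      exact h2 d hd) (fun x _ n n' hn h1 M hM => h1 M (hn.trans hM))
  refine ⟨M₀, fun M hM ρ₁ hρ₁ => ?_⟩
  obtain ⟨ε₁, hε₁, hev⟩ := TWEX.exists_margin S (fun x ε => ∀ d : Ω',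
      w.Ge (σ - ε) d → w.Ge c (MvPolynomial.aeval (mv H d) (P x) / MvPolynomial.aeval (mv H d) (Q x) -
        ∑ l ∈ Finset.range (M + 1), Ψ l (j (RE x)) * d ^ l)) (fun x hx => hM₀ x hx M hM)
    (fun x _ ε ε' hε h1 d hd => h1 d (hd.mono (by linarith)))
  obtain ⟨ε₂, hε₂, hε₂', hε₂''⟩ : ∃ ε₂ : ℝ, 0 < ε₂ ∧ (M + 1) * ε₂ ≤ 1 ∧ ε₂ ≤ σ - ρ₁ := by
    have h1 : (0 : ℝ) < 1 / (M + 1) := by positivity
    refine ⟨min (1 / (M + 1)) (σ - ρ₁), lt_min h1 (by linarith), ?_, min_le_right _ _⟩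
    refine (mul_le_mul_of_nonneg_left (min_le_left _ _) (by positivity)).trans ?_
    rw [mul_one_div, div_self (by positivity)]
  -- generation
  have hgen : ∃ Λ : ℝ, ∀ E : IntermediateField k Ω, E.FG → E ≤ hen v K₀ →
      (∃ s : Fin m → Ω, (∀ i, s i ∈ E) ∧ ∀ i, v.Ge Λ (t i - s i)) → hen v E = hen v K₀ := by
    have hcl' : clI w (K₀.map ι) = clI w (kr k fun i => ι (t i)) := by
      rw [TWEX.clI_of_hen_iso hd ht, TWEX.map_kr]
    have htr' : Algebra.trdeg k (K₀.map ι) = m := by rw [TWM.Dense.trdeg_map, htr]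
    obtain ⟨Λ, hΛ⟩ := TWEX.hen_eq_of_near h0' hcw (TWM.Dense.fg_map hK) htr'
      (hd.bd_iff.2 hBD) hcl'
    refine ⟨Λ, fun E hE hle ⟨s, hs, hs'⟩ => ?_⟩
    have h1 := hΛ (E.map ι) (TWM.Dense.fg_map hE) (by
      rw [hd.hen_map]
      exact TWM.Dense.map_le_map_iff.2 hle) ⟨fun i => ι (s i),
        fun i => TWM.Dense.apply_mem_map.2 (hs i), fun i => by
          rw [← map_sub]
          exact hd.ge_iff.2 (hs' i)⟩
    rw [hd.hen_map, hd.hen_map] at h1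
    exact TWM.Dense.map_inj h1
  obtain ⟨ρ₀, ε, hε, hρ₀, hρ₀', hmot⟩ := exists_mot_xb h hK hΩ hX₀ ht hgen
    (S.image (fun x => x - (RE x : Ω)) ∪ S.image fun x => (RE x : Ω)) (by
      have h1 : ∀ x, (RE x : Ω) ∈ hen v K₀ := fun x => by
        rw [ht]
        exact le_hen _ (RE x).2
      intro f hf
      rcases Finset.mem_union.1 hf with hf | hf
      · obtain ⟨x, hx, rfl⟩ := Finset.mem_image.1 hf
        exact sub_mem (hS x hx) (h1 x)
      · obtain ⟨x, hx, rfl⟩ := Finset.mem_image.1 hf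
        exact h1 x) (lt_min hε₁ hε₂)
  refine ⟨ρ₀, by linarith [min_le_right ε₁ ε₂], hρ₀, fun ρ hρ1 hρ2 hirr => ?_⟩
  obtain ⟨φ, e, he, hev', hev2, hφt, hrc, hmem, hmot⟩ := hmot ρ hρ1 hρ2 hirr
  refine ⟨φ, e, fun i => ?_, fun i => ⟨(hev2 i).1, ?_, (hev2 i).2⟩, hmot,
    fun x hx i => ?_, fun x hx i => ?_⟩
  · rw [ht]
    exact le_hen _ (he i)
  · exact hev' i (pow_ne_zero _ (hev2 i).1)
  · have e1 : φ i x = φ i (x - (RE x : Ω)) + φ i (RE x : Ω) := by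
      rw [← map_add]
      congr 1
      ring
    rw [e1]
    exact add_mem (hmem i _ (Finset.mem_union_left _ (Finset.mem_image.2 ⟨x, hx, rfl⟩)))
      (hmem i _ (Finset.mem_union_right _ (Finset.mem_image.2 ⟨x, hx, rfl⟩)))
  set dE : kr k t := ⟨e i, he i⟩ ^ p ^ s with hdE
  have hdc : (dE : Ω) = e i ^ p ^ s := rfl
  have hd1 : v.Ge (σ - min ε₁ ε₂) (dE : Ω) := (hev' i).mono hρ₀'
  have hd2 : v.Ge (σ - ε₂) (dE : Ω) := hd1.mono (by linarith [min_le_right ε₁ ε₂])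
  have hjd : w.Ge (σ - ε₂) (j dE) := hIj.ge_iff.2 (by
    intro h0
    exact hd2 fun h1 => h0 (Subtype.ext h1))
  have hjd1 : w.Ge (σ - ε₁) (j dE) := hIj.ge_iff.2 (by
    intro h0
    exact (hd1.mono (by linarith [min_le_left ε₁ ε₂])) fun h1 => h0 (Subtype.ext h1))
  have hιd : w.Ge (σ - ε₂) (ι (dE : Ω)) := hd.ge_iff.2 hd2
  -- the image of the approximation
  set R' : kr k t := MvPolynomial.aeval (mv HE dE) (P x) / MvPolynomial.aeval (mv HE dE) (Q x) with hR'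
  have hφ : ∀ R : MvPolynomial (Fin m) k, φ i (MvPolynomial.aeval t R) =
      MvPolynomial.aeval (mv H₀ dE) R := by
    intro R
    have h1 := map_aeval ((φ i : Ω ≃ₐ[k] Ω) : Ω →ₐ[k] Ω) t R
    have h2 : (fun j => ((φ i : Ω ≃ₐ[k] Ω) : Ω →ₐ[k] Ω) (t j)) = mv H₀ dE :=
      funext fun j => hφt i j
    rw [h2] at h1
    exact h1
  have hφR : φ i (RE x : Ω) = R' := by
    rw [hRt, map_div₀, hφ, hφ, ← hcm, ← hcm]
    rfl
  have hjR' : j R' = MvPolynomial.aeval (mv H (j dE)) (P x) / MvPolynomial.aeval (mv H (j dE)) (Q x) := by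
    rw [hR', map_div₀, hjm, hjm]
  have hgeφ : ∀ (f : Ω) (b : ℝ), Rc v ε (φ i) f → v.Ge b f → v.Ge b (φ i f) := by
    intro f b h1 h2
    have e : φ i f = f + (φ i f - f) := by ring
    rw [e]
    refine h2.add ?_
    by_cases h0 : f = 0
    · rw [h0, map_zero, sub_zero]
      exact RVal.Ge.zero
    · exact (show v.Ge (v f + ε) (φ i f - f) from h1).mono (by linarith [h2 h0])
  have h1 : v.Ge (c + 1) (φ i (x - RE x)) := hgeφ _ _ (hrc i _ (Finset.mem_union_left _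
    (Finset.mem_image_of_mem _ hx))) (hPQ x hx)
  have h2 : v.Ge β₀ (R' : Ω) := by
    rw [← hφR]
    exact hgeφ _ _ (hrc i _ (Finset.mem_union_right _ (Finset.mem_image.2 ⟨x, hx, rfl⟩))) (hRβ x hx)
  -- the pieces
  have hxL := hιL x (hS x hx)
  have hRL : j (RE x) ∈ L := by
    rw [hjR]
    obtain ⟨h3, -⟩ := coeff_aeval hΨ hT hH (P x)
    obtain ⟨h4, -⟩ := coeff_aeval hΨ hT hH (Q x)
    exact div_mem h3 h4
  have h3 : w.Ge (c + 1) (j (RE x) - ι x) := by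
    have e : j (RE x) - ι x = (j (RE x) - ι (RE x : Ω)) - ι (x - RE x) := by
      rw [map_sub]
      ring
    rw [e]
    exact ((hclose _ _ (hRβ x hx)).mono (by rw [hη]; linarith)).sub (hd.ge_iff.2 (hPQ x hx))
  have hl : ∀ l ∈ Finset.range (M + 1), (l : ℝ) * ε₂ ≤ 1 := by
    intro l hl
    have h4 : (l : ℝ) ≤ M + 1 := by exact_mod_cast (Finset.mem_range.1 hl).le
    exact (mul_le_mul_of_nonneg_right h4 hε₂.le).trans hε₂'
  have h4 : w.Ge c (∑ l ∈ Finset.range (M + 1), (Ψ l (j (RE x)) - Ψ l (ι x)) * j dE ^ l) := by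
    refine RVal.Ge.sum _ _ fun l hl' => ?_
    rw [← hΨ.sub l hRL hxL]
    refine ((hst.norm hΨ l (sub_mem hRL hxL) h3).mul (TWM.ge_pow hjd l)).mono ?_
    have := hl l hl'
    linarith
  have h5 : w.Ge c (∑ l ∈ Finset.range (M + 1), Ψ l (ι x) * (j dE ^ l - ι (dE : Ω) ^ l)) := by
    refine RVal.Ge.sum _ _ fun l hl' => ?_
    refine ((hst.norm hΨ l hxL (hd.ge_iff.2 (hSβ x hx))).mul (pow_near hjd hιd
      (hclose dE _ hd2) l)).mono ?_
    have := hl l hl'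
    rw [hη]
    linarith
  have e' : ι (φ i x) - ∑ l ∈ Finset.range (M + 1), Ψ l (ι x) * ι (e i ^ p ^ s) ^ l =
      ι (φ i (x - RE x)) - (j R' - ι (R' : Ω)) +
      (MvPolynomial.aeval (mv H (j dE)) (P x) / MvPolynomial.aeval (mv H (j dE)) (Q x) -
        ∑ l ∈ Finset.range (M + 1), Ψ l (j (RE x)) * j dE ^ l) +
      ∑ l ∈ Finset.range (M + 1), (Ψ l (j (RE x)) - Ψ l (ι x)) * j dE ^ l +
      ∑ l ∈ Finset.range (M + 1), Ψ l (ι x) * (j dE ^ l - ι (dE : Ω) ^ l) := by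
    rw [← hjR', map_sub, map_sub, hφR]
    simp only [sub_mul, mul_sub, Finset.sum_sub_distrib]
    rw [hdc]
    ring
  rw [e']
  refine RVal.Ge.add (RVal.Ge.add (RVal.Ge.add (RVal.Ge.sub ?_ ?_) (hev x hx _ hjd1)) h4) h5
  · exact (hd.ge_iff.2 h1).mono (by linarith)
  · exact (hclose R' β₀ h2).mono (by rw [hη]; linarith)

/-- **Motions without effect, from exit data without triangularity and null jets.** -/
theorem motE_of_xb [IsAlgClosed k] [IsAlgClosed Ω] {p : ℕ} [Fact p.Prime] [CharP k p]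
    [CharP Ω p] [CharP Ω' p] {r : ℕ} (h : Ctx k v r) (h0' : Ctx0 k w) (hcw : CompleteV w)
    (hd : IsoE v w ι) {K₀ : IntermediateField k Ω} (hK : K₀.FG)
    (hΩ : ∀ g : Ω, IsAlgebraic K₀ g) {m : ℕ} (htr : Algebra.trdeg k K₀ = m) (hBD : BD p v K₀)
    {T : Fin m → Ω'} (hcl : clI w (K₀.map ι) = clI w (kr k T)) {H : Fin m → Polynomial Ω'} {σ : ℝ}
    (hX : ∀ s : ℕ, XB k (p ^ s) w T H σ) {Ψ : ℕ → Ω' → Ω'} (hΨ : HSd (clI w (K₀.map ι)) Ψ)
    (hst : Ptw w (clI w (K₀.map ι)) σ Ψ) (hoi : Oi w (clI w (K₀.map ι)) σ Ψ)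
    (hH : ∀ i l, (H i).coeff l = Ψ l (T i)) {ν : ℝ} {a : Ω} (ha : a ∈ hen v K₀)
    (hnull : ∀ l : ℕ, l ≠ 0 → ∃ g ∈ clI w (K₀.map ι), Gt w (ν - l * σ) (Ψ l (ι a) - g ^ p)) :
    ∃ (φ : ℕ → (Ω ≃ₐ[k] Ω)) (δ : ℕ → Ω) (μ κ : ℝ), 0 < κ ∧ Mot v K₀ φ δ μ ∧
      ∀ i, ∃ b ∈ hen v K₀, v.Ge (ν + κ) (φ i a - a - b ^ p) := by
  have h1 : ι a ∈ hen w (K₀.map ι) := by
    rw [hd.hen_map]
    exact TWM.Dense.apply_mem_map.2 ha
  exact motE_of_ev h hd (ev_of_xb_iso h h0' hcw hd hK hΩ htr hBD hcl hX hΨ hst hoi hH) ha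
    (hΨ.c0 _ (mem_clI.2 (mem_hen.1 h1).1)) hnull

end Pool.Agent.TWMF
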