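import Pool.Agent.Lib.TWMF.F9

/-!
# TANK W: motions at field level, 10: auxiliary lemmas for absorption
-/

set_option autoImplicit false

open Polynomial Filter Topology

namespace Pool.Agent.TWMF

open Pool.Agent.H15JM (RVal)
open Pool.Agent.LU1 (VPos adj)
open Pool.Agent.LUC (Cl clF)
open Pool.Agent.D2 (Ctx0)
open Pool.Agent.D2P (hen hen_hen le_hen hen_mono hen_le mem_hen mem_adj_self adj_le mem_clI
  mem_adj_iff)
open Pool.Agent.TWM (Gt PI TL algc le_algc cadj)
open Pool.Agent.TW WM13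

universe u

variable {k Ω : Type u} [Field k] [Field Ω] [Algebra k Ω] {v : RVal Ω}

theorem nadj_cons (N : IntermediateField k Ω) {m : ℕ} (u : Fin m → Ω) (z : Ω) :
    nadj N (Fin.cons z u : Fin (m + 1) → Ω) = adj (nadj N u) z := by
  apply le_antisymm
  · refine nadj_le ((le_nadj N u).trans (mem_adj_self _ z).2) fun j => ?_
    refine Fin.cases ?_ (fun j => ?_) j
    · rw [Fin.cons_zero]
      exact (mem_adj_self _ z).1
    · rw [Fin.cons_succ]
      exact (mem_adj_self _ z).2 (self_mem_nadj N u j)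
  · refine adj_le (nadj_le (le_nadj N _) fun j => ?_) ?_
    · have h1 := self_mem_nadj N (Fin.cons z u : Fin (m + 1) → Ω) j.succ
      rwa [Fin.cons_succ] at h1
    · have h1 := self_mem_nadj N (Fin.cons z u : Fin (m + 1) → Ω) 0
      rwa [Fin.cons_zero] at h1

theorem hen_adj_hen (M : IntermediateField k Ω) (z : Ω) :
    hen v (adj (hen v M) z) = hen v (adj M z) := by
  apply le_antisymm
  · refine hen_le (hen_hen _) (adj_le ?_ (le_hen _ (mem_adj_self M z).1))
    exact hen_mono (mem_adj_self M z).2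
  · exact hen_mono (adj_le ((le_hen M).trans (mem_adj_self _ z).2) (mem_adj_self _ z).1)

theorem adj_add {M : IntermediateField k Ω} {c : Ω} (hc : c ∈ M) (z : Ω) :
    adj M (z + c) = adj M z := by
  apply le_antisymm
  · exact adj_le (mem_adj_self M z).2 (add_mem (mem_adj_self M z).1 ((mem_adj_self M z).2 hc))
  · refine adj_le (mem_adj_self M _).2 ?_
    have h1 := sub_mem (mem_adj_self M (z + c)).1 ((mem_adj_self M (z + c)).2 hc)
    rwa [add_sub_cancel_right] at h1

theorem tl_add {A : IntermediateField k Ω} {z s₀ : _} (h : TL v A z s₀) {c : Ω} (hc : c ∈ A) :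
    TL v A (z + c) s₀ := by
  have h1 := h.affine (c := 1) (one_mem A) one_ne_zero hc
  rw [one_mul, v.map_one, zero_add] at h1
  exact h1

/-- Images of polynomials. -/
theorem map_eval (Φ φ : Ω ≃ₐ[k] Ω) {z κ : Ω} {R : Polynomial Ω}
    (h1 : ∀ l, Φ (R.coeff l) = φ (R.coeff l)) (h2 : Φ z = φ z + κ) {n : ℕ} (hn : R.natDegree ≤ n) :
    Φ (R.eval z) = ∑ l ∈ Finset.range (n + 1), φ ((taylor z R).coeff l) * κ ^ l := by
  have h3 : Φ (R.eval z) = (R.map (Φ : Ω →+* Ω)).eval (Φ z) := by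
    have h3 := Polynomial.hom_eval₂ R (RingHom.id Ω) ((Φ : Ω ≃ₐ[k] Ω) : Ω →+* Ω) z
    rw [eval₂_id, RingHom.comp_id] at h3
    rw [eval_map]
    exact h3
  have h4 : R.map (Φ : Ω →+* Ω) = R.map (φ : Ω →+* Ω) := by
    ext l
    rw [coeff_map, coeff_map]
    exact h1 l
  have h5 : (R.map (φ : Ω →+* Ω)).eval (φ z + κ) =
      (taylor ((φ : Ω →+* Ω) z) (R.map (φ : Ω →+* Ω))).eval κ := by
    rw [taylor_eval, add_comm]
    rfl
  rw [h3, h4, h2, h5, ← Polynomial.map_taylor]
  rw [eval_eq_sum_range' (n := n + 1)]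
  · refine Finset.sum_congr rfl fun l _ => ?_
    rw [coeff_map]
    rfl
  · refine Nat.lt_succ_of_le (natDegree_map_le.trans ?_)
    rw [natDegree_taylor]
    exact hn

/-- Control of the perturbed automorphism. -/
theorem rc_perturb [IsAlgClosed Ω] {F : IntermediateField k Ω} {z : Ω} {s₀ : ℝ}
    (hz : TL v F z s₀) {Φ φ : Ω ≃ₐ[k] Ω} {κ : Ω} {R : Polynomial Ω} (hR : R ∈ PI F)
    (hR0 : R.eval z ≠ 0) (h1 : ∀ l, Φ (R.coeff l) = φ (R.coeff l)) (h2 : Φ z = φ z + κ)
    {β η : ℝ} (hβ : 0 < β) (hη : 0 < η) (hκ : v.Ge (s₀ + η) κ)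
    (h3 : ∀ l, Rc v β φ ((taylor z R).coeff l)) : Rc v (min β η) Φ (R.eval z) := by
  have hRne : R ≠ 0 := by
    rintro rfl
    exact hR0 eval_zero
  unfold Rc
  rw [map_eval Φ φ h1 h2 le_rfl, Finset.sum_range_succ', taylor_coeff_zero, pow_zero, mul_one]
  have e : ∑ l ∈ Finset.range R.natDegree, φ ((taylor z R).coeff (l + 1)) * κ ^ (l + 1) +
      φ (R.eval z) - R.eval z = ∑ l ∈ Finset.range R.natDegree,
        φ ((taylor z R).coeff (l + 1)) * κ ^ (l + 1) + (φ (R.eval z) - R.eval z) := by ring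
  rw [e]
  refine RVal.Ge.add (RVal.Ge.sum _ _ fun l _ => ?_) ?_
  · by_cases h0 : (taylor z R).coeff (l + 1) = 0
    · rw [h0, map_zero, zero_mul]
      exact RVal.Ge.zero
    have h4 := hz.strict (TWM.PI_mono (le_algc F) hR) hRne (l := l + 1) (by omega) h0
    have h5 := Rc.val (φ := (φ : Ω →+* Ω)) hβ (h3 (l + 1)) h0
    have h6 : v.Ge (v (R.eval z) - (l + 1 : ℕ) * s₀) (φ ((taylor z R).coeff (l + 1))) := fun _ => by
      have h7 : v (φ ((taylor z R).coeff (l + 1))) = v ((taylor z R).coeff (l + 1)) := h5.2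
      rw [h7]
      exact h4.le
    refine (h6.mul (TWM.ge_pow hκ (l + 1))).mono ?_
    have h7 : min β η ≤ η := min_le_right _ _
    have h8 : (1 : ℝ) ≤ (l + 1 : ℕ) := by exact_mod_cast Nat.succ_le_succ (Nat.zero_le l)
    nlinarith
  · have h4 := h3 0
    rw [taylor_coeff_zero] at h4
    exact RVal.Ge.mono (by linarith [min_le_left β η]) h4

/-- Images of algebraic elements. -/
theorem isAlgebraic_image {M : IntermediateField k Ω} {φ : Ω ≃ₐ[k] Ω} (hM : ∀ x ∈ M, φ x ∈ M)
    {x : Ω} (hx : IsAlgebraic M x) : IsAlgebraic M (φ x) := by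
  obtain ⟨P, hP0, hP⟩ := hx
  let χ : M →+* M :=
    { toFun := fun y => ⟨φ y, hM y y.2⟩
      map_one' := Subtype.ext (map_one φ)
      map_mul' := fun _ _ => Subtype.ext (map_mul φ _ _)
      map_zero' := Subtype.ext (map_zero φ)
      map_add' := fun _ _ => Subtype.ext (map_add φ _ _) }
  refine ⟨P.map χ, ?_, ?_⟩
  · rwa [Ne, Polynomial.map_eq_zero_iff χ.injective]
  · have h1 := Polynomial.hom_eval₂ P (algebraMap M Ω) (φ : Ω →+* Ω) x
    have h2 : eval₂ (algebraMap M Ω) x P = 0 := hP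
    rw [h2, map_zero] at h1
    rw [aeval_def, eval₂_map]
    have h3 : (algebraMap M Ω).comp χ = (φ : Ω →+* Ω).comp (algebraMap M Ω) := RingHom.ext fun _ => rfl
    rw [h3]
    exact h1.symm

/-- Transcendence of one element as algebraic independence. -/
theorem algInd_single {B : IntermediateField k Ω} {z : Ω} {s₀ : ℝ} (hz : TL v B z s₀) :
    AlgebraicIndependent B fun _ : Fin 1 => z := by
  rw [algebraicIndependent_unique_type_iff]
  exact fun h1 => (hz.far z h1).1 rfl

end Pool.Agent.TWMF
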