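import Pool.Agent.Lib.TWMF.F10

/-!
# TANK W: motions at field level, 11: absorption

`exists_mot_abs`: `a = g ^ p + f(z)`, `f` a polynomial over `F = hen v N(u)`, the linear jet of `f` at
`z` dominates at the radius `v χ > s₀`.  Translations `(z, u) ↦ (z, u) + c_i` over `N` which move `a` by
`b_i ^ p` up to `v (f'(z) χ)` can be corrected in the coordinate `z`: `φ_i(a) = a + b'_i ^ p`.
-/

set_option autoImplicit false

open Polynomial Filter Topology

namespace Pool.Agent.TWMF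

open Pool.Agent.H15JM (RVal)
open Pool.Agent.LU1 (VPos adj)
open Pool.Agent.LUC (Cl clF)
open Pool.Agent.D2 (Ctx0)
open Pool.Agent.D2P (hen hen_hen le_hen hen_mono hen_le mem_hen mem_adj_self adj_le mem_clI
  mem_adj_iff)
open Pool.Agent.TWM (Gt PI TL algc le_algc cadj)
open Pool.Agent.TW WM13

universe u

variable {k Ω : Type u} [Field k] [Field Ω] [Algebra k Ω] {v : RVal Ω}

/-- Elements of `F₁(z)`. -/
theorem exists_frac {F₁ : IntermediateField k Ω} {z a : Ω} (ha : a ∈ adj F₁ z) :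
    ∃ P Q : Polynomial Ω, P ∈ PI F₁ ∧ Q ∈ PI F₁ ∧ P.eval z ≠ 0 ∧ Q.eval z ≠ 0 ∧
      (a ≠ 0 → a = P.eval z / Q.eval z) := by
  by_cases h0 : a = 0
  · refine ⟨1, 1, one_mem _, one_mem _, ?_, ?_, fun h1 => absurd h0 h1⟩
    all_goals
      rw [eval_one]
      exact one_ne_zero
  rw [mem_adj_iff, IntermediateField.mem_adjoin_simple_iff] at ha
  obtain ⟨P, Q, h1⟩ := ha
  rw [← eval_map_algebraMap, ← eval_map_algebraMap] at h1
  have hPI : ∀ R : Polynomial F₁, R.map (algebraMap F₁ Ω) ∈ PI F₁ := fun R i => by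
    rw [coeff_map]
    exact (R.coeff i).2
  refine ⟨P.map (algebraMap F₁ Ω), Q.map (algebraMap F₁ Ω), hPI P, hPI Q, ?_, ?_, fun _ => h1⟩
  · intro h2
    rw [h2, zero_div] at h1
    exact h0 h1
  · intro h2
    rw [h2, div_zero] at h1
    exact h0 h1

/-- **Absorption.** -/
theorem exists_mot_abs [IsAlgClosed Ω] (p : ℕ) [hp : Fact p.Prime] [CharP k p] [CharP Ω p] {r : ℕ}
    (h : Ctx k v r) {K₀ N₀ : IntermediateField k Ω} (hK : K₀.FG)
    (hΩ : ∀ g : Ω, IsAlgebraic K₀ g) (hN₀ : N₀.FG) {m : ℕ} {u : Fin m → Ω} {s : Fin m → ℝ}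
    {z : Ω} {s₀ : ℝ}
    (hM : MTL v (hen v N₀) (Fin.cons z u : Fin (m + 1) → Ω) (Fin.cons s₀ s : Fin (m + 1) → ℝ))
    (hz : TL v (hen v (nadj (hen v N₀) u)) z s₀)
    (hKE : hen v K₀ = hen v (nadj (hen v N₀) (Fin.cons z u : Fin (m + 1) → Ω)))
    {f : Polynomial Ω} (hf : f ∈ PI (hen v (nadj (hen v N₀) u)))
    {χ : Ω} (hχ : χ ∈ hen v K₀) (hχ0 : χ ≠ 0) (hχs : s₀ < v χ)
    (hf1 : (taylor z f).coeff 1 ≠ 0)
    (hf2 : ∀ l, Gt v (v ((taylor z f).coeff 1) - (l + 1 : ℕ) * v χ) ((taylor z f).coeff (l + 2)))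
    {g a : Ω} (hg : g ∈ hen v K₀) (ha : a = g ^ p + f.eval z)
    {P : MvPolynomial (Fin (m + 1)) (hen v N₀)}
    (hP : v.Ge (v ((taylor z f).coeff 1) + v χ)
      (a - MvPolynomial.aeval (Fin.cons z u : Fin (m + 1) → Ω) P))
    (S : Finset Ω) (hS : ∀ x ∈ S, x ∈ hen v K₀) :
    ∃ (β : ℝ) (L : IntermediateField k Ω), 0 < β ∧ (∀ x ∈ S, x ∈ L) ∧ K₀ ≤ L ∧
      nadj (hen v N₀) (Fin.cons z u : Fin (m + 1) → Ω) ≤ L ∧ L ≤ hen v K₀ ∧
      ∀ {δ : ℕ → Ω} {ρ : ℝ} (hsq : Sq v δ ρ) (c : ℕ → Fin (m + 1) → Ω) (b : ℕ → Ω),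
        (∀ i j, c i j ∈ hen v N₀) →
        (∀ i j, v.Ge ((Fin.cons s₀ s : Fin (m + 1) → ℝ) j - β) (c i j)) →
        (∀ j, FGS hsq fun i => c i j) →
        (∃ (j : Fin (m + 1)) (q : ℕ) (θ : Ω) (a : Ω) (l : ℤ), θ ∈ hen v N₀ ∧ l ≠ 0 ∧
          LTs v δ (fun i => c i j) a l ∧
          ((Fin.cons z u : Fin (m + 1) → Ω) j ^ p ^ q - θ ≠ 0 → (p ^ q : ℕ) * (v a + l * ρ) <
            v ((Fin.cons z u : Fin (m + 1) → Ω) j ^ p ^ q - θ))) →
        (∀ i, b i ∈ hen v K₀) → FGS hsq b →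
        (∀ i, v.Ge (v ((taylor z f).coeff 1) + v χ)
          (MvPolynomial.aeval (fun j => (Fin.cons z u : Fin (m + 1) → Ω) j + c i j) P -
            MvPolynomial.aeval (Fin.cons z u : Fin (m + 1) → Ω) P - b i ^ p)) →
        ∃ (φ : ℕ → (Ω ≃ₐ[k] Ω)) (b' : ℕ → Ω), (∀ i, ∀ n ∈ hen v N₀, φ i n = n) ∧
          (∀ i j, φ i (u j) = u j + c i j.succ) ∧
          (∀ i, v.Ge (v χ) (φ i z - (z + c i 0))) ∧
          (∀ i, ∀ x ∈ S, Rc v β (φ i) x) ∧ L ≤ fgsF hsq φ ∧ (∀ i, ∀ x ∈ L, φ i x ∈ hen v K₀) ∧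
          Mot v K₀ φ δ ρ ∧ FGS hsq b' ∧ (∀ i, b' i ∈ hen v K₀) ∧
          ∀ i, φ i a = a + b' i ^ p := by
  classical
  have hctx : Ctx0 k v := h.toCtx0
  obtain ⟨N, hN⟩ : ∃ N, N = hen v N₀ := ⟨_, rfl⟩
  obtain ⟨U, hU⟩ : ∃ U : Fin (m + 1) → Ω, U = Fin.cons z u := ⟨_, rfl⟩
  obtain ⟨F, hF⟩ : ∃ F, F = hen v (nadj (hen v N₀) u) := ⟨_, rfl⟩
  have hUz : U 0 = z := by rw [hU, Fin.cons_zero]
  have hUu : ∀ j : Fin m, U j.succ = u j := fun j => by rw [hU, Fin.cons_succ]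
  rw [← hF] at hz hf
  have hNF : hen v N₀ ≤ F := by
    rw [hF]
    exact (le_nadj _ u).trans (le_hen _)
  have huF : ∀ j, u j ∈ F := fun j => by
    rw [hF]
    exact le_hen _ (self_mem_nadj _ u j)
  have hnF : nadj (hen v N₀) u ≤ F := by
    rw [hF]
    exact le_hen _
  have hKz : hen v K₀ = hen v (adj F z) := by
    rw [hKE, nadj_cons, hF, hen_adj_hen]
  have hFK : F ≤ hen v K₀ := by
    rw [hKz]
    exact (mem_adj_self F z).2.trans (le_hen _)
  have hzK : z ∈ hen v K₀ := by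
    rw [hKz]
    exact le_hen _ (mem_adj_self F z).1
  -- the field `F₁`
  obtain ⟨Sf, hSf⟩ : ∃ Sf : Finset Ω, Sf = (Finset.range (f.natDegree + 1)).image f.coeff :=
    ⟨_, rfl⟩
  have hSfF : ∀ x ∈ Sf, x ∈ F := by
    intro x hx
    rw [hSf] at hx
    obtain ⟨l, -, rfl⟩ := Finset.mem_image.1 hx
    exact hf l
  obtain ⟨F₁, hF₁⟩ : ∃ F₁, F₁ = nadj (hen v N₀) u ⊔ IntermediateField.adjoin k (Sf : Set Ω) :=
    ⟨_, rfl⟩
  have hnF₁ : nadj (hen v N₀) u ≤ F₁ := by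
    rw [hF₁]
    exact le_sup_left
  have hSfF₁ : ∀ x ∈ Sf, x ∈ F₁ := by
    intro x hx
    rw [hF₁]
    exact (le_sup_right : _ ≤ nadj (hen v N₀) u ⊔ _)
      (IntermediateField.subset_adjoin k _ hx)
  have hF₁le : ∀ M : IntermediateField k Ω, nadj (hen v N₀) u ≤ M → (∀ x ∈ Sf, x ∈ M) →
      F₁ ≤ M := by
    intro M h1 h2
    rw [hF₁]
    refine sup_le h1 ?_
    rw [IntermediateField.adjoin_le_iff]
    exact fun x hx => h2 x hx
  have hF₁F : F₁ ≤ F := hF₁le F hnF hSfF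
  have hfF₁ : f ∈ PI F₁ := by
    intro l
    by_cases hl : l ≤ f.natDegree
    · refine hSfF₁ _ ?_
      rw [hSf]
      exact Finset.mem_image_of_mem _ (Finset.mem_range.2 (Nat.lt_succ_of_le hl))
    · rw [coeff_eq_zero_of_natDegree_lt (by omega)]
      exact zero_mem _
  obtain ⟨E, hE⟩ : ∃ E, E = adj F₁ z := ⟨_, rfl⟩
  have hF₁E : F₁ ≤ E := by
    rw [hE]
    exact (mem_adj_self F₁ z).2
  have hzE : z ∈ E := by
    rw [hE]
    exact (mem_adj_self F₁ z).1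
  have hEle : ∀ M : IntermediateField k Ω, F₁ ≤ M → z ∈ M → E ≤ M := by
    intro M h1 h2
    rw [hE]
    exact adj_le h1 h2
  have hEK : E ≤ hen v K₀ := hEle _ (hF₁F.trans hFK) hzK
  have hUE : nadj (hen v N₀) (Fin.cons z u : Fin (m + 1) → Ω) ≤ E := by
    rw [nadj_cons]
    exact adj_le (hnF₁.trans hF₁E) hzE
  have hKEE : hen v K₀ = hen v E := by
    apply le_antisymm
    · rw [hKE]
      exact hen_mono hUE
    · exact hen_le (hen_hen _) hEK
  have hΩE : ∀ g : Ω, IsAlgebraic E g := isAlgebraic_of_hen hΩ ((le_hen K₀).trans hKEE.le)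
  have hTK : ∀ R ∈ PI F₁, ∀ l, (taylor z R).coeff l ∈ E := fun R hR l => by
    exact TWM.taylor_mem_PI (TWM.PI_mono hF₁E hR) hzE l
  have hfz : f.eval z ∈ E := by
    have h1 := hTK f hfF₁ 0
    rwa [taylor_coeff_zero] at h1
  -- the generators
  obtain ⟨GN, hGN⟩ := hN₀
  have hGN₀ : ∀ x ∈ GN, x ∈ N₀ := fun x hx => by
    rw [← hGN]
    exact IntermediateField.subset_adjoin k _ hx
  have hGNF₁ : ∀ x ∈ GN, x ∈ F₁ := fun x hx =>
    hnF₁ (le_nadj _ u (le_hen _ (hGN₀ x hx)))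
  obtain ⟨A, L, hA, hSL, hKL, hEL, hLE, hmot⟩ := exists_mot h hK hΩ hΩE hKEE
    (GN ∪ Finset.univ.image U) (S ∪ {g}) (by
      intro x hx
      rcases Finset.mem_union.1 hx with hx | hx
      · exact hF₁E (hGNF₁ x hx)
      · obtain ⟨j, -, rfl⟩ := Finset.mem_image.1 hx
        rw [hU]
        exact hUE (self_mem_nadj _ _ j)) (by
      intro x hx
      rw [← hKEE]
      rcases Finset.mem_union.1 hx with hx | hx
      · exact hS x hx
      · rw [Finset.mem_singleton] at hx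
        rw [hx]
        exact hg)
  -- the fractions
  have hex : ∀ x : Ω, ∃ P Q : Polynomial Ω, P ∈ PI F₁ ∧ Q ∈ PI F₁ ∧ P.eval z ≠ 0 ∧ Q.eval z ≠ 0 ∧
      (x ∈ A → x ≠ 0 → x = P.eval z / Q.eval z) := by
    intro x
    by_cases hx : x ∈ A
    · obtain ⟨P, Q, h1, h2, h3, h4, h5⟩ := exists_frac (F₁ := F₁) (z := z) (a := x) (by
        rw [← hE]
        exact hA x hx)
      exact ⟨P, Q, h1, h2, h3, h4, fun _ => h5⟩
    · refine ⟨1, 1, one_mem _, one_mem _, ?_, ?_, fun h1 => absurd h1 hx⟩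
      all_goals
        rw [eval_one]
        exact one_ne_zero
  choose PA QA hPA hQA hPA0 hQA0 hPQ using hex
  obtain ⟨tc, htc⟩ : ∃ tc : Polynomial Ω → Finset Ω, ∀ R, tc R =
      (Finset.range (R.natDegree + 1)).image (taylor z R).coeff := ⟨_, fun _ => rfl⟩
  have htc' : ∀ R l, (taylor z R).coeff l ∈ tc R ∨ (taylor z R).coeff l = 0 := by
    intro R l
    by_cases hl : l ≤ R.natDegree
    · left
      rw [htc]
      exact Finset.mem_image_of_mem _ (Finset.mem_range.2 (Nat.lt_succ_of_le hl))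
    · right
      exact coeff_eq_zero_of_natDegree_lt (by rw [natDegree_taylor]; omega)
  have htcK : ∀ R ∈ PI F₁, ∀ x ∈ tc R, x ∈ hen v K₀ := by
    intro R hR x hx
    rw [htc] at hx
    obtain ⟨l, -, rfl⟩ := Finset.mem_image.1 hx
    exact hEK (hTK R hR l)
  obtain ⟨e, he⟩ : ∃ e, e = a - MvPolynomial.aeval (Fin.cons z u : Fin (m + 1) → Ω) P := ⟨_, rfl⟩
  have haK : a ∈ hen v K₀ := by
    rw [ha]
    exact add_mem (pow_mem hg p) (hEK hfz)
  have heK : e ∈ hen v K₀ := by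
    rw [he]
    refine sub_mem haK ?_
    rw [hKE]
    exact le_hen _ (aeval_mem_nadj P)
  obtain ⟨S₁, hS₁⟩ : ∃ S₁ : Finset Ω, S₁ = S ∪ {g, e} ∪ Sf ∪ tc f ∪
      A.biUnion (fun x => tc (PA x)) ∪ A.biUnion (fun x => tc (QA x)) := ⟨_, rfl⟩
  have hS₁K : ∀ x ∈ S₁, x ∈ hen v K₀ := by
    intro x hx
    rw [hS₁] at hx
    simp only [Finset.mem_union, Finset.mem_biUnion, Finset.mem_insert, Finset.mem_singleton] at hx
    rcases hx with ((((hx | rfl | rfl) | hx) | hx) | ⟨y, -, hx⟩) | ⟨y, -, hx⟩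
    · exact hS x hx
    · exact hg
    · exact heK
    · exact hFK (hSfF x hx)
    · exact htcK f hfF₁ x hx
    · exact htcK _ (hPA y) x hx
    · exact htcK _ (hQA y) x hx
  obtain ⟨β₁, L₁, hβ₁, hSL₁, hKL₁, hNL₁, hLK₁, htrans⟩ :=
    exists_mot_trans p h hK hΩ ⟨GN, hGN⟩ hM hKE S₁ hS₁K
  -- the constants
  obtain ⟨f₁, hf₁⟩ : ∃ f₁, f₁ = (taylor z f).coeff 1 := ⟨_, rfl⟩
  obtain ⟨hh, hhh⟩ : ∃ hh : ℕ → Ω, ∀ l, hh l = (taylor z f).coeff (l + 2) := ⟨_, fun _ => rfl⟩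
  rw [← hf₁] at hf1 hf2 hP
  simp only [← hhh] at hf2
  rw [← he] at hP
  obtain ⟨n, hn⟩ : ∃ n, n = f.natDegree := ⟨_, rfl⟩
  have hhz : ∀ l, n ≤ l → hh l = 0 := by
    intro l hl
    rw [hhh]
    exact coeff_eq_zero_of_natDegree_lt (by rw [natDegree_taylor]; omega)
  obtain ⟨ε₂, hε₂, hhv⟩ : ∃ ε₂ : ℝ, 0 < ε₂ ∧ ∀ l, v.Ge (v f₁ - (l + 1 : ℕ) * v χ + ε₂) (hh l) := by
    have key : ∀ n' : ℕ, ∃ ε₂ : ℝ, 0 < ε₂ ∧ ∀ l, l < n' →
        v.Ge (v f₁ - (l + 1 : ℕ) * v χ + ε₂) (hh l) := by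
      intro n'
      induction n' with
      | zero => exact ⟨1, one_pos, fun l hl => absurd hl (Nat.not_lt_zero l)⟩
      | succ n' ih =>
        obtain ⟨ε, hε, h1⟩ := ih
        by_cases h0 : hh n' = 0
        · refine ⟨ε, hε, fun l hl => ?_⟩
          rcases Nat.lt_succ_iff_lt_or_eq.1 hl with h2 | rfl
          · exact h1 l h2
          · rw [h0]
            exact RVal.Ge.zero
        · have h2 := hf2 n' h0
          refine ⟨min ε (v (hh n') - (v f₁ - (n' + 1 : ℕ) * v χ)), lt_min hε (by linarith),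
            fun l hl => ?_⟩
          rcases Nat.lt_succ_iff_lt_or_eq.1 hl with h3 | rfl
          · have h4 := min_le_left ε (v (hh n') - (v f₁ - (n' + 1 : ℕ) * v χ))
            exact (h1 l h3).mono (by linarith)
          · have h4 := min_le_right ε (v (hh l) - (v f₁ - (l + 1 : ℕ) * v χ))
            intro _
            linarith
    obtain ⟨ε, hε, h1⟩ := key n
    refine ⟨ε, hε, fun l => ?_⟩
    by_cases hl : l < n
    · exact h1 l hl
    · rw [hhz l (by omega)]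
      exact RVal.Ge.zero
  obtain ⟨η, hη⟩ : ∃ η, η = v χ - s₀ := ⟨_, rfl⟩
  have hη0 : 0 < η := by rw [hη]; linarith
  refine ⟨min β₁ η, L, lt_min hβ₁ hη0, fun x hx => hSL x (Finset.mem_union_left _ hx), hKL,
    hUE.trans hEL, hLE.trans hKEE.ge, ?_⟩
  intro δ ρ hsq c b hcN hcs hcF hmov hbK hbF hbv
  rw [← hf₁] at hbv
  obtain ⟨φ, hφN, hφU, hφS, hφL, hφK, -⟩ := htrans hsq c hcN (fun i j => (hcs i j).mono (by
    linarith [min_le_left β₁ η])) hcF hmov
  have hφz : ∀ i, φ i z = z + c i 0 := fun i => by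
    have h1 := hφU i 0
    rwa [Fin.cons_zero] at h1
  have hφu : ∀ i j, φ i (u j) = u j + c i j.succ := fun i j => by
    have h1 := hφU i j.succ
    rwa [Fin.cons_succ] at h1
  have hcF' : ∀ i j, c i j ∈ F := fun i j => hNF (hcN i j)
  have hφM : ∀ i, ∀ x ∈ nadj (hen v N₀) u, φ i x ∈ nadj (hen v N₀) u := by
    intro i
    have hle : nadj (hen v N₀) u ≤ (nadj (hen v N₀) u).comap
        ((φ i : Ω ≃ₐ[k] Ω) : Ω →ₐ[k] Ω) := by
      refine nadj_le (fun x hx => ?_) fun j => ?_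
      · show φ i x ∈ nadj (hen v N₀) u
        rw [hφN i x hx]
        exact le_nadj _ u hx
      · show φ i (u j) ∈ nadj (hen v N₀) u
        rw [hφu]
        exact add_mem (self_mem_nadj _ u j) (le_nadj _ u (hcN i _))
    exact fun x hx => hle hx
  have hF₁L : F₁ ≤ L₁ := hF₁le _ ((by
    rw [nadj_cons]
    exact (mem_adj_self _ z).2 : nadj (hen v N₀) u ≤
      nadj (hen v N₀) (Fin.cons z u : Fin (m + 1) → Ω)).trans hNL₁) (fun x hx => hSL₁ x (by
    rw [hS₁]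
    simp only [Finset.mem_union]
    exact Or.inl (Or.inl (Or.inl (Or.inr hx)))))
  have hzL₁ : z ∈ L₁ := hNL₁ (by
    rw [nadj_cons]
    exact (mem_adj_self _ z).1)
  have hEL₁ : E ≤ L₁ := hEle _ hF₁L hzL₁
  have hgL₁ : g ∈ L₁ := hSL₁ g (by
    rw [hS₁]
    simp only [Finset.mem_union, Finset.mem_insert, Finset.mem_singleton]
    exact Or.inl (Or.inl (Or.inl (Or.inl (Or.inr (Or.inl trivial))))))
  have hRcf : ∀ i l, Rc v β₁ (φ i) ((taylor z f).coeff l) := by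
    intro i l
    rcases htc' f l with h1 | h1
    · refine hφS i _ ?_
      rw [hS₁]
      simp only [Finset.mem_union]
      exact Or.inl (Or.inl (Or.inr h1))
    · exact Rc.of_fix (φ := ((φ i : Ω ≃ₐ[k] Ω) : Ω →+* Ω)) (by rw [h1, map_zero])
  have hRcP : ∀ i, ∀ x ∈ A, ∀ l, Rc v β₁ (φ i) ((taylor z (PA x)).coeff l) := by
    intro i x hx l
    rcases htc' (PA x) l with h1 | h1
    · refine hφS i _ ?_
      rw [hS₁]
      simp only [Finset.mem_union, Finset.mem_biUnion]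
      exact Or.inl (Or.inr ⟨x, hx, h1⟩)
    · exact Rc.of_fix (φ := ((φ i : Ω ≃ₐ[k] Ω) : Ω →+* Ω)) (by rw [h1, map_zero])
  have hRcQ : ∀ i, ∀ x ∈ A, ∀ l, Rc v β₁ (φ i) ((taylor z (QA x)).coeff l) := by
    intro i x hx l
    rcases htc' (QA x) l with h1 | h1
    · refine hφS i _ ?_
      rw [hS₁]
      simp only [Finset.mem_union, Finset.mem_biUnion]
      exact Or.inr ⟨x, hx, h1⟩
    · exact Rc.of_fix (φ := ((φ i : Ω ≃ₐ[k] Ω) : Ω →+* Ω)) (by rw [h1, map_zero])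
  -- the remainders
  obtain ⟨rr, hrr⟩ : ∃ rr : ℕ → Ω, ∀ i, rr i =
      φ i (f.eval z) - f.eval z - (b i - φ i g + g) ^ p := ⟨_, fun _ => rfl⟩
  have hpw : ∀ x y w : Ω, (x - y + w) ^ p = x ^ p - y ^ p + w ^ p := fun x y w => by
    rw [add_pow_char, sub_pow_char]
  have hrr1 : ∀ i, rr i = (MvPolynomial.aeval (fun j => (Fin.cons z u : Fin (m + 1) → Ω) j + c i j) P -
      MvPolynomial.aeval (Fin.cons z u : Fin (m + 1) → Ω) P - b i ^ p) + (φ i e - e) := by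
    intro i
    have h1 := aeval_aut (u := (Fin.cons z u : Fin (m + 1) → Ω)) (hφN i) (hφU i) P
    rw [← h1, hrr, he, ha, map_sub, map_add, map_pow, hpw]
    ring
  have hrv : ∀ i, v.Ge (v f₁ + v χ) (rr i) := by
    intro i
    rw [hrr1]
    refine (hbv i).add ?_
    by_cases he0 : e = 0
    · rw [he0, map_zero, sub_zero]
      exact RVal.Ge.zero
    · have h1 : Rc v β₁ (φ i) e := hφS i e (by
        rw [hS₁]
        simp only [Finset.mem_union, Finset.mem_insert, Finset.mem_singleton]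
        exact Or.inl (Or.inl (Or.inl (Or.inl (Or.inr (Or.inr trivial))))))
      exact RVal.Ge.mono (by linarith [hP he0]) h1
  have hrK : ∀ i, rr i ∈ hen v K₀ := by
    intro i
    rw [hrr]
    exact sub_mem (sub_mem (hφK i _ (hEL₁ hfz)) (hEK hfz))
      (pow_mem (add_mem (sub_mem (hbK i) (hφK i _ hgL₁)) hg) p)
  have hφf : ∀ {x}, x ∈ L₁ → FGS hsq fun i => φ i x := fun {x} hx => hφL hx
  have hrF : FGS hsq rr := by
    refine FGS.congr (((hφf (hEL₁ hfz)).sub (FGS.const hsq (f.eval z))).sub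
      (((hbF.sub (hφf hgL₁)).add (FGS.const hsq g)).pow p)) ?_
    exact Eventually.of_forall fun i => (hrr i).symm
  have hf₁E : f₁ ∈ E := by
    rw [hf₁]
    exact hTK f hfF₁ 1
  have hhE : ∀ l, hh l ∈ E := fun l => by
    rw [hhh]
    exact hTK f hfF₁ _
  have hφf₁ : ∀ i, φ i f₁ ≠ 0 ∧ v (φ i f₁) = v f₁ := fun i => by
    have h1 := hRcf i 1
    rw [← hf₁] at h1
    exact Rc.val (φ := ((φ i : Ω ≃ₐ[k] Ω) : Ω →+* Ω)) hβ₁ h1 hf1
  have hφh : ∀ i l, v.Ge (v f₁ - (l + 1 : ℕ) * v χ + ε₂) (φ i (hh l)) := by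
    intro i l
    by_cases h0 : hh l = 0
    · rw [h0, map_zero]
      exact RVal.Ge.zero
    · have h1 := hRcf i (l + 2)
      rw [← hhh] at h1
      have h2 := Rc.val (φ := ((φ i : Ω ≃ₐ[k] Ω) : Ω →+* Ω)) hβ₁ h1 h0
      intro _
      have h3 : v (φ i (hh l)) = v (hh l) := h2.2
      rw [h3]
      exact hhv l h0
  obtain ⟨τ, hτK, hτ0, hτF, hτ⟩ := exists_newton hctx (K := K₀) hsq (n := n)
    (c := fun i l => φ i (hh l) * χ ^ (l + 1) / φ i f₁) (t := fun i => rr i / (φ i f₁ * χ)) hε₂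
    (fun i l => by
      have h1 : v.Ge ((l + 1 : ℕ) * v χ) (χ ^ (l + 1)) := TWM.ge_pow (RVal.ge_self χ) _
      have h2 : v.Ge (-v f₁) (φ i f₁)⁻¹ := fun _ => by
        rw [v.map_inv (hφf₁ i).1, (hφf₁ i).2]
      have h3 := ((hφh i l).mul h1).mul h2
      rw [← div_eq_mul_inv] at h3
      exact h3.mono (by linarith))
    (fun i l => div_mem (mul_mem (hφK i _ (hEL₁ (hhE l))) (pow_mem hχ _)) (hφK i _ (hEL₁ hf₁E)))
    (fun l => ((hφf (hEL₁ (hhE l))).mul (FGS.const hsq _)).div (hφf (hEL₁ hf₁E))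
      fun i => (hφf₁ i).1)
    (fun i => by
      have h2 : v.Ge (-(v f₁ + v χ)) (φ i f₁ * χ)⁻¹ := fun _ => by
        rw [v.map_inv (mul_ne_zero (hφf₁ i).1 hχ0), v.map_mul (hφf₁ i).1 hχ0, (hφf₁ i).2]
      have h3 := (hrv i).mul h2
      rw [← div_eq_mul_inv, add_neg_cancel] at h3
      exact h3)
    (fun i => div_mem (hrK i) (mul_mem (hφK i _ (hEL₁ hf₁E)) hχ))
    (hrF.div ((hφf (hEL₁ hf₁E)).mul (FGS.const hsq _)) fun i => mul_ne_zero (hφf₁ i).1 hχ0)
  obtain ⟨κ, hκ⟩ : ∃ κ : ℕ → Ω, ∀ i, κ i = χ * τ i := ⟨_, fun _ => rfl⟩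
  have hκv : ∀ i, v.Ge (v χ) (κ i) := fun i => by
    rw [hκ]
    have h1 := (RVal.ge_self χ).mul (hτ0 i)
    rwa [add_zero] at h1
  have hκK : ∀ i, κ i ∈ hen v K₀ := fun i => by
    rw [hκ]
    exact mul_mem hχ (hτK i)
  have hκF : FGS hsq κ :=
    ((FGS.const hsq χ).mul hτF).congr (Eventually.of_forall fun i => (hκ i).symm)
  have hκe : ∀ i, rr i + φ i f₁ * κ i + ∑ l ∈ Finset.range n, φ i (hh l) * κ i ^ (l + 2) = 0 := by
    intro i
    have h1 := congrArg (fun x => φ i f₁ * χ * x) (hτ i)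
    simp only [mul_zero] at h1
    rw [← h1, mul_add, mul_add, Finset.mul_sum]
    have h2 := (hφf₁ i).1
    congr 1
    · rw [hκ]
      field_simp
    · refine Finset.sum_congr rfl fun l _ => ?_
      rw [hκ, mul_pow]
      field_simp
      ring
  have hφfz : ∀ i, ∑ l ∈ Finset.range (n + 2), φ i ((taylor z f).coeff l) * κ i ^ l =
      f.eval z + (b i - φ i g + g) ^ p := by
    intro i
    rw [Finset.sum_range_succ', Finset.sum_range_succ', taylor_coeff_zero, zero_add, ← hf₁,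
      pow_zero, pow_one, mul_one]
    have h1 := hκe i
    rw [hrr] at h1
    simp only [hhh] at h1
    linear_combination h1
  -- the new coordinate
  have hzc : ∀ i, TL v F (z + c i 0) s₀ := fun i => tl_add hz (hcF' i 0)
  have hκs : ∀ i, Gt v s₀ (z + c i 0 + κ i - (z + c i 0)) := fun i => by
    rw [add_sub_cancel_left]
    exact Gt.of_ge (hκv i) hχs
  have hzκ : ∀ i, TL v F (z + c i 0 + κ i) s₀ := fun i => (hzc i).congr (hκs i)
  have hzcK : ∀ i, hen v (adj F (z + c i 0)) = hen v K₀ := fun i => by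
    rw [adj_add (hcF' i 0), hKz]
  have hzκm : ∀ i, z + c i 0 + κ i ∈ hen v K₀ := fun i =>
    add_mem (add_mem hzK (hFK (hcF' i 0))) (hκK i)
  have hzκK : ∀ i, hen v (adj F (z + c i 0 + κ i)) = hen v K₀ := fun i => by
    rw [hen_adj_congr p (hzc i) (by rw [hzcK]; exact hzκm i) (hκs i), hzcK]
  have hFa : ∀ (x : Ω), adj F x ≤ nadj (algc F) fun _ : Fin 1 => x := fun x =>
    adj_le ((le_algc F).trans (le_nadj _ _)) (self_mem_nadj _ _ (0 : Fin 1))
  choose Ψ hΨF hΨz using fun i => exists_aut_coord (N := algc F) (u := fun _ : Fin 1 => z + c i 0)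
    (u' := fun _ : Fin 1 => z + c i 0 + κ i) (algInd_single (hzc i).algc)
    (algInd_single (hzκ i).algc)
    (fun g => D2P.isAlgebraic_mono (hFa _)
      (isAlgebraic_of_hen hΩ ((le_hen K₀).trans (hzcK i).ge) g))
    (fun g => D2P.isAlgebraic_mono (hFa _)
      (isAlgebraic_of_hen hΩ ((le_hen K₀).trans (hzκK i).ge) g))
  obtain ⟨Φ, hΦ⟩ : ∃ Φ : ℕ → (Ω ≃ₐ[k] Ω), ∀ i x, Φ i x = Ψ i (φ i x) :=
    ⟨fun i => (φ i).trans (Ψ i), fun _ _ => rfl⟩
  have hφalg : ∀ i, ∀ x ∈ F₁, φ i x ∈ algc F := by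
    intro i
    have hle : F₁ ≤ (algc F).comap ((φ i : Ω ≃ₐ[k] Ω) : Ω →ₐ[k] Ω) := by
      refine hF₁le _ (fun x hx => ?_) fun x hx => ?_
      · show φ i x ∈ algc F
        exact le_algc F (hnF (hφM i x hx))
      · show φ i x ∈ algc F
        have h1 := hSfF x hx
        rw [hF, mem_hen] at h1
        have h2 := isAlgebraic_image (hφM i) h1.2.isIntegral.isAlgebraic
        exact TWM.mem_algc.2 (D2P.isAlgebraic_mono hnF h2)
    exact fun x hx => hle hx
  have hΦF : ∀ i, ∀ x ∈ F₁, Φ i x = φ i x := fun i x hx => by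
    rw [hΦ, hΨF i _ (hφalg i x hx)]
  have hΦz : ∀ i, Φ i z = φ i z + κ i := fun i => by
    rw [hΦ, hφz]
    exact hΨz i 0
  have hκη : ∀ i, v.Ge (s₀ + η) (κ i) := fun i => by
    rw [hη, add_sub_cancel]
    exact hκv i
  have hΦA : ∀ i, ∀ x ∈ A, Rc v (min β₁ η) (Φ i) x := by
    intro i x hx
    by_cases hx0 : x = 0
    · exact Rc.of_fix (φ := ((Φ i : Ω ≃ₐ[k] Ω) : Ω →+* Ω)) (by rw [hx0, map_zero])
    rw [hPQ x hx hx0]
    exact Rc.div (φ := ((Φ i : Ω ≃ₐ[k] Ω) : Ω →+* Ω)) (lt_min hβ₁ hη0)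
      (rc_perturb hz (TWM.PI_mono hF₁F (hPA x)) (hPA0 x) (fun l => hΦF i _ (hPA x l)) (hΦz i) hβ₁
        hη0 (hκη i) (hRcP i x hx))
      (rc_perturb hz (TWM.PI_mono hF₁F (hQA x)) (hQA0 x) (fun l => hΦF i _ (hQA x l)) (hΦz i) hβ₁
        hη0 (hκη i) (hRcQ i x hx))
  have hΦE : E ≤ fgsF hsq Φ := by
    refine hEle _ (fun x hx => ?_) ?_
    · rw [mem_fgsF]
      exact (hφf (hF₁L hx)).congr (Eventually.of_forall fun i => (hΦF i x hx).symm)
    · rw [mem_fgsF]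
      exact ((hφf hzL₁).add hκF).congr (Eventually.of_forall fun i => (hΦz i).symm)
  have hΦK : ∀ i, ∀ x ∈ E, Φ i x ∈ hen v K₀ := by
    intro i
    have hle : E ≤ (hen v K₀).comap ((Φ i : Ω ≃ₐ[k] Ω) : Ω →ₐ[k] Ω) := by
      refine hEle _ (fun x hx => ?_) ?_
      · show Φ i x ∈ hen v K₀
        rw [hΦF i x hx]
        exact hφK i x (hF₁L hx)
      · show Φ i z ∈ hen v K₀
        rw [hΦz, hφz]
        exact hzκm i
    exact fun x hx => hle hx
  have hΦr : ∀ i, K₀ ≤ hen v (IntermediateField.adjoin k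
      ((Φ i) '' ((GN ∪ Finset.univ.image U : Finset Ω) : Set Ω))) := by
    intro i
    obtain ⟨M, hM'⟩ : ∃ M, M = hen v (IntermediateField.adjoin k
      ((Φ i) '' ((GN ∪ Finset.univ.image U : Finset Ω) : Set Ω))) := ⟨_, rfl⟩
    rw [← hM']
    have hMM : hen v M = M := by rw [hM']; exact hen_hen _
    have hsub : ∀ x ∈ GN ∪ Finset.univ.image U, Φ i x ∈ M := by
      intro x hx
      rw [hM']
      exact le_hen _ (IntermediateField.subset_adjoin k _ ⟨x, hx, rfl⟩)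
    have hN₀M : N₀ ≤ M := by
      rw [← hGN, IntermediateField.adjoin_le_iff]
      intro x hx
      have h3 := hsub x (Finset.mem_union_left _ hx)
      rwa [hΦF i x (hGNF₁ x hx), hφN i x (le_hen _ (hGN₀ x hx))] at h3
    have hNM : hen v N₀ ≤ M := hen_le hMM hN₀M
    have hnM : nadj (hen v N₀) u ≤ M := by
      refine nadj_le hNM fun j => ?_
      have h3 := hsub (U j.succ) (Finset.mem_union_right _
        (Finset.mem_image_of_mem _ (Finset.mem_univ _)))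
      rw [hUu, hΦF i _ (hnF₁ (self_mem_nadj _ u j)), hφu] at h3
      have h4 := sub_mem h3 (hNM (hcN i j.succ))
      rwa [add_sub_cancel_right] at h4
    have hFM : F ≤ M := by
      rw [hF]
      exact hen_le hMM hnM
    have hzM : z + c i 0 + κ i ∈ M := by
      have h3 := hsub (U 0) (Finset.mem_union_right _
        (Finset.mem_image_of_mem _ (Finset.mem_univ _)))
      rwa [hUz, hΦz, hφz] at h3
    exact ((le_hen K₀).trans (hzκK i).ge).trans (hen_le hMM (adj_le hFM hzM))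
  have hΦm : ∃ e ∈ E, ∃ a m, m ≠ 0 ∧ LTs v δ (fun i => Φ i e) a m := by
    obtain ⟨j, q, θ, a', l, hθ, hl, hlt, hval⟩ := hmov
    have hpq : (0 : ℝ) < (p ^ q : ℕ) := by exact_mod_cast pow_pos hp.out.pos q
    obtain ⟨y, hy⟩ : ∃ y : ℕ → Ω, ∀ i, y i = if j = 0 then c i j + κ i else c i j :=
      ⟨_, fun _ => rfl⟩
    have hylt : LTs v δ y a' l := by
      by_cases hj : j = 0
      · have h1 : LTs v δ (fun i => κ i + c i j) a' l := by
          refine ⟨hlt.1, ?_⟩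
          have h2 : Tendsto (fun i => v a' + l * v (δ i)) atTop (𝓝 (v a' + l * ρ)) :=
            tendsto_const_nhds.add (tendsto_const_nhds.mul hsq.lim)
          have h3 : v a' + l * ρ < v χ := by
            refine lt_trans ?_ hχs
            -- the distance of `z` to the roots
            subst hj
            rw [Fin.cons_zero] at hval
            obtain ⟨θ', hθ'⟩ := IsAlgClosed.exists_pow_nat_eq θ (pow_pos hp.out.pos q)
            have hθalg : IsAlgebraic F θ' := by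
              refine IsAlgebraic.of_pow (pow_pos hp.out.pos q) ?_
              rw [hθ']
              exact isAlgebraic_algebraMap (R := F) (⟨θ, hNF hθ⟩ : F)
            obtain ⟨h4, h5⟩ := hz.far θ' hθalg
            have h6 : z ^ p ^ q - θ = (z - θ') ^ p ^ q := by
              rw [sub_pow_char_pow, hθ']
            have h7 : z - θ' ≠ 0 := sub_ne_zero.2 h4
            rw [h6, v.map_pow h7] at hval
            have h8 := hval (pow_ne_zero _ h7)
            have h9 : v a' + l * ρ < v (z - θ') := by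
              have := lt_of_mul_lt_mul_left h8 hpq.le
              exact this
            linarith
          filter_upwards [hlt.2, h2.eventually (gt_mem_nhds h3)] with i hi h4
          have e1 : κ i + c i j - a' * δ i ^ l = κ i + (c i j - a' * δ i ^ l) := by ring
          rw [e1]
          exact (Gt.of_ge (hκv i) h4).add hi
        refine h1.congr (Eventually.of_forall fun i => ?_)
        rw [hy, if_pos hj, add_comm]
      · refine hlt.congr (Eventually.of_forall fun i => ?_)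
        rw [hy, if_neg hj]
    have hUE' : ∀ j, U j ∈ E := fun j => by
      rw [hU]
      exact hUE (self_mem_nadj _ _ j)
    have hΦU : ∀ i, Φ i (U j) = U j + y i := by
      intro i
      rw [hy]
      by_cases hj : j = 0
      · rw [if_pos hj, hj, hUz, hΦz, hφz, add_assoc]
      · rw [if_neg hj]
        obtain ⟨j', rfl⟩ := Fin.exists_succ_eq.2 hj
        rw [hUu, hΦF i _ (hnF₁ (self_mem_nadj _ u j')), hφu]
    refine ⟨U j ^ p ^ q - θ, sub_mem (pow_mem (hUE' j) _) (hF₁E (hnF₁ (le_nadj _ u hθ))),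
      a' ^ p ^ q, (p ^ q : ℕ) * l, mul_ne_zero ?_ hl, ?_⟩
    · exact_mod_cast pow_ne_zero q hp.out.ne_zero
    · rw [← hU] at hval
      have h1 := lts_add_const hsq (lts_pow hsq hylt (p ^ q)) (w := U j ^ p ^ q - θ) (fun h0 => by
        have h2 := hval h0
        rw [v.map_pow hlt.1]
        push_cast at h2 ⊢
        linarith)
      refine h1.congr (Eventually.of_forall fun i => ?_)
      have h2 : Φ i θ = θ := by
        rw [hΦF i _ (hnF₁ (le_nadj _ u hθ)), hφN i θ hθ]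
      show _ = Φ i (U j ^ p ^ q - θ)
      rw [map_sub, map_pow, hΦU, h2, add_pow_char_pow]
      ring
  obtain ⟨φ', hφ'E, hφ'S, hφ'L, hφ'K, hMot⟩ := hmot hsq Φ (lt_min hβ₁ hη0) hΦA hΦE hΦK hΦr hΦm
  have hgL : g ∈ L := hSL g (Finset.mem_union_right _ (Finset.mem_singleton_self g))
  have hNE : ∀ x ∈ hen v N₀, x ∈ F₁ := fun x hx => hnF₁ (le_nadj _ u hx)
  refine ⟨φ', fun i => b i - φ i g + φ' i g, fun i x hx => ?_, fun i j => ?_, fun i => ?_,
    fun i x hx => hφ'S i x (Finset.mem_union_left _ hx), hφ'L, hφ'K, hMot, ?_, fun i => ?_,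
    fun i => ?_⟩
  · rw [hφ'E i x (hF₁E (hNE x hx)), hΦF i x (hNE x hx), hφN i x hx]
  · rw [hφ'E i _ (hF₁E (hnF₁ (self_mem_nadj _ u j))), hΦF i _ (hnF₁ (self_mem_nadj _ u j)), hφu]
  · rw [hφ'E i _ hzE, hΦz, hφz, add_sub_cancel_left]
    exact hκv i
  · exact (hbF.sub (hφf hgL₁)).add (hφ'L hgL)
  · exact add_mem (sub_mem (hbK i) (hφK i _ hgL₁)) (hφ'K i _ hgL)
  · have h1 : φ' i (f.eval z) = f.eval z + (b i - φ i g + g) ^ p := by
      rw [hφ'E i _ hfz, map_eval (Φ i) (φ i) (n := n + 1) (fun l => hΦF i _ (hfF₁ l)) (hΦz i)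
        (by omega)]
      exact hφfz i
    rw [ha, map_add, map_pow, h1, hpw, hpw]
    ring

end Pool.Agent.TWMF
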