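import Pool.Agent.Lib.TWMF.F10
import Mathlib.RingTheory.Unramified.Field

/-!
# TANK W: motions at field level, 12: generators

`sep_of_pow`: if the `u j` are in `M(u ^ p)`, the field `M(u)` is separable algebraic over `M`.
`algInd_of_sep`: if `N(u)` is algebraic over `N(u')`, `u` and `u'` of the same finite cardinality, then
`u'` is algebraically independent if `u` is.
-/

set_option autoImplicit false

open Polynomial Filter Topology

namespace Pool.Agent.TWMF

open Pool.Agent.H15JM (RVal)
open Pool.Agent.LU1 (VPos adj)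
open Pool.Agent.LUC (Cl clF)
open Pool.Agent.D2 (Ctx0)
open Pool.Agent.D2P (hen hen_hen le_hen hen_mono hen_le mem_hen mem_adj_self adj_le mem_clI
  mem_adj_iff)
open Pool.Agent.TWM (Gt PI TL algc le_algc cadj)
open Pool.Agent.TW WM13

universe u

variable {k Ω : Type u} [Field k] [Field Ω] [Algebra k Ω] {v : RVal Ω}

/-- **Separability.** -/
theorem sep_of_pow (p : ℕ) [hp : Fact p.Prime] [CharP Ω p] {M : IntermediateField k Ω} {m : ℕ}
    {u : Fin m → Ω} (h : ∀ j, u j ∈ nadj M fun i => u i ^ p) :
    ∀ x ∈ nadj M u, IsSeparable M x := by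
  set L : IntermediateField M Ω := IntermediateField.adjoin M (Set.range u) with hL
  have hfin : Algebra.EssFiniteType M L :=
    IntermediateField.essFiniteType_iff.2
      (IntermediateField.fg_adjoin_of_finite (Set.finite_range u))
  have huL : ∀ j, u j ∈ L := fun j => IntermediateField.subset_adjoin M _ ⟨j, rfl⟩
  have hchar : CharP L p := (algebraMap L Ω).charP (algebraMap L Ω).injective p
  -- the kernel of the universal derivation
  let D := KaehlerDifferential.D M L
  let Ker : IntermediateField M L :=
    { carrier := {x | D x = 0}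
      mul_mem' := by
        intro a b ha hb
        have ha' : D a = 0 := ha
        have hb' : D b = 0 := hb
        show D (a * b) = 0
        rw [Derivation.leibniz, ha', hb', smul_zero, smul_zero, add_zero]
      add_mem' := by
        intro a b ha hb
        have ha' : D a = 0 := ha
        have hb' : D b = 0 := hb
        show D (a + b) = 0
        rw [map_add, ha', hb', add_zero]
      algebraMap_mem' := by
        intro c
        show D (algebraMap M L c) = 0
        exact Derivation.map_algebraMap D c
      inv_mem' := by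
        intro a ha
        have ha' : D a = 0 := ha
        show D a⁻¹ = 0
        rw [Derivation.leibniz_inv, ha', smul_zero] }
  have hKerM : nadj M (fun i => u i ^ p) ≤ (Ker.map L.val).restrictScalars k := by
    refine nadj_le (fun x hx => ?_) fun j => ?_
    · show x ∈ Ker.map L.val
      exact ⟨algebraMap M L ⟨x, hx⟩, Ker.algebraMap_mem _, rfl⟩
    · show u j ^ p ∈ Ker.map L.val
      refine ⟨⟨u j, huL j⟩ ^ p, ?_, rfl⟩
      show D (⟨u j, huL j⟩ ^ p) = 0
      rw [Derivation.leibniz_pow]
      have h1 : (p : L) = 0 := CharP.cast_eq_zero L p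
      rw [← Nat.cast_smul_eq_nsmul L, h1, zero_smul]
  have hKeru : ∀ j, (⟨u j, huL j⟩ : L) ∈ Ker := by
    intro j
    obtain ⟨y, hy, h1⟩ := hKerM (h j)
    have h2 : y = ⟨u j, huL j⟩ := Subtype.ext h1
    rw [← h2]
    exact hy
  have htop : L ≤ Ker.map L.val := by
    refine IntermediateField.adjoin_le_iff.2 ?_
    rintro _ ⟨j, rfl⟩
    exact ⟨⟨u j, huL j⟩, hKeru j, rfl⟩
  have hD : ∀ x : L, D x = 0 := by
    intro x
    obtain ⟨y, hy, h1⟩ := htop x.2
    have h2 : y = x := Subtype.ext h1
    rw [← h2]
    exact hy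
  have hsub : Subsingleton (Ω[L⁄M]) := by
    have h1 : (⊤ : Submodule L (Ω[L⁄M])) = ⊥ := by
      rw [← KaehlerDifferential.span_range_derivation, Submodule.span_eq_bot]
      rintro _ ⟨x, rfl⟩
      exact hD x
    exact (Submodule.subsingleton_iff L).1 (subsingleton_of_bot_eq_top h1.symm)
  have hunr : Algebra.FormallyUnramified M L := ⟨hsub⟩
  have hs := Algebra.FormallyUnramified.isSeparable M L
  intro x hx
  have h1 : IsSeparable M (⟨x, hx⟩ : L) := Algebra.IsSeparable.isSeparable M _
  have h2 : minpoly M x = minpoly M (⟨x, hx⟩ : L) :=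
    minpoly.algebraMap_eq (algebraMap L Ω).injective (⟨x, hx⟩ : L)
  show (minpoly M x).Separable
  rw [h2]
  exact h1

/-- Algebraic over the polynomials. -/
theorem isAlgebraic_adjoin_iff {N : IntermediateField k Ω} {m : ℕ} {u : Fin m → Ω} {x : Ω} :
    IsAlgebraic (Algebra.adjoin N (Set.range u)) x ↔ IsAlgebraic (nadj N u) x := by
  have h1 : IsAlgebraic (nadj N u) x ↔ IsAlgebraic (IntermediateField.adjoin N (Set.range u)) x :=
    Iff.rfl
  rw [h1]
  open scoped IntermediateField.algebraAdjoinAdjoin in
  exact IsFractionRing.isAlgebraic_iff (Algebra.adjoin N (Set.range u))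
    (IntermediateField.adjoin N (Set.range u)) Ω

/-- **Independence.** -/
theorem algInd_of_alg {N : IntermediateField k Ω} {m : ℕ} {u u' : Fin m → Ω}
    (hu : AlgebraicIndependent N u) (hΩ : ∀ g : Ω, IsAlgebraic (nadj N u) g)
    (hΩ' : ∀ g : Ω, IsAlgebraic (nadj N u') g) : AlgebraicIndependent N u' := by
  have h1 : Algebra.IsAlgebraic (Algebra.adjoin N (Set.range u)) Ω :=
    ⟨fun g => isAlgebraic_adjoin_iff.2 (hΩ g)⟩
  have h2 : Algebra.IsAlgebraic (Algebra.adjoin N (Set.range u')) Ω :=
    ⟨fun g => isAlgebraic_adjoin_iff.2 (hΩ' g)⟩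
  have h3 : IsTranscendenceBasis N u :=
    (isTranscendenceBasis_iff_algebraicIndependent_isAlgebraic (R := N)).2 ⟨hu, h1⟩
  have h4 := h3.lift_cardinalMk_eq_trdeg
  exact (Algebra.IsAlgebraic.isTranscendenceBasis_of_lift_le_trdeg_of_finite N u' h4.le).1

end Pool.Agent.TWMF
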