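import Pool.Agent.Lib.TWMF.F1
import Pool.Agent.Lib.TWM.Roots

/-!
# TANK W: motions at field level, 2: controlled automorphisms

`Rc v ε φ f`: `v (φ f - f) ≥ v f + ε`.
* `exists_rt`: finitely many elements of value `≥ 0` of the henselization of `E` are quotients
  `P(θ)/Q(θ)`, `θ` a simple root;
* `Rt.exists_ext`: an automorphism which controls the minimal polynomial of `θ` can be changed outside
  `E` so that it controls `θ`;
* `exists_ctl`: for every finite `S` in the henselization of `E` there is a finite subset `A` of `E`: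
  an automorphism which controls `A` can be changed outside of `E` so that it controls `S`.
* `exists_ret`: for every finite `S` in the henselization of `E` there is a finite subset `A` of the
  henselization: if `φ` controls `A` then `φ(S)` is in the henselization of `φ(E)`.
-/

set_option autoImplicit false

open Polynomial Filter Topology

namespace Pool.Agent.TWMF

open Pool.Agent.H15JM (RVal)
open Pool.Agent.LU1 (VPos adj)
open Pool.Agent.D2 (Ctx0)
open Pool.Agent.D2P (hen hen_hen le_hen hen_mono hen_le mem_hen mem_adj_self adj_le)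
open Pool.Agent.TWM (Gt)
open Pool.Agent.TW

universe u

variable {k Ω : Type u} [Field k] [Field Ω] [Algebra k Ω] {v : RVal Ω}

/-- `φ` moves `f` by at least `ε` more than its value. -/
def Rc (v : RVal Ω) (ε : ℝ) (φ : Ω → Ω) (f : Ω) : Prop := v.Ge (v f + ε) (φ f - f)

section

variable {ε : ℝ} {φ : Ω →+* Ω} {f g : Ω}

theorem Rc.mono {ε' : ℝ} (hf : Rc v ε φ f) (h : ε' ≤ ε) : Rc v ε' φ f :=
  RVal.Ge.mono (by linarith) hf

theorem Rc.val (hε : 0 < ε) (hf : Rc v ε φ f) (h0 : f ≠ 0) : φ f ≠ 0 ∧ v (φ f) = v f := by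
  have h1 : Gt v (v f) (f - φ f) := by
    have h2 := RVal.Ge.neg hf
    rw [neg_sub] at h2
    exact TWM.Gt.of_ge h2 (by linarith)
  exact TWM.Gt.val_eq h0 h1

theorem Rc.mul (hε : 0 < ε) (hf : Rc v ε φ f) (hg : Rc v ε φ g) : Rc v ε φ (f * g) := by
  by_cases h1 : f = 0
  · intro h2
    rw [h1, zero_mul, map_zero, sub_zero] at h2
    exact absurd rfl h2
  by_cases h2 : g = 0
  · intro h3
    rw [h2, mul_zero, map_zero, sub_zero] at h3
    exact absurd rfl h3
  have hfv := hf.val hε h1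
  have e : φ (f * g) - f * g = φ f * (φ g - g) + (φ f - f) * g := by
    rw [map_mul]
    ring
  unfold Rc
  rw [e, v.map_mul h1 h2]
  refine RVal.Ge.add ?_ ?_
  · have h3 : v.Ge (v f) (φ f) := fun _ => hfv.2.ge
    exact (h3.mul hg).mono (by linarith)
  · exact (RVal.Ge.mul hf (RVal.ge_self g)).mono (by linarith)

theorem Rc.inv (hε : 0 < ε) (hf : Rc v ε φ f) : Rc v ε φ f⁻¹ := by
  by_cases h1 : f = 0
  · intro h2
    rw [h1, inv_zero, map_zero, sub_zero] at h2
    exact absurd rfl h2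
  have hfv := hf.val hε h1
  have e : φ f⁻¹ - f⁻¹ = -(φ f - f) * (f⁻¹ * (φ f)⁻¹) := by
    have h2 := hfv.1
    rw [map_inv₀]
    field_simp
    ring
  unfold Rc
  rw [e, v.map_inv h1]
  have h3 : v.Ge (-v f + -v f) (f⁻¹ * (φ f)⁻¹) := fun _ => by
    rw [v.map_mul (inv_ne_zero h1) (inv_ne_zero hfv.1), v.map_inv h1, v.map_inv hfv.1, hfv.2]
  exact ((RVal.Ge.neg hf).mul h3).mono (by linarith)

theorem Rc.div (hε : 0 < ε) (hf : Rc v ε φ f) (hg : Rc v ε φ g) : Rc v ε φ (f / g) := by
  rw [div_eq_mul_inv]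
  exact hf.mul hε (hg.inv hε)

theorem Rc.one : Rc v ε φ 1 := by
  intro h1
  rw [map_one, sub_self] at h1
  exact absurd rfl h1

theorem Rc.of_fix (hf : φ f = f) : Rc v ε φ f := by
  intro h1
  rw [hf, sub_self] at h1
  exact absurd rfl h1

/-- The elements of value `≥ 0` moved by at least `ε`. -/
def cR (v : RVal Ω) (ε : ℝ) (hε : 0 ≤ ε) (φ : Ω →+* Ω) : Subring Ω where
  carrier := {x | v.Ge 0 x ∧ v.Ge ε (φ x - x)}
  mul_mem' := by
    rintro a b ⟨ha, ha'⟩ ⟨hb, hb'⟩
    refine ⟨by have := ha.mul hb; rwa [add_zero] at this, ?_⟩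
    have e : φ (a * b) - a * b = (φ a - a) * (φ b - b) + a * (φ b - b) + (φ a - a) * b := by
      rw [map_mul]
      ring
    rw [e]
    refine ((((ha'.mul hb').mono (by linarith)).add ?_)).add ?_
    · exact (ha.mul hb').mono (by linarith)
    · exact (ha'.mul hb).mono (by linarith)
  one_mem' := ⟨fun _ => by rw [v.map_one], by rw [map_one, sub_self]; exact RVal.Ge.zero⟩
  add_mem' := by
    rintro a b ⟨ha, ha'⟩ ⟨hb, hb'⟩
    refine ⟨ha.add hb, ?_⟩
    have e : φ (a + b) - (a + b) = (φ a - a) + (φ b - b) := by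
      rw [map_add]
      ring
    rw [e]
    exact ha'.add hb'
  zero_mem' := ⟨RVal.Ge.zero, by rw [map_zero, sub_self]; exact RVal.Ge.zero⟩
  neg_mem' := by
    rintro a ⟨ha, ha'⟩
    refine ⟨ha.neg, ?_⟩
    have e : φ (-a) - -a = -(φ a - a) := by
      rw [map_neg]
      ring
    rw [e]
    exact ha'.neg

theorem mem_cR {hε : 0 ≤ ε} {x : Ω} : x ∈ cR v ε hε φ ↔ v.Ge 0 x ∧ v.Ge ε (φ x - x) := Iff.rfl

theorem Rc.mem_cR (hε : 0 ≤ ε) (hf : Rc v ε φ f) (h0 : v.Ge 0 f) : f ∈ cR v ε hε φ := by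
  refine ⟨h0, ?_⟩
  by_cases h1 : f = 0
  · rw [h1, map_zero, sub_zero]
    exact RVal.Ge.zero
  · exact RVal.Ge.mono (by linarith [h0 h1]) hf

theorem rc_of_mem (hε : 0 ≤ ε) (hf : f ∈ cR v ε hε φ) (h1 : v f = 0) : Rc v ε φ f := by
  unfold Rc
  rw [h1, zero_add]
  exact hf.2

/-- Values of polynomials over `cR`. -/
theorem eval_mem_cR (hε : 0 ≤ ε) {P : Polynomial Ω} (hP : ∀ i, P.coeff i ∈ cR v ε hε φ) {x : Ω}
    (hx : x ∈ cR v ε hε φ) : P.eval x ∈ cR v ε hε φ := by
  rw [eval_eq_sum_range]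
  exact sum_mem fun i _ => mul_mem (hP i) (pow_mem hx i)

end

/-! ### Simple roots -/

/-- A root of a monic polynomial over the valuation ring. -/
theorem ge_of_root {G : Polynomial Ω} (hm : G.Monic) (hG : ∀ i, v.Ge 0 (G.coeff i)) {a : Ω}
    (ha : G.eval a = 0) : v.Ge 0 a := by
  intro h0
  by_contra hlt
  push Not at hlt
  rcases Nat.eq_zero_or_pos G.natDegree with hd | hd
  · rw [eq_one_of_monic_natDegree_zero hm hd, eval_one] at ha
    exact one_ne_zero ha
  have h1 : a ^ G.natDegree = -∑ i ∈ Finset.range G.natDegree, G.coeff i * a ^ i := by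
    rw [eval_eq_sum_range, Finset.sum_range_succ, hm.coeff_natDegree, one_mul] at ha
    linear_combination ha
  have h2 : v.Ge ((G.natDegree - 1 : ℝ) * v a) (a ^ G.natDegree) := by
    rw [h1]
    refine RVal.Ge.neg (RVal.Ge.sum _ _ fun i hi => ?_)
    rw [Finset.mem_range] at hi
    have h3 : v.Ge (i * v a) (a ^ i) := fun _ => by rw [v.map_pow h0]
    refine ((hG i).mul h3).mono ?_
    have h4 : (i : ℝ) ≤ G.natDegree - 1 := by
      have : (i : ℝ) + 1 ≤ G.natDegree := by exact_mod_cast hi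
      linarith
    nlinarith
  have h3 := h2 (pow_ne_zero _ h0)
  rw [v.map_pow h0] at h3
  linarith

/-- Monic divisors of monic polynomials over the valuation ring. -/
theorem coeff_of_dvd [IsAlgClosed Ω] {G q : Polynomial Ω} (hm : G.Monic)
    (hG : ∀ i, v.Ge 0 (G.coeff i)) (hq : q.Monic) (hd : q ∣ G) : ∀ i, v.Ge 0 (q.coeff i) := by
  have h1 : q = (q.roots.map fun a => X - C a).prod :=
    (IsAlgClosed.splits q).eq_prod_roots_of_monic hq
  have h2 : q ∈ PolyIn (OVt v) := by
    rw [h1]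
    refine multiset_prod_mem _ fun f hf => ?_
    obtain ⟨a, ha, rfl⟩ := Multiset.mem_map.1 hf
    have h3 : G.eval a = 0 := by
      obtain ⟨r, rfl⟩ := hd
      rw [eval_mul, (mem_roots'.1 ha).2, zero_mul]
    have h4 : v.Ge 0 a := ge_of_root hm hG h3
    rw [mem_PolyIn]
    intro i
    rw [coeff_sub, coeff_X, coeff_C]
    refine sub_mem ?_ ?_
    · split_ifs
      exacts [one_mem _, zero_mem _]
    · split_ifs
      exacts [h4, zero_mem _]
  exact mem_PolyIn.1 h2

/-- `θ` is a simple root of its minimal polynomial `g` over `E`, with coefficients of value `≥ 0`. -/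
structure Rt (v : RVal Ω) (E : IntermediateField k Ω) (θ : Ω) (g : Polynomial Ω) : Prop where
  monic : g.Monic
  mem : ∀ i, g.coeff i ∈ E
  nn : ∀ i, v.Ge 0 (g.coeff i)
  root : g.eval θ = 0
  ge : v.Ge 0 θ
  der : g.derivative.eval θ ≠ 0
  derv : v (g.derivative.eval θ) = 0
  min : g = (minpoly E θ).map (algebraMap E Ω)

theorem exists_rt [IsAlgClosed Ω] {E : IntermediateField k Ω} {g₀ : Polynomial (OV v E)} {θ : Ω}
    (hm : g₀.Monic) (h0 : aeval θ g₀ = 0) (h1 : aeval θ (derivative g₀) ≠ 0)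
    (h2 : v (aeval θ (derivative g₀)) = 0) :
    Rt v E θ ((minpoly E θ).map (algebraMap E Ω)) := by
  classical
  obtain ⟨G, hG⟩ : ∃ G : Polynomial Ω, G = g₀.map (algebraMap (OV v E) Ω) := ⟨_, rfl⟩
  have hGm : G.Monic := by rw [hG]; exact hm.map _
  have hGc : ∀ i, G.coeff i ∈ OV v E := fun i => by
    rw [hG, coeff_map]
    exact (g₀.coeff i).2
  have hG0 : G.eval θ = 0 := by rw [hG, eval_map_algebraMap]; exact h0
  have hG1 : G.derivative.eval θ = aeval θ (derivative g₀) := by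
    rw [hG, derivative_map, eval_map_algebraMap]
  have hlift : ∃ GE : Polynomial E, GE.map (algebraMap E Ω) = G := by
    have h3 : G ∈ Polynomial.lifts (algebraMap E Ω) := by
      rw [Polynomial.lifts_iff_coeff_lifts]
      intro i
      exact ⟨⟨_, (hGc i).1⟩, rfl⟩
    exact h3
  obtain ⟨GE, hGE⟩ := hlift
  have hGE0 : aeval θ GE = 0 := by
    rw [← eval_map_algebraMap, hGE]
    exact hG0
  have hGEne : GE ≠ 0 := by
    rintro rfl
    rw [Polynomial.map_zero] at hGE
    exact hGm.ne_zero hGE.symm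
  have halg : IsAlgebraic E θ := ⟨GE, hGEne, hGE0⟩
  have hint : IsIntegral E θ := halg.isIntegral
  obtain ⟨g, hg⟩ : ∃ g, g = (minpoly E θ).map (algebraMap E Ω) := ⟨_, rfl⟩
  have hgm : g.Monic := by rw [hg]; exact (minpoly.monic hint).map _
  have hgd : g ∣ G := by
    rw [hg, ← hGE]
    exact Polynomial.map_dvd _ (minpoly.dvd E θ hGE0)
  have hgr : g.eval θ = 0 := by rw [hg, eval_map_algebraMap]; exact minpoly.aeval E θ
  have hgc := coeff_of_dvd hGm (fun i => (hGc i).2) hgm hgd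
  obtain ⟨q, hq⟩ := hgd
  have hqm : q.Monic := by
    have h3 := hGm
    rw [hq] at h3
    exact hgm.of_mul_monic_left h3
  have hqc := coeff_of_dvd hGm (fun i => (hGc i).2) hqm ⟨g, by rw [hq, mul_comm]⟩
  have hθ : v.Ge 0 θ := ge_of_root hGm (fun i => (hGc i).2) hG0
  have hev : ∀ P : Polynomial Ω, (∀ i, v.Ge 0 (P.coeff i)) → v.Ge 0 (P.eval θ) := by
    intro P hP
    rw [eval_eq_sum_range]
    refine RVal.Ge.sum _ _ fun i _ => ?_
    have h4 : θ ^ i ∈ OVt v := pow_mem (show θ ∈ OVt v from hθ) i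
    have h3 := (hP i).mul h4
    rwa [add_zero] at h3
  have hder : G.derivative.eval θ = g.derivative.eval θ * q.eval θ := by
    rw [hq, derivative_mul, eval_add, eval_mul, eval_mul, hgr, zero_mul, add_zero]
  have hne : g.derivative.eval θ * q.eval θ ≠ 0 := by
    rw [← hder, hG1]
    exact h1
  have hg1 := left_ne_zero_of_mul hne
  have hq1 := right_ne_zero_of_mul hne
  have hgd' : v.Ge 0 (g.derivative.eval θ) := by
    refine hev _ fun i => ?_
    rw [coeff_derivative]
    have h3 : v.Ge 0 ((i : Ω) + 1) := by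
      have := WM13.ge_nat v (i + 1)
      push_cast at this
      exact this
    have h4 := (hgc (i + 1)).mul h3
    rwa [add_zero] at h4
  have hv : v (g.derivative.eval θ) + v (q.eval θ) = 0 := by
    rw [← v.map_mul hg1 hq1, ← hder, hG1, h2]
  rw [← hg]
  refine ⟨hgm, fun i => ?_, hgc, hgr, hθ, hg1, ?_, hg⟩
  · rw [hg, coeff_map]
    exact ((minpoly E θ).coeff i).2
  · have h3 := hgd' hg1
    have h4 := hev q hqc hq1
    linarith

/-- **Extension.** -/
theorem Rt.exists_ext [IsAlgClosed Ω] {E : IntermediateField k Ω} {θ : Ω} {g : Polynomial Ω}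
    (hR : Rt v E θ g) (hΩ : ∀ a : Ω, IsAlgebraic E a) (Φ : Ω ≃ₐ[k] Ω) {ε : ℝ} (hε : 0 < ε)
    (hc : ∀ i, v.Ge ε (Φ (g.coeff i) - g.coeff i)) :
    ∃ φ : Ω ≃ₐ[k] Ω, (∀ a ∈ E, φ a = Φ a) ∧ v.Ge ε (φ θ - θ) := by
  classical
  obtain ⟨g', hg'⟩ : ∃ g' : Polynomial Ω, g' = g.map (Φ : Ω →+* Ω) := ⟨_, rfl⟩
  have hgc' : ∀ i, g'.coeff i = Φ (g.coeff i) := fun i => by rw [hg', coeff_map]; rfl
  have hgm' : g'.Monic := by rw [hg']; exact hR.monic.map _
  have hgn' : ∀ i, v.Ge 0 (g'.coeff i) := fun i => by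
    rw [hgc']
    have h1 := ((hc i).mono hε.le).add (hR.nn i)
    rwa [sub_add_cancel] at h1
  have hd : g'.natDegree = g.natDegree := by
    rw [hg', natDegree_map_eq_of_injective (Φ : Ω →+* Ω).injective]
  have hpow : ∀ i : ℕ, v.Ge 0 (θ ^ i) := fun i => pow_mem (show θ ∈ OVt v from hR.ge) i
  have hsub : ∀ {P Q : Polynomial Ω}, P.natDegree = Q.natDegree →
      (∀ i, v.Ge ε (P.coeff i - Q.coeff i)) → v.Ge ε (P.eval θ - Q.eval θ) := by
    intro P Q hPQ h1
    rw [eval_eq_sum_range, eval_eq_sum_range, hPQ, ← Finset.sum_sub_distrib]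
    refine RVal.Ge.sum _ _ fun i _ => ?_
    rw [← sub_mul]
    have h2 := (h1 i).mul (hpow i)
    rwa [add_zero] at h2
  have hsmall : v.Ge ε (g'.eval θ) := by
    have h1 := hsub hd fun i => by rw [hgc']; exact hc i
    rwa [hR.root, sub_zero] at h1
  have hdeg : g.natDegree ≠ 0 := by
    intro h0
    have h1 := hR.root
    rw [eq_one_of_monic_natDegree_zero hR.monic h0, eval_one] at h1
    exact one_ne_zero h1
  have hdpos : (0 : ℝ) < g.natDegree := by exact_mod_cast Nat.pos_of_ne_zero hdeg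
  obtain ⟨θ', hθ', hnear⟩ := TWM.Roots.near_root (P := g') (z := θ) (c := ε / g.natDegree)
    (by rw [hd]; exact hdeg) (by
      rw [hgm'.leadingCoeff, v.map_one, zero_add, hd, mul_div_cancel₀ _ hdpos.ne']
      exact hsmall)
  have hεd : 0 < ε / g.natDegree := div_pos hε hdpos
  -- the distance
  have hderiv : v.Ge ε (g'.derivative.eval θ - g.derivative.eval θ) := by
    rw [hg', derivative_map]
    by_cases hd0 : (derivative g).natDegree = (derivative g).natDegree
    · refine hsub (natDegree_map_eq_of_injective (Φ : Ω →+* Ω).injective _) fun i => ?_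
      rw [coeff_map, coeff_derivative]
      have e : (Φ : Ω →+* Ω) (g.coeff (i + 1) * ((i : Ω) + 1)) - g.coeff (i + 1) * ((i : Ω) + 1) =
          (Φ (g.coeff (i + 1)) - g.coeff (i + 1)) * ((i : Ω) + 1) := by
        rw [map_mul, map_add, map_natCast, map_one]
        show Φ _ * _ - _ = _
        ring
      rw [e]
      have h3 : v.Ge 0 ((i : Ω) + 1) := by
        have := WM13.ge_nat v (i + 1)
        push_cast at this
        exact this
      have h4 := (hc (i + 1)).mul h3
      rwa [add_zero] at h4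
    · exact absurd rfl hd0
  have hder' : g'.derivative.eval θ ≠ 0 ∧ v (g'.derivative.eval θ) = 0 := by
    have h1 : Gt v (v (g.derivative.eval θ)) (g.derivative.eval θ - g'.derivative.eval θ) := by
      have h2 := hderiv.neg
      rw [neg_sub] at h2
      exact TWM.Gt.of_ge h2 (by rw [hR.derv]; exact hε)
    have h2 := TWM.Gt.val_eq hR.der h1
    exact ⟨h2.1, h2.2.trans hR.derv⟩
  have ht : v.Ge 0 (θ' - θ) := by
    have h1 := (hnear.mono hεd.le).neg
    rwa [neg_sub] at h1
  have htpos : v.Ge (ε / g.natDegree) (θ' - θ) := by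
    have h1 := hnear.neg
    rwa [neg_sub] at h1
  obtain ⟨c, hc0, hc1⟩ := WM13.taylor hgn' hR.ge ht
  rw [add_sub_cancel, show g'.eval θ' = 0 from hθ'] at hc1
  have hclose : v.Ge ε (θ' - θ) := by
    intro hne
    have h1 : (θ' - θ) * (g'.derivative.eval θ + c * (θ' - θ)) = -g'.eval θ := by
      linear_combination -hc1
    have h2 : Gt v (v (g'.derivative.eval θ))
        (g'.derivative.eval θ - (g'.derivative.eval θ + c * (θ' - θ))) := by
      have e : g'.derivative.eval θ - (g'.derivative.eval θ + c * (θ' - θ)) =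
          -(c * (θ' - θ)) := by ring
      rw [e, hder'.2]
      exact TWM.Gt.of_ge (hc0.mul htpos).neg (by linarith)
    have h3 := TWM.Gt.val_eq hder'.1 h2
    have h4 := hsmall.neg
    rw [← h1] at h4
    have h5 := h4 (mul_ne_zero hne h3.1)
    rw [v.map_mul hne h3.1, h3.2, hder'.2] at h5
    linarith
  -- the automorphism
  have hint : IsIntegral E θ := (hΩ θ).isIntegral
  have halg : Algebra.IsAlgebraic E Ω := ⟨hΩ⟩
  have hclo : IsAlgClosure E Ω := ⟨inferInstance, inferInstance⟩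
  have hnorm : Normal E Ω := IsAlgClosure.normal E Ω
  have hroot : aeval (Φ.symm θ') (minpoly E θ) = 0 := by
    have h1 : g.eval (Φ.symm θ') = 0 := by
      apply Φ.injective
      have h2 : g'.eval θ' = 0 := hθ'
      rw [hg', eval_map] at h2
      have h3 := Polynomial.hom_eval₂ g (RingHom.id Ω) (Φ : Ω →+* Ω) (Φ.symm θ')
      have h4 : (Φ : Ω →+* Ω) (Φ.symm θ') = θ' := Φ.apply_symm_apply θ'
      rw [eval₂_id, RingHom.comp_id, h4, h2] at h3
      rw [map_zero]
      exact h3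
    rw [hR.min, eval_map_algebraMap] at h1
    exact h1
  obtain ⟨τ, hτ⟩ := minpoly.exists_algEquiv_of_root' (K := E) (L := Ω) (x := Φ.symm θ') (y := θ)
    (hΩ θ) hroot
  refine ⟨(τ.restrictScalars k).trans Φ, fun a ha => ?_, ?_⟩
  · have h1 : τ a = a := τ.commutes (⟨a, ha⟩ : E)
    show Φ (τ a) = Φ a
    rw [h1]
  · show v.Ge ε (Φ (τ θ) - θ)
    rw [hτ, AlgEquiv.apply_symm_apply]
    exact hclose

end Pool.Agent.TWMF
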