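import Pool.Agent.Lib.TWMF.F2

/-!
# TANK W: motions at field level, 3: control of finite sets of the henselization
-/

set_option autoImplicit false

open Polynomial Filter Topology

namespace Pool.Agent.TWMF

open Pool.Agent.H15JM (RVal)
open Pool.Agent.LU1 (VPos adj)
open Pool.Agent.D2 (Ctx0)
open Pool.Agent.D2P (hen hen_hen le_hen hen_mono hen_le mem_hen mem_adj_self adj_le)
open Pool.Agent.TWM (Gt)
open Pool.Agent.TW

universe u

variable {k Ω : Type u} [Field k] [Field Ω] [Algebra k Ω] {v : RVal Ω}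

/-- Finitely many elements of the henselization are controlled by finitely many elements of the field
and one simple root. -/
theorem exists_ctl [IsAlgClosed Ω] (h : Ctx0 k v) {E : IntermediateField k Ω}
    (hpos : ∃ a ∈ E, a ≠ 0 ∧ 0 < v a) (S : Finset Ω) (hS : ∀ f ∈ S, f ∈ hen v E) :
    ∃ (A : Finset Ω) (θ : Ω) (g : Polynomial Ω), (∀ a ∈ A, a ∈ E) ∧ Rt v E θ g ∧
      θ ∈ hen v E ∧ (∀ i, g.coeff i ∈ A ∨ g.coeff i = 0) ∧ (∀ f ∈ S, f ∈ adj E θ) ∧
      ∀ (φ : Ω →+* Ω) (ε : ℝ), 0 < ε → (∀ a ∈ A, Rc v ε φ a) → v.Ge ε (φ θ - θ) →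
        ∀ f ∈ S, Rc v ε φ f := by
  classical
  -- the values
  have hex : ∀ f ∈ S, ∃ e ∈ E, e ≠ 0 ∧ (f ≠ 0 → v e = v f) := by
    intro f hf
    by_cases h0 : f = 0
    · exact ⟨1, one_mem _, one_ne_zero, fun h1 => absurd h0 h1⟩
    obtain ⟨e, he, h1⟩ := (mem_hen.1 (hS f hf)).1 (v f + 1)
    have h2 := TWM.Gt.val_eq h0 (TWM.Gt.of_ge h1 (by linarith) : Gt v (v f) (f - e))
    exact ⟨e, he, h2.1, fun _ => h2.2⟩
  choose! e heE he0 hev using hex
  have hR : ∀ a ∈ OV v E, v.Ge 0 a := fun a ha => ha.2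
  have hmem : ∀ f ∈ S.image (fun f => f / e f), f ∈ hensA v (OV v E) := by
    intro f hf
    obtain ⟨f₀, hf₀, rfl⟩ := Finset.mem_image.1 hf
    rw [hensA_OV h E hpos]
    refine ⟨div_mem (hS f₀ hf₀) (le_hen _ (heE f₀ hf₀)), fun h0 => ?_⟩
    have h1 : f₀ ≠ 0 := fun h2 => h0 (by rw [h2, zero_div])
    rw [v.map_div h1 (he0 f₀ hf₀), hev f₀ hf₀ h1, sub_self]
  obtain ⟨g₀, θ, hm, hθ, h0, h1, h2, Q, hQ0, hQv, hP⟩ := exists_common hR _ hmem
  have hP' : ∀ f ∈ S, ∃ P : Polynomial (OV v E), f / e f = aeval θ P / aeval θ Q := fun f hf =>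
    hP _ (Finset.mem_image_of_mem _ hf)
  choose! P hPf using hP'
  have hRt := exists_rt (v := v) (E := E) hm h0 h1 h2
  obtain ⟨g, hg⟩ : ∃ g, g = (minpoly E θ).map (algebraMap E Ω) := ⟨_, rfl⟩
  rw [← hg] at hRt
  have hθh : θ ∈ hen v E := by
    have h3 := root_mem_hensA hR hθ h0 h1 h2
    rw [hensA_OV h E hpos] at h3
    exact h3.1
  let cf : Polynomial (OV v E) → Finset Ω := fun P => P.support.image fun i => ((P.coeff i : OV v E) : Ω)
  have hcf : ∀ (P : Polynomial (OV v E)) (i : ℕ), ((P.coeff i : OV v E) : Ω) ∈ cf P ∨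
      ((P.coeff i : OV v E) : Ω) = 0 := by
    intro P i
    by_cases hi : i ∈ P.support
    · exact Or.inl (Finset.mem_image_of_mem _ hi)
    · right
      rw [notMem_support_iff.1 hi]
      rfl
  have hcfE : ∀ (P : Polynomial (OV v E)), ∀ a ∈ cf P, a ∈ E := by
    intro P a ha
    obtain ⟨i, -, rfl⟩ := Finset.mem_image.1 ha
    exact (P.coeff i).2.1
  refine ⟨(g.support.image fun i => g.coeff i) ∪ cf Q ∪ S.biUnion (fun f => cf (P f)) ∪ S.image e,
    θ, g, ?_, hRt, hθh, ?_, ?_, ?_⟩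
  · intro a ha
    simp only [Finset.mem_union, Finset.mem_biUnion] at ha
    rcases ha with ((ha | ha) | ⟨f, hf, ha⟩) | ha
    · obtain ⟨i, -, rfl⟩ := Finset.mem_image.1 ha
      exact hRt.mem i
    · exact hcfE Q a ha
    · exact hcfE _ a ha
    · obtain ⟨f, hf, rfl⟩ := Finset.mem_image.1 ha
      exact heE f hf
  · intro i
    by_cases hi : i ∈ g.support
    · left
      simp only [Finset.mem_union]
      exact Or.inl (Or.inl (Or.inl (Finset.mem_image_of_mem _ hi)))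
    · exact Or.inr (notMem_support_iff.1 hi)
  · intro f hf
    have hev' : ∀ R : Polynomial (OV v E), aeval θ R ∈ adj E θ := by
      intro R
      rw [aeval_eq_sum_range]
      refine sum_mem fun i _ => ?_
      rw [Algebra.smul_def]
      exact mul_mem ((mem_adj_self E θ).2 (R.coeff i).2.1) (pow_mem (mem_adj_self E θ).1 i)
    have h3 : f = e f * (aeval θ (P f) / aeval θ Q) := by
      rw [← hPf f hf, mul_div_cancel₀ _ (he0 f hf)]
    rw [h3]
    exact mul_mem ((mem_adj_self E θ).2 (heE f hf)) (div_mem (hev' _) (hev' _))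
  · intro φ ε hε hA hφθ f hf
    by_cases hf0 : f = 0
    · rw [hf0]
      exact Rc.of_fix (map_zero φ)
    have hAm : ∀ R : Polynomial (OV v E), (∀ a ∈ cf R, Rc v ε φ a) →
        aeval θ R ∈ cR v ε hε.le φ := by
      intro R hRA
      rw [aeval_eq_sum_range]
      refine sum_mem fun i _ => ?_
      rw [Algebra.smul_def]
      refine mul_mem ?_ (pow_mem (show θ ∈ cR v ε hε.le φ from ⟨hθ, hφθ⟩) i)
      rcases hcf R i with h3 | h3
      · exact (hRA _ h3).mem_cR hε.le (R.coeff i).2.2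
      · have h4 : algebraMap (OV v E) Ω (R.coeff i) = 0 := h3
        rw [h4]
        exact zero_mem _
    have hQ1 := hAm Q fun a ha => hA a (by
      simp only [Finset.mem_union]
      exact Or.inl (Or.inl (Or.inr ha)))
    have hP1 := hAm (P f) fun a ha => hA a (by
      simp only [Finset.mem_union, Finset.mem_biUnion]
      exact Or.inl (Or.inr ⟨f, hf, ha⟩))
    have hPQ := hPf f hf
    have hP0 : aeval θ (P f) ≠ 0 := by
      intro h3
      rw [h3, zero_div] at hPQ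
      exact div_ne_zero hf0 (he0 f hf) hPQ
    have hPv : v (aeval θ (P f)) = 0 := by
      have h3 : v (f / e f) = 0 := by
        rw [v.map_div hf0 (he0 f hf), hev f hf hf0, sub_self]
      rw [hPQ, v.map_div hP0 hQ0, hQv, sub_zero] at h3
      exact h3
    have h4 : Rc v ε φ (f / e f) := by
      rw [hPQ]
      exact (rc_of_mem hε.le hP1 hPv).div hε (rc_of_mem hε.le hQ1 hQv)
    have h5 : Rc v ε φ (e f) := hA _ (by
      simp only [Finset.mem_union]
      exact Or.inr (Finset.mem_image_of_mem _ hf))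
    have h6 := h5.mul hε h4
    rwa [mul_div_cancel₀ _ (he0 f hf)] at h6

/-- Control of the elements of the henselization. -/
theorem exists_ctl_ext [IsAlgClosed Ω] (h : Ctx0 k v) {E : IntermediateField k Ω}
    (hpos : ∃ a ∈ E, a ≠ 0 ∧ 0 < v a) (hΩ : ∀ a : Ω, IsAlgebraic E a) (S : Finset Ω)
    (hS : ∀ f ∈ S, f ∈ hen v E) :
    ∃ (A : Finset Ω) (θ : Ω) (g : Polynomial Ω), (∀ a ∈ A, a ∈ E) ∧ Rt v E θ g ∧
      θ ∈ hen v E ∧ (∀ i, g.coeff i ∈ A ∨ g.coeff i = 0) ∧ (∀ f ∈ S, f ∈ adj E θ) ∧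
      ∀ (Φ : Ω ≃ₐ[k] Ω) (ε : ℝ), 0 < ε → (∀ a ∈ A, Rc v ε Φ a) →
        ∃ φ : Ω ≃ₐ[k] Ω, (∀ a ∈ E, φ a = Φ a) ∧ v.Ge ε (φ θ - θ) ∧ ∀ f ∈ S, Rc v ε φ f := by
  obtain ⟨A, θ, g, hA, hRt, hθ, hg, hSθ, hc⟩ := exists_ctl h hpos S hS
  refine ⟨A, θ, g, hA, hRt, hθ, hg, hSθ, fun Φ ε hε hΦ => ?_⟩
  obtain ⟨φ, h1, h2⟩ := hRt.exists_ext hΩ Φ hε (fun i => by
    rcases hg i with h3 | h3
    · exact (Rc.mem_cR (φ := (Φ : Ω →+* Ω)) hε.le (hΦ _ h3) (hRt.nn i)).2
    · rw [h3, map_zero, sub_zero]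
      exact RVal.Ge.zero)
  refine ⟨φ, h1, h2, ?_⟩
  refine hc (φ : Ω →+* Ω) ε hε (fun a ha => ?_) h2
  have h3 := hΦ a ha
  unfold Rc at h3 ⊢
  rw [← h1 a (hA a ha)] at h3
  exact h3

/-- **Return.**  If `φ` controls finitely many elements of the henselization of `K₀`, then it maps the
given elements into the henselization of `φ(K₀)`. -/
theorem exists_ret [IsAlgClosed Ω] (h : Ctx0 k v) {K₀ : IntermediateField k Ω}
    (hpos : ∃ a ∈ K₀, a ≠ 0 ∧ 0 < v a) (S : Finset Ω) (hS : ∀ f ∈ S, f ∈ hen v K₀) :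
    ∃ A : Finset Ω, (∀ a ∈ A, a ∈ hen v K₀) ∧ ∀ (φ : Ω ≃ₐ[k] Ω) (ε : ℝ), 0 < ε →
      (∀ a ∈ A, Rc v ε φ a) → ∀ f ∈ S, φ f ∈ hen v (K₀.map (φ : Ω →ₐ[k] Ω)) := by
  classical
  obtain ⟨-, θ, g, -, hRt, hθ, -, hSθ, -⟩ := exists_ctl h hpos S hS
  have hgd : g.derivative.eval θ ∈ hen v K₀ := by
    rw [eval_eq_sum_range]
    refine sum_mem fun i _ => mul_mem ?_ (pow_mem hθ i)
    rw [coeff_derivative]
    exact mul_mem (le_hen _ (hRt.mem _)) (by
      have : ((i : Ω) + 1) = ((i + 1 : ℕ) : Ω) := by push_cast; rfl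
      rw [this]
      exact natCast_mem _ _)
  refine ⟨(g.support.image fun i => g.coeff i) ∪ {θ, g.derivative.eval θ}, ?_, ?_⟩
  · intro a ha
    simp only [Finset.mem_union, Finset.mem_insert, Finset.mem_singleton] at ha
    rcases ha with ha | rfl | rfl
    · obtain ⟨i, -, rfl⟩ := Finset.mem_image.1 ha
      exact le_hen _ (hRt.mem i)
    · exact hθ
    · exact hgd
  · intro φ ε hε hA f hf
    have hcoef : ∀ i, v.Ge 0 (φ (g.coeff i)) := by
      intro i
      by_cases hi : i ∈ g.support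
      · have h1 := (Rc.mem_cR (φ := (φ : Ω →+* Ω)) hε.le (hA (g.coeff i) (by
          simp only [Finset.mem_union]
          exact Or.inl (Finset.mem_image_of_mem _ hi))) (hRt.nn i))
        have h2 := (RVal.Ge.mono hε.le h1.2).add h1.1
        rwa [sub_add_cancel] at h2
      · rw [notMem_support_iff.1 hi, map_zero]
        exact RVal.Ge.zero
    have hθA : Rc v ε φ θ := hA θ (by simp)
    have hφθ : v.Ge 0 (φ θ) := by
      have h1 := Rc.mem_cR (φ := (φ : Ω →+* Ω)) hε.le hθA hRt.ge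
      have h2 := (RVal.Ge.mono hε.le h1.2).add h1.1
      rwa [sub_add_cancel] at h2
    have hd := Rc.val (φ := (φ : Ω →+* Ω)) hε (hA (g.derivative.eval θ) (by simp)) hRt.der
    have hev : ∀ P : Polynomial Ω, (P.map (φ : Ω →+* Ω)).eval (φ θ) = φ (P.eval θ) := by
      intro P
      have h3 := Polynomial.hom_eval₂ P (RingHom.id Ω) (φ : Ω →+* Ω) θ
      rw [eval₂_id, RingHom.comp_id] at h3
      rw [eval_map]
      exact h3.symm
    have hcl := H2aux.hclosed_OV_hen h (K₀.map (φ : Ω →ₐ[k] Ω))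
    have hθ' : φ θ ∈ OV v (hen v (K₀.map (φ : Ω →ₐ[k] Ω))) := by
      refine hcl.root (g.map (φ : Ω →+* Ω)) (φ θ) (fun i => ?_) hφθ ?_ ?_ ?_
      · rw [coeff_map]
        exact ⟨le_hen _ ⟨g.coeff i, hRt.mem i, rfl⟩, hcoef i⟩
      · rw [hev, hRt.root, map_zero]
      · rw [derivative_map, hev]
        exact hd.1
      · rw [derivative_map, hev]
        exact hd.2.trans hRt.derv
    -- the field
    have hle : adj K₀ θ ≤ (hen v (K₀.map (φ : Ω →ₐ[k] Ω))).comap (φ : Ω →ₐ[k] Ω) := by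
      refine adj_le (fun a ha => ?_) hθ'.1
      exact le_hen _ ⟨a, ha, rfl⟩
    exact hle (hSθ f hf)

/-! ### Henselian functions of `δ` -/

open WM13

/-- The elements with henselian images. -/
def fgsF {δ : ℕ → Ω} {ρ : ℝ} (hsq : Sq v δ ρ) (φ : ℕ → (Ω ≃ₐ[k] Ω)) :
    IntermediateField k Ω where
  carrier := {x | FGS hsq fun i => φ i x}
  mul_mem' := by
    intro a b ha hb
    have h1 := ha.mul hb
    have e : (fun i => φ i a * φ i b) = fun i => φ i (a * b) := by
      funext i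
      rw [map_mul]
    rw [e] at h1
    exact h1
  add_mem' := by
    intro a b ha hb
    have h1 := ha.add hb
    have e : (fun i => φ i a + φ i b) = fun i => φ i (a + b) := by
      funext i
      rw [map_add]
    rw [e] at h1
    exact h1
  algebraMap_mem' := by
    intro c
    have h1 := FGS.const hsq (algebraMap k Ω c)
    have e : (fun _ : ℕ => algebraMap k Ω c) = fun i => φ i (algebraMap k Ω c) := by
      funext i
      rw [AlgEquiv.commutes]
    rw [e] at h1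
    exact h1
  inv_mem' := by
    intro a ha
    by_cases h0 : a = 0
    · have h1 := FGS.const hsq (0 : Ω)
      have e : (fun _ : ℕ => (0 : Ω)) = fun i => φ i a⁻¹ := by
        funext i
        rw [h0, inv_zero, map_zero]
      rw [e] at h1
      exact h1
    · have h1 : FGS hsq fun i => (φ i a)⁻¹ := FGS.inv ha fun i h2 => h0 (by
        rwa [map_eq_zero_iff _ (φ i).injective] at h2)
      have e : (fun i => (φ i a)⁻¹) = fun i => φ i a⁻¹ := by
        funext i
        rw [map_inv₀]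
      rw [e] at h1
      exact h1

theorem mem_fgsF {δ : ℕ → Ω} {ρ : ℝ} {hsq : Sq v δ ρ} {φ : ℕ → (Ω ≃ₐ[k] Ω)} {x : Ω} :
    x ∈ fgsF hsq φ ↔ FGS hsq fun i => φ i x := Iff.rfl

/-- Simple roots. -/
theorem Rt.mem_fgsF {δ : ℕ → Ω} {ρ : ℝ} {hsq : Sq v δ ρ} {φ : ℕ → (Ω ≃ₐ[k] Ω)}
    {E : IntermediateField k Ω} {θ : Ω} {g : Polynomial Ω} (hRt : Rt v E θ g)
    (hE : E ≤ fgsF hsq φ) {ε : ℝ} (hε : 0 < ε)
    (hc : ∀ i j, v.Ge ε (φ i (g.coeff j) - g.coeff j))
    (hθ : ∀ i, v.Ge ε (φ i θ - θ)) : θ ∈ fgsF hsq φ := by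
  rw [Pool.Agent.TWMF.mem_fgsF]
  refine GS.fgs ?_
  have hdeg : g.natDegree ≠ 0 := by
    intro h0
    have h1 := hRt.root
    rw [eq_one_of_monic_natDegree_zero hRt.monic h0, eval_one] at h1
    exact one_ne_zero h1
  have hge : ∀ i, v.Ge 0 (φ i θ) := by
    intro i
    have h2 := ((hθ i).mono hε.le).add hRt.ge
    rwa [sub_add_cancel] at h2
  have hcge : ∀ i j, v.Ge 0 (φ i (g.coeff j)) := by
    intro i j
    have h2 := ((hc i j).mono hε.le).add (hRt.nn j)
    rwa [sub_add_cancel] at h2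
  have hev : ∀ (i : ℕ) (P : Polynomial Ω),
      (P.map (φ i : Ω →+* Ω)).eval (φ i θ) = φ i (P.eval θ) := by
    intro i P
    have h3 := Polynomial.hom_eval₂ P (RingHom.id Ω) (φ i : Ω →+* Ω) θ
    rw [eval₂_id, RingHom.comp_id] at h3
    rw [eval_map]
    exact h3.symm
  refine GS.root (q := fun i => g.map (φ i : Ω →+* Ω)) (d := g.natDegree) (y := fun _ => θ)
    hdeg (fun i => hRt.monic.map _)
    (fun i => natDegree_map_eq_of_injective (φ i : Ω →+* Ω).injective _) (fun l => ?_)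
    (Eventually.of_forall hge) (Eventually.of_forall fun i => ?_) (Eventually.of_forall fun i => ?_)
    (App.const hsq hRt.ge) hε (Eventually.of_forall hθ)
  · have h1 : FGS hsq fun i => φ i (g.coeff l) := hE (hRt.mem l)
    have h2 := h1.gs (Eventually.of_forall fun i => hcge i l)
    have e : (fun i => (g.map (φ i : Ω →+* Ω)).coeff l) = fun i => φ i (g.coeff l) := by
      funext i
      rw [coeff_map]
      rfl
    rw [e]
    exact h2
  · rw [hev, hRt.root, map_zero]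
  · rw [derivative_map, hev]
    -- the derivative
    have hm : ∀ j, g.coeff j ∈ cR v ε hε.le (φ i : Ω →+* Ω) := fun j => ⟨hRt.nn j, hc i j⟩
    have hd : g.derivative.eval θ ∈ cR v ε hε.le (φ i : Ω →+* Ω) := by
      refine eval_mem_cR hε.le (fun j => ?_) ⟨hRt.ge, hθ i⟩
      rw [coeff_derivative]
      refine mul_mem (hm _) ?_
      have : ((j : Ω) + 1) = ((j + 1 : ℕ) : Ω) := by push_cast; rfl
      rw [this]
      exact natCast_mem _ _
    have h2 := Rc.val (φ := (φ i : Ω →+* Ω)) hε (rc_of_mem hε.le hd hRt.derv) hRt.der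
    exact ⟨h2.1, h2.2.trans hRt.derv⟩

end Pool.Agent.TWMF
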