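import Pool.Agent.Lib.TWMF.F3
import Pool.Agent.Lib.TWN.Fin2a

/-!
# TANK W: motions at field level, 4: the family of motions

`exists_mot`: `K₀` and `E` have the same henselization.  Automorphisms `Φ_i` of `Ω` which control a
finite subset `A` of `E` (which depends only on `K₀`, `E` and on the given finite sets), with images
of `E` which are henselian functions of `δ i` in the henselization of `K₀`, and such that the
henselization of `k(Φ_i(S₀))` contains `K₀`, give a family of motions `Mot v K₀ φ δ ρ`, `φ_i = Φ_i` on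
`E`.
-/

set_option autoImplicit false

open Polynomial Filter Topology

namespace Pool.Agent.TWMF

open Pool.Agent.H15JM (RVal)
open Pool.Agent.LU1 (VPos adj)
open Pool.Agent.D2 (Ctx0)
open Pool.Agent.D2P (hen hen_hen le_hen hen_mono hen_le mem_hen mem_adj_self adj_le)
open Pool.Agent.TWM (Gt)
open Pool.Agent.TW WM13

universe u

variable {k Ω : Type u} [Field k] [Field Ω] [Algebra k Ω] {v : RVal Ω}

/-- If an element algebraic over `K₀` is moved, then an element of `K₀` is moved. -/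
theorem exists_moved {K₀ : IntermediateField k Ω} {δ : ℕ → Ω} {ρ : ℝ} (hsq : Sq v δ ρ)
    {φ : ℕ → (Ω ≃ₐ[k] Ω)} (hLT : ∀ e ∈ K₀, e ≠ 0 → ∃ a m, LT v δ φ e a m) {e' : Ω}
    (he' : IsAlgebraic K₀ e') {a' : Ω} {m' : ℤ} (hm' : m' ≠ 0)
    (h' : LTs v δ (fun i => φ i e') a' m') :
    ∃ e ∈ K₀, e ≠ 0 ∧ ∃ a m, m ≠ 0 ∧ LT v δ φ e a m := by
  classical
  by_contra hcon
  push Not at hcon
  obtain ⟨P, hP0, hP⟩ := he'
  have hcoef : ∀ l ∈ P.support, ∃ a, LT v δ φ (P.coeff l : Ω) a 0 := by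
    intro l hl
    have h0 : ((P.coeff l : K₀) : Ω) ≠ 0 := by
      intro h1
      exact (mem_support_iff.1 hl) (Subtype.ext h1)
    obtain ⟨a, m, h1⟩ := hLT _ (P.coeff l).2 h0
    by_cases hm : m = 0
    · exact ⟨a, hm ▸ h1⟩
    · exact absurd h1 (hcon _ (P.coeff l).2 h0 a m hm)
  choose! a ha using hcoef
  -- the limits of the values
  let w : ℕ → ℝ := fun l => v (a l) + l * (v a' + m' * ρ)
  have hterm : ∀ l ∈ P.support, Tendsto
      (fun i => v (φ i (P.coeff l : Ω) * φ i e' ^ l)) atTop (𝓝 (w l)) := by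
    intro l hl
    have h1 := LTs.val hsq.ne (show LTs v δ (fun i => φ i (P.coeff l : Ω)) (a l) 0 from ha l hl)
    have h2 := h'.val hsq.ne
    have h3 : Tendsto (fun i => v (a l) + l * (v a' + m' * v (δ i))) atTop (𝓝 (w l)) :=
      tendsto_const_nhds.add (tendsto_const_nhds.mul (tendsto_const_nhds.add
        (tendsto_const_nhds.mul hsq.lim)))
    refine h3.congr' ?_
    filter_upwards [h1, h2] with i h4 h5
    rw [v.map_mul h4.1 (pow_ne_zero _ h5.1), v.map_pow h5.1, h4.2, h5.2]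
    push_cast
    ring
  have hinj : ∀ l ∈ P.support, ∀ l' ∈ P.support, w l = w l' → l = l' := by
    intro l hl l' hl' h1
    by_contra hne
    have ha0 := (ha l hl).1
    have ha0' := (ha l' hl').1
    have hx : a l' * a' ^ l' / (a l * a' ^ l) ≠ 0 :=
      div_ne_zero (mul_ne_zero ha0' (pow_ne_zero _ h'.1)) (mul_ne_zero ha0 (pow_ne_zero _ h'.1))
    refine hsq.irr (((l : ℤ) - l') * m') _ (mul_ne_zero ?_ hm') hx ?_
    · intro h2
      exact hne (by omega)
    · rw [v.map_div (mul_ne_zero ha0' (pow_ne_zero _ h'.1)) (mul_ne_zero ha0 (pow_ne_zero _ h'.1)),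
        v.map_mul ha0' (pow_ne_zero _ h'.1), v.map_mul ha0 (pow_ne_zero _ h'.1), v.map_pow h'.1,
        v.map_pow h'.1]
      have h2 : v (a l) + l * (v a' + m' * ρ) = v (a l') + l' * (v a' + m' * ρ) := h1
      push_cast
      linear_combination -h2
  obtain ⟨l₀, hl₀, hmin⟩ := P.support.exists_min_image w (by
    rw [Finset.nonempty_iff_ne_empty, Ne, support_eq_empty]
    exact hP0)
  have hlt : ∀ᶠ i in atTop, ∀ l ∈ P.support, l ≠ l₀ →
      v (φ i (P.coeff l₀ : Ω) * φ i e' ^ l₀) < v (φ i (P.coeff l : Ω) * φ i e' ^ l) := by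
    rw [Filter.eventually_all_finset]
    intro l hl
    by_cases h1 : l = l₀
    · exact Eventually.of_forall fun i h2 => absurd h1 h2
    · have h2 : w l₀ < w l := lt_of_le_of_ne (hmin l hl) fun h3 => h1 (hinj l₀ hl₀ l hl h3).symm
      exact ((hterm l₀ hl₀).eventually_lt (hterm l hl) h2).mono fun i hi _ => hi
  have hne : ∀ᶠ i in atTop, φ i (P.coeff l₀ : Ω) * φ i e' ^ l₀ ≠ 0 := by
    have h1 := LTs.val hsq.ne (show LTs v δ (fun i => φ i (P.coeff l₀ : Ω)) (a l₀) 0 from ha l₀ hl₀)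
    filter_upwards [h1, h'.val hsq.ne] with i h2 h3
    exact mul_ne_zero h2.1 (pow_ne_zero _ h3.1)
  obtain ⟨i, hi, hi'⟩ := (hlt.and hne).exists
  have hsum : ∑ l ∈ P.support, φ i (P.coeff l : Ω) * φ i e' ^ l = 0 := by
    have h1 := congrArg (φ i) hP
    rw [aeval_eq_sum_range, map_zero, map_sum] at h1
    have h2 : ∀ l ∈ Finset.range (P.natDegree + 1), φ i (P.coeff l • e' ^ l) =
        φ i (P.coeff l : Ω) * φ i e' ^ l := by
      intro l _
      rw [Algebra.smul_def, map_mul, map_pow]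
      rfl
    rw [Finset.sum_congr rfl h2] at h1
    rw [← h1]
    refine Finset.sum_subset (fun l hl => ?_) fun l _ hl => ?_
    · rw [Finset.mem_range]
      exact Nat.lt_succ_of_le (le_natDegree_of_mem_supp l hl)
    · rw [notMem_support_iff.1 hl]
      rw [ZeroMemClass.coe_zero, map_zero, zero_mul]
  rw [← Finset.add_sum_erase _ _ hl₀] at hsum
  have h3 : Gt v (v (φ i (P.coeff l₀ : Ω) * φ i e' ^ l₀))
      (∑ l ∈ P.support.erase l₀, φ i (P.coeff l : Ω) * φ i e' ^ l) := by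
    refine TWM.Gt.sum _ _ fun l hl _ => ?_
    rw [Finset.mem_erase] at hl
    exact hi l hl.2 hl.1
  have h4 : φ i (P.coeff l₀ : Ω) * φ i e' ^ l₀ =
      -∑ l ∈ P.support.erase l₀, φ i (P.coeff l : Ω) * φ i e' ^ l := by
    linear_combination hsum
  have h5 := h3.neg
  rw [← h4] at h5
  exact TWM.not_gt_self hi' h5

/-- **Motions at field level.** -/
theorem exists_mot [IsAlgClosed Ω] {r : ℕ} (h : Ctx k v r) {K₀ E : IntermediateField k Ω}
    (hK : K₀.FG) (hΩ : ∀ g : Ω, IsAlgebraic K₀ g) (hΩE : ∀ g : Ω, IsAlgebraic E g)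
    (hKE : hen v K₀ = hen v E) (S₀ S : Finset Ω) (hS₀ : ∀ f ∈ S₀, f ∈ E)
    (hS : ∀ f ∈ S, f ∈ hen v E) :
    ∃ (A : Finset Ω) (L : IntermediateField k Ω), (∀ a ∈ A, a ∈ E) ∧ (∀ f ∈ S, f ∈ L) ∧ K₀ ≤ L ∧
      E ≤ L ∧ L ≤ hen v E ∧ ∀ {δ : ℕ → Ω} {ρ : ℝ} (hsq : Sq v δ ρ) (Φ : ℕ → (Ω ≃ₐ[k] Ω)) {ε : ℝ},
        0 < ε → (∀ i, ∀ a ∈ A, Rc v ε (Φ i) a) → E ≤ fgsF hsq Φ →
        (∀ i, ∀ a ∈ E, Φ i a ∈ hen v K₀) →
        (∀ i, K₀ ≤ hen v (IntermediateField.adjoin k ((Φ i) '' (S₀ : Set Ω)))) →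
        (∃ e ∈ E, ∃ a m, m ≠ 0 ∧ LTs v δ (fun i => Φ i e) a m) →
        ∃ φ : ℕ → (Ω ≃ₐ[k] Ω), (∀ i, ∀ a ∈ E, φ i a = Φ i a) ∧ (∀ i, ∀ f ∈ S, Rc v ε (φ i) f) ∧
          L ≤ fgsF hsq φ ∧ (∀ i, ∀ f ∈ L, φ i f ∈ hen v K₀) ∧ Mot v K₀ φ δ ρ := by
  classical
  have hctx : Ctx0 k v := h.toCtx0
  -- positive values
  obtain ⟨X, hX0, hXi, hXs⟩ := h.rank
  have hfull : Full v K₀ := full_of_alg hΩ
  have hposΩ : ∃ g : Ω, g ≠ 0 ∧ 0 < v g := by
    have h1 : v (X ⟨0, h.rpos⟩) ≠ 0 := hXi.ne_zero _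
    rcases lt_or_gt_of_ne h1 with h2 | h2
    · exact ⟨(X ⟨0, h.rpos⟩)⁻¹, inv_ne_zero (hX0 _), by rw [v.map_inv (hX0 _)]; linarith⟩
    · exact ⟨_, hX0 _, h2⟩
  have hposF : ∀ F : IntermediateField k Ω, Full v F → ∃ a ∈ F, a ≠ 0 ∧ 0 < v a := by
    intro F hF
    obtain ⟨g, hg, hgv⟩ := hposΩ
    obtain ⟨m, hm, c, hc, hc0, hcv⟩ := hF g hg
    refine ⟨c, hc, hc0, ?_⟩
    rw [hcv]
    have : (0 : ℝ) < m := by exact_mod_cast hm
    positivity
  have hposK := hposF K₀ hfull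
  have hposE := hposF E (full_of_alg hΩE)
  choose mX hmX x hxK hx0 hxv using fun l => hfull (X l) (hX0 l)
  obtain ⟨G, hG⟩ := hK
  obtain ⟨A₁, hA₁, hret⟩ := exists_ret hctx hposK S₀ (fun f hf => by
    rw [hKE]
    exact le_hen _ (hS₀ f hf))
  obtain ⟨A, θ, g, hA, hRt, hθ, hg, hSθ, hext⟩ := exists_ctl_ext hctx hposE hΩE
    (S ∪ G ∪ Finset.univ.image x ∪ A₁) (by
      intro f hf
      simp only [Finset.mem_union] at hf
      rcases hf with ((hf | hf) | hf) | hf
      · exact hS f hf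
      · rw [← hKE]
        refine le_hen _ ?_
        rw [← hG]
        exact IntermediateField.subset_adjoin k _ hf
      · obtain ⟨l, -, rfl⟩ := Finset.mem_image.1 hf
        rw [← hKE]
        exact le_hen _ (hxK l)
      · rw [← hKE]
        exact hA₁ f hf)
  have hKL : K₀ ≤ adj E θ := by
    rw [← hG, IntermediateField.adjoin_le_iff]
    intro f hf
    exact hSθ f (by
      simp only [Finset.mem_union]
      exact Or.inl (Or.inl (Or.inr hf)))
  have hLE : adj E θ ≤ hen v E := adj_le (le_hen E) hθ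
  refine ⟨A, adj E θ, hA, fun f hf => hSθ f (by
    simp only [Finset.mem_union]
    exact Or.inl (Or.inl (Or.inl hf))), hKL, (mem_adj_self E θ).2, hLE, ?_⟩
  intro δ ρ hsq Φ ε hε hΦA hΦE hΦK hΦr hmov
  choose φ hφE hφθ hφS using fun i => hext (Φ i) ε hε (hΦA i)
  have hEf : E ≤ fgsF hsq φ := by
    intro a ha
    rw [mem_fgsF]
    have h1 : FGS hsq fun i => Φ i a := hΦE ha
    exact h1.congr (Eventually.of_forall fun i => (hφE i a ha).symm)
  have hgc : ∀ i j, v.Ge ε (φ i (g.coeff j) - g.coeff j) := by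
    intro i j
    rcases hg j with h3 | h3
    · rw [hφE i _ (hA _ h3)]
      exact (Rc.mem_cR (φ := ((Φ i : Ω ≃ₐ[k] Ω) : Ω →+* Ω)) hε.le (hΦA i _ h3) (hRt.nn j)).2
    · rw [h3, map_zero, sub_zero]
      exact RVal.Ge.zero
  have hLf : adj E θ ≤ fgsF hsq φ := adj_le hEf (hRt.mem_fgsF hEf hε hgc hφθ)
  -- the images
  have hφL : ∀ i, ∀ f ∈ adj E θ, φ i f ∈ hen v K₀ := by
    intro i
    have hφθK : φ i θ ∈ hen v K₀ := by
      have hcl := H2aux.hclosed_OV_hen hctx K₀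
      have hev : ∀ P : Polynomial Ω,
          (P.map ((φ i : Ω ≃ₐ[k] Ω) : Ω →+* Ω)).eval (φ i θ) = φ i (P.eval θ) := by
        intro P
        have h3 := Polynomial.hom_eval₂ P (RingHom.id Ω) ((φ i : Ω ≃ₐ[k] Ω) : Ω →+* Ω) θ
        rw [eval₂_id, RingHom.comp_id] at h3
        rw [eval_map]
        exact h3.symm
      have hm : ∀ j, g.coeff j ∈ cR v ε hε.le ((φ i : Ω ≃ₐ[k] Ω) : Ω →+* Ω) := fun j =>
        ⟨hRt.nn j, hgc i j⟩
      have hd : g.derivative.eval θ ∈ cR v ε hε.le ((φ i : Ω ≃ₐ[k] Ω) : Ω →+* Ω) := by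
        refine eval_mem_cR hε.le (fun j => ?_) ⟨hRt.ge, hφθ i⟩
        rw [coeff_derivative]
        refine mul_mem (hm _) ?_
        have : ((j : Ω) + 1) = ((j + 1 : ℕ) : Ω) := by push_cast; rfl
        rw [this]
        exact natCast_mem _ _
      have h2 := Rc.val (φ := ((φ i : Ω ≃ₐ[k] Ω) : Ω →+* Ω)) hε (rc_of_mem hε.le hd hRt.derv)
        hRt.der
      have hθ' : φ i θ ∈ OV v (hen v K₀) := by
        refine hcl.root (g.map ((φ i : Ω ≃ₐ[k] Ω) : Ω →+* Ω)) (φ i θ) (fun j => ?_) ?_ ?_ ?_ ?_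
        · rw [coeff_map]
          refine ⟨?_, ?_⟩
          · show φ i (g.coeff j) ∈ hen v K₀
            rw [hφE i _ (hRt.mem j)]
            exact hΦK i _ (hRt.mem j)
          · have h4 := ((hgc i j).mono hε.le).add (hRt.nn j)
            rwa [sub_add_cancel] at h4
        · have h4 := ((hφθ i).mono hε.le).add hRt.ge
          rwa [sub_add_cancel] at h4
        · rw [hev, hRt.root, map_zero]
        · rw [derivative_map, hev]
          exact h2.1
        · rw [derivative_map, hev]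
          exact h2.2.trans hRt.derv
      exact hθ'.1
    have hle : adj E θ ≤ (hen v K₀).comap ((φ i : Ω ≃ₐ[k] Ω) : Ω →ₐ[k] Ω) := by
      refine adj_le (fun a ha => ?_) hφθK
      show φ i a ∈ hen v K₀
      rw [hφE i a ha]
      exact hΦK i a ha
    exact fun f hf => hle hf
  have hrc : ∀ i, ∀ f ∈ S ∪ G ∪ Finset.univ.image x ∪ A₁, Rc v ε (φ i) f := hφS
  have hlt : ∀ e ∈ K₀, e ≠ 0 → ∃ a m, LT v δ φ e a m := by
    intro e he he0
    have h1 : FGS hsq fun i => φ i e := hLf (hKL he)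
    exact h1.lts fun i h2 => he0 (by rwa [map_eq_zero_iff _ (φ i).injective] at h2)
  refine ⟨φ, hφE, fun i f hf => hrc i f (by
    simp only [Finset.mem_union]
    exact Or.inl (Or.inl (Or.inl hf))), hLf, hφL, ?_⟩
  refine ⟨hsq.ne, hsq.lim, hsq.irr, hlt, ?_, ?_, ?_⟩
  · obtain ⟨e, he, a, m, hm, h1⟩ := hmov
    refine exists_moved hsq hlt (hΩ e) hm (a' := a) (h1.congr ?_)
    exact Eventually.of_forall fun i => (hφE i e he).symm
  · intro g' hg'
    refine WM12.exists_full hsq.ne (x := x) hxK (fun l => ⟨hx0 l, Eventually.of_forall fun i => ?_⟩) ?_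
    · rw [zpow_zero, mul_one, Int.cast_zero, zero_mul, add_zero]
      have h1 := hrc i (x l) (by
        simp only [Finset.mem_union]
        exact Or.inl (Or.inr (Finset.mem_image_of_mem _ (Finset.mem_univ l))))
      exact TWM.Gt.of_ge h1 (by linarith)
    · have h1 : Submodule.span ℚ (Set.range fun i => v (X i)) ≤
          Submodule.span ℚ (Set.range fun l => v (x l)) := by
        rw [Submodule.span_le]
        rintro _ ⟨l, rfl⟩
        have h2 : v (X l) = ((mX l : ℚ))⁻¹ • v (x l) := by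
          rw [hxv, Rat.smul_def]
          push_cast
          have : ((mX l : ℕ) : ℝ) ≠ 0 := by exact_mod_cast (hmX l).ne'
          rw [inv_mul_cancel_left₀ this]
        simp only [SetLike.mem_coe]
        rw [h2]
        exact Submodule.smul_mem _ _ (Submodule.subset_span ⟨l, rfl⟩)
      exact h1 (hXs g' hg')
  · intro i
    apply le_antisymm
    · refine hen_le (hen_hen _) ?_
      rintro _ ⟨f, hf, rfl⟩
      exact hφL i f (hKL hf)
    · refine hen_le (hen_hen _) ((hΦr i).trans (hen_le (hen_hen _) ?_))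
      rw [IntermediateField.adjoin_le_iff]
      rintro _ ⟨f, hf, rfl⟩
      have h1 := hret (φ i) ε hε (fun a ha => hrc i a (by
        simp only [Finset.mem_union]
        exact Or.inr ha)) f hf
      rw [hφE i f (hS₀ f hf)] at h1
      exact h1

end Pool.Agent.TWMF
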