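import Pool.Agent.Lib.TWMF.F4
import Mathlib.RingTheory.AlgebraicIndependent.Adjoin

/-!
# TANK W: motions at field level, 5: motions from coordinates

`nadj N u = N(u)`.  `exists_mot_coord`: `N = hen v N₀`, `N₀` finitely generated, `u` coordinates of
`K₀` over `N` (`hen v K₀ = hen v N(u)`).  There is a finite set `T` of polynomials over `N`: every
family `u'_i` of coordinates of `K₀` (henselian functions of `δ i`), such that `P(u'_i) - P(u)` is
small for `P ∈ T`, comes from a family of motions over `N`.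
-/

set_option autoImplicit false

open Polynomial Filter Topology

namespace Pool.Agent.TWMF

open Pool.Agent.H15JM (RVal)
open Pool.Agent.LU1 (VPos adj)
open Pool.Agent.D2 (Ctx0)
open Pool.Agent.D2P (hen hen_hen le_hen hen_mono hen_le mem_hen mem_adj_self adj_le)
open Pool.Agent.TWM (Gt)
open Pool.Agent.TW WM13

universe u

variable {k Ω : Type u} [Field k] [Field Ω] [Algebra k Ω] {v : RVal Ω}

/-- `N(u)`. -/
noncomputable def nadj (N : IntermediateField k Ω) {m : ℕ} (u : Fin m → Ω) :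
    IntermediateField k Ω :=
  (IntermediateField.adjoin N (Set.range u)).restrictScalars k

theorem mem_nadj {N : IntermediateField k Ω} {m : ℕ} {u : Fin m → Ω} {x : Ω} :
    x ∈ nadj N u ↔ x ∈ IntermediateField.adjoin N (Set.range u) := Iff.rfl

theorem le_nadj (N : IntermediateField k Ω) {m : ℕ} (u : Fin m → Ω) : N ≤ nadj N u := fun x hx =>
  (IntermediateField.adjoin N (Set.range u)).algebraMap_mem ⟨x, hx⟩

theorem self_mem_nadj (N : IntermediateField k Ω) {m : ℕ} (u : Fin m → Ω) (j : Fin m) :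
    u j ∈ nadj N u := IntermediateField.subset_adjoin N _ ⟨j, rfl⟩

theorem nadj_le {N L : IntermediateField k Ω} {m : ℕ} {u : Fin m → Ω} (h1 : N ≤ L)
    (h2 : ∀ j, u j ∈ L) : nadj N u ≤ L := by
  let L' : IntermediateField N Ω := L.toSubfield.toIntermediateField fun x => h1 x.2
  have h3 : IntermediateField.adjoin N (Set.range u) ≤ L' := by
    rw [IntermediateField.adjoin_le_iff]
    rintro _ ⟨j, rfl⟩
    exact h2 j
  exact fun x hx => h3 hx

theorem aeval_mem_nadj {N : IntermediateField k Ω} {m : ℕ} {u : Fin m → Ω}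
    (P : MvPolynomial (Fin m) N) : MvPolynomial.aeval u P ∈ nadj N u := by
  induction P using MvPolynomial.induction_on with
  | C c =>
    rw [MvPolynomial.aeval_C]
    exact le_nadj N u c.2
  | add P Q hP hQ =>
    rw [map_add]
    exact add_mem hP hQ
  | mul_X P i hP =>
    rw [map_mul, MvPolynomial.aeval_X]
    exact mul_mem hP (self_mem_nadj N u i)

theorem mem_nadj_iff {N : IntermediateField k Ω} {m : ℕ} {u : Fin m → Ω} {x : Ω} :
    x ∈ nadj N u ↔ ∃ P Q : MvPolynomial (Fin m) N,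
      x = MvPolynomial.aeval u P / MvPolynomial.aeval u Q := by
  rw [mem_nadj, IntermediateField.mem_adjoin_range_iff]

/-- The automorphism over `N` given by coordinates. -/
theorem exists_aut_coord [IsAlgClosed Ω] {N : IntermediateField k Ω} {m : ℕ} {u u' : Fin m → Ω}
    (hu : AlgebraicIndependent N u) (hu' : AlgebraicIndependent N u')
    (hΩ : ∀ g : Ω, IsAlgebraic (nadj N u) g) (hΩ' : ∀ g : Ω, IsAlgebraic (nadj N u') g) :
    ∃ Φ : Ω ≃ₐ[k] Ω, (∀ n ∈ N, Φ n = n) ∧ ∀ j, Φ (u j) = u' j := by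
  let e : IntermediateField.adjoin N (Set.range u) ≃ₐ[N] IntermediateField.adjoin N (Set.range u') :=
    hu.aevalEquivField.symm.trans hu'.aevalEquivField
  have h1 : Algebra.IsAlgebraic (IntermediateField.adjoin N (Set.range u)) Ω := ⟨hΩ⟩
  have h2 : Algebra.IsAlgebraic (IntermediateField.adjoin N (Set.range u')) Ω := ⟨hΩ'⟩
  have hc1 : IsAlgClosure (IntermediateField.adjoin N (Set.range u)) Ω :=
    ⟨inferInstance, inferInstance⟩
  have hc2 : IsAlgClosure (IntermediateField.adjoin N (Set.range u')) Ω :=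
    ⟨inferInstance, inferInstance⟩
  let Φ : Ω ≃+* Ω := IsAlgClosure.equivOfEquiv Ω Ω e.toRingEquiv
  have hΦ : ∀ a : IntermediateField.adjoin N (Set.range u), Φ a = (e a : Ω) := fun a =>
    IsAlgClosure.equivOfEquiv_algebraMap Ω Ω e.toRingEquiv a
  have hN : ∀ n ∈ N, Φ n = n := by
    intro n hn
    have h3 := hΦ (algebraMap N _ ⟨n, hn⟩)
    rw [e.commutes] at h3
    exact h3
  let Φ' : Ω ≃ₐ[k] Ω := AlgEquiv.ofRingEquiv (f := Φ) fun c => hN _ (N.algebraMap_mem c)
  refine ⟨Φ', hN, fun j => ?_⟩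
  have h3 := hΦ ⟨u j, IntermediateField.subset_adjoin N _ ⟨j, rfl⟩⟩
  have h4 : hu.aevalEquivField (algebraMap (MvPolynomial (Fin m) N)
      (FractionRing (MvPolynomial (Fin m) N)) (MvPolynomial.X j)) =
      ⟨u j, IntermediateField.subset_adjoin N _ ⟨j, rfl⟩⟩ := by
    apply Subtype.ext
    rw [hu.aevalEquivField_algebraMap_apply_coe, MvPolynomial.aeval_X]
  have h5 : e ⟨u j, IntermediateField.subset_adjoin N _ ⟨j, rfl⟩⟩ =
      hu'.aevalEquivField (algebraMap (MvPolynomial (Fin m) N)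
        (FractionRing (MvPolynomial (Fin m) N)) (MvPolynomial.X j)) := by
    rw [← h4]
    show hu'.aevalEquivField (hu.aevalEquivField.symm (hu.aevalEquivField _)) = _
    rw [AlgEquiv.symm_apply_apply]
  rw [h5, hu'.aevalEquivField_algebraMap_apply_coe, MvPolynomial.aeval_X] at h3
  exact h3

theorem aeval_aut {N : IntermediateField k Ω} {m : ℕ} {u u' : Fin m → Ω} {Φ : Ω ≃ₐ[k] Ω}
    (hN : ∀ n ∈ N, Φ n = n) (hu : ∀ j, Φ (u j) = u' j) (P : MvPolynomial (Fin m) N) :
    Φ (MvPolynomial.aeval u P) = MvPolynomial.aeval u' P := by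
  induction P using MvPolynomial.induction_on with
  | C c =>
    rw [MvPolynomial.aeval_C, MvPolynomial.aeval_C]
    exact hN _ c.2
  | add P Q hP hQ => rw [map_add, map_add, map_add, hP, hQ]
  | mul_X P i hP =>
    rw [map_mul, map_mul, map_mul, MvPolynomial.aeval_X, MvPolynomial.aeval_X, hP, hu]

theorem isAlgebraic_of_hen {K E : IntermediateField k Ω} (hΩ : ∀ g : Ω, IsAlgebraic K g)
    (hKE : K ≤ hen v E) (g : Ω) : IsAlgebraic E g := by
  have h1 : K ≤ E8.algF E := fun a ha =>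
    E8.mem_algF.2 (mem_hen.1 (hKE ha)).2.isIntegral.isAlgebraic
  have h2 : IsAlgebraic (E8.algF E) g := by
    obtain ⟨P, hP0, hP⟩ := hΩ g
    refine ⟨P.map (IntermediateField.inclusion h1).toRingHom,
      (Polynomial.map_ne_zero_iff (IntermediateField.inclusion h1).toRingHom.injective).2 hP0, ?_⟩
    rw [aeval_def, eval₂_map]
    exact hP
  exact E8.mem_algF.1 (E8.algF_closed h2)

/-- **Motions from coordinates.** -/
theorem exists_mot_coord [IsAlgClosed Ω] {r : ℕ} (h : Ctx k v r) {K₀ N₀ : IntermediateField k Ω}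
    (hK : K₀.FG) (hΩ : ∀ g : Ω, IsAlgebraic K₀ g) (hN₀ : N₀.FG) {m : ℕ} {u : Fin m → Ω}
    (hu : AlgebraicIndependent (hen v N₀) u) (hKE : hen v K₀ = hen v (nadj (hen v N₀) u))
    (S : Finset Ω) (hS : ∀ f ∈ S, f ∈ hen v K₀) :
    ∃ (T : Finset (MvPolynomial (Fin m) (hen v N₀))) (L : IntermediateField k Ω),
      (∀ P ∈ T, MvPolynomial.aeval u P ≠ 0) ∧ (∀ f ∈ S, f ∈ L) ∧ K₀ ≤ L ∧ nadj (hen v N₀) u ≤ L ∧
      L ≤ hen v K₀ ∧ ∀ {δ : ℕ → Ω} {ρ : ℝ} (hsq : Sq v δ ρ) (u' : ℕ → Fin m → Ω) {ε : ℝ}, 0 < ε →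
        (∀ i, AlgebraicIndependent (hen v N₀) (u' i)) →
        (∀ i, ∀ P ∈ T, v.Ge (v (MvPolynomial.aeval u P) + ε)
          (MvPolynomial.aeval (u' i) P - MvPolynomial.aeval u P)) →
        (∀ j, FGS hsq fun i => u' i j) →
        (∀ i, hen v (nadj (hen v N₀) (u' i)) = hen v K₀) →
        (∃ (P : MvPolynomial (Fin m) (hen v N₀)) (a : Ω) (l : ℤ), l ≠ 0 ∧
          LTs v δ (fun i => MvPolynomial.aeval (u' i) P) a l) →
        ∃ φ : ℕ → (Ω ≃ₐ[k] Ω), (∀ i, ∀ n ∈ hen v N₀, φ i n = n) ∧ (∀ i j, φ i (u j) = u' i j) ∧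
          (∀ i, ∀ f ∈ S, Rc v ε (φ i) f) ∧ L ≤ fgsF hsq φ ∧ (∀ i, ∀ f ∈ L, φ i f ∈ hen v K₀) ∧
          Mot v K₀ φ δ ρ := by
  classical
  obtain ⟨G, hG⟩ := hN₀
  have hΩE : ∀ g : Ω, IsAlgebraic (nadj (hen v N₀) u) g :=
    isAlgebraic_of_hen hΩ ((le_hen K₀).trans hKE.le)
  have hGN : ∀ f ∈ G, f ∈ N₀ := fun f hf => by
    rw [← hG]
    exact IntermediateField.subset_adjoin k _ hf
  obtain ⟨A, L, hA, hSL, hKL, hEL, hLE, hmot⟩ := exists_mot h hK hΩ hΩE hKE
    (G ∪ Finset.univ.image u) S (by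
      intro f hf
      rcases Finset.mem_union.1 hf with hf | hf
      · exact le_nadj _ u (le_hen _ (hGN f hf))
      · obtain ⟨j, -, rfl⟩ := Finset.mem_image.1 hf
        exact self_mem_nadj _ u j) (fun f hf => by rw [← hKE]; exact hS f hf)
  -- the polynomials
  have hex : ∀ a : Ω, ∃ P Q : MvPolynomial (Fin m) (hen v N₀), MvPolynomial.aeval u P ≠ 0 ∧
      MvPolynomial.aeval u Q ≠ 0 ∧ (a ∈ A → a ≠ 0 →
        a = MvPolynomial.aeval u P / MvPolynomial.aeval u Q) := by
    intro a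
    by_cases ha : a ∈ A ∧ a ≠ 0
    · obtain ⟨P, Q, hPQ⟩ := mem_nadj_iff.1 (hA a ha.1)
      refine ⟨P, Q, ?_, ?_, fun _ _ => hPQ⟩
      · intro h0
        rw [h0, zero_div] at hPQ
        exact ha.2 hPQ
      · intro h0
        rw [h0, div_zero] at hPQ
        exact ha.2 hPQ
    · refine ⟨1, 1, ?_, ?_, fun h1 h2 => absurd ⟨h1, h2⟩ ha⟩
      all_goals
        rw [map_one]
        exact one_ne_zero
  choose P Q hP0 hQ0 hPQ using hex
  refine ⟨A.image P ∪ A.image Q, L, ?_, hSL, hKL, hEL, hLE.trans hKE.ge, ?_⟩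
  · intro R hR
    rcases Finset.mem_union.1 hR with hR | hR
    · obtain ⟨a, -, rfl⟩ := Finset.mem_image.1 hR
      exact hP0 a
    · obtain ⟨a, -, rfl⟩ := Finset.mem_image.1 hR
      exact hQ0 a
  · intro δ ρ hsq u' ε hε hui hT hF hhen hmov
    have hΩ' : ∀ i (g : Ω), IsAlgebraic (nadj (hen v N₀) (u' i)) g := fun i =>
      isAlgebraic_of_hen hΩ ((le_hen K₀).trans (hhen i).ge)
    choose Φ hΦN hΦu using fun i => exists_aut_coord hu (hui i) hΩE (hΩ' i)
    have hev : ∀ i (R : MvPolynomial (Fin m) (hen v N₀)),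
        Φ i (MvPolynomial.aeval u R) = MvPolynomial.aeval (u' i) R := fun i R =>
      aeval_aut (hΦN i) (hΦu i) R
    have hrc : ∀ i, ∀ R ∈ A.image P ∪ A.image Q, Rc v ε (Φ i) (MvPolynomial.aeval u R) := by
      intro i R hR
      unfold Rc
      rw [hev]
      exact hT i R hR
    have c1 : ∀ i, ∀ a ∈ A, Rc v ε (Φ i) a := by
      intro i a ha
      by_cases ha0 : a = 0
      · have h6 := Rc.of_fix (v := v) (ε := ε) (φ := ((Φ i : Ω ≃ₐ[k] Ω) : Ω →+* Ω)) (f := a)
          (by rw [ha0, map_zero])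
        exact h6
      · rw [hPQ a ha ha0]
        exact Rc.div (φ := ((Φ i : Ω ≃ₐ[k] Ω) : Ω →+* Ω)) hε
          (hrc i _ (Finset.mem_union_left _ (Finset.mem_image_of_mem _ ha)))
          (hrc i _ (Finset.mem_union_right _ (Finset.mem_image_of_mem _ ha)))
    have c2 : nadj (hen v N₀) u ≤ fgsF hsq Φ := by
      refine nadj_le (fun n hn => ?_) fun j => ?_
      · rw [mem_fgsF]
        exact (FGS.const hsq n).congr (Eventually.of_forall fun i => (hΦN i n hn).symm)
      · rw [mem_fgsF]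
        exact (hF j).congr (Eventually.of_forall fun i => (hΦu i j).symm)
    have c3 : ∀ i, ∀ a ∈ nadj (hen v N₀) u, Φ i a ∈ hen v K₀ := by
      intro i a ha
      have hle : nadj (hen v N₀) u ≤ (hen v K₀).comap ((Φ i : Ω ≃ₐ[k] Ω) : Ω →ₐ[k] Ω) := by
        refine nadj_le (fun n hn => ?_) fun j => ?_
        · show Φ i n ∈ hen v K₀
          rw [hΦN i n hn, hKE]
          exact le_hen _ (le_nadj _ u hn)
        · show Φ i (u j) ∈ hen v K₀
          rw [hΦu, ← hhen i]
          exact le_hen _ (self_mem_nadj _ (u' i) j)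
      exact hle ha
    have c4 : ∀ i, K₀ ≤ hen v (IntermediateField.adjoin k
        ((Φ i) '' ((G ∪ Finset.univ.image u : Finset Ω) : Set Ω))) := by
      intro i
      obtain ⟨M, hM⟩ : ∃ M, M = hen v (IntermediateField.adjoin k
        ((Φ i) '' ((G ∪ Finset.univ.image u : Finset Ω) : Set Ω))) := ⟨_, rfl⟩
      rw [← hM]
      have hMM : hen v M = M := by rw [hM]; exact hen_hen _
      have hsub : ∀ f ∈ G ∪ Finset.univ.image u, Φ i f ∈ M := by
        intro f hf
        rw [hM]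
        exact le_hen _ (IntermediateField.subset_adjoin k _ ⟨f, hf, rfl⟩)
      have hN₀M : N₀ ≤ M := by
        rw [← hG, IntermediateField.adjoin_le_iff]
        intro f hf
        have h3 := hsub f (Finset.mem_union_left _ hf)
        rwa [hΦN i f (le_hen _ (hGN f hf))] at h3
      have h3 : nadj (hen v N₀) (u' i) ≤ M := by
        refine nadj_le (hen_le hMM hN₀M) fun j => ?_
        rw [← hΦu i j]
        exact hsub _ (Finset.mem_union_right _ (Finset.mem_image_of_mem _ (Finset.mem_univ j)))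
      exact ((le_hen K₀).trans (hhen i).ge).trans (hen_le hMM h3)
    have c5 : ∃ e ∈ nadj (hen v N₀) u, ∃ a m, m ≠ 0 ∧ LTs v δ (fun i => Φ i e) a m := by
      obtain ⟨R, a, l, hl, h3⟩ := hmov
      exact ⟨MvPolynomial.aeval u R, aeval_mem_nadj R, a, l, hl,
        h3.congr (Eventually.of_forall fun i => (hev i R).symm)⟩
    obtain ⟨φ, h1, h2, h3, h4, h5⟩ := hmot hsq Φ hε c1 c2 c3 c4 c5
    exact ⟨φ, fun i n hn => by rw [h1 i n (le_nadj _ u hn), hΦN i n hn],
      fun i j => by rw [h1 i _ (self_mem_nadj _ u j), hΦu], h2, h3, h4, h5⟩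

end Pool.Agent.TWMF
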