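import Pool.Agent.Lib.TWMF.F5

/-!
# TANK W: motions at field level, 6: translations

`MTL v N u s`: the polynomials over `N` have values at `u` which are strictly dominant on the closed
polydisc of radius `s` around `u` (one variable: `TL.strict`; fully tied towers: (F2) of the text).
`exists_mot_trans`: translations `u ↦ u + c_i` by constants `c_i ∈ N`, slightly outside the radii,
henselian functions of `δ i`, one of them moving: they are motions of every `K₀` with
`hen v K₀ = hen v N(u)`.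
-/

set_option autoImplicit false

open Polynomial Filter Topology

namespace Pool.Agent.TWMF

open Pool.Agent.H15JM (RVal)
open Pool.Agent.LU1 (VPos adj)
open Pool.Agent.D2 (Ctx0)
open Pool.Agent.D2P (hen hen_hen le_hen hen_mono hen_le mem_hen mem_adj_self adj_le)
open Pool.Agent.TWM (Gt)
open Pool.Agent.TW WM13

universe u

variable {k Ω : Type u} [Field k] [Field Ω] [Algebra k Ω] {v : RVal Ω}
  {N : IntermediateField k Ω} {m : ℕ} {u : Fin m → Ω} {s : Fin m → ℝ}

/-- The expansion of `P` at `u`: `P(X + u)`. -/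
noncomputable def hd {N : IntermediateField k Ω} {m : ℕ} (u : Fin m → Ω)
    (P : MvPolynomial (Fin m) N) : MvPolynomial (Fin m) Ω :=
  MvPolynomial.aeval (fun j => MvPolynomial.X j + MvPolynomial.C (u j)) P

theorem eval_hd (u c : Fin m → Ω) (P : MvPolynomial (Fin m) N) :
    MvPolynomial.eval c (hd u P) = MvPolynomial.aeval (fun j => u j + c j) P := by
  unfold hd
  induction P using MvPolynomial.induction_on with
  | C a =>
    rw [MvPolynomial.aeval_C, MvPolynomial.aeval_C]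
    rw [MvPolynomial.algebraMap_apply, MvPolynomial.eval_C]
  | add P Q hP hQ => rw [map_add, map_add, map_add, hP, hQ]
  | mul_X P i hP =>
    rw [map_mul, map_mul, map_mul, MvPolynomial.aeval_X, MvPolynomial.aeval_X, hP, map_add,
      MvPolynomial.eval_X, MvPolynomial.eval_C, add_comm]

theorem coeff_zero_hd (u : Fin m → Ω) (P : MvPolynomial (Fin m) N) :
    (hd u P).coeff 0 = MvPolynomial.aeval u P := by
  have h1 := eval_hd u 0 P
  simp only [Pi.zero_apply, add_zero] at h1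
  rw [← h1, MvPolynomial.eval_zero, MvPolynomial.constantCoeff_eq]

/-- The weight of a multiindex. -/
def wt {m : ℕ} (s : Fin m → ℝ) (J : Fin m →₀ ℕ) : ℝ := ∑ j, (J j : ℝ) * s j

/-- Strict dominance on the closed polydisc of radius `s`. -/
structure MTL (v : RVal Ω) (N : IntermediateField k Ω) {m : ℕ} (u : Fin m → Ω)
    (s : Fin m → ℝ) : Prop where
  ne : ∀ P : MvPolynomial (Fin m) N, P ≠ 0 → MvPolynomial.aeval u P ≠ 0
  strict : ∀ P : MvPolynomial (Fin m) N, P ≠ 0 → ∀ J : Fin m →₀ ℕ, J ≠ 0 →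
    Gt v (v (MvPolynomial.aeval u P) - wt s J) ((hd u P).coeff J)

theorem MTL.algInd (h : MTL v N u s) : AlgebraicIndependent N u := by
  rw [algebraicIndependent_iff]
  intro P hP
  by_contra h0
  exact h.ne P h0 hP

/-- Small displacements. -/
theorem MTL.eventually (h : MTL v N u s) (T : Finset (MvPolynomial (Fin m) N))
    (hT : ∀ P ∈ T, P ≠ 0) : ∀ᶠ β in 𝓝[>] (0 : ℝ), ∀ c : Fin m → Ω,
      (∀ j, v.Ge (s j - β) (c j)) → ∀ P ∈ T, v.Ge (v (MvPolynomial.aeval u P) + β)
        (MvPolynomial.aeval (fun j => u j + c j) P - MvPolynomial.aeval u P) := by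
  classical
  have key : ∀ P ∈ T, ∀ᶠ β in 𝓝[>] (0 : ℝ), ∀ J ∈ (hd u P).support, J ≠ 0 →
      v (MvPolynomial.aeval u P) + β ≤ v ((hd u P).coeff J) + (wt s J - (∑ j, (J j : ℝ)) * β) := by
    intro P hP
    rw [Filter.eventually_all_finset]
    intro J hJ
    by_cases hJ0 : J = 0
    · exact Eventually.of_forall fun β h1 => absurd hJ0 h1
    have h1 := h.strict P (hT P hP) J hJ0 (MvPolynomial.mem_support_iff.1 hJ)
    have h2 : 0 ≤ ∑ j, (J j : ℝ) := Finset.sum_nonneg fun j _ => Nat.cast_nonneg _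
    have h3 : 0 < (v ((hd u P).coeff J) + wt s J - v (MvPolynomial.aeval u P)) /
        ((∑ j, (J j : ℝ)) + 1) := div_pos (by linarith) (by linarith)
    filter_upwards [Ioo_mem_nhdsGT h3] with β hβ _
    have h4 := hβ.2
    rw [lt_div_iff₀ (by linarith : 0 < (∑ j, (J j : ℝ)) + 1)] at h4
    nlinarith
  have key2 : ∀ᶠ β in 𝓝[>] (0 : ℝ), ∀ P ∈ T, ∀ J ∈ (hd u P).support, J ≠ 0 →
      v (MvPolynomial.aeval u P) + β ≤ v ((hd u P).coeff J) + (wt s J - (∑ j, (J j : ℝ)) * β) := by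
    rw [Filter.eventually_all_finset]
    exact key
  filter_upwards [key2] with β hβ c hc P hP
  rw [← eval_hd, MvPolynomial.eval_eq']
  have hsum : ∑ J ∈ (hd u P).support, (hd u P).coeff J * ∏ j, c j ^ J j -
      MvPolynomial.aeval u P = ∑ J ∈ (hd u P).support.erase 0,
        (hd u P).coeff J * ∏ j, c j ^ J j := by
    rw [← coeff_zero_hd]
    by_cases h0 : (0 : Fin m →₀ ℕ) ∈ (hd u P).support
    · rw [← Finset.add_sum_erase _ _ h0]
      simp
    · rw [Finset.erase_eq_of_notMem h0, MvPolynomial.notMem_support_iff.1 h0, sub_zero]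
  rw [hsum]
  refine RVal.Ge.sum _ _ fun J hJ => ?_
  rw [Finset.mem_erase] at hJ
  have h1 := hβ P hP J hJ.2 hJ.1
  have h2 : v.Ge (wt s J - (∑ j, (J j : ℝ)) * β) (∏ j, c j ^ J j) := by
    have h3 : ∀ A : Finset (Fin m), v.Ge (∑ j ∈ A, (J j : ℝ) * (s j - β)) (∏ j ∈ A, c j ^ J j) := by
      intro A
      induction A using Finset.induction_on with
      | empty =>
        rw [Finset.sum_empty, Finset.prod_empty]
        exact fun _ => by rw [v.map_one]
      | insert a A ha ih =>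
        rw [Finset.sum_insert ha, Finset.prod_insert ha]
        refine RVal.Ge.mul (fun h0 => ?_) ih
        by_cases hc0 : c a = 0
        · by_cases hJa : J a = 0
          · rw [hJa, pow_zero, v.map_one, Nat.cast_zero, zero_mul]
          · exact absurd (by rw [hc0, zero_pow hJa]) h0
        · rw [v.map_pow hc0]
          exact mul_le_mul_of_nonneg_left (hc a hc0) (Nat.cast_nonneg _)
    have h4 := h3 Finset.univ
    have h5 : ∑ j, (J j : ℝ) * (s j - β) = wt s J - (∑ j, (J j : ℝ)) * β := by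
      rw [wt, Finset.sum_mul, ← Finset.sum_sub_distrib]
      exact Finset.sum_congr rfl fun j _ => by ring
    rwa [h5] at h4
  exact ((RVal.ge_self _).mul h2).mono h1

/-- Translations by constants. -/
theorem algInd_add (hu : AlgebraicIndependent N u) {c : Fin m → Ω} (hc : ∀ j, c j ∈ N) :
    AlgebraicIndependent N fun j => u j + c j := by
  obtain ⟨d, hd⟩ : ∃ d : Fin m → N, ∀ j, (d j : Ω) = c j := ⟨fun j => ⟨c j, hc j⟩, fun j => rfl⟩
  let τ : MvPolynomial (Fin m) N →ₐ[N] MvPolynomial (Fin m) N :=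
    MvPolynomial.aeval fun j => MvPolynomial.X j + MvPolynomial.C (d j)
  let τ' : MvPolynomial (Fin m) N →ₐ[N] MvPolynomial (Fin m) N :=
    MvPolynomial.aeval fun j => MvPolynomial.X j - MvPolynomial.C (d j)
  have h1 : τ'.comp τ = AlgHom.id N _ := by
    refine MvPolynomial.algHom_ext fun j => ?_
    show τ' (τ (MvPolynomial.X j)) = MvPolynomial.X j
    show τ' (MvPolynomial.aeval _ (MvPolynomial.X j)) = _
    rw [MvPolynomial.aeval_X, map_add]
    show MvPolynomial.aeval _ (MvPolynomial.X j) + MvPolynomial.aeval _ (MvPolynomial.C (d j)) = _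
    rw [MvPolynomial.aeval_X, MvPolynomial.aeval_C, MvPolynomial.algebraMap_eq, sub_add_cancel]
  have h2 : ∀ P : MvPolynomial (Fin m) N, MvPolynomial.aeval (fun j => u j + c j) P =
      MvPolynomial.aeval u (τ P) := by
    intro P
    have h3 : (MvPolynomial.aeval (fun j => u j + c j) : MvPolynomial (Fin m) N →ₐ[N] Ω) =
        (MvPolynomial.aeval u).comp τ := by
      refine MvPolynomial.algHom_ext fun j => ?_
      show MvPolynomial.aeval _ (MvPolynomial.X j) = MvPolynomial.aeval u (MvPolynomial.aeval _ _)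
      rw [MvPolynomial.aeval_X, MvPolynomial.aeval_X, map_add, MvPolynomial.aeval_X,
        MvPolynomial.aeval_C]
      rw [← hd j]
      rfl
    exact congrArg (fun f => f P) (congrArg DFunLike.coe h3)
  rw [algebraicIndependent_iff] at hu ⊢
  intro P hP
  rw [h2] at hP
  have h3 := hu _ hP
  have h4 : τ' (τ P) = P := congrArg (fun f => f P) (congrArg DFunLike.coe h1)
  rw [← h4, h3, map_zero]

theorem nadj_add {c : Fin m → Ω} (hc : ∀ j, c j ∈ N) :
    nadj N (fun j => u j + c j) = nadj N u := by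
  apply le_antisymm
  · exact nadj_le (le_nadj N u) fun j => add_mem (self_mem_nadj N u j) (le_nadj N u (hc j))
  · refine nadj_le (le_nadj N _) fun j => ?_
    have h1 := sub_mem (self_mem_nadj N (fun j => u j + c j) j)
      (le_nadj N (fun j => u j + c j) (hc j))
    rwa [add_sub_cancel_right] at h1

/-- Leading terms of a sequence plus a small constant. -/
theorem lts_add_const {δ : ℕ → Ω} {ρ : ℝ} (hsq : Sq v δ ρ) {x : ℕ → Ω} {a w : Ω} {l : ℤ}
    (hx : LTs v δ x a l) (hw : w ≠ 0 → v a + l * ρ < v w) :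
    LTs v δ (fun i => w + x i) a l := by
  refine ⟨hx.1, ?_⟩
  by_cases h0 : w = 0
  · refine hx.2.mono fun i hi => ?_
    show Gt v (v a + l * v (δ i)) (w + x i - a * δ i ^ l)
    rw [h0, zero_add]
    exact hi
  have h1 : Tendsto (fun i => v a + l * v (δ i)) atTop (𝓝 (v a + l * ρ)) :=
    tendsto_const_nhds.add (tendsto_const_nhds.mul hsq.lim)
  filter_upwards [hx.2, h1.eventually (gt_mem_nhds (hw h0))] with i hi h2
  have e : w + x i - a * δ i ^ l = w + (x i - a * δ i ^ l) := by ring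
  rw [e]
  exact TWM.Gt.add (fun _ => h2) hi

theorem lts_pow {δ : ℕ → Ω} {ρ : ℝ} (hsq : Sq v δ ρ) {x : ℕ → Ω} {a : Ω} {l : ℤ}
    (hx : LTs v δ x a l) (n : ℕ) : LTs v δ (fun i => x i ^ n) (a ^ n) (n * l) := by
  induction n with
  | zero =>
    refine ⟨by rw [pow_zero]; exact one_ne_zero, Eventually.of_forall fun i => ?_⟩
    have e : x i ^ 0 - a ^ 0 * δ i ^ (((0 : ℕ) : ℤ) * l) = 0 := by simp
    show Gt v _ (x i ^ 0 - a ^ 0 * δ i ^ (((0 : ℕ) : ℤ) * l))
    rw [e]
    exact TWM.Gt.zero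
  | succ n ih =>
    have h1 := ih.mul hsq.ne hx
    have e : ((n : ℕ) : ℤ) * l + l = ((n + 1 : ℕ) : ℤ) * l := by push_cast; ring
    rw [e] at h1
    simpa only [pow_succ] using h1

/-- **Translations.** -/
theorem exists_mot_trans [IsAlgClosed Ω] (p : ℕ) [Fact p.Prime] [CharP Ω p] {r : ℕ}
    (h : Ctx k v r) {K₀ N₀ : IntermediateField k Ω}
    (hK : K₀.FG) (hΩ : ∀ g : Ω, IsAlgebraic K₀ g) (hN₀ : N₀.FG)
    (hu : MTL v (hen v N₀) u s) (hKE : hen v K₀ = hen v (nadj (hen v N₀) u))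
    (S : Finset Ω) (hS : ∀ f ∈ S, f ∈ hen v K₀) :
    ∃ (β : ℝ) (L : IntermediateField k Ω), 0 < β ∧ (∀ f ∈ S, f ∈ L) ∧ K₀ ≤ L ∧
      nadj (hen v N₀) u ≤ L ∧ L ≤ hen v K₀ ∧
      ∀ {δ : ℕ → Ω} {ρ : ℝ} (hsq : Sq v δ ρ) (c : ℕ → Fin m → Ω),
        (∀ i j, c i j ∈ hen v N₀) → (∀ i j, v.Ge (s j - β) (c i j)) →
        (∀ j, FGS hsq fun i => c i j) →
        (∃ (j : Fin m) (q : ℕ) (θ : Ω) (a : Ω) (l : ℤ), θ ∈ hen v N₀ ∧ l ≠ 0 ∧
          LTs v δ (fun i => c i j) a l ∧
          (u j ^ p ^ q - θ ≠ 0 → (p ^ q : ℕ) * (v a + l * ρ) < v (u j ^ p ^ q - θ))) →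
        ∃ φ : ℕ → (Ω ≃ₐ[k] Ω), (∀ i, ∀ n ∈ hen v N₀, φ i n = n) ∧
          (∀ i j, φ i (u j) = u j + c i j) ∧
          (∀ i, ∀ f ∈ S, Rc v β (φ i) f) ∧ L ≤ fgsF hsq φ ∧ (∀ i, ∀ f ∈ L, φ i f ∈ hen v K₀) ∧
          Mot v K₀ φ δ ρ := by
  classical
  obtain ⟨T, L, hT, hSL, hKL, hNL, hLK, hmot⟩ :=
    exists_mot_coord h hK hΩ hN₀ hu.algInd hKE S hS
  obtain ⟨β, hβ, hβ0⟩ := ((hu.eventually T fun P hP h0 => hT P hP (by rw [h0, map_zero])).and
    self_mem_nhdsWithin).exists
  refine ⟨β, L, hβ0, hSL, hKL, hNL, hLK, ?_⟩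
  rintro δ ρ hsq c hcN hcs hcF ⟨j, q, θ, a, l, hθ, hl, hlt, hval⟩
  refine hmot hsq (fun i j => u j + c i j) hβ0 (fun i => algInd_add hu.algInd (hcN i))
    (fun i P hP => hβ (c i) (hcs i) P hP) (fun j => (FGS.const hsq (u j)).add (hcF j))
    (fun i => by rw [nadj_add (hcN i), hKE]) ?_
  refine ⟨MvPolynomial.X j ^ p ^ q - MvPolynomial.C ⟨θ, hθ⟩, a ^ p ^ q, (p ^ q : ℕ) * l,
    mul_ne_zero ?_ hl, ?_⟩
  · exact_mod_cast pow_ne_zero q (Fact.out : p.Prime).ne_zero
  · have h1 := lts_add_const hsq (lts_pow hsq hlt (p ^ q)) (w := u j ^ p ^ q - θ) (fun h0 => by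
      have h2 := hval h0
      rw [v.map_pow hlt.1]
      push_cast at h2 ⊢
      linarith)
    refine h1.congr (Eventually.of_forall fun i => ?_)
    rw [map_sub, map_pow, MvPolynomial.aeval_X, MvPolynomial.aeval_C, add_pow_char_pow]
    show _ = _ - θ
    ring

end Pool.Agent.TWMF
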