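import Pool.Agent.Lib.TWMF.F7
import Pool.Agent.Lib.TWM.A2
import Pool.Agent.Lib.D2P.A2sAux

/-!
# TANK W: motions at field level, 8: change of the top coordinate

`hen_adj_congr`: `z` of transcendental type over `F`, `w ∈ hen v F(z)` nearer to `z` than the radius:
`hen v F(w) = hen v F(z)`.
-/

set_option autoImplicit false

open Polynomial Filter Topology

namespace Pool.Agent.TWMF

open Pool.Agent.H15JM (RVal)
open Pool.Agent.LU1 (VPos adj)
open Pool.Agent.LUC (Cl clF)
open Pool.Agent.D2 (Ctx0)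
open Pool.Agent.D2P (hen hen_hen le_hen hen_mono hen_le mem_hen mem_adj_self adj_le mem_clI
  sep_of_mem_adj_pow mem_adj_of_prime mem_adj_pow alg_exchange mem_adj_iff)
open Pool.Agent.TWM (Gt PI TL algc le_algc cadj)
open Pool.Agent.TW WM13

universe u

variable {k Ω : Type u} [Field k] [Field Ω] [Algebra k Ω] {v : RVal Ω}
  {F : IntermediateField k Ω} {z w : Ω} {s : ℝ}

/-- Separable generators of function fields of one variable. -/
theorem sep_or_mem (p : ℕ) [Fact p.Prime] [CharP k p] [CharP Ω p] {T : IntermediateField k Ω}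
    {y z : Ω} (hyz : IsSeparable (adj T z) y) (hzy : IsAlgebraic (adj T y) z) :
    IsSeparable (adj T y) z ∨ y ∈ adj (adj T (z ^ p)) (y ^ p) := by
  set A : IntermediateField k Ω := adj (adj T (z ^ p)) (y ^ p) with hA
  have hTA : T ≤ A := (mem_adj_self T _).2.trans (mem_adj_self _ _).2
  have hzpA : z ^ p ∈ A := (mem_adj_self _ _).2 (mem_adj_self T _).1
  have hypA : y ^ p ∈ A := (mem_adj_self _ _).1
  have hTB : T ≤ adj (adj T y) (z ^ p) := (mem_adj_self T _).2.trans (mem_adj_self _ _).2
  have hyB : y ∈ adj (adj T y) (z ^ p) := (mem_adj_self _ _).2 (mem_adj_self T y).1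
  have hzpB : z ^ p ∈ adj (adj T y) (z ^ p) := (mem_adj_self _ _).1
  have hAB : A ≤ adj (adj T y) (z ^ p) := adj_le (adj_le hTB hzpB) (pow_mem hyB p)
  by_cases hzA : z ∈ A
  · left
    exact sep_of_mem_adj_pow p hzy (hAB hzA)
  have hyAz : y ∈ adj A z := by
    have h1 := mem_adj_pow p hyz
    refine adj_le (adj_le (hTA.trans (mem_adj_self _ _).2) (mem_adj_self _ _).1)
      ((mem_adj_self A z).2 hypA) h1
  by_cases hyA : y ∈ A
  · right
    exact hyA
  · left
    have h1 := mem_adj_of_prime p hzpA hzA hyAz hyA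
    exact sep_of_mem_adj_pow p hzy (adj_le hAB hyB h1)

/-- `z` is far from the elements of `F(z ^ p)`. -/
theorem far_adj_pow [IsAlgClosed Ω] (p : ℕ) [hp : Fact p.Prime] [CharP Ω p] (hz : TL v F z s)
    {x : Ω} (hx : x ∈ adj F (z ^ p)) : z ≠ x ∧ v (z - x) < s := by
  rw [mem_adj_iff, IntermediateField.mem_adjoin_simple_iff] at hx
  obtain ⟨A, B, h1⟩ := hx
  -- the polynomials over `Ω`
  set a : Polynomial Ω := (A.map (algebraMap F Ω)).comp (X ^ p) with ha
  set b : Polynomial Ω := (B.map (algebraMap F Ω)).comp (X ^ p) with hb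
  have hPI : ∀ A : Polynomial F, (A.map (algebraMap F Ω)).comp (X ^ p) ∈ PI F := by
    intro A
    have h2 : (A.map (algebraMap F Ω)).comp (X ^ p) = (A.comp (X ^ p)).map (algebraMap F Ω) := by
      rw [Polynomial.map_comp, Polynomial.map_pow, Polynomial.map_X]
    rw [h2]
    intro i
    rw [coeff_map]
    exact (_ : F).2
  have hev : ∀ A : Polynomial F, ((A.map (algebraMap F Ω)).comp (X ^ p)).eval z =
      aeval (z ^ p) A := by
    intro A
    rw [eval_comp, eval_pow, eval_X, eval_map_algebraMap]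
  have hder : ∀ A : Polynomial F, derivative ((A.map (algebraMap F Ω)).comp (X ^ p)) = 0 := by
    intro A
    rw [derivative_comp, derivative_X_pow]
    have h2 : ((p : ℕ) : Ω) = 0 := CharP.cast_eq_zero Ω p
    rw [h2, C_0, zero_mul, zero_mul]
  have hx' : x = a.eval z / b.eval z := by rw [ha, hb, hev, hev, h1]
  have hzx : ∀ x' : Ω, x' ∈ F → z ≠ x' := fun x' hx' =>
    (hz.far x' (isAlgebraic_algebraMap (R := F) (⟨x', hx'⟩ : F))).1
  by_cases hb0 : b.eval z = 0
  · rw [hb0, div_zero] at hx'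
    rw [hx']
    exact hz.far 0 isAlgebraic_zero
  set P : Polynomial Ω := X * b - a with hP
  have hPm : P ∈ PI F := sub_mem (mul_mem TWM.X_mem_PI (hPI B)) (hPI A)
  have hPd : derivative P = b := by
    rw [hP, derivative_sub, derivative_mul, derivative_X, one_mul, hder, hder, mul_zero, add_zero,
      sub_zero]
  have hP0 : P ≠ 0 := by
    intro h2
    rw [h2, derivative_zero] at hPd
    exact hb0 (by rw [← hPd, eval_zero])
  have hc1 : (taylor z P).coeff 1 = b.eval z := by
    rw [taylor_coeff_one, hPd]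
  have h3 := hz.strict (TWM.PI_mono (le_algc F) hPm) hP0 le_rfl
  have h4 := hz.eval_ne (TWM.PI_mono (le_algc F) hPm) hP0
  rw [hc1] at h3
  have h5 := h3 hb0
  have h6 : P.eval z = b.eval z * (z - x) := by
    rw [hP, Polynomial.eval_sub, eval_mul, eval_X, hx']
    field_simp
  rw [h6] at h4 h5
  have h7 := right_ne_zero_of_mul h4
  rw [v.map_mul hb0 h7] at h5
  refine ⟨sub_ne_zero.1 h7, ?_⟩
  push_cast at h5
  linarith

/-- **Change of the top coordinate.** -/
theorem hen_adj_congr [IsAlgClosed Ω] (p : ℕ) [hp : Fact p.Prime] [CharP k p] [CharP Ω p]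
    (hz : TL v F z s) (hwm : w ∈ hen v (adj F z)) (hw : Gt v s (w - z)) :
    hen v (adj F w) = hen v (adj F z) := by
  have hFL : F ≤ hen v (adj F z) := (mem_adj_self F z).2.trans (le_hen _)
  have hsep := (mem_hen.1 hwm).2
  have hwc : w ∈ cadj v F z := (mem_clI.2 (mem_hen.1 hwm).1)
  refine le_antisymm (hen_le (hen_hen _) (adj_le hFL hwm)) ?_
  refine hen_le (hen_hen _) (adj_le ((mem_adj_self F w).2.trans (le_hen _)) ?_)
  have hcl := hz.cadj_congr hwc hw
  have hzw : z ∈ cadj v F w := by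
    rw [hcl]
    exact TWM.self_mem_cadj _ _ _
  rw [mem_hen]
  refine ⟨mem_clI.1 hzw, ?_⟩
  have hwt : Transcendental F w := fun h1 => ((hz.congr hw).far w h1).1 rfl
  rcases sep_or_mem p hsep (alg_exchange hwt hsep.isIntegral.isAlgebraic) with h1 | h1
  · exact h1
  · exfalso
    -- `w` is in the closure of `F(z ^ p)`
    have h2 : w ^ p ∈ TWM.cadj v F (z ^ p) := by
      have hle : adj F z ≤ D2P.rootF p 1 (adj F (z ^ p)) := by
        refine adj_le (fun e he => ?_) ?_
        · rw [D2P.mem_rootF, pow_one]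
          exact pow_mem ((mem_adj_self F _).2 he) _
        · rw [D2P.mem_rootF, pow_one]
          exact (mem_adj_self F _).1
      intro c
      obtain ⟨x, hx, h2⟩ := hwc (c / p)
      have h3 : x ^ p ∈ adj F (z ^ p) := by
        have := hle hx
        rwa [D2P.mem_rootF, pow_one] at this
      refine ⟨x ^ p, h3, ?_⟩
      have h4 := TWM.ge_pow h2 p
      rw [sub_pow_char] at h4
      refine h4.mono (le_of_eq ?_)
      rw [mul_div_cancel₀]
      exact_mod_cast hp.out.ne_zero
    have h3 : w ∈ TWM.cadj v F (z ^ p) :=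
      adj_le (fun x hx => LUC.Cl.subset hx) h2 h1
    obtain ⟨x, hx, h4⟩ := h3 (s + 1)
    obtain ⟨h5, h6⟩ := far_adj_pow p hz hx
    have h7 : Gt v s (z - x) := by
      rw [show z - x = (z - w) + (w - x) by ring]
      exact hw.sub_comm'.add (Gt.of_ge h4 (by linarith))
    have h8 := h7 (sub_ne_zero.2 h5)
    linarith

end Pool.Agent.TWMF
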