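import Pool.Agent.Lib.TWMF.F8

/-!
# TANK W: motions at field level, 9: Newton's equation

`exists_newton`: the roots `τ_i`, `v (τ_i) ≥ 0`, of `t_i + τ + ∑ c_il τ ^ (l + 2)`, `v (c_il) ≥ ε > 0`,
are henselian functions of `δ i` if the coefficients are.
-/

set_option autoImplicit false

open Polynomial Filter Topology

namespace Pool.Agent.TWMF

open Pool.Agent.H15JM (RVal)
open Pool.Agent.LU1 (VPos adj)
open Pool.Agent.LUC (Cl clF)
open Pool.Agent.D2 (Ctx0)
open Pool.Agent.D2P (hen hen_hen le_hen hen_mono hen_le mem_hen mem_adj_self adj_le mem_clI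
  mem_adj_iff)
open Pool.Agent.TWM (Gt PI TL algc le_algc cadj)
open Pool.Agent.TW WM13

universe u

variable {k Ω : Type u} [Field k] [Field Ω] [Algebra k Ω] {v : RVal Ω}

/-- Values of polynomials. -/
theorem ge_eval {P : Polynomial Ω} {ε : ℝ} (hP : ∀ l, v.Ge ε (P.coeff l)) {x : Ω}
    (hx : v.Ge 0 x) : v.Ge ε (P.eval x) := by
  rw [eval_eq_sum_range]
  refine RVal.Ge.sum _ _ fun l _ => ?_
  have h1 : v.Ge 0 (x ^ l) := pow_mem (show x ∈ OVt v from hx) l
  have h2 := (hP l).mul h1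
  rwa [add_zero] at h2

theorem ge_derivative {P : Polynomial Ω} {ε : ℝ} (hP : ∀ l, v.Ge ε (P.coeff l)) (l : ℕ) :
    v.Ge ε ((derivative P).coeff l) := by
  rw [coeff_derivative]
  have h3 : v.Ge 0 ((l : Ω) + 1) := by
    have := WM13.ge_nat v (l + 1)
    push_cast at this
    exact this
  have h4 := (hP (l + 1)).mul h3
  rwa [add_zero] at h4

theorem ge_pow_sub_one {x : Ω} {ε : ℝ} (hx0 : v.Ge 0 x) (hx : v.Ge ε (x - 1)) (n : ℕ) :
    v.Ge ε (x ^ n - 1) := by
  induction n with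
  | zero =>
    rw [pow_zero, sub_self]
    exact RVal.Ge.zero
  | succ n ih =>
    have e : x ^ (n + 1) - 1 = (x ^ n - 1) * x + (x - 1) := by ring
    rw [e]
    have h1 := ih.mul hx0
    rw [add_zero] at h1
    exact h1.add hx

theorem exists_newton [IsAlgClosed Ω] (h : Ctx0 k v) {K : IntermediateField k Ω} {δ : ℕ → Ω}
    {ρ : ℝ} (hsq : Sq v δ ρ) {n : ℕ} {c : ℕ → ℕ → Ω} {t : ℕ → Ω} {ε : ℝ} (hε : 0 < ε)
    (hc : ∀ i l, v.Ge ε (c i l)) (hcK : ∀ i l, c i l ∈ hen v K)
    (hcF : ∀ l, FGS hsq fun i => c i l) (ht : ∀ i, v.Ge 0 (t i)) (htK : ∀ i, t i ∈ hen v K)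
    (htF : FGS hsq t) :
    ∃ τ : ℕ → Ω, (∀ i, τ i ∈ hen v K) ∧ (∀ i, v.Ge 0 (τ i)) ∧ FGS hsq τ ∧
      ∀ i, t i + τ i + ∑ l ∈ Finset.range n, c i l * τ i ^ (l + 2) = 0 := by
  classical
  -- the coefficients of the reciprocal polynomial
  obtain ⟨e, he⟩ : ∃ e : ℕ → ℕ → Ω, ∀ i l, e i l = (-1) ^ l * c i l * t i ^ (l + 1) :=
    ⟨_, fun _ _ => rfl⟩
  have hpow1 : ∀ l : ℕ, v.Ge 0 ((-1 : Ω) ^ l) := fun l =>
    pow_mem (show (-1 : Ω) ∈ OVt v from RVal.Ge.neg (fun _ => by rw [v.map_one])) l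
  have hege : ∀ i l, v.Ge ε (e i l) := by
    intro i l
    rw [he]
    have h1 : v.Ge 0 (t i ^ (l + 1)) := pow_mem (show t i ∈ OVt v from ht i) _
    have h2 := ((hpow1 l).mul (hc i l)).mul h1
    rwa [zero_add, add_zero] at h2
  have heF : ∀ l, FGS hsq fun i => e i l := by
    intro l
    have h1 := ((FGS.const hsq ((-1 : Ω) ^ l)).mul (hcF l)).mul (htF.pow (l + 1))
    exact h1.congr (Eventually.of_forall fun i => (he i l).symm)
  have heK : ∀ i l, e i l ∈ hen v K := by
    intro i l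
    rw [he]
    exact mul_mem (mul_mem (pow_mem (neg_mem (one_mem _)) _) (hcK i l)) (pow_mem (htK i) _)
  obtain ⟨R, hR⟩ : ∃ R : ℕ → Polynomial Ω, ∀ i, R i =
      ∑ l ∈ Finset.range n, C (e i l) * X ^ (n - 1 - l) := ⟨_, fun _ => rfl⟩
  have hRc : ∀ i j, (R i).coeff j = ∑ l ∈ Finset.range n, if j = n - 1 - l then e i l else 0 := by
    intro i j
    rw [hR, finsetSum_coeff]
    refine Finset.sum_congr rfl fun l _ => ?_
    rw [coeff_C_mul, coeff_X_pow]
    split_ifs
    · rw [mul_one]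
    · rw [mul_zero]
  have hRge : ∀ i j, v.Ge ε ((R i).coeff j) := by
    intro i j
    rw [hRc]
    refine RVal.Ge.sum _ _ fun l _ => ?_
    split_ifs
    · exact hege i l
    · exact RVal.Ge.zero
  have hRd : ∀ i, (R i).degree < (n + 1 : ℕ) := by
    intro i
    rw [hR]
    refine (degree_sum_le _ _).trans_lt ?_
    rw [Finset.sup_lt_iff (by exact WithBot.bot_lt_coe _)]
    intro l _
    refine (degree_C_mul_X_pow_le _ _).trans_lt ?_
    exact_mod_cast (by omega : n - 1 - l < n + 1)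
  obtain ⟨B, hB⟩ : ∃ B : Polynomial Ω, B = X ^ n * (X - C 1) := ⟨_, rfl⟩
  have hBm : B.Monic := by
    rw [hB]
    exact (monic_X_pow n).mul (monic_X_sub_C 1)
  have hBd : B.natDegree = n + 1 := by
    rw [hB, natDegree_mul (pow_ne_zero _ X_ne_zero) (X_sub_C_ne_zero 1), natDegree_X_pow,
      natDegree_X_sub_C]
  have hBdeg : B.degree = (n + 1 : ℕ) := by
    rw [degree_eq_natDegree hBm.ne_zero, hBd]
  have hB0 : ∀ j, v.Ge 0 (B.coeff j) := by
    intro j
    have h1 : B ∈ PolyIn (OVt v) := by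
      rw [hB]
      refine mul_mem ?_ ?_
      · refine pow_mem ?_ n
        rw [mem_PolyIn]
        intro i
        rw [coeff_X]
        split_ifs
        exacts [one_mem _, zero_mem _]
      · rw [mem_PolyIn]
        intro i
        rw [coeff_sub, coeff_X, coeff_C]
        refine sub_mem ?_ ?_
        · split_ifs
          exacts [one_mem _, zero_mem _]
        · split_ifs
          exacts [one_mem _, zero_mem _]
    exact mem_PolyIn.1 h1 j
  obtain ⟨q, hq⟩ : ∃ q : ℕ → Polynomial Ω, ∀ i, q i = B + R i := ⟨_, fun _ => rfl⟩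
  have hqm : ∀ i, (q i).Monic := fun i => by
    rw [hq]
    exact hBm.add_of_left (by rw [hBdeg]; exact hRd i)
  have hqd : ∀ i, (q i).natDegree = n + 1 := fun i => by
    rw [hq, natDegree_add_eq_left_of_degree_lt (by rw [hBdeg]; exact hRd i), hBd]
  have hq0 : ∀ i j, v.Ge 0 ((q i).coeff j) := fun i j => by
    rw [hq, coeff_add]
    exact (hB0 j).add ((hRge i j).mono hε.le)
  have hq1 : ∀ i, v.Ge ε ((q i).eval 1) := by
    intro i
    rw [hq, eval_add]
    have h1 : B.eval 1 = 0 := by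
      rw [hB, eval_mul, Polynomial.eval_sub, eval_X, eval_C, sub_self, mul_zero]
    rw [h1, zero_add]
    exact ge_eval (hRge i) (fun _ => by rw [v.map_one])
  -- the roots
  have hn0 : (0 : ℝ) < (n + 1 : ℕ) := by positivity
  have hex : ∀ i, ∃ σ, (q i).IsRoot σ ∧ v.Ge (ε / (n + 1 : ℕ)) (1 - σ) := by
    intro i
    refine TWM.Roots.near_root (by rw [hqd]; omega) ?_
    rw [(hqm i).leadingCoeff, v.map_one, zero_add, hqd, mul_div_cancel₀ _ hn0.ne']
    exact hq1 i
  choose σ hσ hσ1 using hex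
  obtain ⟨ε', hε'⟩ : ∃ ε', ε' = ε / (n + 1 : ℕ) := ⟨_, rfl⟩
  rw [← hε'] at hσ1
  have hε'0 : 0 < ε' := by rw [hε']; exact div_pos hε hn0
  have hε'le : ε' ≤ ε := by
    rw [hε']
    exact div_le_self hε.le (by exact_mod_cast (by omega : 1 ≤ n + 1))
  have hσ2 : ∀ i, v.Ge ε' (σ i - 1) := fun i => TWM.ge_sub_comm (hσ1 i)
  have hσ0 : ∀ i, v.Ge 0 (σ i) := by
    intro i
    have h1 := ((hσ2 i).mono hε'0.le).add (show v.Ge 0 (1 : Ω) from fun _ => by rw [v.map_one])
    rwa [sub_add_cancel] at h1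
  have hσne : ∀ i, σ i ≠ 0 ∧ v (σ i) = 0 := by
    intro i
    have h1 : Gt v (v (1 : Ω)) (1 - σ i) := by
      rw [v.map_one]
      exact Gt.of_ge (hσ1 i) hε'0
    have h2 := TWM.Gt.val_eq one_ne_zero h1
    exact ⟨h2.1, h2.2.trans v.map_one⟩
  have hder : ∀ i, (q i).derivative.eval (σ i) ≠ 0 ∧ v ((q i).derivative.eval (σ i)) = 0 := by
    intro i
    have h1 : (q i).derivative.eval (σ i) - 1 =
        (n : Ω) * σ i ^ (n - 1) * (σ i - 1) + (σ i ^ n - 1) + (R i).derivative.eval (σ i) := by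
      rw [hq, derivative_add, eval_add, hB, derivative_mul, derivative_X_pow, derivative_sub,
        derivative_X, derivative_C, sub_zero, mul_one, eval_add, eval_mul, eval_mul, eval_C,
        eval_pow, Polynomial.eval_sub, eval_X, eval_C, eval_pow, eval_X]
      ring
    have h2 : v.Ge ε' ((q i).derivative.eval (σ i) - 1) := by
      rw [h1]
      refine ((?_ : v.Ge ε' _).add (ge_pow_sub_one (hσ0 i) (hσ2 i) n)).add
        ((ge_eval (ge_derivative (hRge i)) (hσ0 i)).mono hε'le)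
      have h3 : v.Ge 0 ((n : Ω) * σ i ^ (n - 1)) := by
        have h4 : v.Ge 0 (σ i ^ (n - 1)) := pow_mem (show σ i ∈ OVt v from hσ0 i) _
        have h5 := (WM13.ge_nat v n).mul h4
        rwa [add_zero] at h5
      have h4 := h3.mul (hσ2 i)
      rwa [zero_add] at h4
    have h3 : Gt v (v (1 : Ω)) (1 - (q i).derivative.eval (σ i)) := by
      rw [v.map_one]
      exact Gt.of_ge (TWM.ge_sub_comm h2) hε'0
    have h4 := TWM.Gt.val_eq one_ne_zero h3
    exact ⟨h4.1, h4.2.trans v.map_one⟩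
  have hσK : ∀ i, σ i ∈ hen v K := by
    intro i
    have hcl := H2aux.hclosed_OV_hen h K
    refine (hcl.root (q i) (σ i) (fun j => ⟨?_, hq0 i j⟩) (hσ0 i) (hσ i) (hder i).1 (hder i).2).1
    rw [hq, coeff_add]
    refine add_mem ?_ ?_
    · rw [hB]
      have h1 : X ^ n * (X - C 1) ∈ PI (hen v K) :=
        mul_mem (pow_mem TWM.X_mem_PI n) (sub_mem TWM.X_mem_PI (TWM.C_mem_PI (one_mem _)))
      exact h1 j
    · rw [hRc]
      refine sum_mem fun l _ => ?_
      split_ifs
      exacts [heK i l, zero_mem _]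
  have hσF : GS hsq σ := by
    refine GS.root (q := q) (d := n + 1) (y := fun _ => (1 : Ω)) (by omega) hqm hqd (fun j => ?_)
      (Eventually.of_forall hσ0) (Eventually.of_forall hσ) (Eventually.of_forall hder)
      (App.const hsq (fun _ => by rw [v.map_one])) hε'0 (Eventually.of_forall hσ2)
    have h1 : FGS hsq fun i => (q i).coeff j := by
      have h2 : FGS hsq fun i => B.coeff j + ∑ l ∈ Finset.range n,
          if j = n - 1 - l then e i l else 0 := by
        refine (FGS.const hsq _).add (FGS.sum _ fun l _ => ?_)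
        by_cases hj : j = n - 1 - l
        · simpa only [if_pos hj] using heF l
        · simpa only [if_neg hj] using FGS.const hsq (0 : Ω)
      refine h2.congr (Eventually.of_forall fun i => ?_)
      show _ = (q i).coeff j
      rw [hq, coeff_add, hRc]
    exact h1.gs (Eventually.of_forall fun i => hq0 i j)
  refine ⟨fun i => -(t i / σ i), fun i => neg_mem (div_mem (htK i) (hσK i)), fun i => ?_,
    (htF.div hσF.fgs fun i => (hσne i).1).neg, fun i => ?_⟩
  · refine RVal.Ge.neg ?_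
    rw [div_eq_mul_inv]
    have h1 : v.Ge 0 (σ i)⁻¹ := fun _ => by rw [v.map_inv (hσne i).1, (hσne i).2, neg_zero]
    have h2 := (ht i).mul h1
    rwa [add_zero] at h2
  · have h1 : (q i).eval (σ i) = 0 := hσ i
    have hs := (hσne i).1
    have h2 : (t i + -(t i / σ i) + ∑ l ∈ Finset.range n, c i l * (-(t i / σ i)) ^ (l + 2)) *
        σ i ^ (n + 1) = t i * (q i).eval (σ i) := by
      rw [hq, eval_add, hB, eval_mul, eval_pow, Polynomial.eval_sub, eval_X, eval_C, hR,
        eval_finsetSum, add_mul, Finset.sum_mul, mul_add, Finset.mul_sum]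
      congr 1
      · field_simp
        ring
      · refine Finset.sum_congr rfl fun l hl => ?_
        rw [Finset.mem_range] at hl
        rw [eval_mul, eval_C, eval_pow, eval_X, he]
        have h3 : σ i ^ (n + 1) = σ i ^ (l + 2) * σ i ^ (n - 1 - l) := by
          rw [← pow_add]
          congr 1
          omega
        rw [h3, neg_pow, div_pow]
        have h4 : σ i ^ (l + 2) ≠ 0 := pow_ne_zero _ hs
        field_simp
        ring
    rw [h1, mul_zero] at h2
    rcases mul_eq_zero.1 h2 with h3 | h3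
    · exact h3
    · exact absurd h3 (pow_ne_zero _ hs)

end Pool.Agent.TWMF
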