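import Pool.Agent.Lib.TWMF.S1

/-!
# TANK W: stability of `p`-bases, 2: the limit

`Dt p v K X s s' ε κ κ₁`: `X` is closed, `K ≤ X`, `s` a `p`-basis of `K` with distortion `ε`, `s' i ∈ X`,
`v (s' i - s i) ≥ v (s i) + κ`, `2 ε < (p - 1) κ₁`, `κ₁ + ε ≤ κ`.  `Dt.L : K → X` is the limit of the
functions `psi m`.
-/

set_option autoImplicit false

open Polynomial Finset

namespace Pool.Agent.TWMF

open Pool.Agent.H15JM (RVal)
open Pool.Agent.LU1 (VPos adj)
open Pool.Agent.D2 (Ctx0)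
open Pool.Agent.D2P (hen clI mem_clI mem_adj_self adj_le)
open Pool.Agent.TW (mon pcomb Orth PBasis BD)
open Pool.Agent.TWM

universe u

namespace Stb

variable {k Ω : Type u} [Field k] [Field Ω] [Algebra k Ω] {v : RVal Ω}
  {K X : IntermediateField k Ω} {p : ℕ} {n : ℕ} {s s' : Fin n → Ω} {ε κ κ₁ : ℝ}

/-- The data. -/
structure Dt (p : ℕ) (v : RVal Ω) (K X : IntermediateField k Ω) {n : ℕ} (s s' : Fin n → Ω)
    (ε κ κ₁ : ℝ) : Prop where
  hc : CompleteV v
  cld : Cld v X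
  le : K ≤ X
  ht : PBasis p K s
  ho : OI p v K s ε
  hn : Nrs v X s s' κ
  h0 : 0 ≤ ε
  h1 : 2 * ε < (p - 1) * κ₁
  h2 : κ₁ + ε ≤ κ

section

variable [hp : Fact p.Prime] [CharP Ω p] (h : Dt p v K X s s' ε κ κ₁)
include h

omit hp [CharP Ω p] in
theorem Dt.le' : ε ≤ (p - 1) * κ₁ := by linarith [h.h0, h.h1]

omit [CharP Ω p] in
theorem Dt.pos₁ : 0 < κ₁ := by
  have hp1 : (0 : ℝ) < (p : ℝ) - 1 := by
    have : (1 : ℝ) < p := by exact_mod_cast hp.out.one_lt
    linarith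
  by_contra h0
  have h1 := mul_nonpos_of_nonneg_of_nonpos hp1.le (not_lt.1 h0)
  linarith [h.h0, h.h1]

theorem Dt.psi_sub {m m' : ℕ} (hm : m ≤ m') :
    Nm v K (κ₁ + m * ((p - 1) * κ₁ - ε)) fun x => psi h.ht s' m' x - psi h.ht s' m x := by
  induction m', hm using Nat.le_induction with
  | base =>
    intro x _ b _
    simp only [sub_self]
    exact RVal.Ge.zero
  | succ m' hm ih =>
    intro x hx b hb
    have e1 : psi h.ht s' (m' + 1) x - psi h.ht s' m x =
        (psi h.ht s' (m' + 1) x - psi h.ht s' m' x) + (psi h.ht s' m' x - psi h.ht s' m x) := by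
      ring
    show v.Ge _ (psi h.ht s' (m' + 1) x - psi h.ht s' m x)
    rw [e1]
    refine ((psi_cauchy h.ht h.ho h.hn h.le' h.h2 m' x hx b hb).mono ?_).add (ih x hx b hb)
    have h3 : (m : ℝ) ≤ m' := by exact_mod_cast hm
    nlinarith [mul_nonneg (sub_nonneg.2 h3) (sub_nonneg.2 h.le')]

theorem Dt.exists_lim {x : Ω} (hx : x ∈ K) : ∃ y ∈ X, ∀ b : ℝ, v.Ge b x → ∀ m : ℕ,
    v.Ge (b + (κ₁ + m * ((p - 1) * κ₁ - ε))) (y - psi h.ht s' m x) := by
  have hδ : 0 < ((p : ℝ) - 1) * κ₁ - ε := by linarith [h.h0, h.h1]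
  obtain ⟨y, hy⟩ := h.hc (fun m => psi h.ht s' m x) fun c => by
    obtain ⟨N, hN⟩ := exists_nat_ge ((c - v x - κ₁) / (((p : ℝ) - 1) * κ₁ - ε))
    have hN' : c ≤ v x + (κ₁ + N * ((p - 1) * κ₁ - ε)) := by
      rw [div_le_iff₀ hδ] at hN
      linarith
    have key : ∀ m, N ≤ m → v.Ge c (psi h.ht s' m x - psi h.ht s' N x) := fun m hm =>
      (h.psi_sub hm x hx _ (v.ge_self x)).mono hN'
    refine ⟨N, fun m m' hm hm' => ?_⟩
    have e1 : psi h.ht s' m x - psi h.ht s' m' x =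
        (psi h.ht s' m x - psi h.ht s' N x) - (psi h.ht s' m' x - psi h.ht s' N x) := by ring
    rw [e1]
    exact (key m hm).sub (key m' hm')
  have h3 : ∀ b : ℝ, v.Ge b x → ∀ m : ℕ,
      v.Ge (b + (κ₁ + m * ((p - 1) * κ₁ - ε))) (y - psi h.ht s' m x) := by
    intro b hb m
    obtain ⟨N, hN⟩ := hy (b + (κ₁ + m * ((p - 1) * κ₁ - ε)))
    have e1 : y - psi h.ht s' m x = (y - psi h.ht s' (max N m) x) +
        (psi h.ht s' (max N m) x - psi h.ht s' m x) := by ring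
    rw [e1]
    exact (hN _ (le_max_left _ _)).add (h.psi_sub (le_max_right N m) x hx b hb)
  refine ⟨y, h.cld (mem_clI.2 fun c => ?_), h3⟩
  obtain ⟨N, hN⟩ := hy c
  exact ⟨_, psi_mem h.ht h.le h.hn.mem N hx, hN N le_rfl⟩

/-- The limit. -/
noncomputable def Dt.L (x : Ω) : Ω :=
  open Classical in if hx : x ∈ K then (h.exists_lim hx).choose else 0

theorem Dt.L_mem {x : Ω} (hx : x ∈ K) : h.L x ∈ X := by
  unfold Dt.L
  rw [dif_pos hx]
  exact (h.exists_lim hx).choose_spec.1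

theorem Dt.L_spec {x : Ω} (hx : x ∈ K) {b : ℝ} (hb : v.Ge b x) (m : ℕ) :
    v.Ge (b + (κ₁ + m * ((p - 1) * κ₁ - ε))) (h.L x - psi h.ht s' m x) := by
  unfold Dt.L
  rw [dif_pos hx]
  exact (h.exists_lim hx).choose_spec.2 b hb m

omit hp [CharP Ω p] in
theorem Dt.eq_zero {x : Ω} {b c : ℝ}
    (hx : ∀ m : ℕ, v.Ge (b + m * ((p - 1) * κ₁ - ε) + c) x) : x = 0 := by
  have hδ : 0 < ((p : ℝ) - 1) * κ₁ - ε := by linarith [h.h0, h.h1]
  refine eq_zero_of_ge_all (v := v) fun d => ?_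
  obtain ⟨N, hN⟩ := exists_nat_ge ((d - b - c) / (((p : ℝ) - 1) * κ₁ - ε))
  rw [div_le_iff₀ hδ] at hN
  exact (hx N).mono (by linarith)

/-- The displacement. -/
theorem Dt.L_near : Nm v K κ₁ fun x => h.L x - x := by
  intro x hx b hb
  have h1 := h.L_spec hx hb 0
  rw [Nat.cast_zero, zero_mul, add_zero] at h1
  exact h1

/-- The fixed point equation. -/
theorem Dt.L_fix {x : Ω} (hx : x ∈ K) :
    h.L x = ∑ α, h.L (cf h.ht x α) ^ p * mon s' α := by
  have hp1 : (1 : ℝ) ≤ p := by exact_mod_cast hp.out.one_lt.le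
  have hδ : 0 < ((p : ℝ) - 1) * κ₁ - ε := by linarith [h.h0, h.h1]
  rw [← sub_eq_zero]
  refine h.eq_zero (b := v x) (c := - ε) fun m => ?_
  have h1 := h.L_spec hx (v.ge_self x) (m + 1)
  have h2 : Nm v K (κ₁ + m * ((p - 1) * κ₁ - ε)) fun y => h.L y - psi h.ht s' m y :=
    fun y hy b hb => h.L_spec hy hb m
  have h3 := h2.step h.ht h.ho h.hn x hx _ (v.ge_self x)
  have e1 : h.L x - ∑ α, h.L (cf h.ht x α) ^ p * mon s' α = (h.L x - psi h.ht s' (m + 1) x) -
      ∑ α, (h.L (cf h.ht x α) - psi h.ht s' m (cf h.ht x α)) ^ p * mon s' α := by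
    have e2 : ∑ α, (h.L (cf h.ht x α) - psi h.ht s' m (cf h.ht x α)) ^ p * mon s' α =
        ∑ α, h.L (cf h.ht x α) ^ p * mon s' α - psi h.ht s' (m + 1) x := by
      rw [psi, ← Finset.sum_sub_distrib]
      refine Finset.sum_congr rfl fun α _ => ?_
      rw [sub_pow_char, sub_mul]
    rw [e2]
    ring
  rw [e1]
  have h4 : (0 : ℝ) ≤ m := Nat.cast_nonneg m
  have h5 := h.pos₁
  refine (h1.mono ?_).sub (h3.mono ?_)
  · push_cast
    nlinarith [mul_nonneg h4 hδ.le, h.h0]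
  · nlinarith [mul_nonneg h4 hδ.le, h.h0, mul_nonneg (sub_nonneg.2 hp1) (mul_nonneg h4 hδ.le),
      mul_nonneg (sub_nonneg.2 hp1) h5.le]

theorem Dt.L_add {x y : Ω} (hx : x ∈ K) (hy : y ∈ K) : h.L (x + y) = h.L x + h.L y := by
  have hadd : ∀ m : ℕ, ∀ x ∈ K, ∀ y ∈ K,
      psi h.ht s' m (x + y) = psi h.ht s' m x + psi h.ht s' m y := by
    intro m
    induction m with
    | zero => intro x _ y _; rfl
    | succ m ih =>
      intro x hx y hy
      rw [psi, psi, psi, ← Finset.sum_add_distrib]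
      refine Finset.sum_congr rfl fun α _ => ?_
      rw [cf_add h.ht hx hy, ih _ (cf_mem h.ht x α) _ (cf_mem h.ht y α), add_pow_char, add_mul]
  rw [← sub_eq_zero]
  set b := min (v x) (v y) with hb
  have hbx : v.Ge b x := (v.ge_self x).mono (min_le_left _ _)
  have hby : v.Ge b y := (v.ge_self y).mono (min_le_right _ _)
  refine h.eq_zero (b := b) (c := κ₁) fun m => ?_
  have e1 : h.L (x + y) - (h.L x + h.L y) = (h.L (x + y) - psi h.ht s' m (x + y)) -
      (h.L x - psi h.ht s' m x) - (h.L y - psi h.ht s' m y) := by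
    rw [hadd m x hx y hy]
    ring
  rw [e1]
  refine (((h.L_spec (add_mem hx hy) (hbx.add hby) m).mono ?_).sub
    ((h.L_spec hx hbx m).mono ?_)).sub ((h.L_spec hy hby m).mono ?_) <;> linarith

/-- The value on a monomial. -/
theorem Dt.L_mon {y : Ω} (hy : y ∈ K) (α : Fin n → Fin p) :
    h.L (y ^ p * mon s α) = h.L y ^ p * mon s' α := by
  classical
  have hx : y ^ p * mon s α ∈ K := mul_mem (pow_mem hy p)
    (prod_mem fun i _ => pow_mem (h.ht.mem i) _)
  have hL0 : h.L 0 = 0 := by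
    have h1 := h.L_add (zero_mem K) (zero_mem K)
    rw [add_zero] at h1
    exact left_eq_add.1 h1
  have hz : (0 : Ω) ^ p = 0 := zero_pow hp.out.ne_zero
  have e1 : y ^ p * mon s α = pcomb s (Pi.single α y : (Fin n → Fin p) → Ω) := by
    rw [pcomb, Finset.sum_eq_single α]
    · rw [Pi.single_eq_same]
    · intro β _ hβ
      rw [Pi.single_eq_of_ne hβ, hz, zero_mul]
    · exact fun h1 => absurd (Finset.mem_univ α) h1
  have hm : ∀ β, (Pi.single α y : (Fin n → Fin p) → Ω) β ∈ K := by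
    intro β
    by_cases hβ : β = α
    · rw [hβ, Pi.single_eq_same]
      exact hy
    · rw [Pi.single_eq_of_ne hβ]
      exact zero_mem K
  rw [h.L_fix hx, e1, cf_uniq h.ht hm, Finset.sum_eq_single α]
  · rw [Pi.single_eq_same]
  · intro β _ hβ
    rw [Pi.single_eq_of_ne hβ, hL0, hz, zero_mul]
  · exact fun h1 => absurd (Finset.mem_univ α) h1

theorem Dt.L_zero : h.L 0 = 0 := by
  have h1 := h.L_add (zero_mem K) (zero_mem K)
  rw [add_zero] at h1
  exact left_eq_add.1 h1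

theorem Dt.L_sum {ι : Type*} (S : Finset ι) (f : ι → Ω) (hf : ∀ i ∈ S, f i ∈ K) :
    h.L (∑ i ∈ S, f i) = ∑ i ∈ S, h.L (f i) := by
  classical
  induction S using Finset.induction_on with
  | empty => rw [Finset.sum_empty, Finset.sum_empty, h.L_zero]
  | insert a S ha ih =>
    rw [Finset.sum_insert ha, Finset.sum_insert ha,
      h.L_add (hf a (Finset.mem_insert_self a S))
        (sum_mem fun i hi => hf i (Finset.mem_insert_of_mem hi)),
      ih fun i hi => hf i (Finset.mem_insert_of_mem hi)]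

end

end Stb

end Pool.Agent.TWMF
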