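import Pool.Agent.Lib.TWMF.S5
import Pool.Agent.Lib.TWM.S8d

/-!
# TANK W: absorption on the henselization

`exists_abs_hen`: the automorphism of `exists_abs` can be chosen such that it maps `hen v E` onto
itself.  A `p`-basis `s` of the closure of `E` which lies in `hen v E` is a separating transcendence
basis of `hen v E`, hence an automorphism of the closure which maps `s` into `hen v E` maps
`hen v E` into itself.
-/

set_option autoImplicit false

open Polynomial Finset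

namespace Pool.Agent.TWMF

open Pool.Agent.H15JM (RVal)
open Pool.Agent.LU1 (VPos adj)
open Pool.Agent.D2 (Ctx0)
open Pool.Agent.D2P (hen clI mem_clI mem_hen hen_hen le_hen hen_mono hen_le)
open Pool.Agent.TW (mon pcomb Orth PBasis BD kr)
open Pool.Agent.TWM

universe u

namespace Stb

variable {k Ω : Type u} [Field k] [Field Ω] [Algebra k Ω] {v : RVal Ω}
  {E : IntermediateField k Ω} {p : ℕ}

theorem hen_le_clI : hen v E ≤ clI v E := fun _ h => mem_clI.2 (mem_hen.1 h).1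

section

variable [hp : Fact p.Prime] [CharP Ω p] {n : ℕ} {s s' : Fin n → Ω}

/-- A `p`-basis of the closure which lies in the henselization is a separating transcendence
basis. -/
theorem sep_of_pbasis [IsAlgClosed k] [CharP k p] (hE : E.FG) {m : ℕ} {t₀ : Fin m → Ω}
    (ht₀ : PBasis p E t₀) (hcl : PBasis p (clI v E) t₀) (hs : PBasis p (clI v E) s)
    (hsH : ∀ i, s i ∈ hen v E) : ∀ a ∈ hen v E, IsSeparable (kr k s) a := by
  have hnm : n = m := hs.card_eq hcl
  subst hnm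
  have htr : Algebra.trdeg k (hen v E) = Fintype.card (Fin n) := by
    rw [TW.HRLU.trdeg_hen, (ht₀.trdeg p hE).1, Fintype.card_fin]
  have hai : AlgebraicIndependent k s := by
    rw [algebraicIndependent_iff]
    exact fun P hP => TW.P4.aeval_eq_zero p hs _ P le_rfl hP
  have hmem : ∀ i, s i ∈ kr k s := fun i => IntermediateField.subset_adjoin _ _ ⟨i, rfl⟩
  have hle : kr k s ≤ hen v E := by
    rw [IntermediateField.adjoin_le_iff]
    rintro _ ⟨i, rfl⟩
    exact hsH i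
  exact sep_of_ind hle (fun a ha => alg_of_trdeg hai hsH hmem htr ha)
    (fun u hu => span_adjoin rfl hu)
    fun c hc h0 α => hs.ind c (fun α => hen_le_clI (hc α)) h0 α

omit hp [CharP Ω p] in
/-- An automorphism of the closure which maps a separating transcendence basis into the
henselization. -/
theorem hen_stable (hsH : ∀ i, s i ∈ hen v E) (hsH' : ∀ i, s' i ∈ hen v E)
    (hsep : ∀ a ∈ hen v E, IsSeparable (kr k s) a) (T : clI v E →ₐ[k] clI v E)
    (hT : ∀ i, ∀ hi : s i ∈ clI v E, (T ⟨s i, hi⟩ : Ω) = s' i) {y : Ω} (hy : y ∈ hen v E) :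
    (T ⟨y, hen_le_clI hy⟩ : Ω) ∈ hen v E := by
  have hle : kr k s ≤ hen v E := by
    rw [IntermediateField.adjoin_le_iff]
    rintro _ ⟨i, rfl⟩
    exact hsH i
  have hle' : kr k s ≤ clI v E := hle.trans hen_le_clI
  have hmap : ∀ x : Ω, ∀ _ : x ∈ kr k s, ∀ h : x ∈ clI v E, (T ⟨x, h⟩ : Ω) ∈ hen v E := by
    intro x hx
    induction hx using IntermediateField.adjoin_induction with
    | mem x hx =>
      obtain ⟨i, rfl⟩ := hx
      intro h
      rw [hT i h]
      exact hsH' i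
    | algebraMap x =>
      intro h
      have h1 : (⟨algebraMap k Ω x, h⟩ : clI v E) = algebraMap k (clI v E) x := rfl
      rw [h1, T.commutes]
      exact (hen v E).algebraMap_mem x
    | add x y hx hy ihx ihy =>
      intro h
      have h1 : (⟨x + y, h⟩ : clI v E) = ⟨x, hle' hx⟩ + ⟨y, hle' hy⟩ := rfl
      rw [h1, map_add]
      exact add_mem (ihx _) (ihy _)
    | inv x hx ihx =>
      intro h
      have h1 : (⟨x⁻¹, h⟩ : clI v E) = (⟨x, hle' hx⟩ : clI v E)⁻¹ := rfl
      rw [h1, map_inv₀]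
      exact inv_mem (ihx _)
    | mul x y hx hy ihx ihy =>
      intro h
      have h1 : (⟨x * y, h⟩ : clI v E) = ⟨x, hle' hx⟩ * ⟨y, hle' hy⟩ := rfl
      rw [h1, map_mul]
      exact mul_mem (ihx _) (ihy _)
  let τ : clI v E →+* Ω := (clI v E).val.toRingHom.comp T.toRingHom
  let i₀ : kr k s →+* clI v E := (IntermediateField.inclusion hle').toRingHom
  let σ : kr k s →+* hen v E :=
    { toFun := fun x => ⟨T ⟨x, hle' x.2⟩, hmap x x.2 _⟩
      map_one' := by
        apply Subtype.ext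
        have h1 := congrArg (fun z : clI v E => (z : Ω)) (map_one T)
        exact h1
      map_mul' := fun x y => by
        apply Subtype.ext
        have h1 := congrArg (fun z : clI v E => (z : Ω))
          (map_mul T (⟨x, hle' x.2⟩ : clI v E) ⟨y, hle' y.2⟩)
        exact h1
      map_zero' := by
        apply Subtype.ext
        have h1 := congrArg (fun z : clI v E => (z : Ω)) (map_zero T)
        exact h1
      map_add' := fun x y => by
        apply Subtype.ext
        have h1 := congrArg (fun z : clI v E => (z : Ω))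
          (map_add T (⟨x, hle' x.2⟩ : clI v E) ⟨y, hle' y.2⟩)
        exact h1 }
  have hσ : (algebraMap (hen v E) Ω).comp σ = τ.comp i₀ := RingHom.ext fun x => rfl
  have hsy := hsep y hy
  have hint := hsy.isIntegral
  have hroot : aeval (T ⟨y, hen_le_clI hy⟩ : Ω) ((minpoly (kr k s) y).map σ) = 0 := by
    rw [aeval_def, eval₂_map, hσ]
    have h1 : (T ⟨y, hen_le_clI hy⟩ : Ω) = τ ⟨y, hen_le_clI hy⟩ := rfl
    rw [h1, ← Polynomial.hom_eval₂]
    have h2 : eval₂ i₀ (⟨y, hen_le_clI hy⟩ : clI v E) (minpoly (kr k s) y) = 0 := by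
      apply (clI v E).val.injective
      rw [map_zero]
      have h3 := Polynomial.hom_eval₂ (minpoly (kr k s) y) i₀ ((clI v E).val : clI v E →+* Ω)
        (⟨y, hen_le_clI hy⟩ : clI v E)
      have h4 : ((clI v E).val : clI v E →+* Ω).comp i₀ = algebraMap (kr k s) Ω := rfl
      rw [h4] at h3
      refine h3.trans ?_
      exact minpoly.aeval (kr k s) y
    rw [h2, map_zero]
  have hsep' : IsSeparable (hen v E) (T ⟨y, hen_le_clI hy⟩ : Ω) := by
    have h1 : ((minpoly (kr k s) y).map σ).Separable := Polynomial.Separable.map hsy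
    exact h1.of_dvd (minpoly.dvd _ _ hroot)
  rw [← hen_hen, mem_hen]
  refine ⟨?_, hsep'⟩
  have h1 : (T ⟨y, hen_le_clI hy⟩ : Ω) ∈ clI v E := (T _).2
  have h2 : clI v (hen v E) = clI v E := clI_hen E
  exact mem_clI.1 ((SetLike.ext_iff.1 h2 _).2 h1)

/-- The elements of a `p`-basis are not zero. -/
theorem pb_ne {K : IntermediateField k Ω} (hs : PBasis p K s) (i : Fin n) : s i ≠ 0 := by
  have h1 := hs.mon_ne_zero (fun j => if j = i then (⟨1, hp.out.one_lt⟩ : Fin p) else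
    ⟨0, hp.out.pos⟩)
  rwa [mon_one] at h1

/-- **ABS** on the henselization, over a complete field. -/
theorem exists_abs_hen [IsAlgClosed k] [IsAlgClosed Ω] [CharP k p] (h0 : Ctx0 k v)
    (hc : CompleteV v) (hE : E.FG) (hBD : BD p v E)
    (himm : ∀ f ∈ clI v E, f ≠ 0 → ∃ g ∈ clI v E, Gt v (v f) (f - g ^ p))
    {a η : Ω} (ha : a ∈ hen v E) (hη : η ∈ hen v E) {ν κ : ℝ} (hκ : 0 < κ)
    (hν : ∀ g ∈ clI v E, ¬ Gt v ν (a - g ^ p)) (hην : v.Ge (ν + κ) η) :
    ∃ ψ : hen v E ≃ₐ[k] hen v E, (∃ b ∈ hen v E, (ψ ⟨a, ha⟩ : Ω) = a + η + b ^ p) ∧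
      ∀ x : hen v E, ∀ b : ℝ, v.Ge b (x : Ω) → v.Ge (b + κ / 2) ((ψ x : Ω) - x) := by
  obtain ⟨m, t₀, ht₀, C, ho₀⟩ := hBD
  have hcl : PBasis p (clI v E) t₀ :=
    pbasis_cl hc ht₀ (OI.of_orth_pb ho₀ ht₀) fun i => pb_ne ht₀ i
  have hK : Cld v (clI v E) := cld_clI v E
  have hHK : hen v E ≤ clI v E := hen_le_clI
  have hEK : E ≤ clI v E := le_clI E
  have hap : ∀ g ∈ clI v E, a ≠ g ^ p := by
    intro g hg h1
    refine hν g hg ?_
    rw [h1, sub_self]
    exact fun h2 => absurd rfl h2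
  obtain ⟨n, s, hs, ho, hs0, g, hg, h1, -⟩ :=
    exists_base h0 hc hK himm hcl (hHK ha) hap (e := κ / 8) (by linarith)
  have hp2 : (2 : ℝ) ≤ p := by exact_mod_cast hp.out.two_le
  have hp0 : (p : ℝ) ≠ 0 := by linarith
  -- a basis in the henselization
  have hch : ∀ i, ∃ y ∈ hen v E, v.Ge (v (s i) + κ) (y - s i) ∧
      (i = 0 → ∃ g' ∈ E, y = a - g' ^ p) := by
    intro i
    by_cases hi : i = 0
    · subst hi
      obtain ⟨g', hg', h2⟩ := mem_clI.1 hg ((v (s 0) + κ) / p)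
      refine ⟨a - g' ^ p, sub_mem ha (pow_mem (le_hen E hg') p), ?_, fun _ => ⟨g', hg', rfl⟩⟩
      have h3 := ge_pow h2 p
      rw [sub_pow_char] at h3
      have h4 : a - g' ^ p - s 0 = g ^ p - g' ^ p := by rw [h1]; ring
      rw [h4]
      exact h3.mono (by rw [mul_div_cancel₀ _ hp0])
    · obtain ⟨y, hy, h2⟩ := mem_clI.1 (hs.mem i) (v (s i) + κ)
      refine ⟨y, le_hen E hy, ?_, fun h => absurd h hi⟩
      have h3 := h2.neg
      rwa [neg_sub] at h3
  choose s₁ hs₁H hs₁n hs₁0 using hch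
  have hn₁ : Nrs v (clI v E) s s₁ κ := ⟨hs0, fun i => hHK (hs₁H i), hs₁n, hκ⟩
  have hD₁ : Dt p v (clI v E) (clI v E) s s₁ (κ / 8) κ (κ / 2) :=
    ⟨hc, hK, le_rfl, hs, ho, hn₁, by linarith, by nlinarith, by linarith⟩
  obtain ⟨T, h2, h3⟩ := hD₁.exists_aut h0
  have e1 : (fun i => (T ⟨s i, hs.mem i⟩ : Ω)) = s₁ := funext fun i => h2 i (hs.mem i)
  have hs₁ : PBasis p (clI v E) s₁ := by
    have h4 := pbasis_map hs T
    rwa [e1] at h4
  have ho₁ : OI p v (clI v E) s₁ (κ / 8) := by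
    have h4 := oi_map hs ho T (by linarith) h3
    rwa [e1] at h4
  -- the motion
  obtain ⟨g', hg', h4⟩ := hs₁0 0 rfl
  have h5 := (not_gt (hν g' (hEK hg'))).2
  rw [← h4] at h5
  have hn₂ := nrs_update hs₁.mem (pb_ne hs₁) (hHK hη) hκ (hην.mono (by linarith))
  have hD₂ : Dt p v (clI v E) (clI v E) s₁ (Function.update s₁ 0 (s₁ 0 + η)) (κ / 8) κ (κ / 2) :=
    ⟨hc, hK, le_rfl, hs₁, ho₁, hn₂, by linarith, by nlinarith, by linarith⟩
  obtain ⟨ψ, h6, h7⟩ := hD₂.exists_aut h0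
  have e2 : (fun i => (ψ ⟨s₁ i, hs₁.mem i⟩ : Ω)) = Function.update s₁ 0 (s₁ 0 + η) :=
    funext fun i => h6 i (hs₁.mem i)
  have hs₂ : PBasis p (clI v E) (Function.update s₁ 0 (s₁ 0 + η)) := by
    have h8 := pbasis_map hs₁ ψ
    rwa [e2] at h8
  have hs₂H : ∀ i, Function.update s₁ 0 (s₁ 0 + η) i ∈ hen v E := by
    intro i
    by_cases hi : i = 0
    · subst hi
      rw [Function.update_self]
      exact add_mem (hs₁H 0) hη
    · rw [Function.update_of_ne hi]
      exact hs₁H i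
  have hsep₁ := sep_of_pbasis hE ht₀ hcl hs₁ hs₁H
  have hsep₂ := sep_of_pbasis hE ht₀ hcl hs₂ hs₂H
  have hst₁ : ∀ y, ∀ hy : y ∈ hen v E, (ψ ⟨y, hHK hy⟩ : Ω) ∈ hen v E := fun y hy =>
    hen_stable hs₁H hs₂H hsep₁ (ψ : clI v E →ₐ[k] clI v E) h6 hy
  have hst₂ : ∀ y, ∀ hy : y ∈ hen v E, (ψ.symm ⟨y, hHK hy⟩ : Ω) ∈ hen v E := fun y hy =>
    hen_stable hs₂H hs₁H hsep₂ (ψ.symm : clI v E →ₐ[k] clI v E) (fun i hi => by
      have h8 : (⟨Function.update s₁ 0 (s₁ 0 + η) i, hi⟩ : clI v E) = ψ ⟨s₁ i, hs₁.mem i⟩ :=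
        Subtype.ext (h6 i (hs₁.mem i)).symm
      show (ψ.symm ⟨Function.update s₁ 0 (s₁ 0 + η) i, hi⟩ : Ω) = s₁ i
      rw [h8, AlgEquiv.symm_apply_apply]) hy
  let f : hen v E →ₐ[k] hen v E :=
    { toFun := fun x => ⟨ψ ⟨x, hHK x.2⟩, hst₁ x x.2⟩
      map_one' := by
        apply Subtype.ext
        have h1 := congrArg (fun z : clI v E => (z : Ω)) (map_one ψ)
        exact h1
      map_mul' := fun x y => by
        apply Subtype.ext
        have h1 := congrArg (fun z : clI v E => (z : Ω))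
          (map_mul ψ (⟨x, hHK x.2⟩ : clI v E) ⟨y, hHK y.2⟩)
        exact h1
      map_zero' := by
        apply Subtype.ext
        have h1 := congrArg (fun z : clI v E => (z : Ω)) (map_zero ψ)
        exact h1
      map_add' := fun x y => by
        apply Subtype.ext
        have h1 := congrArg (fun z : clI v E => (z : Ω))
          (map_add ψ (⟨x, hHK x.2⟩ : clI v E) ⟨y, hHK y.2⟩)
        exact h1
      commutes' := fun c => by
        apply Subtype.ext
        have h1 := congrArg (fun z : clI v E => (z : Ω)) (ψ.commutes c)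
        exact h1 }
  have hbij : Function.Bijective f := by
    refine ⟨f.injective, fun y => ?_⟩
    refine ⟨⟨ψ.symm ⟨y, hHK y.2⟩, hst₂ y y.2⟩, ?_⟩
    apply Subtype.ext
    show (ψ (ψ.symm ⟨y, hHK y.2⟩) : Ω) = y
    rw [AlgEquiv.apply_symm_apply]
  refine ⟨AlgEquiv.ofBijective f hbij, ?_, fun x b hb => h7 ⟨x, hHK x.2⟩ b hb⟩
  have h8 := h6 0 (hs₁.mem 0)
  rw [Function.update_self] at h8
  have h9 : (⟨a, hHK ha⟩ : clI v E) = ⟨s₁ 0, hs₁.mem 0⟩ + ⟨g', hEK hg'⟩ ^ p := by
    apply Subtype.ext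
    push_cast
    rw [h4]
    ring
  refine ⟨(ψ ⟨g', hEK hg'⟩ : Ω) - g', sub_mem (hst₁ g' (le_hen E hg')) (le_hen E hg'), ?_⟩
  show (ψ ⟨a, hHK ha⟩ : Ω) = _
  rw [h9, map_add, map_pow]
  push_cast
  rw [h8, h4, sub_pow_char]
  ring

end

end Stb

end Pool.Agent.TWMF
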