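import Pool.Agent.Lib.TWMF.X1
import Pool.Agent.Lib.TWMF.F12

/-!
# TANK W, exit, 2: motions from exit data

`exists_mot_xd`: exit data at coordinates `t` of `K₀` give motions of `K₀`, `t ↦ H(c ^ p)`, which
control a given finite set.
-/

set_option autoImplicit false

open Polynomial Filter Topology

namespace Pool.Agent.TWMF

open Pool.Agent.H15JM (RVal)
open Pool.Agent.LU1 (VPos adj)
open Pool.Agent.D2 (Ctx0)
open Pool.Agent.D2P (hen hen_hen le_hen hen_mono hen_le mem_hen mem_adj_self adj_le)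
open Pool.Agent.TWM (Gt)
open Pool.Agent.TW WM13

universe u

variable {k Ω : Type u} [Field k] [Field Ω] [Algebra k Ω] {v : RVal Ω}

/-- A number which is not commensurable with the values. -/
theorem exists_irr {r : ℕ} (h : Ctx k v r) {a b : ℝ} (hab : a < b) :
    ∃ ρ : ℝ, a < ρ ∧ ρ < b ∧ ∀ (m : ℤ) (f : Ω), m ≠ 0 → f ≠ 0 → v f ≠ m * ρ := by
  obtain ⟨X, -, -, h1⟩ := h.rank
  set W : Submodule ℚ ℝ := Submodule.span ℚ (Set.range fun i => v (X i)) with hW
  have hc : (W : Set ℝ).Countable := by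
    refine (Set.countable_range fun c : Fin r → ℚ => ∑ i, c i • v (X i)).mono fun x hx => ?_
    obtain ⟨c, hc⟩ := (Submodule.mem_span_range_iff_exists_fun ℚ).1 hx
    exact ⟨c, hc⟩
  have hd : Dense (W : Set ℝ)ᶜ := hc.dense_compl ℝ
  obtain ⟨ρ, h2, h3⟩ := hd.exists_between hab
  refine ⟨ρ, h3.1, h3.2, fun m f hm hf h4 => h2 ?_⟩
  have h5 : ρ = ((m : ℚ)⁻¹) • v f := by
    rw [h4, Rat.smul_def]
    have : (m : ℝ) ≠ 0 := by exact_mod_cast hm
    push_cast
    field_simp
  rw [h5]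
  exact W.smul_mem _ (h1 f hf)

section Bot

variable [IsAlgClosed k]

theorem hen_bot : hen v (⊥ : IntermediateField k Ω) = ⊥ := by
  refine le_antisymm (fun x hx => ?_) (le_hen _)
  have h1 : IsAlgebraic (⊥ : IntermediateField k Ω) x := (mem_hen.1 hx).2.isIntegral.isAlgebraic
  have h2 : Algebra.IsAlgebraic k (⊥ : IntermediateField k Ω) := by
    refine ⟨fun a => ?_⟩
    obtain ⟨c, hc⟩ := IntermediateField.mem_bot.1 a.2
    have h3 : a = algebraMap k (⊥ : IntermediateField k Ω) c := Subtype.ext hc.symm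
    rw [h3]
    exact isAlgebraic_algebraMap c
  have h3 : IsAlgebraic k x := h1.restrictScalars k
  have h4 : Algebra.IsAlgebraic k (IntermediateField.adjoin k {x}) :=
    IntermediateField.isAlgebraic_adjoin_simple h3.isIntegral
  rw [← IntermediateField.eq_bot_of_isAlgClosed_of_isAlgebraic (IntermediateField.adjoin k {x})]
  exact IntermediateField.mem_adjoin_simple_self k x

/-- The polynomials over `hen v ⊥` are polynomials over `k`. -/
theorem exists_poly_bot {m : ℕ} (P : MvPolynomial (Fin m) (hen v (⊥ : IntermediateField k Ω))) :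
    ∃ P' : MvPolynomial (Fin m) k, ∀ (A : Type u) [CommRing A] [Algebra k A]
      [Algebra (hen v (⊥ : IntermediateField k Ω)) A]
      [IsScalarTower k (hen v (⊥ : IntermediateField k Ω)) A] (T : Fin m → A),
      MvPolynomial.aeval T P = MvPolynomial.aeval T P' := by
  have hs : Function.Surjective (algebraMap k (hen v (⊥ : IntermediateField k Ω))) := by
    intro c
    have h1 := (hen_bot (v := v)).le c.2
    obtain ⟨c', hc'⟩ := IntermediateField.mem_bot.1 h1
    exact ⟨c', Subtype.ext hc'⟩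
  obtain ⟨P', rfl⟩ := MvPolynomial.map_surjective _ hs P
  exact ⟨P', fun A _ _ _ _ T => MvPolynomial.aeval_map_algebraMap _ T P'⟩

theorem algInd_bot {m : ℕ} {t : Fin m → Ω} (ht : AlgebraicIndependent k t) :
    AlgebraicIndependent (hen v (⊥ : IntermediateField k Ω)) t := by
  rw [algebraicIndependent_iff]
  intro P hP
  have hs : Function.Surjective (algebraMap k (hen v (⊥ : IntermediateField k Ω))) := by
    intro c
    have h1 := (hen_bot (v := v)).le c.2
    obtain ⟨c', hc'⟩ := IntermediateField.mem_bot.1 h1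
    exact ⟨c', Subtype.ext hc'⟩
  obtain ⟨P', rfl⟩ := MvPolynomial.map_surjective _ hs P
  rw [MvPolynomial.aeval_map_algebraMap] at hP
  rw [ht.eq_zero_of_aeval_eq_zero P' hP, map_zero]

theorem nadj_bot {m : ℕ} (t : Fin m → Ω) :
    nadj (hen v (⊥ : IntermediateField k Ω)) t = kr k t := by
  apply le_antisymm
  · refine nadj_le ?_ fun j => IntermediateField.subset_adjoin k _ ⟨j, rfl⟩
    rw [hen_bot]
    exact bot_le
  · refine IntermediateField.adjoin_le_iff.2 ?_
    rintro _ ⟨j, rfl⟩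
    exact self_mem_nadj _ t j

end Bot

/-- Polynomials in `δ`. -/
theorem fgs_eval {δ : ℕ → Ω} {ρ : ℝ} (hsq : Sq v δ ρ) (F : Polynomial Ω) :
    FGS hsq fun i => F.eval (δ i) := by
  have h1 : FGS hsq δ := by
    have := FGS.zpow hsq 1
    simpa only [zpow_one] using this
  have h2 : FGS hsq fun i => ∑ j ∈ Finset.range (F.natDegree + 1), F.coeff j * δ i ^ j :=
    FGS.sum _ fun j _ => (FGS.const hsq (F.coeff j)).mul (h1.pow j)
  simpa only [← eval_eq_sum_range] using h2

theorem aeval_mem_kr {m : ℕ} {t : Fin m → Ω} {M : IntermediateField k Ω} (ht : ∀ i, t i ∈ M)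
    (P : MvPolynomial (Fin m) k) : MvPolynomial.aeval t P ∈ M := by
  induction P using MvPolynomial.induction_on with
  | C c =>
    rw [MvPolynomial.aeval_C]
    exact M.algebraMap_mem c
  | add P Q hP hQ =>
    rw [map_add]
    exact add_mem hP hQ
  | mul_X P i hP =>
    rw [map_mul, MvPolynomial.aeval_X]
    exact mul_mem hP (ht i)

theorem aeval_mv {m : ℕ} (H : Fin m → Polynomial Ω) (d : Ω) (P : MvPolynomial (Fin m) k) :
    MvPolynomial.aeval (mv H d) P = (MvPolynomial.aeval H P).eval d := by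
  have h10 := MvPolynomial.comp_aeval_apply (R := k) H
    ((Polynomial.aeval d).restrictScalars k : Polynomial Ω →ₐ[k] Ω) P
  have h11 : (fun j => ((Polynomial.aeval d).restrictScalars k :
      Polynomial Ω →ₐ[k] Ω) (H j)) = mv H d := by
    funext j
    show Polynomial.aeval d (H j) = (H j).eval d
    rw [Polynomial.coe_aeval_eq_eval]
  rw [h11] at h10
  rw [← h10]
  show Polynomial.aeval d _ = _
  rw [Polynomial.coe_aeval_eq_eval]

omit [Algebra k Ω] in
/-- The leading term of a polynomial. -/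
theorem lts_eval {d : ℕ → Ω} {ρ : ℝ} (hlim : Tendsto (fun i => v (d i)) atTop (𝓝 ρ))
    {F : Polynomial Ω} {l : ℕ} (hl : F.coeff l ≠ 0)
    (hF : ∀ i : ℕ, i ≠ l → Gt v (v (F.coeff l) + l * ρ - i * ρ) (F.coeff i)) :
    LTs v d (fun i => F.eval (d i)) (F.coeff l) (l : ℤ) := by
  classical
  refine ⟨hl, ?_⟩
  have key : ∀ j ∈ (Finset.range (F.natDegree + 1)).erase l, ∀ᶠ i in atTop,
      Gt v (v (F.coeff l) + ((l : ℤ) : ℝ) * v (d i)) (F.coeff j * d i ^ j) := by
    intro j hj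
    have hjl := (Finset.mem_erase.1 hj).1
    by_cases h0 : F.coeff j = 0
    · refine Eventually.of_forall fun i => ?_
      rw [h0, zero_mul]
      exact TWM.Gt.zero
    have h1 := hF j hjl h0
    have h2 : Tendsto (fun i => v (F.coeff j) + j * v (d i) - (v (F.coeff l) + l * v (d i))) atTop
        (𝓝 (v (F.coeff j) + j * ρ - (v (F.coeff l) + l * ρ))) :=
      (tendsto_const_nhds.add (hlim.const_mul _)).sub (tendsto_const_nhds.add (hlim.const_mul _))
    filter_upwards [h2.eventually_const_lt (u := 0) (by linarith)] with i hi h3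
    have h4 : d i ^ j ≠ 0 := right_ne_zero_of_mul h3
    rw [v.map_mul h0 h4]
    have h5 : v (d i ^ j) = j * v (d i) := by
      by_cases hj0 : j = 0
      · rw [hj0, pow_zero, v.map_one, Nat.cast_zero, zero_mul]
      · exact v.map_pow (fun h6 => h4 (by rw [h6, zero_pow hj0])) j
    rw [h5]
    push_cast
    linarith
  filter_upwards [(Filter.eventually_all_finset _).2 key] with i hi
  have e : F.eval (d i) - F.coeff l * d i ^ (l : ℤ) =
      ∑ j ∈ (Finset.range (F.natDegree + 1)).erase l, F.coeff j * d i ^ j := by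
    rw [eval_eq_sum_range, zpow_natCast]
    have hlr : l ∈ Finset.range (F.natDegree + 1) := by
      rw [Finset.mem_range]
      have := le_natDegree_of_ne_zero hl
      omega
    rw [← Finset.add_sum_erase _ _ hlr, add_sub_cancel_left]
  rw [e]
  exact Gt.sum _ _ fun j hj => hi j hj

/-- **Motions from exit data.** -/
theorem exists_mot_xd [IsAlgClosed k] [IsAlgClosed Ω] {p : ℕ} {r : ℕ}
    (h : Ctx k v r) {K₀ : IntermediateField k Ω} (hK : K₀.FG) (hΩ : ∀ g : Ω, IsAlgebraic K₀ g)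
    {m : ℕ} {t : Fin m → Ω} {H : Fin m → Polynomial Ω} {σ : ℝ} (hX : XD k p v t H σ)
    (ht : hen v K₀ = hen v (kr k t))
    (hgen : ∀ B₀ : ℝ, ∃ Λ : ℝ, ∀ (d d' : Ω) (E : IntermediateField k Ω), v.Ge B₀ d →
      v.Ge Λ (d - d') → E.FG → E ≤ hen v K₀ → d' ∈ E → (∀ i, mv H d i ∈ E) →
      hen v E = hen v K₀)
    (S : Finset Ω) (hS : ∀ f ∈ S, f ∈ hen v K₀) {ε₀ : ℝ} (hε₀ : 0 < ε₀) :
    ∃ (φ : ℕ → (Ω ≃ₐ[k] Ω)) (c : ℕ → Ω) (ρ ε : ℝ), 0 < ε ∧ σ - ε₀ < ρ ∧ ρ < σ ∧
      (∀ i, c i ∈ kr k t) ∧ (∀ i, v.Ge (σ - ε₀) (c i ^ p)) ∧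
      (∀ i j, φ i (t j) = mv H (c i ^ p) j) ∧ (∀ i, ∀ f ∈ S, Rc v ε (φ i) f) ∧
      Mot v K₀ φ (fun i => c i ^ p) ρ := by
  classical
  set B : IntermediateField k Ω := ⊥ with hB
  have hfg : B.FG := IntermediateField.fg_bot
  have htE : hen v K₀ = hen v (nadj (hen v B) t) := by rw [nadj_bot, ht]
  obtain ⟨T, L, hTne, hSL, hKL, hEL, hLE, hmot⟩ := exists_mot_coord h hK hΩ hfg
    (algInd_bot (v := v) hX.ind) htE S hS
  -- the control
  obtain ⟨ε, hε, hctl⟩ := TWEX.ctl_of_str (v := v) (N := hen v B) (H := H) (t := t) (σ := σ) hX.c0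
    (fun P hP l hl => by
      obtain ⟨P', hP'⟩ := exists_poly_bot (v := v) P
      rw [hP' Ω t, hP' (Polynomial Ω) H]
      refine hX.str P' (fun h0 => hP ?_) l hl
      have h1 := hP' Ω t
      rw [h0, map_zero] at h1
      exact (algInd_bot (v := v) hX.ind).eq_zero_of_aeval_eq_zero P h1) T (fun P hP h0 => by
      apply hTne P hP
      rw [h0, map_zero])
  obtain ⟨Λ, hΛ⟩ := hgen (σ - 1)
  obtain ⟨σ₀, hσ₀, hamt⟩ := hX.amt Λ
  -- the radius
  obtain ⟨σ₁, hσ₁, hcross⟩ := hX.cross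
  obtain ⟨lo, hlo⟩ : ∃ lo, lo = max (max (max σ₀ σ₁) (σ - ε)) (max (σ - ε₀) (σ - 1)) := ⟨_, rfl⟩
  have hlo1 : σ₀ ≤ lo := by
    rw [hlo]
    exact ((le_max_left _ _).trans (le_max_left _ _)).trans (le_max_left _ _)
  have hlo5 : σ₁ ≤ lo := by
    rw [hlo]
    exact ((le_max_right _ _).trans (le_max_left _ _)).trans (le_max_left _ _)
  have hlo2 : σ - ε ≤ lo := by
    rw [hlo]
    exact (le_max_right _ _).trans (le_max_left _ _)
  have hlo3 : σ - ε₀ ≤ lo := by
    rw [hlo]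
    exact (le_max_left _ _).trans (le_max_right _ _)
  have hlo4 : σ - 1 ≤ lo := by
    rw [hlo]
    exact (le_max_right _ _).trans (le_max_right _ _)
  have hlt : lo < σ := by
    rw [hlo]
    refine max_lt (max_lt (max_lt hσ₀ hσ₁) (by linarith)) (max_lt (by linarith) (by linarith))
  obtain ⟨ρ, hρ1, hρ2, hirr⟩ := exists_irr h hlt
  obtain ⟨P₀, l, hl, hb, hcr⟩ := hcross ρ (by linarith) hρ2
  -- the amounts
  have hex : ∀ i : ℕ, ∃ P Q : MvPolynomial (Fin m) k, ∃ d : Ω, MvPolynomial.aeval t P ≠ 0 ∧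
      MvPolynomial.aeval t Q ≠ 0 ∧ d = (MvPolynomial.aeval t P / MvPolynomial.aeval t Q) ^ p ∧
      max lo (ρ - 1 / (i + 1)) < v d ∧ v d < ρ ∧
      v.Ge Λ (d - (MvPolynomial.aeval (mv H d) P / MvPolynomial.aeval (mv H d) Q) ^ p) := by
    intro i
    exact hamt _ _ (hlo1.trans (le_max_left _ _)) (max_lt hρ1 (by
      have : (0 : ℝ) < 1 / (i + 1) := by positivity
      linarith)) hρ2.le
  choose P Q d hP hQ hd h1 h2 h3 using hex
  obtain ⟨c, hc⟩ : ∃ c : ℕ → Ω, ∀ i, c i = MvPolynomial.aeval t (P i) / MvPolynomial.aeval t (Q i) :=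
    ⟨_, fun _ => rfl⟩
  have hcd : ∀ i, c i ^ p = d i := fun i => by rw [hc, hd]
  have hd0 : ∀ i, d i ≠ 0 := fun i => by
    rw [hd]
    exact pow_ne_zero _ (div_ne_zero (hP i) (hQ i))
  have hdlo : ∀ i, lo < v (d i) := fun i => (le_max_left _ _).trans_lt (h1 i)
  have hlim : Tendsto (fun i => v (d i)) atTop (𝓝 ρ) := by
    have h4 : Tendsto (fun i : ℕ => ρ - 1 / ((i : ℝ) + 1)) atTop (𝓝 ρ) := by
      have := tendsto_one_div_add_atTop_nhds_zero_nat (𝕜 := ℝ)
      simpa using (tendsto_const_nhds (x := ρ)).sub this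
    exact tendsto_of_tendsto_of_tendsto_of_le_of_le h4 tendsto_const_nhds
      (fun i => (le_max_right lo _).trans (h1 i).le) (fun i => (h2 i).le)
  have hsq : Sq v d ρ := ⟨hd0, hlim, hirr⟩
  have hge : ∀ i (c : ℝ), c ≤ lo → v.Ge c (d i) := fun i c hc _ => hc.trans (hdlo i).le
  -- membership
  have htK : ∀ i, t i ∈ hen v K₀ := fun i => by
    rw [ht]
    exact le_hen _ (IntermediateField.subset_adjoin k _ ⟨i, rfl⟩)
  have hHK : ∀ i l, (H i).coeff l ∈ hen v K₀ := by
    intro i l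
    by_cases hl : l = 0
    · rw [hl, hX.c0]
      exact htK i
    · obtain ⟨P, Q, -, -, -, h4⟩ := hX.tri i l hl
      rw [h4]
      exact div_mem (aeval_mem_kr htK P) (aeval_mem_kr htK Q)
  have hcK : ∀ i, c i ∈ kr k t := fun i => by
    rw [hc]
    have h4 : ∀ i, t i ∈ kr k t := fun i => IntermediateField.subset_adjoin k _ ⟨i, rfl⟩
    exact div_mem (aeval_mem_kr h4 _) (aeval_mem_kr h4 _)
  have hdK : ∀ i, d i ∈ hen v K₀ := fun i => by
    rw [hd]
    exact pow_mem (div_mem (aeval_mem_kr htK _) (aeval_mem_kr htK _)) _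
  have hmvK : ∀ i j, mv H (d i) j ∈ hen v K₀ := by
    intro i j
    unfold mv
    rw [eval_eq_sum_range]
    exact sum_mem fun l _ => mul_mem (hHK j l) (pow_mem (hdK i) l)
  -- generation
  have hh : ∀ i, hen v (nadj (hen v B) (mv H (d i))) = hen v K₀ := by
    intro i
    rw [nadj_bot]
    have hm : ∀ j, mv H (d i) j ∈ kr k (mv H (d i)) := fun j =>
      IntermediateField.subset_adjoin k _ ⟨j, rfl⟩
    refine hΛ (d i) _ _ (hge i _ hlo4) (h3 i) ?_ ?_ ?_ hm
    · exact IntermediateField.fg_def.2 ⟨_, Set.finite_range _, rfl⟩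
    · refine IntermediateField.adjoin_le_iff.2 ?_
      rintro _ ⟨j, rfl⟩
      exact hmvK i j
    · exact pow_mem (div_mem (aeval_mem_kr hm _) (aeval_mem_kr hm _)) _
  have hΩt : ∀ g : Ω, IsAlgebraic (nadj (hen v B) t) g :=
    isAlgebraic_of_hen hΩ ((le_hen K₀).trans htE.le)
  obtain ⟨φ, -, h4, h5, -, -, h6⟩ := hmot hsq (fun i => mv H (d i)) hε
    (fun i => algInd_of_alg (algInd_bot (v := v) hX.ind) hΩt
      (isAlgebraic_of_hen hΩ ((le_hen K₀).trans (hh i).ge)))
    (fun i R hR => hctl (d i) (hge i _ hlo2) R hR)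
    (fun j => fgs_eval hsq (H j)) hh (by
      refine ⟨MvPolynomial.map (algebraMap k (hen v B)) P₀, (MvPolynomial.aeval H P₀).coeff l,
        (l : ℤ), by exact_mod_cast hl, ?_⟩
      have e : (fun i => MvPolynomial.aeval (mv H (d i)) (MvPolynomial.map (algebraMap k (hen v B)) P₀))
          = fun i => (MvPolynomial.aeval H P₀).eval (d i) := by
        funext i
        rw [MvPolynomial.aeval_map_algebraMap, aeval_mv]
      rw [e]
      exact lts_eval hlim hb hcr)
  refine ⟨φ, c, ρ, ε, hε, by linarith, hρ2, hcK, fun i => ?_, fun i j => ?_, h5, ?_⟩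
  · rw [hcd]
    exact hge i _ hlo3
  · rw [hcd]
    exact h4 i j
  · have e : (fun i => c i ^ p) = d := funext hcd
    rw [e]
    exact h6

end Pool.Agent.TWMF
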