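import Pool.Agent.Lib.TWMF.X4

/-!
# TANK W, exit, 5: exit data, general form

`XG k v T H σ`: as `XD`, without triangularity: the jets of `T` are in `k(T)`, and the coordinates `T`
are limits of elements of the moved field, for nearly constant amounts (`back`).
`exists_mot_xg`: motions.
-/

set_option autoImplicit false

open Polynomial Filter Topology

namespace Pool.Agent.TWMF

open Pool.Agent.H15JM (RVal)
open Pool.Agent.LU1 (VPos adj)
open Pool.Agent.D2 (Ctx0)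
open Pool.Agent.D2P (hen hen_hen le_hen hen_mono hen_le mem_hen mem_adj_self adj_le)
open Pool.Agent.TWM (Gt)
open Pool.Agent.TWS (IsoE)
open Pool.Agent.TW WM13

universe u

/-- Exit data, general form. -/
structure XG (k : Type u) {Ω : Type u} [Field k] [Field Ω] [Algebra k Ω] (v : RVal Ω)
    {m : ℕ} (T : Fin m → Ω) (H : Fin m → Polynomial Ω) (σ : ℝ) : Prop where
  ind : AlgebraicIndependent k T
  c0 : ∀ i, (H i).coeff 0 = T i
  mem : ∀ i, ∀ l : ℕ, (H i).coeff l ∈ kr k T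
  str : ∀ P : MvPolynomial (Fin m) k, P ≠ 0 → ∀ l : ℕ, l ≠ 0 →
    Gt v (v (MvPolynomial.aeval T P) - l * σ) ((MvPolynomial.aeval H P).coeff l)
  amt : ∀ Λ : ℝ, ∃ σ₀ : ℝ, σ₀ < σ ∧ ∀ a b : ℝ, σ₀ ≤ a → a < b → b ≤ σ →
    ∃ d ∈ kr k T, ∃ d' ∈ kr k (mv H d), d ≠ 0 ∧ a < v d ∧ v d < b ∧ v.Ge Λ (d - d')
  cross : ∃ σ₁ : ℝ, σ₁ < σ ∧ ∀ ρ : ℝ, σ₁ < ρ → ρ < σ → ∃ (P : MvPolynomial (Fin m) k) (l : ℕ),
    l ≠ 0 ∧ (MvPolynomial.aeval H P).coeff l ≠ 0 ∧ ∀ i : ℕ, i ≠ l →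
      Gt v (v ((MvPolynomial.aeval H P).coeff l) + l * ρ - i * ρ) ((MvPolynomial.aeval H P).coeff i)
  back : ∀ Λ : ℝ, ∃ σ₂ : ℝ, σ₂ < σ ∧ ∃ Λ' : ℝ, ∀ d ∈ kr k T, ∀ d' ∈ kr k (mv H d),
    v.Ge σ₂ d → v.Ge Λ' (d - d') →
      ∃ s : Fin m → Ω, (∀ i, s i ∈ kr k (mv H d)) ∧ ∀ i, v.Ge Λ (T i - s i)

section Map

variable {k E Ω : Type u} [Field k] [Field E] [Algebra k E] [Field Ω] [Algebra k Ω]
  {f : E →ₐ[k] Ω} {m : ℕ} {T : Fin m → E} {H : Fin m → Polynomial E}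

theorem map_mem_kr {x : E} : f x ∈ kr k (fun i => f (T i)) ↔ x ∈ kr k T := by
  rw [← TWEX.map_kr]
  constructor
  · rintro ⟨y, hy, h⟩
    rwa [← f.injective h]
  · exact fun h => ⟨x, h, rfl⟩

theorem exists_of_mem_kr {y : Ω} (hy : y ∈ kr k fun i => f (T i)) : ∃ x ∈ kr k T, f x = y := by
  rw [← TWEX.map_kr] at hy
  obtain ⟨x, hx, h⟩ := hy
  exact ⟨x, hx, h⟩

variable {u : RVal E} {v : RVal Ω} {σ : ℝ}

/-- Images. -/
theorem XG.map (h : XG k u T H σ) (hf : IsoE u v f) :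
    XG k v (fun i => f (T i)) (fun i => (H i).map (f : E →+* Ω)) σ where
  ind := (f.algebraicIndependent_iff f.injective).2 h.ind
  c0 i := by
    rw [coeff_map, h.c0]
    rfl
  mem i l := by
    rw [coeff_map]
    exact map_mem_kr.2 (h.mem i l)
  str P hP l hl := by
    have hne : MvPolynomial.aeval T P ≠ 0 := fun h0 => hP (h.ind.eq_zero_of_aeval_eq_zero P h0)
    rw [← map_aeval, ← map_aevalH, coeff_map, hf.val _ hne]
    exact hf.gt_iff.2 (h.str P hP l hl)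
  amt Λ := by
    obtain ⟨σ₀, h1, h2⟩ := h.amt Λ
    refine ⟨σ₀, h1, fun a b ha hab hb => ?_⟩
    obtain ⟨d, hd, d', hd', h0, h3, h4, h5⟩ := h2 a b ha hab hb
    have e : mv (fun i => (H i).map (f : E →+* Ω)) (f d) = fun i => f (mv H d i) :=
      funext fun i => map_mv f H d i
    refine ⟨f d, map_mem_kr.2 hd, f d', ?_, IsoE.ne_zero h0, ?_, ?_, ?_⟩
    · rw [e]
      exact map_mem_kr.2 hd'
    · rwa [hf.val d h0]
    · rwa [hf.val d h0]
    · rw [← map_sub]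
      exact hf.ge_iff.2 h5
  cross := by
    obtain ⟨σ₁, h0, h1⟩ := h.cross
    refine ⟨σ₁, h0, fun ρ h2 h3 => ?_⟩
    obtain ⟨P, l, hl, hb, h4⟩ := h1 ρ h2 h3
    have e : ∀ i, (MvPolynomial.aeval (fun i => (H i).map (f : E →+* Ω)) P).coeff i =
        f ((MvPolynomial.aeval H P).coeff i) := fun i => by
      rw [← map_aevalH, coeff_map]
      rfl
    refine ⟨P, l, hl, ?_, fun i hi => ?_⟩
    · rw [e]
      exact IsoE.ne_zero hb
    · rw [e, e, hf.val _ hb]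
      exact hf.gt_iff.2 (h4 i hi)
  back Λ := by
    obtain ⟨σ₂, h0, Λ', h1⟩ := h.back Λ
    refine ⟨σ₂, h0, Λ', fun d hd d' hd' h2 h3 => ?_⟩
    obtain ⟨d, hd1, rfl⟩ := exists_of_mem_kr hd
    have e : mv (fun i => (H i).map (f : E →+* Ω)) (f d) = fun i => f (mv H d i) :=
      funext fun i => map_mv f H d i
    rw [e] at hd' ⊢
    obtain ⟨d', hd1', rfl⟩ := exists_of_mem_kr hd'
    rw [← map_sub] at h3
    obtain ⟨s, hs, hs'⟩ := h1 d hd1 d' hd1' (hf.ge_iff.1 h2) (hf.ge_iff.1 h3)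
    refine ⟨fun i => f (s i), fun i => map_mem_kr.2 (hs i), fun i => ?_⟩
    rw [← map_sub]
    exact hf.ge_iff.2 (hs' i)

/-- Preimages. -/
theorem XG.comap (h : XG k v (fun i => f (T i)) (fun i => (H i).map (f : E →+* Ω)) σ)
    (hf : IsoE u v f) : XG k u T H σ where
  ind := (f.algebraicIndependent_iff f.injective).1 h.ind
  c0 i := by
    have h1 := h.c0 i
    rw [coeff_map] at h1
    exact f.injective h1
  mem i l := by
    have h1 := h.mem i l
    rw [coeff_map] at h1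
    exact map_mem_kr.1 h1
  str P hP l hl := by
    have hind := (f.algebraicIndependent_iff f.injective).1 h.ind
    have hne : MvPolynomial.aeval T P ≠ 0 := fun h0 => hP (hind.eq_zero_of_aeval_eq_zero P h0)
    have h1 := h.str P hP l hl
    rw [← map_aeval, ← map_aevalH, coeff_map, hf.val _ hne] at h1
    exact hf.gt_iff.1 h1
  amt Λ := by
    obtain ⟨σ₀, h1, h2⟩ := h.amt Λ
    refine ⟨σ₀, h1, fun a b ha hab hb => ?_⟩
    obtain ⟨d, hd, d', hd', h0, h3, h4, h5⟩ := h2 a b ha hab hb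
    obtain ⟨d, hd1, rfl⟩ := exists_of_mem_kr hd
    have e : mv (fun i => (H i).map (f : E →+* Ω)) (f d) = fun i => f (mv H d i) :=
      funext fun i => map_mv f H d i
    rw [e] at hd'
    obtain ⟨d', hd1', rfl⟩ := exists_of_mem_kr hd'
    have h0' : d ≠ 0 := fun h6 => h0 (by rw [h6, map_zero])
    rw [hf.val d h0'] at h3 h4
    rw [← map_sub] at h5
    exact ⟨d, hd1, d', hd1', h0', h3, h4, hf.ge_iff.1 h5⟩
  cross := by
    obtain ⟨σ₁, h0, h1⟩ := h.cross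
    refine ⟨σ₁, h0, fun ρ h2 h3 => ?_⟩
    obtain ⟨P, l, hl, hb, h4⟩ := h1 ρ h2 h3
    have e : ∀ i, (MvPolynomial.aeval (fun i => (H i).map (f : E →+* Ω)) P).coeff i =
        f ((MvPolynomial.aeval H P).coeff i) := fun i => by
      rw [← map_aevalH, coeff_map]
      rfl
    have hb' : (MvPolynomial.aeval H P).coeff l ≠ 0 := fun h5 => hb (by rw [e, h5, map_zero])
    refine ⟨P, l, hl, hb', fun i hi => ?_⟩
    have h5 := h4 i hi
    rw [e, e, hf.val _ hb'] at h5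
    exact hf.gt_iff.1 h5
  back Λ := by
    obtain ⟨σ₂, h0, Λ', h1⟩ := h.back Λ
    refine ⟨σ₂, h0, Λ', fun d hd d' hd' h2 h3 => ?_⟩
    have e : mv (fun i => (H i).map (f : E →+* Ω)) (f d) = fun i => f (mv H d i) :=
      funext fun i => map_mv f H d i
    obtain ⟨s, hs, hs'⟩ := h1 (f d) (map_mem_kr.2 hd) (f d') (by
      rw [e]
      exact map_mem_kr.2 hd') (hf.ge_iff.2 h2) (by
      rw [← map_sub]
      exact hf.ge_iff.2 h3)
    rw [e] at hs
    choose s' hs1 hs2 using fun i => exists_of_mem_kr (hs i)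
    refine ⟨s', hs1, fun i => ?_⟩
    have h4 := hs' i
    rw [← hs2 i, ← map_sub] at h4
    exact hf.ge_iff.1 h4

end Map

variable {k Ω : Type u} [Field k] [Field Ω] [Algebra k Ω] {v : RVal Ω}

/-- **Motions from exit data, general form.** -/
theorem exists_mot_xg [IsAlgClosed k] [IsAlgClosed Ω] {r : ℕ}
    (h : Ctx k v r) {K₀ : IntermediateField k Ω} (hK : K₀.FG) (hΩ : ∀ g : Ω, IsAlgebraic K₀ g)
    {m : ℕ} {t : Fin m → Ω} {H : Fin m → Polynomial Ω} {σ : ℝ} (hX : XG k v t H σ)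
    (ht : hen v K₀ = hen v (kr k t))
    (hgen : ∃ Λ : ℝ, ∀ E : IntermediateField k Ω, E.FG → E ≤ hen v K₀ →
      (∃ s : Fin m → Ω, (∀ i, s i ∈ E) ∧ ∀ i, v.Ge Λ (t i - s i)) → hen v E = hen v K₀)
    (S : Finset Ω) (hS : ∀ f ∈ S, f ∈ hen v K₀) {ε₀ : ℝ} (hε₀ : 0 < ε₀) :
    ∃ (φ : ℕ → (Ω ≃ₐ[k] Ω)) (d : ℕ → Ω) (ρ ε : ℝ), 0 < ε ∧ σ - ε₀ < ρ ∧ ρ < σ ∧
      (∀ i, d i ∈ kr k t) ∧ (∀ i, v.Ge (σ - ε₀) (d i)) ∧
      (∀ i j, φ i (t j) = mv H (d i) j) ∧ (∀ i, ∀ f ∈ S, Rc v ε (φ i) f) ∧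
      Mot v K₀ φ d ρ := by
  classical
  set B : IntermediateField k Ω := ⊥ with hB
  have hfg : B.FG := IntermediateField.fg_bot
  have htE : hen v K₀ = hen v (nadj (hen v B) t) := by rw [nadj_bot, ht]
  obtain ⟨T, L, hTne, hSL, hKL, hEL, hLE, hmot⟩ := exists_mot_coord h hK hΩ hfg
    (algInd_bot (v := v) hX.ind) htE S hS
  -- the control
  obtain ⟨ε, hε, hctl⟩ := TWEX.ctl_of_str (v := v) (N := hen v B) (H := H) (t := t) (σ := σ) hX.c0
    (fun P hP l hl => by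
      obtain ⟨P', hP'⟩ := exists_poly_bot (v := v) P
      rw [hP' Ω t, hP' (Polynomial Ω) H]
      refine hX.str P' (fun h0 => hP ?_) l hl
      have h1 := hP' Ω t
      rw [h0, map_zero] at h1
      exact (algInd_bot (v := v) hX.ind).eq_zero_of_aeval_eq_zero P h1) T (fun P hP h0 => by
      apply hTne P hP
      rw [h0, map_zero])
  obtain ⟨Λ₀, hΛ₀⟩ := hgen
  obtain ⟨σ₂, hσ₂, Λ, hback⟩ := hX.back Λ₀
  obtain ⟨σ₀, hσ₀, hamt⟩ := hX.amt Λ
  -- the radius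
  obtain ⟨σ₁, hσ₁, hcross⟩ := hX.cross
  obtain ⟨lo, hlo⟩ : ∃ lo, lo = max (max (max σ₀ σ₁) (σ - ε)) (max (σ - ε₀) σ₂) := ⟨_, rfl⟩
  have hlo1 : σ₀ ≤ lo := by
    rw [hlo]
    exact ((le_max_left _ _).trans (le_max_left _ _)).trans (le_max_left _ _)
  have hlo5 : σ₁ ≤ lo := by
    rw [hlo]
    exact ((le_max_right _ _).trans (le_max_left _ _)).trans (le_max_left _ _)
  have hlo2 : σ - ε ≤ lo := by
    rw [hlo]
    exact (le_max_right _ _).trans (le_max_left _ _)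
  have hlo3 : σ - ε₀ ≤ lo := by
    rw [hlo]
    exact (le_max_left _ _).trans (le_max_right _ _)
  have hlo4 : σ₂ ≤ lo := by
    rw [hlo]
    exact (le_max_right _ _).trans (le_max_right _ _)
  have hlt : lo < σ := by
    rw [hlo]
    refine max_lt (max_lt (max_lt hσ₀ hσ₁) (by linarith)) (max_lt (by linarith) hσ₂)
  obtain ⟨ρ, hρ1, hρ2, hirr⟩ := exists_irr h hlt
  obtain ⟨P₀, l, hl, hb, hcr⟩ := hcross ρ (by linarith) hρ2
  -- the amounts
  have hex : ∀ i : ℕ, ∃ d ∈ kr k t, ∃ d' ∈ kr k (mv H d), d ≠ 0 ∧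
      max lo (ρ - 1 / (i + 1)) < v d ∧ v d < ρ ∧ v.Ge Λ (d - d') := by
    intro i
    exact hamt _ _ (hlo1.trans (le_max_left _ _)) (max_lt hρ1 (by
      have : (0 : ℝ) < 1 / (i + 1) := by positivity
      linarith)) hρ2.le
  choose d hdt d' hd' hd0 h1 h2 h3 using hex
  have hdlo : ∀ i, lo < v (d i) := fun i => (le_max_left _ _).trans_lt (h1 i)
  have hlim : Tendsto (fun i => v (d i)) atTop (𝓝 ρ) := by
    have h4 : Tendsto (fun i : ℕ => ρ - 1 / ((i : ℝ) + 1)) atTop (𝓝 ρ) := by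
      have := tendsto_one_div_add_atTop_nhds_zero_nat (𝕜 := ℝ)
      simpa using (tendsto_const_nhds (x := ρ)).sub this
    exact tendsto_of_tendsto_of_tendsto_of_le_of_le h4 tendsto_const_nhds
      (fun i => (le_max_right lo _).trans (h1 i).le) (fun i => (h2 i).le)
  have hsq : Sq v d ρ := ⟨hd0, hlim, hirr⟩
  have hge : ∀ i (c : ℝ), c ≤ lo → v.Ge c (d i) := fun i c hc _ => hc.trans (hdlo i).le
  -- membership
  have hle : kr k t ≤ hen v K₀ := by
    rw [ht]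
    exact le_hen _
  have hmvK : ∀ i j, mv H (d i) j ∈ hen v K₀ := by
    intro i j
    unfold mv
    rw [eval_eq_sum_range]
    exact sum_mem fun l _ => mul_mem (hle (hX.mem j l)) (pow_mem (hle (hdt i)) l)
  -- generation
  have hh : ∀ i, hen v (nadj (hen v B) (mv H (d i))) = hen v K₀ := by
    intro i
    rw [nadj_bot]
    refine hΛ₀ _ ?_ ?_ ?_
    · exact IntermediateField.fg_def.2 ⟨_, Set.finite_range _, rfl⟩
    · refine IntermediateField.adjoin_le_iff.2 ?_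
      rintro _ ⟨j, rfl⟩
      exact hmvK i j
    · exact hback (d i) (hdt i) (d' i) (hd' i) (hge i _ hlo4) (h3 i)
  have hΩt : ∀ g : Ω, IsAlgebraic (nadj (hen v B) t) g :=
    isAlgebraic_of_hen hΩ ((le_hen K₀).trans htE.le)
  obtain ⟨φ, -, h4, h5, -, -, h6⟩ := hmot hsq (fun i => mv H (d i)) hε
    (fun i => algInd_of_alg (algInd_bot (v := v) hX.ind) hΩt
      (isAlgebraic_of_hen hΩ ((le_hen K₀).trans (hh i).ge)))
    (fun i R hR => hctl (d i) (hge i _ hlo2) R hR)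
    (fun j => fgs_eval hsq (H j)) hh (by
      refine ⟨MvPolynomial.map (algebraMap k (hen v B)) P₀, (MvPolynomial.aeval H P₀).coeff l,
        (l : ℤ), by exact_mod_cast hl, ?_⟩
      have e : (fun i => MvPolynomial.aeval (mv H (d i)) (MvPolynomial.map (algebraMap k (hen v B)) P₀))
          = fun i => (MvPolynomial.aeval H P₀).eval (d i) := by
        funext i
        rw [MvPolynomial.aeval_map_algebraMap, aeval_mv]
      rw [e]
      exact lts_eval hlim hb hcr)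
  exact ⟨φ, d, ρ, ε, hε, by linarith, hρ2, hdt, fun i => hge i _ hlo3, h4, h5, h6⟩

end Pool.Agent.TWMF
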